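import Mathlib

/-!
Complex matrices are similar to upper triangular ones; upper triangular matrices with distinct
diagonal entries are diagonalisable.
-/

namespace Pool.Agent.RevMaps

open Matrix

theorem isUnit_det_of_inj {n : ℕ} (M : Matrix (Fin n) (Fin n) ℂ)
    (h : ∀ c : Fin n → ℂ, M *ᵥ c = 0 → c = 0) : M.det ≠ 0 := by
  intro h0
  obtain ⟨v, hv, hv2⟩ := Matrix.exists_mulVec_eq_zero_iff.mpr h0
  exact hv (h v hv2)

theorem exists_col {n : ℕ} (v : Fin (n + 1) → ℂ) (hv : v ≠ 0) :
    ∃ P : Matrix (Fin (n + 1)) (Fin (n + 1)) ℂ, P.det ≠ 0 ∧ ∀ i, P i 0 = v i := by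
  obtain ⟨k, hk⟩ : ∃ k, v k ≠ 0 := by
    by_contra h
    push Not at h
    exact hv (funext h)
  refine ⟨Matrix.of fun i j => if j = 0 then v i else (if i = Equiv.swap 0 k j then 1 else 0),
    ?_, fun i => by simp⟩
  apply isUnit_det_of_inj
  intro c hc
  have hrow : ∀ i, v i * c 0 + ∑ j : Fin n, (if i = Equiv.swap 0 k j.succ then c j.succ else 0)
      = 0 := by
    intro i
    have h1 := congrFun hc i
    rw [mulVec, dotProduct, Fin.sum_univ_succ] at h1
    simp only [Matrix.of_apply, if_true, Fin.succ_ne_zero, if_false, ite_mul, one_mul, zero_mul,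
      Pi.zero_apply] at h1
    exact h1
  have hc0 : c 0 = 0 := by
    have h1 := hrow k
    rw [Finset.sum_eq_zero, add_zero] at h1
    · rcases mul_eq_zero.mp h1 with h | h
      · exact absurd h hk
      · exact h
    · intro j _
      rw [if_neg]
      intro h
      have h2 : Equiv.swap 0 k k = Equiv.swap 0 k (Equiv.swap 0 k j.succ) :=
        congrArg (Equiv.swap 0 k) h
      rw [Equiv.swap_apply_self, Equiv.swap_apply_right] at h2
      exact (Fin.succ_ne_zero j) h2.symm
  funext i
  refine Fin.cases hc0 (fun j => ?_) i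
  have h1 := hrow (Equiv.swap 0 k j.succ)
  rw [hc0, mul_zero, zero_add, Finset.sum_eq_single j] at h1
  · simpa using h1
  · intro l _ hl
    rw [if_neg]
    intro h
    exact hl (Fin.succ_injective _ ((Equiv.swap 0 k).injective h)).symm
  · simp

theorem exists_triangular : ∀ (n : ℕ) (A : Matrix (Fin n) (Fin n) ℂ),
    ∃ Q T : Matrix (Fin n) (Fin n) ℂ, Q.det ≠ 0 ∧ (∀ i j, j < i → T i j = 0) ∧ A * Q = Q * T := by
  intro n
  induction n with
  | zero =>
    intro A
    exact ⟨1, A, by simp, fun i => i.elim0, by simp⟩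
  | succ n ih =>
    intro A
    obtain ⟨μ, hμ⟩ := Module.End.exists_eigenvalue (Matrix.toLin' A)
    obtain ⟨v, hv⟩ := hμ.exists_hasEigenvector
    have hAv : A *ᵥ v = μ • v := by simpa using hv.apply_eq_smul
    obtain ⟨P, hP, hPv⟩ := exists_col v hv.2
    have hPu : IsUnit P.det := isUnit_iff_ne_zero.mpr hP
    set B := P⁻¹ * A * P with hB
    have hAP : A * P = P * B := by
      rw [hB, ← mul_assoc, ← mul_assoc, Matrix.mul_nonsing_inv P hPu, one_mul]
    have hBcol : ∀ i : Fin n, B i.succ 0 = 0 := by
      have h1 : B *ᵥ (Pi.single 0 1) = μ • (Pi.single 0 1 : Fin (n+1) → ℂ) := by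
        have h2 : P *ᵥ (Pi.single 0 1) = v := by
          funext i
          rw [Matrix.mulVec_single_one, Matrix.col_apply, hPv i]
        rw [hB, ← Matrix.mulVec_mulVec, ← Matrix.mulVec_mulVec, h2, hAv, Matrix.mulVec_smul, ← h2,
          Matrix.mulVec_mulVec, Matrix.nonsing_inv_mul P hPu, Matrix.one_mulVec]
      intro i
      have h3 := congrFun h1 i.succ
      rw [Matrix.mulVec_single_one, Matrix.col_apply] at h3
      rw [h3]
      simp
    obtain ⟨Q', T', hQ', hT', hAQ'⟩ := ih (Matrix.of fun i j => B i.succ j.succ)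
    set Q'' : Matrix (Fin (n+1)) (Fin (n+1)) ℂ :=
      Matrix.of (Fin.cons (Fin.cons 1 0) (fun i => Fin.cons 0 (Q' i))) with hQ''
    set T'' : Matrix (Fin (n+1)) (Fin (n+1)) ℂ :=
      Matrix.of (Fin.cons (Fin.cons (B 0 0) (fun j => ∑ k, B 0 k.succ * Q' k j))
        (fun i => Fin.cons 0 (T' i))) with hT''
    have q00 : Q'' 0 0 = 1 := rfl
    have q0s : ∀ j : Fin n, Q'' 0 j.succ = 0 := fun j => rfl
    have qs0 : ∀ i : Fin n, Q'' i.succ 0 = 0 := fun j => rfl
    have qss : ∀ i j : Fin n, Q'' i.succ j.succ = Q' i j := fun i j => rfl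
    have t00 : T'' 0 0 = B 0 0 := rfl
    have t0s : ∀ j : Fin n, T'' 0 j.succ = ∑ k, B 0 k.succ * Q' k j := fun j => rfl
    have ts0 : ∀ i : Fin n, T'' i.succ 0 = 0 := fun j => rfl
    have tss : ∀ i j : Fin n, T'' i.succ j.succ = T' i j := fun i j => rfl
    have hBQ : B * Q'' = Q'' * T'' := by
      ext i j
      rw [Matrix.mul_apply, Matrix.mul_apply, Fin.sum_univ_succ, Fin.sum_univ_succ]
      refine Fin.cases ?_ (fun i => ?_) i <;> refine Fin.cases ?_ (fun j => ?_) j
      · simp [q00, qs0, q0s, t00, ts0]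
      · simp [q00, q0s, qss, t0s]
      · simp [hBcol, qs0, q00, ts0]
      · simp only [hBcol, qss, qs0, tss, zero_mul, zero_add]
        have := congrFun (congrFun hAQ' i) j
        rw [Matrix.mul_apply, Matrix.mul_apply] at this
        exact this
    have hQdet : Q''.det ≠ 0 := by
      apply isUnit_det_of_inj
      intro c hc
      have h0 : c 0 = 0 := by
        have := congrFun hc 0
        rw [mulVec, dotProduct, Fin.sum_univ_succ] at this
        simpa [q00, q0s] using this
      have hs : (fun i : Fin n => c i.succ) = 0 := by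
        by_contra hne
        apply hQ'
        apply Matrix.exists_mulVec_eq_zero_iff.mp
        refine ⟨_, hne, ?_⟩
        funext i
        have := congrFun hc i.succ
        rw [mulVec, dotProduct, Fin.sum_univ_succ] at this
        simp only [qs0, qss, zero_mul, zero_add] at this
        exact this
      funext i
      refine Fin.cases h0 (fun j => ?_) i
      exact congrFun hs j
    refine ⟨P * Q'', T'', ?_, ?_, ?_⟩
    · rw [det_mul]; exact mul_ne_zero hP hQdet
    · intro i j
      refine Fin.cases ?_ (fun i => ?_) i <;> refine Fin.cases ?_ (fun j => ?_) j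
      · intro h; exact absurd h (lt_irrefl _)
      · intro h; exact absurd h (by simp)
      · intro _; exact ts0 i
      · intro h; rw [tss]; exact hT' i j (Fin.succ_lt_succ_iff.mp h)
    · rw [← mul_assoc, hAP, mul_assoc, hBQ, mul_assoc]

/-- Upper triangular with distinct diagonal entries: diagonalisable. -/
theorem exists_diag {n : ℕ} (N : Matrix (Fin n) (Fin n) ℂ) (hN : ∀ i j, j < i → N i j = 0)
    (hinj : Function.Injective (fun i => N i i)) :
    ∃ Q : Matrix (Fin n) (Fin n) ℂ, Q.det ≠ 0 ∧ N * Q = Q * diagonal (fun i => N i i) := by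
  classical
  have hdet : ∀ i, (N i i • (1 : Matrix (Fin n) (Fin n) ℂ) - N).det = 0 := by
    intro i
    rw [Matrix.det_of_upperTriangular]
    · apply Finset.prod_eq_zero (Finset.mem_univ i)
      simp
    · intro a b hab
      have h1 : b < a := hab
      simp [hN a b h1, h1.ne']
  have hev : ∀ i, ∃ v : Fin n → ℂ, v ≠ 0 ∧ N *ᵥ v = N i i • v := by
    intro i
    obtain ⟨v, hv, hv2⟩ := Matrix.exists_mulVec_eq_zero_iff.mpr (hdet i)
    refine ⟨v, hv, ?_⟩
    rw [Matrix.sub_mulVec, Matrix.smul_mulVec, Matrix.one_mulVec, sub_eq_zero] at hv2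
    exact hv2.symm
  choose v hv0 hv using hev
  refine ⟨Matrix.of fun i j => v j i, ?_, ?_⟩
  · have hli : LinearIndependent ℂ v := by
      apply Module.End.eigenvectors_linearIndependent' (Matrix.toLin' N) (fun i => N i i) hinj v
      intro i
      rw [Module.End.hasEigenvector_iff]
      refine ⟨?_, hv0 i⟩
      rw [Module.End.mem_eigenspace_iff, Matrix.toLin'_apply, hv i]
    apply isUnit_det_of_inj
    intro c hc
    rw [Fintype.linearIndependent_iff] at hli
    funext i
    apply hli c
    funext k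
    have := congrFun hc k
    simp only [mulVec, dotProduct, Matrix.of_apply, Pi.zero_apply] at this
    simp only [Finset.sum_apply, Pi.smul_apply, smul_eq_mul, Pi.zero_apply]
    rw [← this]
    apply Finset.sum_congr rfl
    intro j _
    ring
  · ext i j
    rw [Matrix.mul_diagonal, Matrix.mul_apply]
    have := congrFun (hv j) i
    simp only [mulVec, dotProduct, Pi.smul_apply, smul_eq_mul] at this
    simp only [Matrix.of_apply]
    rw [this]
    ring

end Pool.Agent.RevMaps
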