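import Mathlib

/-!
Rank-one (transvection) perturbation of a diagonal matrix with prescribed spectrum, via a
(partially degenerate) Cauchy matrix.
-/

namespace Pool.Agent.RevMaps

open Matrix Polynomial

variable {n : ℕ}

/-- Cauchy type matrix of eigenvectors. -/
noncomputable def Vmat (α ν : Fin n → ℂ) : Matrix (Fin n) (Fin n) ℂ :=
  Matrix.of fun i j => if α j = ν j then (if i = j then 1 else 0) else (ν j - α i)⁻¹

theorem Vmat_mulVec_eq_zero (α ν : Fin n → ℂ) (hα : Function.Injective α)
    (hν : Function.Injective ν) (hαν : ∀ i j, α i = ν j → i = j) (c : Fin n → ℂ)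
    (hc : (Vmat α ν).mulVec c = 0) : c = 0 := by
  classical
  set S : Finset (Fin n) := Finset.univ.filter (fun j => α j ≠ ν j) with hS
  -- row equations
  have hrow : ∀ i, (∑ j ∈ S, c j * (ν j - α i)⁻¹) + (if i ∈ S then 0 else c i) = 0 := by
    intro i
    have h1 := congrFun hc i
    simp only [mulVec, dotProduct, Vmat, Matrix.of_apply, Pi.zero_apply] at h1
    refine Eq.trans ?_ h1
    rw [← Finset.sum_filter_add_sum_filter_not Finset.univ (fun j => α j ≠ ν j)]
    congr 1
    · apply Finset.sum_congr rfl
      intro j hj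
      rw [if_neg (Finset.mem_filter.mp hj).2, mul_comm]
    · rw [Finset.sum_congr rfl (g := fun j => if i = j then c j else 0)]
      · rw [Finset.sum_ite_eq]
        by_cases hi : i ∈ S
        · have := (Finset.mem_filter.mp hi).2
          simp [hi, this]
        · have : α i = ν i := by
            by_contra h
            exact hi (Finset.mem_filter.mpr ⟨Finset.mem_univ _, h⟩)
          simp [hi, this]
      · intro j hj
        have := (Finset.mem_filter.mp hj).2
        rw [not_not] at this
        rw [if_pos this]
        split_ifs <;> simp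
  -- the polynomial
  set P : ℂ[X] := ∑ j ∈ S, C (c j) * ∏ k ∈ S.erase j, (C (ν k) - X) with hP
  have hne : ∀ i ∈ S, ∀ j, ν j - α i ≠ 0 := by
    intro i hi j h
    have h2 : α i = ν j := (sub_eq_zero.mp h).symm
    have h3 := hαν i j h2
    subst h3
    exact (Finset.mem_filter.mp hi).2 h2
  have hPeval : ∀ i ∈ S, P.eval (α i) = 0 := by
    intro i hi
    have h1 := hrow i
    rw [if_pos hi, add_zero] at h1
    have h2 : P.eval (α i) = (∏ k ∈ S, (ν k - α i)) * ∑ j ∈ S, c j * (ν j - α i)⁻¹ := by
      rw [hP, eval_finsetSum, Finset.mul_sum]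
      apply Finset.sum_congr rfl
      intro j hj
      rw [eval_mul, eval_C, eval_prod, ← Finset.mul_prod_erase S _ hj]
      simp only [eval_sub, eval_C, eval_X]
      field_simp [hne i hi j]
    rw [h2, h1, mul_zero]
  have hP0 : P = 0 := by
    by_cases hS0 : S = ∅
    · simp [hP, hS0]
    have hpos : 0 < S.card := Finset.card_pos.mpr (Finset.nonempty_iff_ne_empty.mpr hS0)
    apply Polynomial.eq_zero_of_natDegree_lt_card_of_eval_eq_zero' P (S.image α)
    · intro x hx
      obtain ⟨i, hi, rfl⟩ := Finset.mem_image.mp hx
      exact hPeval i hi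
    · rw [Finset.card_image_of_injective _ hα]
      have : P.natDegree ≤ S.card - 1 := by
        rw [hP]
        apply Polynomial.natDegree_sum_le_of_forall_le
        intro j hj
        refine (natDegree_C_mul_le _ _).trans ?_
        refine (natDegree_prod_le _ _).trans ?_
        refine (Finset.sum_le_card_nsmul _ _ 1 ?_).trans ?_
        · intro k _
          refine (natDegree_sub_le _ _).trans ?_
          simp
        · rw [Finset.card_erase_of_mem hj]; simp
      omega
  have hcS : ∀ j ∈ S, c j = 0 := by
    intro j hj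
    have h1 : P.eval (ν j) = 0 := by rw [hP0]; simp
    rw [hP, eval_finsetSum, Finset.sum_eq_single j] at h1
    · rw [eval_mul, eval_C, eval_prod] at h1
      rcases mul_eq_zero.mp h1 with h | h
      · exact h
      · exfalso
        rw [Finset.prod_eq_zero_iff] at h
        obtain ⟨k, hk, hk2⟩ := h
        simp only [eval_sub, eval_C, eval_X] at hk2
        exact (Finset.mem_erase.mp hk).1 (hν (sub_eq_zero.mp hk2))
    · intro k _ hkj
      rw [eval_mul, eval_prod, Finset.prod_eq_zero (i := j)]
      · simp
      · exact Finset.mem_erase.mpr ⟨hkj.symm, hj⟩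
      · simp
    · intro h; exact absurd hj h
  funext i
  by_cases hi : i ∈ S
  · exact hcS i hi
  · have h1 := hrow i
    rw [if_neg hi, Finset.sum_eq_zero, zero_add] at h1
    · exact h1
    · intro j hj
      rw [hcS j hj, zero_mul]

theorem Vmat_det_ne_zero (α ν : Fin n → ℂ) (hα : Function.Injective α)
    (hν : Function.Injective ν) (hαν : ∀ i j, α i = ν j → i = j) : (Vmat α ν).det ≠ 0 := by
  intro h
  obtain ⟨v, hv, hv2⟩ := Matrix.exists_mulVec_eq_zero_iff.mpr h
  exact hv (Vmat_mulVec_eq_zero α ν hα hν hαν v hv2)

end Pool.Agent.RevMaps
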