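import Mathlib
import Pool.Agent.RevMaps.Cauchy

/-!
Factorisation of a diagonal matrix with distinct entries into four involutions, two of which
multiply to a transvection, with cyclicity properties.
-/

namespace Pool.Agent.RevMaps

open Matrix Polynomial

variable {n : ℕ}

/-- Every subspace containing `b` and stable under the `T i` is everything. -/
def Gen (T : Fin 4 → Matrix (Fin n) (Fin n) ℂ) (b : Fin n → ℂ) : Prop :=
  ∀ W : Submodule ℂ (Fin n → ℂ), b ∈ W → (∀ i, ∀ w ∈ W, T i *ᵥ w ∈ W) → W = ⊤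

/-- Every subspace of row vectors containing `φ` and stable under the `T i` is everything. -/
def CoGen (T : Fin 4 → Matrix (Fin n) (Fin n) ℂ) (φ : Fin n → ℂ) : Prop :=
  ∀ W : Submodule ℂ (Fin n → ℂ), φ ∈ W → (∀ i, ∀ w ∈ W, w ᵥ* T i ∈ W) → W = ⊤

theorem single_mem_of_stable (α : Fin n → ℂ) (hα : Function.Injective α)
    (W : Submodule ℂ (Fin n → ℂ)) (hW : ∀ w ∈ W, (fun j => α j * w j) ∈ W)
    (w : Fin n → ℂ) (hw : w ∈ W) (i : Fin n) (hi : w i ≠ 0) :
    (Pi.single i 1 : Fin n → ℂ) ∈ W := by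
  have hp : ∀ p : ℂ[X], ∀ w ∈ W, (fun j => p.eval (α j) * w j) ∈ W := by
    intro p
    induction p using Polynomial.induction_on' with
    | add p q hp hq =>
      intro w hw
      have := W.add_mem (hp w hw) (hq w hw)
      convert this using 1
      funext j
      simp [add_mul]
    | monomial k a =>
      intro w hw
      have : ∀ k : ℕ, (fun j => α j ^ k * w j) ∈ W := by
        intro k
        induction k with
        | zero => simpa using hw
        | succ k ih =>
          have := hW _ ih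
          convert this using 1
          funext j
          ring
      have := W.smul_mem a (this k)
      convert this using 1
      funext j
      simp [eval_monomial, mul_assoc]
  set p : ℂ[X] := ∏ k ∈ Finset.univ.erase i, (X - C (α k)) with hpdef
  have h1 := hp p w hw
  have hpi : p.eval (α i) ≠ 0 := by
    rw [hpdef, eval_prod, Finset.prod_ne_zero_iff]
    intro k hk
    simp only [eval_sub, eval_X, eval_C]
    exact sub_ne_zero.mpr (fun h => (Finset.mem_erase.mp hk).1 (hα h).symm)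
  have hpj : ∀ j, j ≠ i → p.eval (α j) = 0 := by
    intro j hj
    rw [hpdef, eval_prod, Finset.prod_eq_zero (i := j)]
    · simp [hj]
    · simp
  have h2 := W.smul_mem (p.eval (α i) * w i)⁻¹ h1
  convert h2 using 1
  funext j
  by_cases hj : j = i
  · subst hj
    simp only [Pi.single_eq_same, Pi.smul_apply, smul_eq_mul]
    rw [inv_mul_cancel₀ (mul_ne_zero hpi hi)]
  · simp [hj, hpj j hj]

theorem eq_top_of_single (W : Submodule ℂ (Fin n → ℂ))
    (h : ∀ i, (Pi.single i 1 : Fin n → ℂ) ∈ W) : W = ⊤ := by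
  rw [eq_top_iff]
  intro w _
  rw [pi_eq_sum_univ w]
  apply W.sum_mem
  intro i _
  convert W.smul_mem (w i) (h i) using 2
  funext j
  simp [Pi.single_apply, eq_comm]

/-- generalised permutation matrix attached to an involution of the index set -/
noncomputable def Mon (σ : Fin n → Fin n) (w : Fin n → ℂ) : Matrix (Fin n) (Fin n) ℂ :=
  Matrix.of fun i j => if σ i = j then w i else 0

theorem Mon_mul (σ : Fin n → Fin n) (hσ : ∀ i, σ (σ i) = i) (w w' : Fin n → ℂ) :
    Mon σ w * Mon σ w' = diagonal (fun i => w i * w' (σ i)) := by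
  ext i j
  rw [Matrix.mul_apply]
  simp only [Mon, Matrix.of_apply, diagonal_apply]
  rw [Finset.sum_eq_single (σ i)]
  · simp only [if_true, hσ]
    by_cases h : i = j
    · simp [h]
    · simp [h]
  · intro k _ hk
    rw [if_neg (fun h => hk h.symm), zero_mul]
  · simp

theorem exists_four (hn : 1 ≤ n) (α ν : Fin n → ℂ) (σ : Fin n → Fin n)
    (hα : Function.Injective α) (hα0 : ∀ i, α i ≠ 0)
    (hν : Function.Injective ν) (hσ : ∀ i, σ (σ i) = i) (hνσ : ∀ i, ν i * ν (σ i) = 1)
    (hαν : ∀ i j, α i = ν j → i = j) (hprod : ∏ i, ν i = ∏ i, α i) (hS : ∃ j, α j ≠ ν j) :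
    ∃ (T : Fin 4 → Matrix (Fin n) (Fin n) ℂ) (b φ : Fin n → ℂ),
      (∀ i, T i * T i = 1) ∧ T 0 * T 1 * T 2 * T 3 = diagonal α ∧
      b ≠ 0 ∧ φ ≠ 0 ∧ φ ⬝ᵥ b = 0 ∧ T 2 * T 3 = 1 + vecMulVec b φ ∧ Gen T b ∧ CoGen T φ := by
  classical
  have : NeZero n := ⟨by omega⟩
  set V := Vmat α ν with hV
  have hdet : V.det ≠ 0 := Vmat_det_ne_zero α ν hα hν hαν
  have hdet' : IsUnit V.det := isUnit_iff_ne_zero.mpr hdet
  have hVV : V * V⁻¹ = 1 := Matrix.mul_nonsing_inv V hdet'
  have hVV' : V⁻¹ * V = 1 := Matrix.nonsing_inv_mul V hdet'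
  set s : Fin n → ℂ := fun j => if α j = ν j then 0 else 1 with hs
  set ψ : Fin n → ℂ := s ᵥ* V⁻¹ with hψ
  set b : Fin n → ℂ := fun i => (α i)⁻¹ with hb
  have hVD : V * diagonal ν = diagonal α * V + vecMulVec (fun _ => (1 : ℂ)) s := by
    ext i j
    rw [Matrix.mul_diagonal, Matrix.add_apply, Matrix.diagonal_mul, vecMulVec_apply]
    simp only [hV, hs, Vmat, Matrix.of_apply, one_mul]
    by_cases h : α j = ν j
    · rw [if_pos h, if_pos h]
      by_cases hij : i = j
      · subst hij; simp [h]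
      · simp [hij]
    · rw [if_neg h, if_neg h]
      have hne : ν j - α i ≠ 0 := by
        intro h'
        have h2 : α i = ν j := (sub_eq_zero.mp h').symm
        have h3 := hαν i j h2
        subst h3
        exact h h2
      field_simp
      ring
  have hL : V * diagonal ν * V⁻¹ = diagonal α + vecMulVec (fun _ => (1 : ℂ)) ψ := by
    rw [hVD, add_mul, mul_assoc, hVV, mul_one, Matrix.vecMulVec_mul]
  have hDb : diagonal α + vecMulVec (fun _ => (1 : ℂ)) ψ
      = diagonal α * (1 + vecMulVec b ψ) := by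
    rw [mul_add, mul_one, Matrix.mul_vecMulVec]
    congr 2
    funext i
    simp [Matrix.mulVec_diagonal, hb, hα0 i]
  have hψb : ψ ⬝ᵥ b = 0 := by
    have h1 : (V * diagonal ν * V⁻¹).det = ∏ i, ν i := by
      rw [det_mul, det_mul, det_diagonal, det_nonsing_inv, Ring.inverse_eq_inv']
      field_simp
    have h2 : (1 + vecMulVec b ψ).det = 1 + ψ ⬝ᵥ b := by
      have := Matrix.det_one_add_replicateCol_mul_replicateRow (ι := Unit) b ψ
      rw [← this]
      congr 2
      ext i j
      simp [vecMulVec_apply, Matrix.mul_apply]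
    rw [hL, hDb, det_mul, det_diagonal, h2, hprod] at h1
    have h3 : (∏ i, α i) ≠ 0 := Finset.prod_ne_zero_iff.mpr (fun i _ => hα0 i)
    have h4 : 1 + ψ ⬝ᵥ b = 1 := mul_left_cancel₀ h3 (by rw [h1, mul_one])
    simpa using h4
  have hψ0 : ψ ≠ 0 := by
    intro h0
    obtain ⟨j, hj⟩ := hS
    have h1 : s = 0 := by
      have : s = ψ ᵥ* V := by
        rw [hψ, Matrix.vecMul_vecMul, hVV', Matrix.vecMul_one]
      rw [this, h0, Matrix.zero_vecMul]
    have := congrFun h1 j
    simp [hs, hj] at this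
  set ρ : Fin n → ℂ := fun i => α i / n with hρ
  have hn0 : (n : ℂ) ≠ 0 := by exact_mod_cast (NeZero.ne n)
  have hρb : ρ ⬝ᵥ b = 1 := by
    simp only [dotProduct, hρ, hb]
    rw [Finset.sum_congr rfl (g := fun _ => (1 : ℂ) / n)]
    · simp [hn0]
    · intro i _
      have := hα0 i
      field_simp
  have hrefl : ∀ r : Fin n → ℂ, r ⬝ᵥ b = 1 →
      (1 - (2 : ℂ) • vecMulVec b r) * (1 - (2 : ℂ) • vecMulVec b r) = 1 := by
    intro r hr
    have : vecMulVec b r * vecMulVec b r = vecMulVec b r := by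
      rw [Matrix.vecMulVec_mul_vecMulVec, hr, one_smul]
    simp only [sub_mul, mul_sub, one_mul, mul_one, Matrix.smul_mul, Matrix.mul_smul, this]
    module
  set ρ' : Fin n → ℂ := ρ - (2 : ℂ)⁻¹ • ψ with hρ'
  have hρ'b : ρ' ⬝ᵥ b = 1 := by
    rw [hρ', sub_dotProduct, smul_dotProduct, hψb, hρb]; simp
  set T0 := V * Mon σ ν * V⁻¹ with hT0
  set T1 := V * Mon σ (fun _ => 1) * V⁻¹ with hT1
  set T2 := 1 - (2 : ℂ) • vecMulVec b ρ with hT2
  set T3 := 1 - (2 : ℂ) • vecMulVec b ρ' with hT3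
  have hconj : ∀ A B : Matrix (Fin n) (Fin n) ℂ,
      (V * A * V⁻¹) * (V * B * V⁻¹) = V * (A * B) * V⁻¹ := by
    intro A B
    calc (V * A * V⁻¹) * (V * B * V⁻¹) = V * A * (V⁻¹ * V) * B * V⁻¹ := by
          simp only [mul_assoc]
      _ = _ := by rw [hVV', mul_one]; simp only [mul_assoc]
  have e0 : T0 * T0 = 1 := by
    rw [hT0, hconj, Mon_mul σ hσ]
    rw [show (fun i => ν i * ν (σ i)) = fun _ => (1 : ℂ) from funext hνσ, diagonal_one, mul_one, hVV]
  have e1 : T1 * T1 = 1 := by
    rw [hT1, hconj, Mon_mul σ hσ]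
    simp [hVV]
  have e2 : T2 * T2 = 1 := hrefl ρ hρb
  have e3 : T3 * T3 = 1 := hrefl ρ' hρ'b
  have e01 : T0 * T1 = diagonal α * (1 + vecMulVec b ψ) := by
    rw [hT0, hT1, hconj, Mon_mul σ hσ, ← hDb, ← hL]
    simp
  have e23 : T2 * T3 = 1 + vecMulVec b (-ψ) := by
    have h1 : vecMulVec b ρ * vecMulVec b ρ' = vecMulVec b ρ' := by
      rw [Matrix.vecMulVec_mul_vecMulVec, hρb, one_smul]
    have h2 : vecMulVec b (-ψ) = (2 : ℂ) • vecMulVec b ρ' - (2 : ℂ) • vecMulVec b ρ := by
      ext i j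
      simp only [vecMulVec_apply, hρ', Matrix.sub_apply, Matrix.smul_apply, Pi.sub_apply,
        Pi.smul_apply, Pi.neg_apply, smul_eq_mul]
      ring
    rw [hT2, hT3, h2]
    simp only [sub_mul, mul_sub, one_mul, mul_one, Matrix.smul_mul, Matrix.mul_smul, h1]
    module
  have e0123 : T0 * T1 * T2 * T3 = diagonal α := by
    rw [mul_assoc (T0 * T1), e01, e23, mul_assoc]
    have : (1 + vecMulVec b ψ) * (1 + vecMulVec b (-ψ)) = 1 := by
      have h1 : vecMulVec b ψ * vecMulVec b (-ψ) = 0 := by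
        rw [Matrix.vecMulVec_mul_vecMulVec, hψb, zero_smul]
        ext i j
        simp [vecMulVec_apply]
      simp only [add_mul, mul_add, one_mul, mul_one, h1]
      ext i j
      simp [vecMulVec_apply]
    rw [this, mul_one]
  set T : Fin 4 → Matrix (Fin n) (Fin n) ℂ := ![T0, T1, T2, T3] with hT
  refine ⟨T, b, -ψ, ?_, ?_, ?_, ?_, ?_, ?_, ?_, ?_⟩
  · intro i
    fin_cases i
    · exact e0
    · exact e1
    · exact e2
    · exact e3
  · exact e0123
  · intro h
    have := congrFun h 0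
    simp [hb, hα0] at this
  · simpa using hψ0
  · simp [hψb]
  · exact e23
  · intro W hbW hW
    have hD : ∀ w ∈ W, (fun j => α j * w j) ∈ W := by
      intro w hw
      have h1 := hW 0 _ (hW 1 _ (hW 2 _ (hW 3 w hw)))
      have h2 : T 0 *ᵥ (T 1 *ᵥ (T 2 *ᵥ (T 3 *ᵥ w))) = diagonal α *ᵥ w := by
        rw [← e0123]
        simp only [hT, Matrix.mulVec_mulVec, mul_assoc]
        rfl
      rw [h2] at h1
      convert h1 using 1
      funext j
      rw [Matrix.mulVec_diagonal]
    apply eq_top_of_single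
    intro i
    exact single_mem_of_stable α hα W hD b hbW i (by simp [hb, hα0])
  · intro W hφW hW
    have hD : ∀ w ∈ W, (fun j => α j * w j) ∈ W := by
      intro w hw
      have h1 := hW 3 _ (hW 2 _ (hW 1 _ (hW 0 w hw)))
      have h2 : (((w ᵥ* T 0) ᵥ* T 1) ᵥ* T 2) ᵥ* T 3 = w ᵥ* diagonal α := by
        rw [← e0123]
        simp only [hT, Matrix.vecMul_vecMul]
        rfl
      rw [h2] at h1
      convert h1 using 1
      funext j
      rw [Matrix.vecMul_diagonal, mul_comm]
    obtain ⟨i, hi⟩ : ∃ i, (-ψ) i ≠ 0 := by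
      by_contra h
      push Not at h
      apply hψ0
      funext i
      have := h i
      simpa using this
    have hi1 := single_mem_of_stable α hα W hD _ hφW i hi
    have h2 := hW 2 _ hi1
    have h3 : (Pi.single i 1 : Fin n → ℂ) ᵥ* T 2 = Pi.single i 1 - (2 * b i) • ρ := by
      show (Pi.single i 1 : Fin n → ℂ) ᵥ* T2 = _
      rw [hT2, Matrix.vecMul_sub, Matrix.vecMul_one, Matrix.vecMul_smul, Matrix.vecMul_vecMulVec]
      rw [smul_smul]
      simp
    rw [h3] at h2
    have h4 : ρ ∈ W := by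
      have h5 := W.sub_mem hi1 h2
      rw [sub_sub_cancel] at h5
      have h6 : (2 * b i) ≠ 0 := mul_ne_zero two_ne_zero (by simp [hb, hα0])
      exact (W.smul_mem_iff h6).mp h5
    apply eq_top_of_single
    intro j
    exact single_mem_of_stable α hα W hD ρ h4 j (by simp [hρ, hα0, hn0])

end Pool.Agent.RevMaps
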