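import Mathlib

/-!
# Formal maps of `(ℂⁿ, 0)`: composition, order calculus, first order expansions
-/

namespace Pool.Agent.RevMaps

open MvPowerSeries

/-- power series in `n` variables -/
abbrev PS (n : ℕ) := MvPowerSeries (Fin n) ℂ

/-- all coefficients of total degree `< k` vanish -/
def O {n : ℕ} (k : ℕ) (p : PS n) : Prop := ∀ m : Fin n →₀ ℕ, m.degree < k → coeff m p = 0

section order

variable {n : ℕ}

theorem O_iff (k : ℕ) (p : PS n) : O k p ↔ (k : ℕ∞) ≤ p.order := by
  constructor
  · intro h; exact MvPowerSeries.nat_le_order h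
  · intro h m hm
    exact MvPowerSeries.coeff_of_lt_order (lt_of_lt_of_le (by exact_mod_cast hm) h)

theorem O.mono {k l : ℕ} {p : PS n} (h : O k p) (hl : l ≤ k) : O l p :=
  fun m hm => h m (lt_of_lt_of_le hm hl)

theorem O_zero (p : PS n) : O 0 p := fun _ hm => absurd hm (Nat.not_lt_zero _)

theorem O_of_zero (k : ℕ) : O k (0 : PS n) := fun m _ => by simp

theorem O.add {k : ℕ} {p q : PS n} (hp : O k p) (hq : O k q) : O k (p + q) :=
  fun m hm => by rw [map_add, hp m hm, hq m hm, add_zero]

theorem O.sub {k : ℕ} {p q : PS n} (hp : O k p) (hq : O k q) : O k (p - q) :=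
  fun m hm => by rw [map_sub, hp m hm, hq m hm, sub_zero]

theorem O.neg {k : ℕ} {p : PS n} (hp : O k p) : O k (-p) :=
  fun m hm => by rw [map_neg, hp m hm, neg_zero]

theorem O.smul {k : ℕ} {p : PS n} (c : ℂ) (hp : O k p) : O k (c • p) :=
  fun m hm => by rw [map_smul, hp m hm, smul_zero]

theorem O.mul {k l : ℕ} {p q : PS n} (hp : O k p) (hq : O l q) : O (k + l) (p * q) := by
  rw [O_iff] at *
  refine le_trans ?_ le_order_mul
  push_cast
  exact add_le_add hp hq

theorem O.sum {ι : Type*} {s : Finset ι} {k : ℕ} {f : ι → PS n} (h : ∀ i ∈ s, O k (f i)) :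
    O k (∑ i ∈ s, f i) := by
  intro m hm
  rw [map_sum]
  exact Finset.sum_eq_zero (fun i hi => h i hi m hm)

theorem O.trans_sub {k : ℕ} {p q r : PS n} (h1 : O k (p - q)) (h2 : O k (q - r)) :
    O k (p - r) := by
  have := h1.add h2
  rwa [sub_add_sub_cancel] at this

theorem O.symm_sub {k : ℕ} {p q : PS n} (h1 : O k (p - q)) : O k (q - p) := by
  have := h1.neg
  rwa [neg_sub] at this

theorem eq_of_forall_O {p q : PS n} (h : ∀ k, O k (p - q)) : p = q := by
  ext m
  have := h (m.degree + 1) m (Nat.lt_succ_self _)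
  rw [map_sub, sub_eq_zero] at this
  exact this

theorem O_one_iff (p : PS n) : O 1 p ↔ constantCoeff p = 0 := by
  constructor
  · intro h
    have := h 0 (by simp)
    simpa using this
  · intro h m hm
    have : m = 0 := by
      rw [Nat.lt_one_iff] at hm
      exact (Finsupp.degree_eq_zero_iff m).mp hm
    rw [this]
    simpa using h

theorem O_X (i : Fin n) : O 1 (X i : PS n) := by
  rw [O_one_iff]; simp

theorem O_pow {k : ℕ} {p : PS n} (h : O 1 p) : O k (p ^ k) := by
  induction k with
  | zero => exact O_zero _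
  | succ k ih => rw [pow_succ]; exact ih.mul h

/-- monomials in `g` have order at least the degree -/
theorem O_prod (g : Fin n → PS n) (hg : ∀ i, O 1 (g i)) (m : Fin n →₀ ℕ) :
    O m.degree (m.prod fun i e => g i ^ e) := by
  induction m using Finsupp.induction_linear with
  | zero => simpa using O_zero _
  | add m m' h h' =>
    rw [Finsupp.prod_add_index' (by simp) (by intro i a b; rw [pow_add]), map_add]
    exact h.mul h'
  | single i e =>
    rw [Finsupp.prod_single_index (by simp)]
    simpa using O_pow (hg i)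

theorem O_prod_sub (g g' : Fin n → PS n) (hg : ∀ i, O 1 (g i)) (hg' : ∀ i, O 1 (g' i)) (d : ℕ)
    (h : ∀ i, O d (g i - g' i)) (m : Fin n →₀ ℕ) :
    ∀ k, k + 1 ≤ d + m.degree →
      O k ((m.prod fun i e => g i ^ e) - (m.prod fun i e => g' i ^ e)) := by
  have hadd : ∀ (P P' Q Q' : PS n) (a b : ℕ), O a P → O b Q' →
      (∀ k, k + 1 ≤ d + b → O k (Q - Q')) → (∀ k, k + 1 ≤ d + a → O k (P - P')) →
      ∀ k, k + 1 ≤ d + (a + b) → O k (P * Q - P' * Q') := by
    intro P P' Q Q' a b hP hQ hQQ hPP k hk
    have e : P * Q - P' * Q' = P * (Q - Q') + (P - P') * Q' := by ring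
    rw [e]
    apply O.add
    · by_cases hka : a ≤ k
      · exact (hP.mul (hQQ (k - a) (by omega))).mono (by omega)
      · exact (hP.mul (O_zero _)).mono (by omega)
    · by_cases hkb : b ≤ k
      · exact ((hPP (k - b) (by omega)).mul hQ).mono (by omega)
      · exact ((O_zero _).mul hQ).mono (by omega)
  induction m using Finsupp.induction_linear with
  | zero => intro k _; simpa using O_of_zero k
  | add m m' h1 h2 =>
    intro k hk
    rw [Finsupp.prod_add_index' (by simp) (by intro i a b; rw [pow_add]),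
      Finsupp.prod_add_index' (by simp) (by intro i a b; rw [pow_add])]
    rw [map_add] at hk
    exact hadd _ _ _ _ _ _ (O_prod g hg m) (O_prod g' hg' m') h2 h1 k hk
  | single i e =>
    rw [Finsupp.prod_single_index (by simp), Finsupp.prod_single_index (by simp)]
    simp only [Finsupp.degree_single]
    induction e with
    | zero => intro k _; simpa using O_of_zero k
    | succ e ih =>
      intro k hk
      rw [pow_succ, pow_succ]
      exact hadd _ _ _ _ e 1 (O_pow (hg i)) (hg' i)
        (fun k hk => (h i).mono (by omega)) ih k hk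

theorem hasSubst_of_O {g : Fin n → PS n} (hg : ∀ i, O 1 (g i)) : HasSubst g :=
  hasSubst_of_constantCoeff_zero (fun i => (O_one_iff _).mp (hg i))

theorem O_subst {k : ℕ} {p : PS n} {g : Fin n → PS n} (hp : O k p) (hg : ∀ i, O 1 (g i)) :
    O k (p.subst g) := by
  intro e he
  rw [coeff_subst (hasSubst_of_O hg)]
  apply finsum_eq_zero_of_forall_eq_zero
  intro m
  by_cases hm : m.degree < k
  · rw [hp m hm, zero_smul]
  · rw [O_prod g hg m e (by omega), smul_zero]

theorem O_subst_sub {d k j : ℕ} {p : PS n} {g g' : Fin n → PS n} (hp : O k p)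
    (hg : ∀ i, O 1 (g i)) (hg' : ∀ i, O 1 (g' i)) (h : ∀ i, O d (g i - g' i))
    (hj : j + 1 ≤ d + k) : O j (p.subst g - p.subst g') := by
  intro e he
  rw [map_sub, sub_eq_zero, coeff_subst (hasSubst_of_O hg), coeff_subst (hasSubst_of_O hg')]
  apply finsum_congr
  intro m
  by_cases hm : m.degree < k
  · rw [hp m hm, zero_smul, zero_smul]
  · have := O_prod_sub g g' hg hg' d h m j (by omega) e he
    rw [map_sub, sub_eq_zero] at this
    rw [this]

end order

/-- The formal maps of `(ℂⁿ, 0)`: `n`-tuples of power series without constant term. -/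
structure FMap (n : ℕ) where
  /-- the components -/
  toFun : Fin n → MvPowerSeries (Fin n) ℂ
  /-- no constant terms -/
  zero' : ∀ i, MvPowerSeries.constantCoeff (toFun i) = 0

namespace FMap

variable {n : ℕ}

@[ext] theorem ext {f g : FMap n} (h : ∀ i, f.toFun i = g.toFun i) : f = g := by
  cases f; cases g
  congr
  funext i
  exact h i

theorem O1 (f : FMap n) (i : Fin n) : O 1 (f.toFun i) := (O_one_iff _).mpr (f.zero' i)

theorem hasSubst (f : FMap n) : HasSubst f.toFun := hasSubst_of_constantCoeff_zero f.zero'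

/-- Composition `f ∘ g`. -/
noncomputable instance : Mul (FMap n) :=
  ⟨fun f g => ⟨fun i => (f.toFun i).subst g.toFun,
    fun i => (O_one_iff _).mp (O_subst (f.O1 i) g.O1)⟩⟩

/-- The identity. -/
noncomputable instance : One (FMap n) := ⟨⟨fun i => X i, fun i => by simp⟩⟩

theorem mul_def (f g : FMap n) (i : Fin n) : (f * g).toFun i = (f.toFun i).subst g.toFun := rfl

theorem one_def (i : Fin n) : (1 : FMap n).toFun i = X i := rfl

noncomputable instance : Monoid (FMap n) where
  mul_assoc f g h := by
    apply FMap.ext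
    intro i
    rw [mul_def, mul_def, mul_def, subst_comp_subst_apply g.hasSubst h.hasSubst]
    rfl
  one_mul f := by
    apply FMap.ext
    intro i
    rw [mul_def, one_def, subst_X f.hasSubst]
  mul_one f := by
    apply FMap.ext
    intro i
    rw [mul_def]
    have : (1 : FMap n).toFun = X := rfl
    rw [this, subst_self]
    rfl

end FMap

/-- tuples of power series -/
abbrev V (n : ℕ) := Fin n → PS n

section FMap

variable {n : ℕ}

/-- Linear part. -/
noncomputable def lin (f : FMap n) : Matrix (Fin n) (Fin n) ℂ :=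
  Matrix.of fun i j => coeff (Finsupp.single j 1) (f.toFun i)

/-- matrix acting on tuples -/
noncomputable def mv (M : Matrix (Fin n) (Fin n) ℂ) (a : V n) : V n := fun i => ∑ j, M i j • a j

/-- linear map as formal map -/
noncomputable def linMap (M : Matrix (Fin n) (Fin n) ℂ) : FMap n :=
  ⟨mv M (fun i => X i), fun i => by
    rw [← O_one_iff]
    exact O.sum (fun j _ => (O_X j).smul _)⟩

theorem degree_eq_one_iff (m : Fin n →₀ ℕ) : m.degree = 1 ↔ ∃ j, m = Finsupp.single j 1 := by
  constructor
  · intro h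
    have h0 : m ≠ 0 := by
      rintro rfl
      simp at h
    obtain ⟨j, hj⟩ := Finsupp.support_nonempty_iff.mpr h0
    refine ⟨j, ?_⟩
    have hj' : 1 ≤ m j := Nat.one_le_iff_ne_zero.mpr (Finsupp.mem_support_iff.mp hj)
    have hle : Finsupp.single j 1 ≤ m := by
      rw [Finsupp.single_le_iff]; exact hj'
    obtain ⟨m', rfl⟩ := exists_add_of_le hle
    rw [map_add, Finsupp.degree_single] at h
    have : m'.degree = 0 := by omega
    rw [(Finsupp.degree_eq_zero_iff m').mp this, add_zero]
  · rintro ⟨j, rfl⟩; simp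

theorem coeff_single_X (i j : Fin n) :
    coeff (Finsupp.single j 1) (X i : PS n) = if i = j then 1 else 0 := by
  rw [coeff_X]
  by_cases h : i = j
  · subst h; simp
  · rw [if_neg, if_neg h]
    intro h2
    exact h ((Finsupp.single_left_inj one_ne_zero).mp h2).symm

/-- a power series without constant term is its linear part plus a remainder of order two -/
theorem O_two_of_O_one {p : PS n} (hp : O 1 p) :
    O 2 (p - ∑ j, coeff (Finsupp.single j 1) p • (X j : PS n)) := by
  intro m hm
  rw [map_sub, map_sum]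
  rcases Nat.lt_or_ge m.degree 1 with h | h
  · rw [hp m h, Finset.sum_eq_zero, sub_zero]
    intro j _
    rw [map_smul, O_X j m h, smul_zero]
  · have h1 : m.degree = 1 := by omega
    obtain ⟨j, rfl⟩ := (degree_eq_one_iff m).mp h1
    rw [Finset.sum_eq_single j]
    · rw [map_smul, coeff_single_X, if_pos rfl]; simp
    · intro k _ hk
      rw [map_smul, coeff_single_X, if_neg hk, smul_zero]
    · simp

theorem sub_lin_O (f : FMap n) (i : Fin n) : O 2 (f.toFun i - (linMap (lin f)).toFun i) :=
  O_two_of_O_one (f.O1 i)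

theorem O_mv {k : ℕ} {a : V n} (M : Matrix (Fin n) (Fin n) ℂ) (ha : ∀ i, O k (a i)) (i : Fin n) :
    O k (mv M a i) := O.sum (fun j _ => (ha j).smul _)

theorem mv_add (M : Matrix (Fin n) (Fin n) ℂ) (a b : V n) : mv M (a + b) = mv M a + mv M b := by
  funext i
  simp [mv, smul_add, Finset.sum_add_distrib]

theorem mv_sub (M : Matrix (Fin n) (Fin n) ℂ) (a b : V n) : mv M (a - b) = mv M a - mv M b := by
  funext i
  simp [mv, smul_sub, Finset.sum_sub_distrib]

theorem mv_smul (M : Matrix (Fin n) (Fin n) ℂ) (c : ℂ) (a : V n) :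
    mv M (c • a) = c • mv M a := by
  funext i
  simp only [mv, Pi.smul_apply, Finset.smul_sum]
  apply Finset.sum_congr rfl
  intro j _
  rw [smul_comm]

theorem mv_mv (M N : Matrix (Fin n) (Fin n) ℂ) (a : V n) : mv M (mv N a) = mv (M * N) a := by
  funext i
  simp only [mv, Finset.smul_sum, Matrix.mul_apply, Finset.sum_smul, smul_smul]
  rw [Finset.sum_comm]

theorem mv_one (a : V n) : mv 1 a = a := by
  funext i
  simp [mv, Matrix.one_apply, Finset.sum_ite_eq]

/-- substitution of a formal map in a tuple -/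
noncomputable def sb (g : FMap n) (a : V n) : V n := fun i => (a i).subst g.toFun

theorem sb_add (g : FMap n) (a b : V n) : sb g (a + b) = sb g a + sb g b := by
  funext i; simp [sb, subst_add g.hasSubst]

theorem sb_sub (g : FMap n) (a b : V n) : sb g (a - b) = sb g a - sb g b := by
  funext i
  simp [sb, subst_sub g.hasSubst]

theorem subst_smulC (g : FMap n) (c : ℂ) (p : PS n) :
    (c • p).subst g.toFun = c • (p.subst g.toFun) := by
  rw [subst_smul g.hasSubst]

theorem sb_smul (g : FMap n) (c : ℂ) (a : V n) : sb g (c • a) = c • sb g a := by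
  funext i; simp [sb, subst_smul g.hasSubst]

theorem subst_sumC (g : FMap n) {ι : Type*} (s : Finset ι) (f : ι → PS n) :
    (∑ i ∈ s, f i).subst g.toFun = ∑ i ∈ s, (f i).subst g.toFun := by
  rw [← coe_substAlgHom (R := ℂ) g.hasSubst, map_sum]

theorem sb_mv (g : FMap n) (M : Matrix (Fin n) (Fin n) ℂ) (a : V n) :
    sb g (mv M a) = mv M (sb g a) := by
  funext i
  simp only [sb, mv, subst_sumC, subst_smulC]

theorem sb_sb (g h : FMap n) (a : V n) : sb h (sb g a) = sb (g * h) a := by
  funext i
  simp only [sb]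
  rw [subst_comp_subst_apply g.hasSubst h.hasSubst]
  rfl

theorem sb_one (a : V n) : sb 1 a = a := by
  funext i
  show (a i).subst (X : Fin n → PS n) = a i
  rw [subst_self]; rfl

theorem O_sb {k : ℕ} {a : V n} (g : FMap n) (ha : ∀ i, O k (a i)) (i : Fin n) :
    O k (sb g a i) := O_subst (ha i) g.O1

theorem linMap_toFun (M : Matrix (Fin n) (Fin n) ℂ) : (linMap M).toFun = mv M (fun i => X i) := rfl

theorem sb_X (g : FMap n) : sb g (fun i => X i) = g.toFun := by
  funext i
  simp [sb, subst_X g.hasSubst]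

theorem mul_toFun (f g : FMap n) : (f * g).toFun = sb g f.toFun := rfl

theorem linMap_mul_toFun (M : Matrix (Fin n) (Fin n) ℂ) (g : FMap n) :
    (linMap M * g).toFun = mv M g.toFun := by
  rw [mul_toFun, linMap_toFun, sb_mv, sb_X]

theorem linMap_mul (M N : Matrix (Fin n) (Fin n) ℂ) : linMap (M * N) = linMap M * linMap N := by
  apply FMap.ext
  intro i
  rw [linMap_mul_toFun, linMap_toFun, linMap_toFun, mv_mv]

theorem linMap_one : linMap (1 : Matrix (Fin n) (Fin n) ℂ) = 1 := by
  apply FMap.ext
  intro i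
  rw [linMap_toFun, mv_one]; rfl

theorem coeff_single_of_O_two {p : PS n} (h : O 2 p) (j : Fin n) :
    coeff (Finsupp.single j 1) p = 0 := h _ (by simp)

theorem coeff_single_mv (M : Matrix (Fin n) (Fin n) ℂ) (a : V n) (i k : Fin n) :
    coeff (Finsupp.single k 1) (mv M a i) = ∑ j, M i j * coeff (Finsupp.single k 1) (a j) := by
  simp [mv, map_sum]

theorem lin_linMap (M : Matrix (Fin n) (Fin n) ℂ) : lin (linMap M) = M := by
  ext i k
  show coeff _ (mv M (fun i => X i) i) = _
  rw [coeff_single_mv, Finset.sum_eq_single k]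
  · rw [coeff_single_X, if_pos rfl, mul_one]
  · intro j _ hj
    rw [coeff_single_X, if_neg hj, mul_zero]
  · simp

theorem lin_mul (f g : FMap n) : lin (f * g) = lin f * lin g := by
  ext i k
  have h1 := O_subst (sub_lin_O f i) g.O1
  rw [subst_sub g.hasSubst] at h1
  have h2 := coeff_single_of_O_two h1 k
  rw [map_sub, sub_eq_zero] at h2
  show coeff _ ((f.toFun i).subst g.toFun) = _
  rw [h2]
  have h3 : ((linMap (lin f)).toFun i).subst g.toFun = mv (lin f) g.toFun i := by
    rw [← linMap_mul_toFun]; rfl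
  rw [h3, coeff_single_mv, Matrix.mul_apply]
  rfl

theorem lin_one : lin (1 : FMap n) = 1 := by
  rw [← linMap_one, lin_linMap]

/-- congruence modulo terms of degree `≥ d` -/
def EqM (d : ℕ) (f g : FMap n) : Prop := ∀ i, O d (f.toFun i - g.toFun i)

theorem EqM.refl (d : ℕ) (f : FMap n) : EqM d f f := fun i => by
  rw [sub_self]; exact O_of_zero d

theorem EqM.symm {d : ℕ} {f g : FMap n} (h : EqM d f g) : EqM d g f := fun i => (h i).symm_sub

theorem EqM.trans {d : ℕ} {f g k : FMap n} (h : EqM d f g) (h' : EqM d g k) : EqM d f k :=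
  fun i => (h i).trans_sub (h' i)

theorem EqM.mono {d e : ℕ} {f g : FMap n} (h : EqM d f g) (he : e ≤ d) : EqM e f g :=
  fun i => (h i).mono he

theorem EqM.mul {d : ℕ} {f f' g g' : FMap n} (h : EqM d f f') (h' : EqM d g g') :
    EqM d (f * g) (f' * g') := by
  intro i
  have h1 : O d ((f.toFun i).subst g.toFun - (f.toFun i).subst g'.toFun) :=
    O_subst_sub (f.O1 i) g.O1 g'.O1 h' le_rfl
  have h2 : O d ((f.toFun i).subst g'.toFun - (f'.toFun i).subst g'.toFun) := by
    rw [← subst_sub g'.hasSubst]
    exact O_subst (h i) g'.O1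
  exact h1.trans_sub h2

theorem eq_of_EqM {f g : FMap n} (h : ∀ d, EqM d f g) : f = g := by
  apply FMap.ext
  intro i
  exact eq_of_forall_O (fun d => h d i)

theorem EqM.lin_eq {d : ℕ} (hd : 2 ≤ d) {f g : FMap n} (h : EqM d f g) : lin f = lin g := by
  ext i j
  have := h i (Finsupp.single j 1) (by simp; omega)
  rw [map_sub, sub_eq_zero] at this
  exact this

/-- `f + a` for a tuple of order at least one -/
noncomputable def addT (f : FMap n) (a : V n) (ha : ∀ i, O 1 (a i)) : FMap n :=
  ⟨fun i => f.toFun i + a i, fun i => (O_one_iff _).mp ((f.O1 i).add (ha i))⟩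

/-- first order expansion: `f ∘ (g + b) = f ∘ g + L(f) b` modulo degree `d + 1` -/
theorem mul_addT {d : ℕ} (f g : FMap n) (b : V n) (hb1 : ∀ i, O 1 (b i)) (hb : ∀ i, O d (b i)) :
    ∀ i, O (d + 1) ((f * addT g b hb1).toFun i - ((f * g).toFun i + mv (lin f) b i)) := by
  intro i
  have h1 : O (d + 1) ((f.toFun i - (linMap (lin f)).toFun i).subst (addT g b hb1).toFun -
      (f.toFun i - (linMap (lin f)).toFun i).subst g.toFun) := by
    apply O_subst_sub (sub_lin_O f i) (addT g b hb1).O1 g.O1 (d := d)
    · intro j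
      show O d (g.toFun j + b j - g.toFun j)
      rw [add_sub_cancel_left]; exact hb j
    · omega
  rw [subst_sub (addT g b hb1).hasSubst, subst_sub g.hasSubst] at h1
  have h2 : ((linMap (lin f)).toFun i).subst (addT g b hb1).toFun =
      mv (lin f) (addT g b hb1).toFun i := by
    rw [← linMap_mul_toFun]; rfl
  have h3 : ((linMap (lin f)).toFun i).subst g.toFun = mv (lin f) g.toFun i := by
    rw [← linMap_mul_toFun]; rfl
  have h4 : mv (lin f) (addT g b hb1).toFun i = mv (lin f) g.toFun i + mv (lin f) b i := by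
    have : (addT g b hb1).toFun = g.toFun + b := rfl
    rw [this, mv_add]; rfl
  rw [h2, h3, h4] at h1
  convert h1 using 1
  show (f.toFun i).subst (addT g b hb1).toFun - ((f.toFun i).subst g.toFun + mv (lin f) b i) = _
  ring

/-- `(f + a) ∘ g = f ∘ g + a ∘ L(g)` modulo degree `d + 1` -/
theorem sb_lin {d : ℕ} (g : FMap n) (a : V n) (ha : ∀ i, O d (a i)) :
    ∀ i, O (d + 1) (sb g a i - sb (linMap (lin g)) a i) := by
  intro i
  exact O_subst_sub (ha i) g.O1 (linMap (lin g)).O1 (d := 2) (fun j => sub_lin_O g j) (by omega)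

theorem addT_mul (f g : FMap n) (a : V n) (ha : ∀ i, O 1 (a i)) (i : Fin n) :
    (addT f a ha * g).toFun i = (f * g).toFun i + sb g a i := by
  show (f.toFun i + a i).subst g.toFun = _
  rw [subst_add g.hasSubst]; rfl

theorem lin_addT {d : ℕ} (hd : 2 ≤ d) (f : FMap n) (a : V n) (ha1 : ∀ i, O 1 (a i))
    (ha : ∀ i, O d (a i)) : lin (addT f a ha1) = lin f := by
  ext i j
  show coeff _ (f.toFun i + a i) = _
  rw [map_add, (ha i) (Finsupp.single j 1) (by simp; omega), add_zero]
  rfl

/-- completeness -/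
theorem exists_limit (s : ℕ → FMap n) (d0 : ℕ) (hs : ∀ d, d0 ≤ d → EqM d (s (d + 1)) (s d)) :
    ∃ f : FMap n, ∀ d, d0 ≤ d → EqM d f (s d) := by
  have hchain : ∀ d, d0 ≤ d → ∀ e, d ≤ e → EqM d (s e) (s d) := by
    intro d hd e he
    induction e, he using Nat.le_induction with
    | base => exact EqM.refl _ _
    | succ e he ih => exact ((hs e (hd.trans he)).mono he).trans ih
  refine ⟨⟨fun i => fun m => coeff m ((s (max d0 (m.degree + 1))).toFun i), ?_⟩, ?_⟩
  · intro i
    have : constantCoeff (fun m => coeff m ((s (max d0 (m.degree + 1))).toFun i) : PS n) =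
        coeff 0 ((s (max d0 ((0 : Fin n →₀ ℕ).degree + 1))).toFun i) := rfl
    rw [this]
    have := (s (max d0 ((0 : Fin n →₀ ℕ).degree + 1))).zero' i
    simpa using this
  · intro d hd i m hm
    rw [map_sub, sub_eq_zero]
    have h1 : coeff m (fun m => coeff m ((s (max d0 (m.degree + 1))).toFun i) : PS n) =
        coeff m ((s (max d0 (m.degree + 1))).toFun i) := rfl
    rw [h1]
    have h2 := hchain (max d0 (m.degree + 1)) (le_max_left _ _) (max d (max d0 (m.degree + 1)))
      (le_max_right _ _) i m (by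
        have : m.degree + 1 ≤ max d0 (m.degree + 1) := le_max_right _ _
        omega)
    have h3 := hchain d hd (max d (max d0 (m.degree + 1))) (le_max_left _ _) i m hm
    rw [map_sub, sub_eq_zero] at h2 h3
    rw [← h2, h3]

/-- right inverses exist -/
theorem exists_right_inv (f : FMap n) (hf : (lin f).det ≠ 0) : ∃ g : FMap n, f * g = 1 := by
  classical
  set L := lin f with hL
  have hLu : IsUnit L.det := isUnit_iff_ne_zero.mpr hf
  have hstep : ∀ d : ℕ, 2 ≤ d → ∀ g : FMap n, EqM d (f * g) 1 →
      ∃ g' : FMap n, EqM (d + 1) (f * g') 1 ∧ EqM d g' g := by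
    intro d hd g hg
    set e : V n := fun i => (1 : FMap n).toFun i - (f * g).toFun i with he
    have heO : ∀ i, O d (e i) := fun i => (hg i).symm_sub
    set b : V n := mv L⁻¹ e with hb
    have hbO : ∀ i, O d (b i) := O_mv _ heO
    have hb1 : ∀ i, O 1 (b i) := fun i => (hbO i).mono (by omega)
    refine ⟨addT g b hb1, ?_, ?_⟩
    · intro i
      have h1 := mul_addT f g b hb1 hbO i
      have h2 : mv (lin f) b i = e i := by
        rw [hb, mv_mv, ← hL, Matrix.mul_nonsing_inv L hLu, mv_one]
      rw [h2] at h1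
      have h3 : (f * g).toFun i + e i = (1 : FMap n).toFun i := by simp [he]
      rwa [h3] at h1
    · intro i
      show O d (g.toFun i + b i - g.toFun i)
      rw [add_sub_cancel_left]; exact hbO i
  have h0 : EqM 2 (f * linMap L⁻¹) 1 := by
    intro i
    have h1 := O_subst (sub_lin_O f i) (linMap L⁻¹).O1
    rw [subst_sub (linMap L⁻¹).hasSubst] at h1
    have h2 : ((linMap (lin f)).toFun i).subst (linMap L⁻¹).toFun = (1 : FMap n).toFun i := by
      have : ((linMap (lin f)).toFun i).subst (linMap L⁻¹).toFun =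
        (linMap (lin f) * linMap L⁻¹).toFun i := rfl
      rw [this, ← linMap_mul, ← hL, Matrix.mul_nonsing_inv L hLu, linMap_one]
    rw [h2] at h1
    exact h1
  choose! F hF1 hF2 using hstep
  let s : ℕ → FMap n := fun d => Nat.rec (linMap L⁻¹) (fun k g => F (k + 2) g) d
  have hs : ∀ k, EqM (k + 2) (f * s k) 1 := by
    intro k
    induction k with
    | zero => exact h0
    | succ k ih => exact hF1 (k + 2) (by omega) (s k) ih
  have hs2 : ∀ d, 2 ≤ d → EqM d (s (d + 1 - 2)) (s (d - 2)) := by
    intro d hd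
    obtain ⟨k, rfl⟩ : ∃ k, d = k + 2 := ⟨d - 2, by omega⟩
    have e1 : k + 2 + 1 - 2 = k + 1 := by omega
    have e2 : k + 2 - 2 = k := by omega
    rw [e1, e2]
    exact hF2 (k + 2) (by omega) (s k) (hs k)
  obtain ⟨g, hg⟩ := exists_limit (fun d => s (d - 2)) 2 hs2
  refine ⟨g, eq_of_EqM (fun d => ?_)⟩
  have h1 : EqM (max d 2) (f * g) (f * s (max d 2 - 2)) :=
    (EqM.refl _ f).mul (hg (max d 2) (le_max_right _ _))
  have h2 := hs (max d 2 - 2)
  have e1 : max d 2 - 2 + 2 = max d 2 := by omega
  rw [e1] at h2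
  exact (h1.trans h2).mono (le_max_left _ _)

theorem isUnit_iff_det (f : FMap n) : IsUnit f ↔ (lin f).det ≠ 0 := by
  constructor
  · rintro ⟨u, rfl⟩ h
    have h1 : lin (u : FMap n) * lin ((u⁻¹ : (FMap n)ˣ) : FMap n) = 1 := by
      rw [← lin_mul, u.mul_inv, lin_one]
    have h2 := congrArg Matrix.det h1
    rw [Matrix.det_mul, h, zero_mul, Matrix.det_one] at h2
    exact zero_ne_one h2
  · intro h
    obtain ⟨g, hg⟩ := exists_right_inv f h
    have hg1 : (lin g).det ≠ 0 := by
      intro h0
      have h1 : lin f * lin g = 1 := by rw [← lin_mul, hg, lin_one]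
      have h2 := congrArg Matrix.det h1
      rw [Matrix.det_mul, h0, mul_zero, Matrix.det_one] at h2
      exact zero_ne_one h2
    obtain ⟨k, hk⟩ := exists_right_inv g hg1
    have hfk : f = k := by
      calc f = f * (g * k) := by rw [hk, mul_one]
        _ = k := by rw [← mul_assoc, hg, one_mul]
    rw [← hfk] at hk
    exact ⟨⟨f, g, hg, hk⟩, rfl⟩

end FMap

end Pool.Agent.RevMaps
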