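import Mathlib
import Pool.Agent.RevMaps.Basic

/-!
Degree by degree lifting of a factorisation of the linear part into involutions.
-/

namespace Pool.Agent.RevMaps

open MvPowerSeries

variable {n : ℕ}

/-- tuples of order at least `d` -/
def OV (d : ℕ) (a : V n) : Prop := ∀ i, O d (a i)

theorem OV.add {d : ℕ} {a b : V n} (ha : OV d a) (hb : OV d b) : OV d (a + b) :=
  fun i => (ha i).add (hb i)

theorem OV.sub {d : ℕ} {a b : V n} (ha : OV d a) (hb : OV d b) : OV d (a - b) :=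
  fun i => (ha i).sub (hb i)

theorem OV.smul {d : ℕ} {a : V n} (c : ℂ) (ha : OV d a) : OV d (c • a) :=
  fun i => (ha i).smul c

theorem OV.mono {d e : ℕ} {a : V n} (ha : OV d a) (h : e ≤ d) : OV e a :=
  fun i => (ha i).mono h

theorem OV.mv {d : ℕ} {a : V n} (M : Matrix (Fin n) (Fin n) ℂ) (ha : OV d a) : OV d (mv M a) :=
  O_mv M ha

theorem OV.sb {d : ℕ} {a : V n} (g : FMap n) (ha : OV d a) : OV d (sb g a) := O_sb g ha

/-- conjugation action of a matrix (with inverse `M'`) on tuples -/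
noncomputable def act (M M' : Matrix (Fin n) (Fin n) ℂ) (a : V n) : V n := mv M (sb (linMap M') a)

theorem OV.act {d : ℕ} {a : V n} (M M' : Matrix (Fin n) (Fin n) ℂ) (ha : OV d a) :
    OV d (act M M' a) := (ha.sb _).mv _

theorem act_add (M M' : Matrix (Fin n) (Fin n) ℂ) (a b : V n) :
    act M M' (a + b) = act M M' a + act M M' b := by
  simp only [act, sb_add, mv_add]

theorem act_sub (M M' : Matrix (Fin n) (Fin n) ℂ) (a b : V n) :
    act M M' (a - b) = act M M' a - act M M' b := by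
  simp only [act, sb_sub, mv_sub]

theorem act_smul (M M' : Matrix (Fin n) (Fin n) ℂ) (c : ℂ) (a : V n) :
    act M M' (c • a) = c • act M M' a := by
  simp only [act, sb_smul, mv_smul]

theorem act_act (M M' N N' : Matrix (Fin n) (Fin n) ℂ) (a : V n) :
    act M M' (act N N' a) = act (M * N) (N' * M') a := by
  simp only [act, sb_mv, mv_mv, sb_sb, linMap_mul]

theorem act_one (a : V n) : act 1 1 a = a := by
  simp only [act, linMap_one, sb_one, mv_one]

/-- `1 + c` -/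
noncomputable def oneAdd (c : V n) (hc : OV 1 c) : FMap n := addT 1 c hc

theorem lin_oneAdd {d : ℕ} (hd : 2 ≤ d) (c : V n) (hc1 : OV 1 c) (hc : OV d c) :
    lin (oneAdd c hc1) = 1 := by
  rw [oneAdd, lin_addT hd 1 c hc1 hc, lin_one]

theorem oneAdd_mul (c : V n) (hc : OV 1 c) (g : FMap n) (i : Fin n) :
    (oneAdd c hc * g).toFun i = g.toFun i + sb g c i := by
  have h := addT_mul 1 g c hc i
  rw [one_mul] at h
  exact h

/-- `g (1 + c) = (1 + act c) g` modulo degree `d + 1` -/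
theorem mul_oneAdd {d : ℕ} (g : FMap n) (S S' : Matrix (Fin n) (Fin n) ℂ)
    (hg : lin g = S) (hS : S' * S = 1) (c : V n) (hc1 : OV 1 c) (hc : OV d c)
    (h1 : OV 1 (act S S' c)) :
    EqM (d + 1) (g * oneAdd c hc1) (oneAdd (act S S' c) h1 * g) := by
  intro i
  have e1 := mul_addT g 1 c hc1 hc i
  rw [mul_one, hg] at e1
  have e2 := sb_lin g (act S S' c) (hc.act S S') i
  have e3 : sb (linMap (lin g)) (act S S' c) = mv S c := by
    rw [hg, act, sb_mv, sb_sb, ← linMap_mul, hS, linMap_one, sb_one]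
  rw [e3] at e2
  rw [oneAdd_mul]
  have e4 := e1.sub e2
  show O (d + 1) ((g * addT 1 c hc1).toFun i - (g.toFun i + sb g (act S S' c) i))
  have : (g * addT 1 c hc1).toFun i - (g.toFun i + mv S c i) - (sb g (act S S' c) i - mv S c i)
      = (g * addT 1 c hc1).toFun i - (g.toFun i + sb g (act S S' c) i) := by ring
  rwa [this] at e4

theorem oneAdd_mul_oneAdd {d : ℕ} (hd : 2 ≤ d) (c c' : V n) (hc1 : OV 1 c) (hc : OV d c)
    (hc1' : OV 1 c') (hc' : OV d c') (h : OV 1 (c + c')) :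
    EqM (d + 1) (oneAdd c hc1 * oneAdd c' hc1') (oneAdd (c + c') h) := by
  intro i
  rw [oneAdd_mul]
  have e1 := sb_lin (oneAdd c' hc1') c hc i
  rw [lin_oneAdd hd c' hc1' hc', linMap_one, sb_one] at e1
  show O (d + 1) ((1 : FMap n).toFun i + c' i + sb (oneAdd c' hc1') c i -
    ((1 : FMap n).toFun i + (c i + c' i)))
  have : (1 : FMap n).toFun i + c' i + sb (oneAdd c' hc1') c i -
    ((1 : FMap n).toFun i + (c i + c' i)) = sb (oneAdd c' hc1') c i - c i := by ring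
  rwa [this]

theorem isUnit_oneAdd {d : ℕ} (hd : 2 ≤ d) (c : V n) (hc1 : OV 1 c) (hc : OV d c) :
    IsUnit (oneAdd c hc1) := by
  rw [isUnit_iff_det, lin_oneAdd hd c hc1 hc, Matrix.det_one]
  exact one_ne_zero

/-- modification of one involution -/
theorem modify {d : ℕ} (hd : 2 ≤ d) (τ : FMap n) (T : Matrix (Fin n) (Fin n) ℂ)
    (hτ : τ * τ = 1) (hT : T * T = 1) (hl : lin τ = T) (a : V n) (ha : OV d a)
    (hc1 : OV 1 (a - act T T a)) :
    ∃ τ' : FMap n, τ' * τ' = 1 ∧ EqM (d + 1) τ' (oneAdd (a - act T T a) hc1 * τ) := by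
  have ha1 : OV 1 a := ha.mono (by omega)
  obtain ⟨u, hu⟩ := isUnit_oneAdd hd a ha1 ha
  refine ⟨u * τ * (u⁻¹ : (FMap n)ˣ), ?_, ?_⟩
  · calc (u : FMap n) * τ * (u⁻¹ : (FMap n)ˣ) * (u * τ * (u⁻¹ : (FMap n)ˣ))
        = u * (τ * (((u⁻¹ : (FMap n)ˣ) * (u : FMap n)) * τ)) * (u⁻¹ : (FMap n)ˣ) := by
          simp only [mul_assoc]
      _ = 1 := by rw [u.inv_mul, one_mul, hτ, mul_one, u.mul_inv]
  · have key : EqM (d + 1) (oneAdd a ha1 * τ) (oneAdd (a - act T T a) hc1 * (τ * oneAdd a ha1)) := by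
      intro i
      rw [oneAdd_mul, oneAdd_mul]
      have e1 := sb_lin τ a ha i
      rw [hl] at e1
      have e2 := mul_addT τ 1 a ha1 ha i
      rw [mul_one, hl] at e2
      have e3 := sb_lin (τ * oneAdd a ha1) (a - act T T a) (ha.sub (ha.act T T)) i
      have hl2 : lin (τ * oneAdd a ha1) = T := by
        rw [lin_mul, hl, lin_oneAdd hd a ha1 ha, mul_one]
      have e4 : sb (linMap T) (a - act T T a) = sb (linMap T) a - mv T a := by
        rw [sb_sub, act, sb_mv, sb_sb, ← linMap_mul, hT, linMap_one, sb_one]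
      rw [hl2, e4] at e3
      have e5 := (e1.sub e2).sub e3
      convert e5 using 1
      show τ.toFun i + sb τ a i - ((τ * addT 1 a ha1).toFun i +
        sb (τ * oneAdd a ha1) (a - act T T a) i) = _
      show _ = sb τ a i - sb (linMap T) a i - ((τ * addT 1 a ha1).toFun i -
        (τ.toFun i + mv T a i)) - (sb (τ * oneAdd a ha1) (a - act T T a) i -
        (sb (linMap T) a i - mv T a i))
      ring
    have h2 := key.mul (EqM.refl (d + 1) ((u⁻¹ : (FMap n)ˣ) : FMap n))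
    rw [hu]
    have h3 : oneAdd (a - act T T a) hc1 * (τ * oneAdd a ha1) * ((u⁻¹ : (FMap n)ˣ) : FMap n) =
        oneAdd (a - act T T a) hc1 * τ := by
      rw [← hu, mul_assoc, mul_assoc, u.mul_inv, mul_one]
    rw [h3] at h2
    exact h2

/-- Solvability of the degree `d` equation for four linear involutions. -/
def Solv (T : Fin 4 → Matrix (Fin n) (Fin n) ℂ) (d : ℕ) : Prop :=
  ∀ r : V n, OV d r → ∃ a : Fin 4 → V n, (∀ k, OV d (a k)) ∧
    OV (d + 1) (r - ((a 0 - act (T 0) (T 0) (a 0)) +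
      (act (T 0) (T 0) (a 1 - act (T 1) (T 1) (a 1)) +
      (act (T 0 * T 1) (T 1 * T 0) (a 2 - act (T 2) (T 2) (a 2)) +
       act (T 0 * T 1 * T 2) (T 2 * T 1 * T 0) (a 3 - act (T 3) (T 3) (a 3))))))

theorem EqM.add_left_comm {d : ℕ} {f g : FMap n} (h : EqM (d + 1) f g) : EqM d f g :=
  h.mono (by omega)

theorem lift_step {d : ℕ} (hd : 2 ≤ d) (T : Fin 4 → Matrix (Fin n) (Fin n) ℂ)
    (hT : ∀ k, T k * T k = 1) (hs : Solv T d) (f : FMap n) (τ : Fin 4 → FMap n) (hτ : ∀ k, τ k * τ k = 1)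
    (hl : ∀ k, lin (τ k) = T k) (hp : EqM d (τ 0 * τ 1 * τ 2 * τ 3) f) :
    ∃ τ' : Fin 4 → FMap n, (∀ k, τ' k * τ' k = 1) ∧ (∀ k, lin (τ' k) = T k) ∧
      EqM (d + 1) (τ' 0 * τ' 1 * τ' 2 * τ' 3) f ∧ ∀ k, EqM d (τ' k) (τ k) := by
  set N' : Matrix (Fin n) (Fin n) ℂ := T 3 * T 2 * T 1 * T 0 with hN'
  have hN'N : N' * (T 0 * T 1 * T 2 * T 3) = 1 := by
    rw [hN']
    calc T 3 * T 2 * T 1 * T 0 * (T 0 * T 1 * T 2 * T 3)
        = T 3 * (T 2 * (T 1 * (T 0 * T 0) * T 1) * T 2) * T 3 := by simp only [mul_assoc]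
      _ = 1 := by simp [hT]
  set e : V n := fun i => f.toFun i - (τ 0 * τ 1 * τ 2 * τ 3).toFun i with he
  have heO : OV d e := fun i => (hp i).symm_sub
  obtain ⟨a, ha, hr⟩ := hs (sb (linMap N') e) (heO.sb _)
  have hc : ∀ k, OV d (a k - act (T k) (T k) (a k)) := fun k => (ha k).sub ((ha k).act _ _)
  have hc1 : ∀ k, OV 1 (a k - act (T k) (T k) (a k)) := fun k => (hc k).mono (by omega)
  have hmod := fun k => modify hd (τ k) (T k) (hτ k) (hT k) (hl k) (a k) (ha k) (hc1 k)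
  choose τ' hτ' hE using hmod
  have hEd : ∀ k, EqM d (τ' k) (τ k) := by
    intro k
    refine (hE k).add_left_comm.trans ?_
    intro i
    rw [oneAdd_mul, add_sub_cancel_left]
    exact (hc k).sb _ i
  refine ⟨τ', hτ', fun k => ?_, ?_, hEd⟩
  · rw [(hEd k).lin_eq hd, hl k]
  · -- the product
    set c : Fin 4 → V n := fun k => a k - act (T k) (T k) (a k) with hcdef
    have hact1 : ∀ (M M' : Matrix (Fin n) (Fin n) ℂ) (k : Fin 4), OV 1 (act M M' (c k)) :=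
      fun M M' k => ((hc k).act M M').mono (by omega)
    have hact : ∀ (M M' : Matrix (Fin n) (Fin n) ℂ) (k : Fin 4), OV d (act M M' (c k)) :=
      fun M M' k => (hc k).act M M'
    -- move everything to the left
    have hP : EqM (d + 1) (τ' 0 * τ' 1 * τ' 2 * τ' 3)
        (oneAdd (c 0) (hc1 0) * τ 0 * (oneAdd (c 1) (hc1 1) * τ 1) *
          (oneAdd (c 2) (hc1 2) * τ 2) * (oneAdd (c 3) (hc1 3) * τ 3)) :=
      (((hE 0).mul (hE 1)).mul (hE 2)).mul (hE 3)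
    have i0 : T 0 * T 0 = 1 := hT 0
    have i1 : (T 1 * T 0) * (T 0 * T 1) = 1 := by
      calc (T 1 * T 0) * (T 0 * T 1) = T 1 * (T 0 * T 0) * T 1 := by simp only [mul_assoc]
        _ = 1 := by simp [hT]
    have i2 : (T 2 * T 1 * T 0) * (T 0 * T 1 * T 2) = 1 := by
      calc (T 2 * T 1 * T 0) * (T 0 * T 1 * T 2) = T 2 * (T 1 * (T 0 * T 0) * T 1) * T 2 := by
            simp only [mul_assoc]
        _ = 1 := by simp [hT]
    have s3 := mul_oneAdd (τ 0 * τ 1 * τ 2) (T 0 * T 1 * T 2) (T 2 * T 1 * T 0)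
      (by rw [lin_mul, lin_mul, hl, hl, hl]) i2 (c 3) (hc1 3) (hc 3) (hact1 _ _ 3)
    have s2 := mul_oneAdd (τ 0 * τ 1) (T 0 * T 1) (T 1 * T 0)
      (by rw [lin_mul, hl, hl]) i1 (c 2) (hc1 2) (hc 2) (hact1 _ _ 2)
    have s1 := mul_oneAdd (τ 0) (T 0) (T 0) (hl 0) i0 (c 1) (hc1 1) (hc 1) (hact1 _ _ 1)
    set A1 := oneAdd (act (T 0) (T 0) (c 1)) (hact1 _ _ 1) with hA1
    set A2 := oneAdd (act (T 0 * T 1) (T 1 * T 0) (c 2)) (hact1 _ _ 2) with hA2
    set A3 := oneAdd (act (T 0 * T 1 * T 2) (T 2 * T 1 * T 0) (c 3)) (hact1 _ _ 3) with hA3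
    have hQ : EqM (d + 1) (oneAdd (c 0) (hc1 0) * τ 0 * (oneAdd (c 1) (hc1 1) * τ 1) *
          (oneAdd (c 2) (hc1 2) * τ 2) * (oneAdd (c 3) (hc1 3) * τ 3))
          (oneAdd (c 0) (hc1 0) * (A1 * (A2 * (A3 * (τ 0 * τ 1 * τ 2 * τ 3))))) := by
      have q1 : EqM (d + 1) (oneAdd (c 0) (hc1 0) * τ 0 * (oneAdd (c 1) (hc1 1) * τ 1))
          (oneAdd (c 0) (hc1 0) * A1 * (τ 0 * τ 1)) := by
        have := ((EqM.refl (d + 1) (oneAdd (c 0) (hc1 0))).mul s1).mul (EqM.refl (d + 1) (τ 1))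
        simpa only [mul_assoc] using this
      have q2 : EqM (d + 1) (oneAdd (c 0) (hc1 0) * τ 0 * (oneAdd (c 1) (hc1 1) * τ 1) *
          (oneAdd (c 2) (hc1 2) * τ 2))
          (oneAdd (c 0) (hc1 0) * A1 * A2 * (τ 0 * τ 1 * τ 2)) := by
        have h1 := q1.mul (EqM.refl (d + 1) (oneAdd (c 2) (hc1 2) * τ 2))
        have h2 := ((EqM.refl (d + 1) (oneAdd (c 0) (hc1 0) * A1)).mul s2).mul
          (EqM.refl (d + 1) (τ 2))
        refine h1.trans ?_
        simpa only [mul_assoc] using h2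
      have h1 := q2.mul (EqM.refl (d + 1) (oneAdd (c 3) (hc1 3) * τ 3))
      have h2 := ((EqM.refl (d + 1) (oneAdd (c 0) (hc1 0) * A1 * A2)).mul s3).mul
          (EqM.refl (d + 1) (τ 3))
      refine h1.trans ?_
      simpa only [mul_assoc] using h2
    -- merge the corrections
    have m23 := oneAdd_mul_oneAdd hd _ _ (hact1 _ _ 2) (hact (T 0 * T 1) (T 1 * T 0) 2)
      (hact1 _ _ 3) (hact (T 0 * T 1 * T 2) (T 2 * T 1 * T 0) 3)
      (((hact1 _ _ 2)).add (hact1 _ _ 3))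
    have m123 := oneAdd_mul_oneAdd hd _ _ (hact1 _ _ 1) (hact (T 0) (T 0) 1)
      (((hact1 (T 0 * T 1) (T 1 * T 0) 2)).add (hact1 (T 0 * T 1 * T 2) (T 2 * T 1 * T 0) 3))
      (((hact _ _ 2)).add (hact _ _ 3))
      ((hact1 _ _ 1).add ((hact1 _ _ 2).add (hact1 _ _ 3)))
    have m0123 := oneAdd_mul_oneAdd hd _ _ (hc1 0) (hc 0)
      ((hact1 (T 0) (T 0) 1).add ((hact1 (T 0 * T 1) (T 1 * T 0) 2).add
        (hact1 (T 0 * T 1 * T 2) (T 2 * T 1 * T 0) 3)))
      ((hact _ _ 1).add ((hact _ _ 2).add (hact _ _ 3)))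
      ((hc1 0).add ((hact1 _ _ 1).add ((hact1 _ _ 2).add (hact1 _ _ 3))))
    set r' : V n := c 0 + (act (T 0) (T 0) (c 1) + (act (T 0 * T 1) (T 1 * T 0) (c 2) +
      act (T 0 * T 1 * T 2) (T 2 * T 1 * T 0) (c 3))) with hr'
    have hr'O : OV d r' := (hc 0).add ((hact _ _ 1).add ((hact _ _ 2).add (hact _ _ 3)))
    have hr'1 : OV 1 r' := hr'O.mono (by omega)
    have hM : EqM (d + 1) (oneAdd (c 0) (hc1 0) * (A1 * (A2 * (A3 * (τ 0 * τ 1 * τ 2 * τ 3)))))
        (oneAdd r' hr'1 * (τ 0 * τ 1 * τ 2 * τ 3)) := by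
      have h1 : EqM (d + 1) (oneAdd (c 0) (hc1 0) * (A1 * (A2 * A3))) (oneAdd r' hr'1) :=
        ((EqM.refl (d + 1) (oneAdd (c 0) (hc1 0))).mul
          (((EqM.refl (d + 1) A1).mul m23).trans m123)).trans m0123
      have h2 := h1.mul (EqM.refl (d + 1) (τ 0 * τ 1 * τ 2 * τ 3))
      simpa only [mul_assoc] using h2
    refine (hP.trans (hQ.trans hM)).trans ?_
    intro i
    rw [oneAdd_mul]
    have g1 := sb_lin (τ 0 * τ 1 * τ 2 * τ 3) r' hr'O i
    have hlin : lin (τ 0 * τ 1 * τ 2 * τ 3) = T 0 * T 1 * T 2 * T 3 := by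
      rw [lin_mul, lin_mul, lin_mul, hl, hl, hl, hl]
    rw [hlin] at g1
    have g2 : OV (d + 1) (sb (linMap (T 0 * T 1 * T 2 * T 3)) (sb (linMap N') e - r')) := hr.sb _
    rw [sb_sub, sb_sb, ← linMap_mul, hN'N, linMap_one, sb_one] at g2
    have g3 := g1.sub (g2 i)
    convert g3 using 1
    show (τ 0 * τ 1 * τ 2 * τ 3).toFun i + sb (τ 0 * τ 1 * τ 2 * τ 3) r' i - f.toFun i =
      sb (τ 0 * τ 1 * τ 2 * τ 3) r' i - sb (linMap (T 0 * T 1 * T 2 * T 3)) r' i -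
        ((f.toFun i - (τ 0 * τ 1 * τ 2 * τ 3).toFun i) - sb (linMap (T 0 * T 1 * T 2 * T 3)) r' i)
    ring

/-- **Lifting theorem.** -/
theorem lift_four (T : Fin 4 → Matrix (Fin n) (Fin n) ℂ)
    (hT : ∀ k, T k * T k = 1) (hs : ∀ d, 2 ≤ d → Solv T d) (f : FMap n)
    (hf : lin f = T 0 * T 1 * T 2 * T 3) :
    ∃ τ : Fin 4 → FMap n, (∀ k, τ k * τ k = 1) ∧ τ 0 * τ 1 * τ 2 * τ 3 = f := by
  classical
  -- the sequence of approximations
  let P : ℕ → (Fin 4 → FMap n) → Prop := fun d τ =>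
    (∀ k, τ k * τ k = 1) ∧ (∀ k, lin (τ k) = T k) ∧ EqM d (τ 0 * τ 1 * τ 2 * τ 3) f
  have h0 : P 2 (fun k => linMap (T k)) := by
    refine ⟨fun k => by rw [← linMap_mul, hT, linMap_one], fun k => lin_linMap _, ?_⟩
    rw [← linMap_mul, ← linMap_mul, ← linMap_mul, ← hf]
    exact fun i => (sub_lin_O f i).symm_sub
  have hstep : ∀ d, 2 ≤ d → ∀ τ, P d τ → ∃ τ', P (d + 1) τ' ∧ ∀ k, EqM d (τ' k) (τ k) := by
    intro d hd τ hτ
    obtain ⟨τ', h1, h2, h3, h4⟩ := lift_step hd T hT (hs d hd) f τ hτ.1 hτ.2.1 hτ.2.2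
    exact ⟨τ', ⟨h1, h2, h3⟩, h4⟩
  choose! F hF1 hF2 using hstep
  let s : ℕ → (Fin 4 → FMap n) := fun d => Nat.rec (fun k => linMap (T k))
    (fun k g => F (k + 2) g) d
  have hs1 : ∀ k, P (k + 2) (s k) := by
    intro k
    induction k with
    | zero => exact h0
    | succ k ih => exact hF1 (k + 2) (by omega) (s k) ih
  have hs2 : ∀ j d, 2 ≤ d → EqM d (s (d + 1 - 2) j) (s (d - 2) j) := by
    intro j d hd
    obtain ⟨k, rfl⟩ : ∃ k, d = k + 2 := ⟨d - 2, by omega⟩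
    have e1 : k + 2 + 1 - 2 = k + 1 := by omega
    have e2 : k + 2 - 2 = k := by omega
    rw [e1, e2]
    exact hF2 (k + 2) (by omega) (s k) (hs1 k) j
  have hlim := fun j => exists_limit (fun d => s (d - 2) j) 2 (hs2 j)
  choose τ hτ using hlim
  have hP : ∀ d, 2 ≤ d → P d (s (d - 2)) := by
    intro d hd
    have := hs1 (d - 2)
    have e : d - 2 + 2 = d := by omega
    rwa [e] at this
  refine ⟨τ, fun k => ?_, ?_⟩
  · apply eq_of_EqM
    intro d
    have h1 := ((hτ k (max d 2) (le_max_right _ _)).mul (hτ k (max d 2) (le_max_right _ _)))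
    have h2 := (hP (max d 2) (le_max_right _ _)).1 k
    simp only [h2] at h1
    exact h1.mono (le_max_left _ _)
  · apply eq_of_EqM
    intro d
    have h1 := (((hτ 0 (max d 2) (le_max_right _ _)).mul (hτ 1 (max d 2) (le_max_right _ _))).mul
      (hτ 2 (max d 2) (le_max_right _ _))).mul (hτ 3 (max d 2) (le_max_right _ _))
    have h2 := (hP (max d 2) (le_max_right _ _)).2.2
    exact (h1.trans h2).mono (le_max_left _ _)

end Pool.Agent.RevMaps
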