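import Mathlib
import Pool.Agent.RevMaps.Lift
import Pool.Agent.RevMaps.Four

/-!
# The lemma on vanishing coinvariants

A group of matrices containing an elementary transvection, cyclic in the appropriate sense,
has no coinvariants on tuples of order `≥ 2`.
-/

namespace Pool.Agent.RevMaps

open MvPowerSeries

variable {n : ℕ}

/-- `p ⊗ v` -/
noncomputable def tens (p : PS n) (v : Fin n → ℂ) : V n := fun i => v i • p

theorem tens_add (p q : PS n) (v : Fin n → ℂ) : tens (p + q) v = tens p v + tens q v := by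
  funext i; simp [tens]

theorem tens_sub (p q : PS n) (v : Fin n → ℂ) : tens (p - q) v = tens p v - tens q v := by
  funext i; simp [tens, smul_sub]

theorem tens_smul (c : ℂ) (p : PS n) (v : Fin n → ℂ) : tens (c • p) v = c • tens p v := by
  funext i
  show v i • c • p = c • v i • p
  rw [smul_comm]

theorem tens_add_right (p : PS n) (v w : Fin n → ℂ) : tens p (v + w) = tens p v + tens p w := by
  funext i; simp [tens, add_smul]

theorem tens_smul_right (c : ℂ) (p : PS n) (v : Fin n → ℂ) : tens p (c • v) = c • tens p v := by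
  funext i; simp [tens, mul_smul]

theorem tens_sum {ι : Type*} (s : Finset ι) (f : ι → PS n) (v : Fin n → ℂ) :
    tens (∑ i ∈ s, f i) v = ∑ i ∈ s, tens (f i) v := by
  funext j; simp [tens, Finset.smul_sum]

theorem OV_tens {k : ℕ} {p : PS n} (hp : O k p) (v : Fin n → ℂ) : OV k (tens p v) :=
  fun i => hp.smul (v i)

theorem act_tens (M M' : Matrix (Fin n) (Fin n) ℂ) (p : PS n) (v : Fin n → ℂ) :
    act M M' (tens p v) = tens (p.subst (linMap M').toFun) (M.mulVec v) := by
  funext i
  simp only [act, mv, sb, tens, Matrix.mulVec, dotProduct, Finset.sum_smul]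
  apply Finset.sum_congr rfl
  intro j _
  rw [subst_smulC, smul_smul]

/-- linear form -/
noncomputable def ell (φ : Fin n → ℂ) : PS n := ∑ j, φ j • (X j : PS n)

theorem O_ell (φ : Fin n → ℂ) : O 1 (ell φ) := O.sum (fun j _ => (O_X j).smul _)

theorem ell_add (φ ψ : Fin n → ℂ) : ell (φ + ψ) = ell φ + ell ψ := by
  simp [ell, add_smul, Finset.sum_add_distrib]

theorem ell_smul (c : ℂ) (φ : Fin n → ℂ) : ell (c • φ) = c • ell φ := by
  simp [ell, mul_smul, Finset.smul_sum]

theorem ell_single (j : Fin n) : ell (Pi.single j 1) = (X j : PS n) := by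
  rw [ell, Finset.sum_eq_single j]
  · simp
  · intro k _ hk; simp [hk]
  · simp

theorem subst_X_linMap (M : Matrix (Fin n) (Fin n) ℂ) (i : Fin n) :
    (X i : PS n).subst (linMap M).toFun = ell (M i) := by
  rw [subst_X (linMap M).hasSubst]; rfl

theorem subst_mulC (g : FMap n) (p q : PS n) :
    (p * q).subst g.toFun = p.subst g.toFun * q.subst g.toFun := by
  rw [subst_mul g.hasSubst]

theorem subst_powC (g : FMap n) (p : PS n) (k : ℕ) :
    (p ^ k).subst g.toFun = (p.subst g.toFun) ^ k := by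
  rw [subst_pow g.hasSubst]

theorem subst_subC (g : FMap n) (p q : PS n) :
    (p - q).subst g.toFun = p.subst g.toFun - q.subst g.toFun := by
  rw [subst_sub g.hasSubst]

theorem subst_oneC (g : FMap n) : (1 : PS n).subst g.toFun = 1 := by
  rw [← coe_substAlgHom (R := ℂ) g.hasSubst, map_one]

theorem subst_cancel (M M' : Matrix (Fin n) (Fin n) ℂ) (h : M * M' = 1) (p : PS n) :
    (p.subst (linMap M).toFun).subst (linMap M').toFun = p := by
  have := congrFun (sb_sb (linMap M) (linMap M') (fun _ => p))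
  rcases Nat.eq_zero_or_pos n with hn | hn
  · subst hn
    ext m
    have hm : m = 0 := by ext i; exact i.elim0
    subst hm
    have e1 : ∀ (q : PS 0) (g : FMap 0), coeff 0 (q.subst g.toFun) = coeff 0 q := by
      intro q g
      rw [coeff_subst g.hasSubst, finsum_eq_single _ (0 : Fin 0 →₀ ℕ)]
      · simp
      · intro x hx
        exact absurd (by ext i; exact i.elim0) hx
    rw [e1, e1]
  · have h1 := this ⟨0, hn⟩
    rw [← linMap_mul, h, linMap_one, sb_one] at h1
    exact h1

/-- submodule criterion via monomials -/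
theorem le_of_monomials (W : Submodule ℂ (PS n)) (k : ℕ)
    (h1 : ∀ m : Fin n →₀ ℕ, m.degree = k → (monomial m (1 : ℂ)) ∈ W)
    (h2 : ∀ q : PS n, O (k + 1) q → q ∈ W) : ∀ q : PS n, O k q → q ∈ W := by
  classical
  intro q hq
  set S := (Finset.univ : Finset (Fin n)).finsuppAntidiag k with hS
  have hmem : ∀ m : Fin n →₀ ℕ, m ∈ S ↔ m.degree = k := by
    intro m
    rw [hS, Finset.mem_finsuppAntidiag, Finsupp.degree_eq_sum]
    simp
  have h3 : O (k + 1) (q - ∑ m ∈ S, coeff m q • monomial m (1 : ℂ)) := by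
    intro m hm
    rw [map_sub, map_sum]
    rcases Nat.lt_or_ge m.degree k with h | h
    · rw [hq m h, Finset.sum_eq_zero, sub_zero]
      intro m' hm'
      rw [map_smul, coeff_monomial, if_neg, smul_zero]
      rintro rfl
      rw [hmem] at hm'
      omega
    · have h4 : m.degree = k := by omega
      rw [Finset.sum_eq_single m]
      · rw [map_smul, coeff_monomial_same]; simp
      · intro m' _ hne
        rw [map_smul, coeff_monomial, if_neg hne.symm, smul_zero]
      · intro h5
        exact absurd ((hmem m).mpr h4) h5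
  have h5 : ∑ m ∈ S, coeff m q • monomial m (1 : ℂ) ∈ W :=
    W.sum_mem (fun m hm => W.smul_mem _ (h1 m ((hmem m).mp hm)))
  have h6 := W.add_mem (h2 _ h3) h5
  rwa [sub_add_cancel] at h6

theorem O_monomial (m : Fin n →₀ ℕ) : O m.degree (monomial m (1 : ℂ) : PS n) := by
  classical
  intro m' hm'
  rw [coeff_monomial, if_neg]
  rintro rfl
  omega

/-- `(M, M')` is a pair of inverse matrices acting trivially modulo `Z` in order `≥ d`. -/
def Good (Z : Submodule ℂ (V n)) (d : ℕ) (M M' : Matrix (Fin n) (Fin n) ℂ) : Prop :=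
  M * M' = 1 ∧ M' * M = 1 ∧ ∀ a : V n, OV d a → a - act M M' a ∈ Z

theorem Good.stable {Z : Submodule ℂ (V n)} {d : ℕ} {M M' : Matrix (Fin n) (Fin n) ℂ}
    (h : Good Z d M M') {a : V n} (ha : OV d a) (haZ : a ∈ Z) : act M M' a ∈ Z := by
  have := Z.sub_mem haZ (h.2.2 a ha)
  rwa [sub_sub_cancel] at this

theorem Good.one (Z : Submodule ℂ (V n)) (d : ℕ) : Good Z d 1 1 :=
  ⟨by simp, by simp, fun a _ => by rw [act_one, sub_self]; exact Z.zero_mem⟩

theorem Good.mul {Z : Submodule ℂ (V n)} {d : ℕ} {M M' N N' : Matrix (Fin n) (Fin n) ℂ}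
    (h : Good Z d M M') (h' : Good Z d N N') : Good Z d (M * N) (N' * M') := by
  refine ⟨?_, ?_, fun a ha => ?_⟩
  · calc M * N * (N' * M') = M * (N * N') * M' := by simp only [mul_assoc]
      _ = 1 := by rw [h'.1, mul_one, h.1]
  · calc N' * M' * (M * N) = N' * (M' * M) * N := by simp only [mul_assoc]
      _ = 1 := by rw [h.2.1, mul_one, h'.2.1]
  · have h1 := h.2.2 a ha
    have h2 := h.stable (ha.sub (ha.act N N')) (h'.2.2 a ha)
    rw [act_sub, act_act] at h2
    have := Z.add_mem h1 h2
    rwa [sub_add_sub_cancel] at this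

theorem Good.inv {Z : Submodule ℂ (V n)} {d : ℕ} {M M' : Matrix (Fin n) (Fin n) ℂ}
    (h : Good Z d M M') : Good Z d M' M := by
  refine ⟨h.2.1, h.1, fun a ha => ?_⟩
  have h1 := h.2.2 (act M' M a) (ha.act M' M)
  rw [act_act, h.1, act_one] at h1
  have := Z.neg_mem h1
  rwa [neg_sub] at this

theorem sub_pow_expand {R : Type*} [CommRing R] (x y : R) (j : ℕ) :
    x ^ (j + 1) - (x - y) ^ (j + 1) = (j + 1 : ℕ) * (y * x ^ j) -
      ∑ m ∈ Finset.range j, x ^ m * (-y) ^ (j + 1 - m) * ((j + 1).choose m : R) := by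
  rw [sub_eq_add_neg x y, add_pow, Finset.sum_range_succ, Finset.sum_range_succ]
  have e1 : j + 1 - j = 1 := by omega
  simp only [Nat.sub_self, pow_zero, mul_one, Nat.choose_self, Nat.cast_one, e1, pow_one,
    Nat.choose_succ_self_right]
  ring

section main

variable (Z : Submodule ℂ (V n)) (d : ℕ) (i0 i1 : Fin n)

/-- the elementary transvection and its inverse -/
noncomputable def EE (i0 i1 : Fin n) : Matrix (Fin n) (Fin n) ℂ := 1 + Matrix.single i0 i1 1
/-- inverse transvection -/
noncomputable def EE' (i0 i1 : Fin n) : Matrix (Fin n) (Fin n) ℂ := 1 - Matrix.single i0 i1 1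

/-- invariance under the transvection -/
def Inv (i0 i1 : Fin n) (ρ : PS n) : Prop := ρ.subst (linMap (EE' i0 i1)).toFun = ρ

variable {i0 i1}

theorem EE'_row (j : Fin n) : EE' i0 i1 j = Pi.single j 1 - (if j = i0 then Pi.single i1 1 else 0) := by
  funext k
  simp only [EE', Matrix.sub_apply, Matrix.one_apply, Matrix.single_apply, Pi.sub_apply,
    Pi.single_apply]
  by_cases h : j = i0
  · subst h
    by_cases h2 : k = i1
    · subst h2; simp [eq_comm]
    · simp [h2, Ne.symm h2, eq_comm]
  · simp [h, Ne.symm h, eq_comm]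

theorem subst_X0 : (X i0 : PS n).subst (linMap (EE' i0 i1)).toFun = X i0 - X i1 := by
  rw [subst_X_linMap, EE'_row, if_pos rfl, sub_eq_add_neg, ell_add]
  have : ell (-(Pi.single i1 1 : Fin n → ℂ)) = - (X i1 : PS n) := by
    have h := ell_smul (-1 : ℂ) (Pi.single i1 1 : Fin n → ℂ)
    rw [ell_single] at h
    rw [show (-(Pi.single i1 1 : Fin n → ℂ)) = (-1 : ℂ) • (Pi.single i1 1) by simp, h]
    simp
  rw [this, ell_single, sub_eq_add_neg]

theorem Inv_X {j : Fin n} (hj : j ≠ i0) : Inv i0 i1 (X j) := by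
  unfold Inv
  rw [subst_X_linMap, EE'_row, if_neg hj, sub_zero, ell_single]

theorem Inv_one : Inv i0 i1 (1 : PS n) := subst_oneC _

theorem Inv.mul {p q : PS n} (hp : Inv i0 i1 p) (hq : Inv i0 i1 q) : Inv i0 i1 (p * q) := by
  unfold Inv at *
  rw [subst_mulC, hp, hq]

theorem Inv.pow {p : PS n} (hp : Inv i0 i1 p) (k : ℕ) : Inv i0 i1 (p ^ k) := by
  unfold Inv at *
  rw [subst_powC, hp]

theorem Inv_monomial (m : Fin n →₀ ℕ) (hm : m i0 = 0) : Inv i0 i1 (monomial m (1 : ℂ)) := by
  induction m using Finsupp.induction_linear with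
  | zero => simpa using Inv_one
  | add m m' h h' =>
    rw [Finsupp.add_apply] at hm
    have h1 : (monomial (m + m') (1 : ℂ) : PS n) = monomial m 1 * monomial m' 1 := by
      rw [monomial_mul_monomial, one_mul]
    rw [h1]
    exact (h (by omega)).mul (h' (by omega))
  | single i e =>
    rw [← X_pow_eq]
    by_cases hi : i = i0
    · subst hi
      have : e = 0 := by simpa using hm
      rw [this, pow_zero]; exact Inv_one
    · exact (Inv_X hi).pow e

theorem monomial_split (m : Fin n →₀ ℕ) (i0 : Fin n) :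
    (monomial m (1 : ℂ) : PS n) = X i0 ^ (m i0) * monomial (m.erase i0) 1 := by
  rw [X_pow_eq, monomial_mul_monomial, one_mul, Finsupp.single_add_erase]

theorem degree_erase (m : Fin n →₀ ℕ) (i0 : Fin n) :
    m i0 + (m.erase i0).degree = m.degree := by
  conv_rhs => rw [← Finsupp.single_add_erase i0 m, map_add, Finsupp.degree_single]

variable {Z d}

theorem mulVec_EE_of_zero {v : Fin n → ℂ} (hv : v i1 = 0) : (EE i0 i1).mulVec v = v := by
  rw [EE, Matrix.add_mulVec, Matrix.one_mulVec]
  have : (Matrix.single i0 i1 (1 : ℂ)).mulVec v = 0 := by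
    funext k
    simp only [Matrix.mulVec, dotProduct, Matrix.single_apply, Pi.zero_apply]
    apply Finset.sum_eq_zero
    intro j _
    by_cases h : i0 = k ∧ i1 = j
    · rw [if_pos h, ← h.2, hv, mul_zero]
    · rw [if_neg h, zero_mul]
  rw [this, add_zero]

theorem mulVec_EE_single (h01 : i0 ≠ i1) : (EE i0 i1).mulVec (Pi.single i1 1) =
    Pi.single i1 1 + Pi.single i0 1 := by
  rw [EE, Matrix.add_mulVec, Matrix.one_mulVec]
  congr 1
  funext k
  rw [Matrix.mulVec_single_one, Matrix.col_apply, Matrix.single_apply, Pi.single_apply]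
  by_cases h : k = i0
  · subst h; simp
  · simp [h, Ne.symm h]

variable (hE : Good Z d (EE i0 i1) (EE' i0 i1)) (h01 : i0 ≠ i1)
include hE h01

omit h01 in
theorem claim_base {k : ℕ} (ρ : PS n) (hρ : Inv i0 i1 ρ) (hk : k ≤ d) (hO : O (d - k) ρ)
    (v : Fin n → ℂ) (hv : v i1 = 0) :
    tens ((X i0 ^ k - (X i0 - X i1) ^ k) * ρ) v ∈ Z := by
  have h1 : O d (X i0 ^ k * ρ : PS n) := ((O_pow (O_X i0)).mul hO).mono (by omega)
  have h2 := hE.2.2 _ (OV_tens h1 v)
  rw [act_tens, subst_mulC, subst_powC, subst_X0, mulVec_EE_of_zero hv, ← tens_sub] at h2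
  unfold Inv at hρ
  rw [hρ, ← sub_mul] at h2
  exact h2

theorem claimA (j : ℕ) : ∀ (ρ : PS n), Inv i0 i1 ρ → j + 1 ≤ d → O (d - (j + 1)) ρ →
    ∀ v : Fin n → ℂ, v i1 = 0 → tens (X i1 * X i0 ^ j * ρ) v ∈ Z := by
  induction j using Nat.strong_induction_on with
  | _ j ih =>
    intro ρ hρ hj hO v hv
    have h1 := claim_base hE ρ hρ hj hO v hv
    rw [sub_pow_expand, sub_mul, tens_sub, Finset.sum_mul, tens_sum] at h1
    have h2 : ∑ m ∈ Finset.range j, tens (X i0 ^ m * (-X i1) ^ (j + 1 - m) *
        ((j + 1).choose m : PS n) * ρ) v ∈ Z := by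
      apply Z.sum_mem
      intro m hm
      have hm' : m < j := Finset.mem_range.mp hm
      have h3 := ih m hm' (X i1 ^ (j - m) * ρ) ((Inv_X (Ne.symm h01)).pow _ |>.mul hρ)
        (by omega) (((O_pow (O_X i1)).mul hO).mono (by omega)) v hv
      have h4 : (X i0 ^ m * (-X i1) ^ (j + 1 - m) * ((j + 1).choose m : PS n) * ρ) =
          ((-1 : ℂ) ^ (j + 1 - m) * ((j + 1).choose m : ℂ)) •
            (X i1 * X i0 ^ m * (X i1 ^ (j - m) * ρ)) := by
        have e1 : j + 1 - m = (j - m) + 1 := by omega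
        rw [e1, neg_pow, MvPowerSeries.smul_eq_C_mul, map_mul, map_pow, map_neg, map_one,
          map_natCast]
        ring
      rw [h4, tens_smul]
      exact Z.smul_mem _ h3
    have h5 := Z.add_mem h1 h2
    rw [sub_add_cancel] at h5
    have h6 : (((j + 1 : ℕ) : PS n) * (X i1 * X i0 ^ j) * ρ) =
        ((j + 1 : ℕ) : ℂ) • (X i1 * X i0 ^ j * ρ) := by
      rw [MvPowerSeries.smul_eq_C_mul, map_natCast]; ring
    rw [h6, tens_smul] at h5
    exact (Z.smul_mem_iff (by exact_mod_cast Nat.succ_ne_zero j)).mp h5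

/-- the relation (1') -/
theorem claim_rel {k : ℕ} (ρ : PS n) (hρ : Inv i0 i1 ρ) (hk : k ≤ d) (hO : O (d - k) ρ) :
    tens ((X i0 ^ k - (X i0 - X i1) ^ k) * ρ) (Pi.single i1 1) -
      tens (X i0 ^ k * ρ) (Pi.single i0 1) ∈ Z := by
  have h1 : O d (X i0 ^ k * ρ : PS n) := ((O_pow (O_X i0)).mul hO).mono (by omega)
  have h2 := hE.2.2 _ (OV_tens h1 (Pi.single i1 1))
  rw [act_tens, subst_mulC, subst_powC, subst_X0, mulVec_EE_single h01] at h2
  have hρ' := hρ
  unfold Inv at hρ'
  rw [hρ', tens_add_right, ← sub_sub, ← tens_sub, ← sub_mul] at h2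
  have h3 := claim_base hE ρ hρ hk hO (Pi.single i0 1) (by simp [h01])
  have h4 := Z.sub_mem h2 h3
  have : tens ((X i0 ^ k - (X i0 - X i1) ^ k) * ρ) (Pi.single i1 1) -
      tens ((X i0 - X i1) ^ k * ρ) (Pi.single i0 1) -
      tens ((X i0 ^ k - (X i0 - X i1) ^ k) * ρ) (Pi.single i0 1) =
      tens ((X i0 ^ k - (X i0 - X i1) ^ k) * ρ) (Pi.single i1 1) -
      tens (X i0 ^ k * ρ) (Pi.single i0 1) := by
    rw [sub_mul, tens_sub, tens_sub]; abel
  rwa [this] at h4

theorem claimB (j : ℕ) : ∀ (ρ : PS n), Inv i0 i1 ρ → j + 2 ≤ d → O (d - (j + 2)) ρ →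
    tens (X i1 ^ 2 * X i0 ^ j * ρ) (Pi.single i1 1) ∈ Z := by
  induction j using Nat.strong_induction_on with
  | _ j ih =>
    intro ρ hρ hj hO
    have hρ' : Inv i0 i1 (X i1 * ρ) := (Inv_X (Ne.symm h01)).mul hρ
    have hO' : O (d - (j + 1)) (X i1 * ρ) := ((O_X i1).mul hO).mono (by omega)
    have h1 := claim_rel hE h01 (k := j + 1) (X i1 * ρ) hρ' (by omega) hO'
    have h2 := claimA hE h01 (j + 1) ρ hρ (by omega) (hO.mono (by omega)) (Pi.single i0 1)
      (by simp [h01])
    have h3 := Z.add_mem h1 h2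
    have e0 : (X i0 ^ (j + 1) * (X i1 * ρ) : PS n) = X i1 * X i0 ^ (j + 1) * ρ := by ring
    rw [e0, sub_add_cancel, sub_pow_expand, sub_mul, tens_sub, Finset.sum_mul, tens_sum] at h3
    have h4 : ∑ m ∈ Finset.range j, tens (X i0 ^ m * (-X i1) ^ (j + 1 - m) *
        ((j + 1).choose m : PS n) * (X i1 * ρ)) (Pi.single i1 1) ∈ Z := by
      apply Z.sum_mem
      intro m hm
      have hm' : m < j := Finset.mem_range.mp hm
      have h3 := ih m hm' (X i1 ^ (j - m) * ρ) ((Inv_X (Ne.symm h01)).pow _ |>.mul hρ)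
        (by omega) (((O_pow (O_X i1)).mul hO).mono (by omega))
      have h4 : (X i0 ^ m * (-X i1) ^ (j + 1 - m) * ((j + 1).choose m : PS n) * (X i1 * ρ)) =
          ((-1 : ℂ) ^ (j + 1 - m) * ((j + 1).choose m : ℂ)) •
            (X i1 ^ 2 * X i0 ^ m * (X i1 ^ (j - m) * ρ)) := by
        have e1 : j + 1 - m = (j - m) + 1 := by omega
        rw [e1, neg_pow, MvPowerSeries.smul_eq_C_mul, map_mul, map_pow, map_neg, map_one,
          map_natCast]
        ring
      rw [h4, tens_smul]
      exact Z.smul_mem _ h3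
    have h5 := Z.add_mem h3 h4
    rw [sub_add_cancel] at h5
    have h6 : (((j + 1 : ℕ) : PS n) * (X i1 * X i0 ^ j) * (X i1 * ρ)) =
        ((j + 1 : ℕ) : ℂ) • (X i1 ^ 2 * X i0 ^ j * ρ) := by
      rw [MvPowerSeries.smul_eq_C_mul, map_natCast]; ring
    rw [h6, tens_smul] at h5
    exact (Z.smul_mem_iff (by exact_mod_cast Nat.succ_ne_zero j)).mp h5

omit hE h01 in
/-- linear map `q ↦ (h q) ⊗ v` -/
noncomputable def Lm (h : PS n) (v : Fin n → ℂ) : PS n →ₗ[ℂ] V n where
  toFun q := tens (h * q) v
  map_add' p q := by rw [mul_add, tens_add]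
  map_smul' c p := by rw [mul_smul_comm, tens_smul]; rfl

variable (hZ : ∀ a : V n, OV (d + 1) a → a ∈ Z) (hd : 2 ≤ d)
include hZ hd

theorem claimA' (q : PS n) (hq : O (d - 1) q) (v : Fin n → ℂ) (hv : v i1 = 0) :
    tens (X i1 * q) v ∈ Z := by
  refine le_of_monomials (Z.comap (Lm (X i1) v)) (d - 1) ?_ ?_ q hq
  · intro m hm
    rw [Submodule.mem_comap]
    show tens (X i1 * monomial m 1) v ∈ Z
    rw [monomial_split m i0, ← mul_assoc]
    have hdeg := degree_erase m i0
    apply claimA hE h01 (m i0) _ (Inv_monomial _ (by simp)) (by omega) _ v hv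
    exact (O_monomial _).mono (by omega)
  · intro q hq
    rw [Submodule.mem_comap]
    exact hZ _ (OV_tens (((O_X i1).mul hq).mono (by omega)) v)

theorem claimB' (q : PS n) (hq : O (d - 2) q) (v : Fin n → ℂ) :
    tens (X i1 * (X i1 * q)) v ∈ Z := by
  have h1 : tens (X i1 * (X i1 * q)) (Pi.single i1 1) ∈ Z := by
    have : ∀ q : PS n, O (d - 2) q → tens (X i1 ^ 2 * q) (Pi.single i1 1) ∈ Z := by
      intro q hq
      refine le_of_monomials (Z.comap (Lm (X i1 ^ 2) (Pi.single i1 1))) (d - 2) ?_ ?_ q hq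
      · intro m hm
        rw [Submodule.mem_comap]
        show tens (X i1 ^ 2 * monomial m 1) (Pi.single i1 1) ∈ Z
        rw [monomial_split m i0, ← mul_assoc]
        have hdeg := degree_erase m i0
        apply claimB hE h01 (m i0) _ (Inv_monomial _ (by simp)) (by omega) _
        exact (O_monomial _).mono (by omega)
      · intro q hq
        rw [Submodule.mem_comap]
        exact hZ _ (OV_tens ((((O_pow (O_X i1) : O 2 _)).mul hq).mono (by omega)) _)
    have h2 := this q hq
    rwa [sq, mul_assoc] at h2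
  have h2 := claimA' hE h01 hZ hd (X i1 * q) (((O_X i1).mul hq).mono (by omega))
    (v - v i1 • Pi.single i1 1) (by simp)
  have h3 := Z.add_mem h2 (Z.smul_mem (v i1) h1)
  rw [← tens_smul_right, ← tens_add_right, sub_add_cancel] at h3
  exact h3

theorem claim4 {γ γ' : Matrix (Fin n) (Fin n) ℂ} (hγ : Good Z d γ γ') (q : PS n)
    (hq : O (d - 1) q) (v : Fin n → ℂ) (hv : (γ'.mulVec v) i1 = 0) :
    tens (ell (γ' i1) * q) v ∈ Z := by
  have hq2 : O (d - 1) (q.subst (linMap γ).toFun) := O_subst hq (linMap γ).O1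
  have h1 := claimA' hE h01 hZ hd _ hq2 _ hv
  have h2 := hγ.stable (OV_tens (((O_X i1).mul hq2).mono (by omega)) _) h1
  rw [act_tens, subst_mulC, subst_cancel γ γ' hγ.1, subst_X_linMap, Matrix.mulVec_mulVec, hγ.1,
    Matrix.one_mulVec] at h2
  exact h2

theorem claimC {γ γ' : Matrix (Fin n) (Fin n) ℂ} (hγ : Good Z d γ γ') (q : PS n)
    (hq : O (d - 2) q) (v : Fin n → ℂ) :
    tens (X i1 * (ell (γ' i1) * q)) v ∈ Z := by
  by_cases h : ∃ j, j ≠ i1 ∧ γ' i1 j ≠ 0
  · obtain ⟨j, hj, hjne⟩ := h
    set w : Fin n → ℂ := ((γ'.mulVec v) i1 / γ' i1 j) • Pi.single j 1 with hw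
    have hw1 : w i1 = 0 := by simp [hw, Ne.symm hj]
    have h1 := claimA' hE h01 hZ hd (ell (γ' i1) * q) (((O_ell _).mul hq).mono (by omega)) w hw1
    have h2 := claim4 hE h01 hZ hd hγ (X i1 * q) (((O_X i1).mul hq).mono (by omega)) (v - w) (by
      rw [Matrix.mulVec_sub, Pi.sub_apply, hw, Matrix.mulVec_smul, Pi.smul_apply,
        Matrix.mulVec_single_one, Matrix.col_apply, smul_eq_mul, div_mul_cancel₀ _ hjne, sub_self])
    have e : ell (γ' i1) * (X i1 * q) = X i1 * (ell (γ' i1) * q) := by ring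
    rw [e] at h2
    have h3 := Z.add_mem h2 h1
    rwa [← tens_add_right, sub_add_cancel] at h3
  · push Not at h
    have h1 : ell (γ' i1) = γ' i1 i1 • X i1 := by
      rw [ell, Finset.sum_eq_single i1]
      · intro j _ hj; rw [h j hj, zero_smul]
      · simp
    rw [h1, smul_mul_assoc, mul_smul_comm, tens_smul]
    exact Z.smul_mem _ (claimB' hE h01 hZ hd q hq v)

variable {T : Fin 4 → Matrix (Fin n) (Fin n) ℂ} (hT : ∀ k, Good Z d (T k) (T k))
include hT

theorem claimD (hco : CoGen T (Pi.single i1 1)) (φ : Fin n → ℂ) (q : PS n) (hq : O (d - 2) q)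
    (v : Fin n → ℂ) : tens (X i1 * (ell φ * q)) v ∈ Z := by
  let W : Submodule ℂ (Fin n → ℂ) :=
    { carrier := {φ | ∀ q : PS n, O (d - 2) q → ∀ v, tens (X i1 * (ell φ * q)) v ∈ Z}
      add_mem' := by
        intro φ ψ hφ hψ q hq v
        rw [ell_add, add_mul, mul_add, tens_add]
        exact Z.add_mem (hφ q hq v) (hψ q hq v)
      zero_mem' := by
        intro q hq v
        have : ell (0 : Fin n → ℂ) = 0 := by simp [ell]
        rw [this, zero_mul, mul_zero]
        have : tens (0 : PS n) v = 0 := by funext i; simp [tens]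
        rw [this]; exact Z.zero_mem
      smul_mem' := by
        intro c φ hφ q hq v
        rw [ell_smul, smul_mul_assoc, mul_smul_comm, tens_smul]
        exact Z.smul_mem _ (hφ q hq v) }
  set S : Set (Fin n → ℂ) := {w | ∃ γ γ', Good Z d γ γ' ∧ w = γ' i1} with hS
  have hSW : Submodule.span ℂ S ≤ W := by
    rw [Submodule.span_le]
    rintro w ⟨γ, γ', hγ, rfl⟩ q hq v
    exact claimC hE h01 hZ hd hγ q hq v
  have htop : Submodule.span ℂ S = ⊤ := by
    apply hco
    · apply Submodule.subset_span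
      refine ⟨1, 1, Good.one Z d, ?_⟩
      funext k
      simp [Matrix.one_apply, Pi.single_apply, eq_comm]
    · intro i w hw
      have : Submodule.span ℂ S ≤ (Submodule.span ℂ S).comap (Matrix.vecMulLinear (T i)) := by
        rw [Submodule.span_le]
        rintro w ⟨γ, γ', hγ, rfl⟩
        show Matrix.vecMulLinear (T i) (γ' i1) ∈ Submodule.span ℂ S
        apply Submodule.subset_span
        refine ⟨T i * γ, γ' * T i, (hT i).mul hγ, ?_⟩
        rw [Matrix.vecMulLinear_apply]
        funext k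
        rfl
      exact this hw
  have : φ ∈ W := hSW (by rw [htop]; trivial)
  exact this q hq v

theorem hlemma (hgen : Gen T (Pi.single i0 1)) (hco : CoGen T (Pi.single i1 1)) (a : V n)
    (ha : OV d a) : a ∈ Z := by
  -- all multiples of `X i1`
  have hD : ∀ q : PS n, O (d - 1) q → ∀ v, tens (X i1 * q) v ∈ Z := by
    intro q hq v
    refine le_of_monomials (Z.comap (Lm (X i1) v)) (d - 1) ?_ ?_ q hq
    · intro m hm
      rw [Submodule.mem_comap]
      show tens (X i1 * monomial m 1) v ∈ Z
      have hm0 : m ≠ 0 := by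
        rintro rfl
        simp at hm; omega
      obtain ⟨j, hj⟩ := Finsupp.support_nonempty_iff.mpr hm0
      have hj' : 1 ≤ m j := Nat.one_le_iff_ne_zero.mpr (Finsupp.mem_support_iff.mp hj)
      obtain ⟨m', rfl⟩ := exists_add_of_le (Finsupp.single_le_iff.mpr hj' :
        Finsupp.single j 1 ≤ m)
      have h1 : (monomial (Finsupp.single j 1 + m') (1 : ℂ) : PS n) =
          ell (Pi.single j 1) * monomial m' 1 := by
        rw [ell_single, X, monomial_mul_monomial, one_mul]
      rw [h1]
      apply claimD hE h01 hZ hd hT hco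
      rw [map_add, Finsupp.degree_single] at hm
      exact (O_monomial m').mono (by omega)
    · intro q hq
      rw [Submodule.mem_comap]
      exact hZ _ (OV_tens (((O_X i1).mul hq).mono (by omega)) v)
  -- everything in direction e0
  have hE0 : ∀ p : PS n, O d p → tens p (Pi.single i0 1) ∈ Z := by
    intro p hp
    have h1 : tens (1 * p) (Pi.single i0 1) ∈ Z := by
      refine le_of_monomials (Z.comap (Lm 1 (Pi.single i0 1))) d ?_ ?_ p hp
      · intro m hm
        rw [Submodule.mem_comap]
        show tens (1 * monomial m 1) (Pi.single i0 1) ∈ Z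
        have hdeg := degree_erase m i0
        have hOe : O (d - m i0) (monomial (m.erase i0) (1 : ℂ) : PS n) :=
          (O_monomial _).mono (by omega)
        have h2 := claim_rel hE h01 (k := m i0) (monomial (m.erase i0) 1)
          (Inv_monomial _ (by simp)) (by omega) hOe
        have h3 : tens ((X i0 ^ (m i0) - (X i0 - X i1) ^ (m i0)) * monomial (m.erase i0) 1)
            (Pi.single i1 1) ∈ Z := by
          rcases Nat.eq_zero_or_pos (m i0) with h0 | h0
          · rw [h0]
            have : ((X i0 : PS n) ^ 0 - (X i0 - X i1) ^ 0) * monomial (m.erase i0) 1 = 0 := by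
              simp
            rw [this]
            have : tens (0 : PS n) (Pi.single i1 1) = 0 := by funext i; simp [tens]
            rw [this]; exact Z.zero_mem
          · obtain ⟨j, hj⟩ : ∃ j, m i0 = j + 1 := ⟨m i0 - 1, by omega⟩
            have h4 : ((X i0 : PS n) ^ (m i0) - (X i0 - X i1) ^ (m i0)) =
                X i1 * ∑ i ∈ Finset.range (m i0), X i0 ^ i * (X i0 - X i1) ^ (m i0 - 1 - i) := by
              have := (Commute.all (X i0 : PS n) (X i0 - X i1)).geom_sum₂_mul (m i0)
              rw [sub_sub_cancel] at this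
              rw [← this, mul_comm]
            rw [h4, mul_assoc]
            apply hD
            have h5 : O (m i0 - 1) (∑ i ∈ Finset.range (m i0), (X i0 : PS n) ^ i *
                (X i0 - X i1) ^ (m i0 - 1 - i)) := by
              apply O.sum
              intro i hi
              have hi' := Finset.mem_range.mp hi
              refine ((O_pow (O_X i0)).mul (O_pow (k := m i0 - 1 - i)
                ((O_X i0).sub (O_X i1)))).mono (by omega)
            exact (h5.mul hOe).mono (by omega)
        have h4 := Z.sub_mem h3 h2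
        rw [sub_sub_cancel, ← monomial_split m i0] at h4
        rwa [one_mul]
      · intro q hq
        rw [Submodule.mem_comap]
        show tens (1 * q) _ ∈ Z
        rw [one_mul]
        exact hZ _ (OV_tens hq _)
    rwa [one_mul] at h1
  -- all directions
  let W : Submodule ℂ (Fin n → ℂ) :=
    { carrier := {v | ∀ p : PS n, O d p → tens p v ∈ Z}
      add_mem' := by
        intro v w hv hw p hp
        rw [tens_add_right]
        exact Z.add_mem (hv p hp) (hw p hp)
      zero_mem' := by
        intro p hp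
        have : tens p (0 : Fin n → ℂ) = 0 := by funext i; simp [tens]
        rw [this]; exact Z.zero_mem
      smul_mem' := by
        intro c v hv p hp
        rw [tens_smul_right]
        exact Z.smul_mem _ (hv p hp) }
  have hW : W = ⊤ := by
    apply hgen
    · exact hE0
    · intro i w hw p hp
      have hp2 : O d (p.subst (linMap (T i)).toFun) := O_subst hp (linMap (T i)).O1
      have h1 := (hT i).stable (OV_tens hp2 w) (hw _ hp2)
      rwa [act_tens, subst_cancel _ _ (hT i).1] at h1
  have hall : ∀ (v : Fin n → ℂ) (p : PS n), O d p → tens p v ∈ Z := by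
    intro v
    have : v ∈ W := by rw [hW]; trivial
    exact this
  have h1 : a = ∑ i, tens (a i) (Pi.single i 1) := by
    funext j
    rw [Finset.sum_apply, Finset.sum_eq_single j]
    · simp [tens]
    · intro i _ hi; simp [tens, Ne.symm hi]
    · simp
  rw [h1]
  exact Z.sum_mem (fun i _ => hall _ _ (ha i))

end main

end Pool.Agent.RevMaps
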