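import Mathlib
import Pool.Agent.RevMaps.Hom

/-!
First order Taylor expansion of a substitution and the bracket of two tuples.
-/

namespace Pool.Agent.RevMaps

open MvPowerSeries

variable {n : ℕ}

theorem O_pderiv {k : ℕ} {p : PS n} (hp : O (k + 1) p) (j : Fin n) : O k (pderiv ℂ j p) := by
  intro m hm
  rw [coeff_pderiv, hp _ (by rw [map_add, Finsupp.degree_single]; omega), zero_mul]

theorem O_pderiv' {e k : ℕ} {p : PS n} (hp : O e p) (h : k + 1 ≤ e) (j : Fin n) :
    O k (pderiv ℂ j p) := O_pderiv (hp.mono h) j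

/-- derivative of `p` in the direction `q` -/
noncomputable def Dd (q : V n) (p : PS n) : PS n := ∑ j, pderiv ℂ j p * q j

theorem Dd_add (q : V n) (p p' : PS n) : Dd q (p + p') = Dd q p + Dd q p' := by
  simp [Dd, add_mul, Finset.sum_add_distrib]

theorem Dd_sub (q : V n) (p p' : PS n) : Dd q (p - p') = Dd q p - Dd q p' := by
  simp [Dd, sub_mul, Finset.sum_sub_distrib]

theorem Dd_smul (q : V n) (c : ℂ) (p : PS n) : Dd q (c • p) = c • Dd q p := by
  simp [Dd, Finset.smul_sum]

theorem Dd_sum (q : V n) {ι : Type*} (s : Finset ι) (f : ι → PS n) :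
    Dd q (∑ i ∈ s, f i) = ∑ i ∈ s, Dd q (f i) := by
  simp only [Dd, map_sum, Finset.sum_mul]
  rw [Finset.sum_comm]

theorem Dd_mul (q : V n) (p p' : PS n) : Dd q (p * p') = p * Dd q p' + p' * Dd q p := by
  simp only [Dd, Derivation.leibniz, smul_eq_mul, add_mul, Finset.sum_add_distrib, Finset.mul_sum]
  congr 1 <;> exact Finset.sum_congr rfl (fun j _ => by ring)

theorem Dd_X (q : V n) (i : Fin n) : Dd q (X i) = q i := by
  classical
  rw [Dd, Finset.sum_eq_single i]
  · simp
  · intro j _ hj
    rw [pderiv_X_of_ne (Ne.symm hj), zero_mul]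
  · simp

theorem Dd_one (q : V n) : Dd q (1 : PS n) = 0 := by
  simp [Dd]

theorem Dd_add_left (q q' : V n) (p : PS n) : Dd (q + q') p = Dd q p + Dd q' p := by
  simp [Dd, mul_add, Finset.sum_add_distrib]

theorem Dd_sub_left (q q' : V n) (p : PS n) : Dd (q - q') p = Dd q p - Dd q' p := by
  simp [Dd, mul_sub, Finset.sum_sub_distrib]

theorem Dd_smul_left (c : ℂ) (q : V n) (p : PS n) : Dd (c • q) p = c • Dd q p := by
  simp [Dd, Finset.smul_sum]

theorem O_Dd {e m k : ℕ} {p : PS n} {q : V n} (hp : O e p) (hq : OV m q) (h : k + 1 ≤ e + m) :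
    O k (Dd q p) := by
  apply O.sum
  intro j _
  rcases Nat.eq_zero_or_pos e with he | he
  · exact ((O_zero _).mul (hq j)).mono (by omega)
  · exact ((O_pderiv' hp (k := e - 1) (by omega) j).mul (hq j)).mono (by omega)

/-- Taylor estimate -/
def Tay (m : ℕ) (q : V n) (hq1 : OV 1 q) (p : PS n) (e : ℕ) : Prop :=
  ∀ k, k + 2 ≤ e + 2 * m → O k (p.subst (oneAdd q hq1).toFun - p - Dd q p)

section tay

variable {m : ℕ} (hm : 1 ≤ m) (q : V n) (hq1 : OV 1 q) (hq : OV m q)
include hm hq

omit hm hq in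
theorem Tay_one : Tay m q hq1 (1 : PS n) 0 := by
  intro k _
  rw [subst_oneC, Dd_one, sub_self, sub_zero]
  exact O_of_zero k

omit hm hq in
theorem Tay_X (i : Fin n) : Tay m q hq1 (X i : PS n) 1 := by
  intro k _
  rw [subst_X (oneAdd q hq1).hasSubst, Dd_X]
  have : (oneAdd q hq1).toFun i = X i + q i := rfl
  rw [this]
  have h2 : (X i : PS n) + q i - X i - q i = 0 := by ring
  rw [h2]
  exact O_of_zero k

theorem Tay_mul {p p' : PS n} {e e' : ℕ} (hp : O e p) (hp' : O e' p')
    (h : Tay m q hq1 p e) (h' : Tay m q hq1 p' e') : Tay m q hq1 (p * p') (e + e') := by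
  intro k hk
  rw [subst_mulC, Dd_mul]
  set s := p.subst (oneAdd q hq1).toFun with hs
  set s' := p'.subst (oneAdd q hq1).toFun with hs'
  have hs'O : O e' s' := O_subst hp' (oneAdd q hq1).O1
  have e1 : s * s' - p * p' - (p * Dd q p' + p' * Dd q p) =
      Dd q p * Dd q p' + p * (s' - p' - Dd q p') + Dd q p * (s' - p' - Dd q p') +
        (s - p - Dd q p) * s' := by ring
  rw [e1]
  have hD := O_Dd (k := e + m - 1) hp hq (by omega)
  have hD' := O_Dd (k := e' + m - 1) hp' hq (by omega)
  have hR := h (e + 2 * m - 2) (by omega)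
  have hR' := h' (e' + 2 * m - 2) (by omega)
  refine ((O.add ?_ ?_).add ?_).add ?_
  · exact (hD.mul hD').mono (by omega)
  · exact (hp.mul hR').mono (by omega)
  · exact (hD.mul hR').mono (by omega)
  · exact (hR.mul hs'O).mono (by omega)

theorem Tay_pow (i : Fin n) (e : ℕ) : Tay m q hq1 (X i ^ e : PS n) e := by
  induction e with
  | zero => simpa using Tay_one q hq1
  | succ e ih =>
    rw [pow_succ]
    exact Tay_mul hm q hq1 hq (O_pow (O_X i)) (O_X i) ih (Tay_X q hq1 i)

theorem Tay_monomial (a : Fin n →₀ ℕ) : Tay m q hq1 (monomial a (1 : ℂ)) a.degree := by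
  induction a using Finsupp.induction_linear with
  | zero => simpa using Tay_one q hq1
  | add a b h h' =>
    have h1 : (monomial (a + b) (1 : ℂ) : PS n) = monomial a 1 * monomial b 1 := by
      rw [monomial_mul_monomial, one_mul]
    rw [h1, map_add]
    exact Tay_mul hm q hq1 hq (O_monomial a) (O_monomial b) h h'
  | single i e =>
    rw [← X_pow_eq, Finsupp.degree_single]
    exact Tay_pow hm q hq1 hq i e

/-- the Taylor remainder as a linear map -/
noncomputable def TR (q : V n) (hq1 : OV 1 q) : PS n →ₗ[ℂ] PS n where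
  toFun p := p.subst (oneAdd q hq1).toFun - p - Dd q p
  map_add' p p' := by rw [subst_add (oneAdd q hq1).hasSubst, Dd_add]; ring
  map_smul' c p := by
    rw [subst_smulC, Dd_smul, RingHom.id_apply, smul_sub, smul_sub]

/-- tuples of order `≥ k` as a submodule -/
def Osub (k : ℕ) : Submodule ℂ (PS n) where
  carrier := {p | O k p}
  add_mem' h h' := h.add h'
  zero_mem' := O_of_zero k
  smul_mem' c _ h := h.smul c

theorem taylor {e k : ℕ} {p : PS n} (hp : O e p) (hk : k + 2 ≤ e + 2 * m) :
    O k (p.subst (oneAdd q hq1).toFun - p - Dd q p) := by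
  -- descending induction on the order
  have key : ∀ j e : ℕ, k + 1 ≤ e + j → ∀ p : PS n, O e p → k + 2 ≤ e + 2 * m →
      p ∈ (Osub k).comap (TR q hq1) := by
    intro j
    induction j with
    | zero =>
      intro e he p hp _
      rw [Submodule.mem_comap]
      show O k (p.subst (oneAdd q hq1).toFun - p - Dd q p)
      have h1 : O k (p.subst (oneAdd q hq1).toFun) :=
        (O_subst hp (oneAdd q hq1).O1).mono (by omega)
      exact (h1.sub (hp.mono (by omega))).sub (O_Dd hp hq1 (by omega))
    | succ j ih =>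
      intro e he p hp hk'
      refine le_of_monomials _ e ?_ ?_ p hp
      · intro a ha
        rw [Submodule.mem_comap]
        have := Tay_monomial hm q hq1 hq a
        rw [ha] at this
        exact this k hk'
      · intro p' hp'
        exact ih (e + 1) (by omega) p' hp' (by omega)
  exact key (k + 1) e (by omega) p hp hk

end tay

/-- the bracket -/
noncomputable def br (k q : V n) : V n := fun i => Dd q (k i) - Dd k (q i)

theorem OV_br {e m l : ℕ} {k q : V n} (hk : OV e k) (hq : OV m q) (h : l + 1 ≤ e + m) :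
    OV l (br k q) := fun i => (O_Dd (hk i) hq h).sub (O_Dd (hq i) hk (by omega))

theorem br_add_left (k k' q : V n) : br (k + k') q = br k q + br k' q := by
  funext i
  simp only [br, Pi.add_apply, Dd_add, Dd_add_left]
  ring

theorem br_sub_right (k q q' : V n) : br k (q - q') = br k q - br k q' := by
  funext i
  simp only [br, Pi.sub_apply, Dd_sub, Dd_sub_left]
  ring

theorem br_sub_left (k k' q : V n) : br (k - k') q = br k q - br k' q := by
  funext i
  simp only [br, Pi.sub_apply, Dd_sub, Dd_sub_left]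
  ring

theorem br_smul_left (c : ℂ) (k q : V n) : br (c • k) q = c • br k q := by
  funext i
  simp only [br, Pi.smul_apply, Dd_smul, Dd_smul_left, smul_sub]

theorem br_smul_right (c : ℂ) (k q : V n) : br k (c • q) = c • br k q := by
  funext i
  simp only [br, Pi.smul_apply, Dd_smul, Dd_smul_left, smul_sub]

theorem br_zero_left (q : V n) : br 0 q = 0 := by
  have := br_smul_left 0 0 q
  simpa using this

/-- leading term of the commutator -/
theorem comm_oneAdd {e m : ℕ} (he : 2 ≤ e) (hm : 2 ≤ m) (k q : V n) (hk1 : OV 1 k) (hq1 : OV 1 q)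
    (hk : OV e k) (hq : OV m q) (i : Fin n) :
    O (e + m) ((oneAdd k hk1 * oneAdd q hq1).toFun i - (oneAdd q hq1 * oneAdd k hk1).toFun i -
      br k q i) := by
  rw [oneAdd_mul, oneAdd_mul]
  have h1 : O (e + m) ((k i).subst (oneAdd q hq1).toFun - k i - Dd q (k i)) :=
    taylor (m := m) (by omega) q hq1 hq (hk i) (by omega)
  have h2 : O (e + m) ((q i).subst (oneAdd k hk1).toFun - q i - Dd k (q i)) :=
    taylor (m := e) (by omega) k hk1 hk (hq i) (by omega)
  have h3 := h1.sub h2
  have e1 : (oneAdd q hq1).toFun i = X i + q i := rfl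
  have e2 : (oneAdd k hk1).toFun i = X i + k i := rfl
  have e3 : sb (oneAdd q hq1) k i = (k i).subst (oneAdd q hq1).toFun := rfl
  have e4 : sb (oneAdd k hk1) q i = (q i).subst (oneAdd k hk1).toFun := rfl
  rw [e1, e2, e3, e4, br]
  convert h3 using 1
  ring

/-- conjugation of `1 + q` by `1 + k` -/
theorem conj_oneAdd {e m : ℕ} (he : 2 ≤ e) (hm : 2 ≤ m) (u : (FMap n)ˣ) (k q : V n)
    (hk1 : OV 1 k) (hq1 : OV 1 q) (hk : OV e k) (hq : OV m q) (hu : (u : FMap n) = oneAdd k hk1)
    (hs1 : OV 1 (q + br k q)) :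
    EqM (e + m) ((u : FMap n) * oneAdd q hq1 * ((u⁻¹ : (FMap n)ˣ) : FMap n))
      (oneAdd (q + br k q) hs1) := by
  have hbr : OV (e + m - 1) (br k q) := OV_br hk hq (by omega)
  have h1 : EqM (e + m) ((u : FMap n) * oneAdd q hq1) (oneAdd (q + br k q) hs1 * u) := by
    intro i
    rw [hu]
    have h2 := comm_oneAdd he hm k q hk1 hq1 hk hq i
    rw [oneAdd_mul (q + br k q), sb_add]
    have h3 := sb_lin (oneAdd k hk1) (br k q) hbr i
    rw [lin_oneAdd he k hk1 hk, linMap_one, sb_one] at h3
    have h4 : e + m - 1 + 1 = e + m := by omega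
    rw [h4] at h3
    rw [oneAdd_mul q] at h2
    have h5 := h2.sub h3
    convert h5 using 1
    simp only [Pi.add_apply]
    ring
  have h2 := h1.mul (EqM.refl (e + m) ((u⁻¹ : (FMap n)ˣ) : FMap n))
  rwa [mul_assoc (oneAdd (q + br k q) hs1), u.mul_inv, mul_one] at h2

end Pool.Agent.RevMaps
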