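import Mathlib
import Pool.Agent.RevMaps.Four
import Pool.Agent.RevMaps.Triang

/-!
Every matrix with determinant `± 1` is a product of six involutions, in a basis adapted to a
transvection.
-/

namespace Pool.Agent.RevMaps

open Matrix

/-- exponents -/
def cexp {n : ℕ} (j : Fin n) : ℤ := (n : ℤ) - 1 - 2 * (j : ℤ)

theorem cexp_rev {n : ℕ} (j : Fin n) : cexp (Fin.rev j) = - cexp j := by
  unfold cexp
  have h := Fin.val_rev j
  have hj := j.isLt
  have h2 : ((Fin.rev j : Fin n) : ℤ) = (n : ℤ) - 1 - j := by
    rw [h]; omega
  rw [h2]; ring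

theorem cexp_inj {n : ℕ} {i j : Fin n} (h : cexp i = cexp j) : i = j := by
  unfold cexp at h
  apply Fin.ext
  omega

theorem sum_cexp (n : ℕ) : ∑ j : Fin n, cexp j = 0 := by
  have h : ∑ j : Fin n, cexp j = ∑ j : Fin n, cexp (Fin.rev j) :=
    (Equiv.sum_comp Fin.revPerm (fun j => cexp j)).symm
  simp only [cexp_rev, Finset.sum_neg_distrib] at h
  omega

theorem prod_zpow_eq {ι : Type*} (S : Finset ι) (c : ι → ℤ) (s : ℂ) (hs : s ≠ 0) :
    ∏ j ∈ S, s ^ (c j) = s ^ (∑ j ∈ S, c j) := by
  classical
  induction S using Finset.induction_on with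
  | empty => simp
  | insert a S ha ih => rw [Finset.prod_insert ha, Finset.sum_insert ha, ih, zpow_add₀ hs]

theorem prod_cexp {n : ℕ} (s : ℂ) (hs : s ≠ 0) : ∏ j : Fin n, s ^ (cexp j) = 1 := by
  rw [prod_zpow_eq _ _ _ hs, sum_cexp, zpow_zero]

/-- existence of the target spectrum -/
theorem exists_nu {n : ℕ} (hn : 2 ≤ n) (ε : ℂ) (hε : ε ^ 2 = 1) (s : ℝ) (hs : 1 < s) :
    ∃ (ν : Fin n → ℂ) (σ : Fin n → Fin n), Function.Injective ν ∧ (∀ i, σ (σ i) = i) ∧
      (∀ i, ν i * ν (σ i) = 1) ∧ ∏ i, ν i = ε ∧
      (∀ j, (s ≤ ‖ν j‖ ∨ ‖ν j‖ ≤ s⁻¹ ∨ (‖ν j‖ = 1 ∧ (cexp j = 0 ∨ Even n)))) := by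
  have hs0 : (0 : ℝ) < s := by linarith
  have hsC : (s : ℂ) ≠ 0 := by exact_mod_cast hs0.ne'
  have hnorm : ∀ k : ℤ, ‖(s : ℂ) ^ k‖ = s ^ k := by
    intro k; rw [norm_zpow, Complex.norm_real, Real.norm_of_nonneg hs0.le]
  have hεε : ε = 1 ∨ ε = -1 := sq_eq_one_iff_of_ne_zero' hε
  have hbig : ∀ k : ℤ, 1 ≤ k → s ≤ s ^ k := by
    intro k hk
    calc s = s ^ (1 : ℤ) := by simp
      _ ≤ s ^ k := zpow_le_zpow_right₀ hs.le hk
  have hsmall : ∀ k : ℤ, k ≤ -1 → s ^ k ≤ s⁻¹ := by
    intro k hk
    calc s ^ k ≤ s ^ (-1 : ℤ) := zpow_le_zpow_right₀ hs.le hk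
      _ = s⁻¹ := by simp
  have hinjz : ∀ a b : ℤ, s ^ a = s ^ b → a = b := fun a b h =>
    (zpow_right_injective₀ hs0 hs.ne') h
  by_cases hcase : Even n ∧ ε = -1
  · obtain ⟨heven, hε1⟩ := hcase
    have hodd : ∀ j : Fin n, cexp j ≠ 0 := by
      intro j h
      unfold cexp at h
      obtain ⟨m, hm⟩ := heven
      omega
    set p : Fin n := ⟨n / 2 - 1, by omega⟩ with hp
    set q : Fin n := ⟨n / 2, by omega⟩ with hq
    have hcp : ∀ j : Fin n, cexp j = 1 ↔ j = p := by
      intro j
      obtain ⟨m, hm⟩ := heven
      constructor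
      · intro h; unfold cexp at h; apply Fin.ext; simp only [hp]; omega
      · intro h; rw [h]; unfold cexp; simp only [hp]; omega
    have hcq : ∀ j : Fin n, cexp j = -1 ↔ j = q := by
      intro j
      obtain ⟨m, hm⟩ := heven
      constructor
      · intro h; unfold cexp at h; apply Fin.ext; simp only [hq]; omega
      · intro h; rw [h]; unfold cexp; simp only [hq]; omega
    have hpq : p ≠ q := by
      intro h
      have h1 := (hcp p).mpr rfl
      have h2 := (hcq q).mpr rfl
      rw [← h] at h2
      omega
    have hrevpq : ∀ j, j ≠ p → j ≠ q → Fin.rev j ≠ p ∧ Fin.rev j ≠ q := by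
      intro j h1 h2
      constructor
      · intro h
        have := (hcp _).mpr h
        rw [cexp_rev] at this
        exact h2 ((hcq j).mp (by omega))
      · intro h
        have := (hcq _).mpr h
        rw [cexp_rev] at this
        exact h1 ((hcp j).mp (by omega))
    refine ⟨fun j => if j = p then 1 else if j = q then -1 else (s : ℂ) ^ cexp j,
      fun j => if j = p then p else if j = q then q else Fin.rev j, ?_, ?_, ?_, ?_, ?_⟩
    · -- injective
      have hne : ∀ j, j ≠ p → j ≠ q → ‖(s : ℂ) ^ cexp j‖ ≠ 1 := by
        intro j _ _ h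
        rw [hnorm] at h
        have : cexp j = 0 := hinjz _ _ (by rw [h, zpow_zero])
        exact hodd j this
      intro i j hij
      simp only at hij
      by_cases hip : i = p
      · by_cases hjp : j = p
        · rw [hip, hjp]
        · rw [if_pos hip, if_neg hjp] at hij
          by_cases hjq : j = q
          · rw [if_pos hjq] at hij; norm_num at hij
          · rw [if_neg hjq] at hij
            exact absurd (by rw [← hij]; simp) (hne j hjp hjq)
      · by_cases hiq : i = q
        · rw [if_neg hip, if_pos hiq] at hij
          by_cases hjp : j = p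
          · rw [if_pos hjp] at hij; norm_num at hij
          · by_cases hjq : j = q
            · rw [hiq, hjq]
            · rw [if_neg hjp, if_neg hjq] at hij
              exact absurd (by rw [← hij]; simp) (hne j hjp hjq)
        · rw [if_neg hip, if_neg hiq] at hij
          by_cases hjp : j = p
          · rw [if_pos hjp] at hij
            exact absurd (by rw [hij]; simp) (hne i hip hiq)
          · by_cases hjq : j = q
            · rw [if_neg hjp, if_pos hjq] at hij
              exact absurd (by rw [hij]; simp) (hne i hip hiq)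
            · rw [if_neg hjp, if_neg hjq] at hij
              have h := congrArg norm hij
              rw [hnorm, hnorm] at h
              exact cexp_inj (hinjz _ _ h)
    · intro i
      by_cases hip : i = p
      · simp [hip]
      · by_cases hiq : i = q
        · simp [hiq, hpq.symm]
        · obtain ⟨h1, h2⟩ := hrevpq i hip hiq
          simp [hip, hiq, h1, h2]
    · intro i
      by_cases hip : i = p
      · simp [hip]
      · by_cases hiq : i = q
        · simp [hiq, hpq.symm]
        · obtain ⟨h1, h2⟩ := hrevpq i hip hiq
          simp only [hip, hiq, h1, h2, if_false]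
          rw [cexp_rev, ← zpow_add₀ hsC]
          simp
    · have h1 : (fun j : Fin n => if j = p then (1 : ℂ) else if j = q then -1
          else (s : ℂ) ^ cexp j) = fun j => ((s : ℂ) ^ cexp j *
          (if j = p then (s : ℂ)⁻¹ else 1)) * (if j = q then - (s : ℂ) else 1) := by
        funext j
        by_cases hjp : j = p
        · have hjq : j ≠ q := fun h => hpq (hjp.symm.trans h)
          rw [if_pos hjp, if_pos hjp, if_neg hjq, (hcp j).mpr hjp]
          simp [hsC]
        · by_cases hjq : j = q
          · rw [if_neg hjp, if_pos hjq, if_neg hjp, if_pos hjq, (hcq j).mpr hjq]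
            simp [hsC]
          · simp [hjp, hjq]
      rw [h1, Finset.prod_mul_distrib, Finset.prod_mul_distrib, prod_cexp _ hsC,
        Finset.prod_ite_eq' , Finset.prod_ite_eq']
      simp [hsC, hε1]
    · intro j
      by_cases hjp : j = p
      · right; right
        refine ⟨by simp [hjp], Or.inr heven⟩
      · by_cases hjq : j = q
        · right; right
          refine ⟨by simp [hjq, hpq.symm], Or.inr heven⟩
        · simp only [hjp, hjq, if_false]
          rw [hnorm]
          rcases lt_trichotomy (cexp j) 0 with h | h | h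
          · right; left; exact hsmall _ (by omega)
          · exact absurd h (hodd j)
          · left; exact hbig _ (by omega)
  · -- the other cases
    have hprod : ∏ i : Fin n, (if cexp i = 0 then ε else 1) = ε := by
      rcases Nat.even_or_odd n with he | ho
      · have hε1 : ε = 1 := by
          rcases hεε with h | h
          · exact h
          · exact absurd ⟨he, h⟩ hcase
        simp [hε1]
      · obtain ⟨m, hm⟩ := ho
        set p : Fin n := ⟨m, by omega⟩ with hp
        rw [Finset.prod_eq_single p]
        · rw [if_pos]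
          unfold cexp; simp only [hp]; omega
        · intro j _ hj
          rw [if_neg]
          intro h
          apply hj
          unfold cexp at h
          apply Fin.ext
          simp only [hp]; omega
        · simp
    refine ⟨fun j => (s : ℂ) ^ cexp j * (if cexp j = 0 then ε else 1), Fin.rev,
      ?_, Fin.rev_rev, ?_, ?_, ?_⟩
    · intro i j hij
      have h := congrArg norm hij
      have hn1 : ∀ j : Fin n, ‖(s : ℂ) ^ cexp j * (if cexp j = 0 then ε else 1)‖ = s ^ cexp j := by
        intro j
        rw [norm_mul, hnorm]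
        have : ‖(if cexp j = 0 then ε else 1 : ℂ)‖ = 1 := by
          split_ifs
          · rcases hεε with h | h <;> simp [h]
          · simp
        rw [this, mul_one]
      simp only [hn1] at h
      exact cexp_inj (hinjz _ _ h)
    · intro i
      simp only
      rw [cexp_rev]
      by_cases h : cexp i = 0
      · simp only [h, neg_zero, if_true, zpow_zero, one_mul]
        rw [← sq, hε]
      · have h' : - cexp i ≠ 0 := by simpa using h
        rw [if_neg h, if_neg h', mul_one, mul_one, ← zpow_add₀ hsC]
        simp
    · rw [Finset.prod_mul_distrib, prod_cexp _ hsC, hprod, one_mul]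
    · intro j
      simp only
      by_cases h : cexp j = 0
      · right; right
        refine ⟨?_, Or.inl h⟩
        simp only [h, if_true, zpow_zero, one_mul]
        rcases hεε with h | h <;> simp [h]
      · simp only [h, if_false, mul_one]
        rw [hnorm]
        rcases lt_trichotomy (cexp j) 0 with h' | h' | h'
        · right; left; exact hsmall _ (by omega)
        · exact absurd h' h
        · left; exact hbig _ (by omega)
where
  sq_eq_one_iff_of_ne_zero' {ε : ℂ} (h : ε ^ 2 = 1) : ε = 1 ∨ ε = -1 := by
    have : (ε - 1) * (ε + 1) = 0 := by linear_combination h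
    rcases mul_eq_zero.mp this with h | h
    · left; linear_combination h
    · right; linear_combination h

end Pool.Agent.RevMaps
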