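import Mathlib
import Pool.Agent.RevMaps.Choice

namespace Pool.Agent.RevMaps

open Matrix

/-- choice of the spectrum of `N` -/
theorem exists_alpha {n : ℕ} (a : Fin n → ℂ) (ha : ∀ i, a i ≠ 0) :
    ∃ (t s : ℝ), 1 < t ∧ 1 < s ∧
      Function.Injective (fun i => a i * (t : ℂ) ^ (- cexp i)) ∧
      (∀ i, ‖a i * (t : ℂ) ^ (- cexp i)‖ < s) ∧ (∀ i, s⁻¹ < ‖a i * (t : ℂ) ^ (- cexp i)‖) ∧
      (∀ i, ‖a i * (t : ℂ) ^ (- cexp i)‖ = 1 → cexp i = 0) := by
  classical
  obtain ⟨M, hM⟩ : ∃ M : ℝ, ∀ i, ‖a i‖ ≤ M := by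
    refine ⟨∑ i, ‖a i‖, fun i => Finset.single_le_sum (f := fun i => ‖a i‖)
      (fun j _ => norm_nonneg _) (Finset.mem_univ i)⟩
  obtain ⟨M', hM'⟩ : ∃ M : ℝ, ∀ i, ‖a i‖⁻¹ ≤ M := by
    refine ⟨∑ i, ‖a i‖⁻¹, fun i => Finset.single_le_sum (f := fun i => ‖a i‖⁻¹)
      (fun j _ => inv_nonneg.mpr (norm_nonneg _)) (Finset.mem_univ i)⟩
  set K : ℝ := max (max M M') 1 + 1 with hK
  have hK1 : 1 < K := by
    have : (1 : ℝ) ≤ max (max M M') 1 := le_max_right _ _
    linarith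
  have hK0 : 0 < K := by linarith
  have hKM : ∀ i, ‖a i‖ < K := by
    intro i
    have h1 : M ≤ max (max M M') 1 := (le_max_left _ _).trans (le_max_left _ _)
    have := hM i
    linarith
  have hKM' : ∀ i, K⁻¹ < ‖a i‖ := by
    intro i
    have h1 : M' ≤ max (max M M') 1 := (le_max_right _ _).trans (le_max_left _ _)
    have h2 := hM' i
    have h3 : ‖a i‖⁻¹ < K := by linarith
    have h4 : 0 < ‖a i‖ := norm_pos_iff.mpr (ha i)
    rw [inv_lt_comm₀ hK0 h4]
    exact h3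
  set t : ℝ := K ^ 2 with ht
  have ht1 : 1 < t := by rw [ht]; nlinarith
  have ht0 : 0 < t := by linarith
  have hnorm : ∀ i, ‖a i * (t : ℂ) ^ (- cexp i)‖ = ‖a i‖ * t ^ (- cexp i) := by
    intro i
    rw [norm_mul, norm_zpow, Complex.norm_real, Real.norm_of_nonneg ht0.le]
  set s : ℝ := K * t ^ n with hs
  have htn : 1 ≤ t ^ n := one_le_pow₀ ht1.le
  have hs1 : 1 < s := by rw [hs]; nlinarith
  refine ⟨t, s, ht1, hs1, ?_, ?_, ?_, ?_⟩
  · have hmono : ∀ i j : Fin n, i < j → ‖a i * (t : ℂ) ^ (- cexp i)‖ <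
        ‖a j * (t : ℂ) ^ (- cexp j)‖ := by
      intro i j hij
      rw [hnorm, hnorm]
      have h1 : - cexp i + 2 ≤ - cexp j := by
        unfold cexp
        have : (i : ℕ) < j := hij
        omega
      have h2 : t ^ (- cexp i + 2) ≤ t ^ (- cexp j) := zpow_le_zpow_right₀ ht1.le h1
      have h3 : 0 < t ^ (- cexp i) := zpow_pos ht0 _
      rw [zpow_add₀ ht0.ne'] at h2
      have h4 : t ^ (2 : ℤ) = K ^ 4 := by
        rw [ht]; norm_cast; ring
      rw [h4] at h2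
      have h5 : K⁻¹ * (t ^ (- cexp i) * K ^ 4) ≤ ‖a j‖ * t ^ (- cexp j) := by
        apply mul_le_mul (hKM' j).le h2 (by positivity) (norm_nonneg _)
      have h6 : K⁻¹ * (t ^ (- cexp i) * K ^ 4) = K ^ 3 * t ^ (- cexp i) := by
        field_simp
      have h7 : ‖a i‖ * t ^ (- cexp i) < K * t ^ (- cexp i) :=
        mul_lt_mul_of_pos_right (hKM i) h3
      have h8 : K ≤ K ^ 3 := by nlinarith [sq_nonneg K, mul_pos hK0 hK0]
      have h9 : K * t ^ (- cexp i) ≤ K ^ 3 * t ^ (- cexp i) :=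
        mul_le_mul_of_nonneg_right h8 h3.le
      linarith
    intro i j hij
    rcases lt_trichotomy i j with h | h | h
    · exact absurd (congrArg norm hij) (hmono i j h).ne
    · exact h
    · exact absurd (congrArg norm hij) (hmono j i h).ne'
  · intro i
    rw [hnorm, hs]
    have h1 : t ^ (- cexp i) ≤ t ^ n := by
      rw [← zpow_natCast]
      apply zpow_le_zpow_right₀ ht1.le
      unfold cexp
      have := i.isLt
      omega
    have h3 : 0 < t ^ (- cexp i) := zpow_pos ht0 _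
    calc ‖a i‖ * t ^ (- cexp i) < K * t ^ (- cexp i) := mul_lt_mul_of_pos_right (hKM i) h3
      _ ≤ K * t ^ n := mul_le_mul_of_nonneg_left h1 hK0.le
  · intro i
    rw [hnorm, hs, mul_inv]
    have h1 : (t ^ n)⁻¹ ≤ t ^ (- cexp i) := by
      rw [← zpow_natCast, ← _root_.zpow_neg]
      apply zpow_le_zpow_right₀ ht1.le
      unfold cexp
      have := i.isLt
      omega
    have h3 : 0 < (t ^ n)⁻¹ := by positivity
    calc K⁻¹ * (t ^ n)⁻¹ < ‖a i‖ * (t ^ n)⁻¹ := mul_lt_mul_of_pos_right (hKM' i) h3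
      _ ≤ ‖a i‖ * t ^ (- cexp i) := mul_le_mul_of_nonneg_left h1 (norm_nonneg _)
  · intro i hi
    rw [hnorm] at hi
    by_contra hc
    rcases lt_or_gt_of_ne hc with h | h
    · -- cexp i ≤ -1
      have h1 : t ≤ t ^ (- cexp i) := by
        calc t = t ^ (1 : ℤ) := by simp
          _ ≤ t ^ (- cexp i) := zpow_le_zpow_right₀ ht1.le (by omega)
      have h2 : K⁻¹ * t ≤ ‖a i‖ * t ^ (- cexp i) :=
        mul_le_mul (hKM' i).le h1 ht0.le (norm_nonneg _)
      have h3 : K⁻¹ * t = K := by rw [ht]; field_simp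
      linarith
    · have h1 : t ^ (- cexp i) ≤ t⁻¹ := by
        calc t ^ (- cexp i) ≤ t ^ (-1 : ℤ) := zpow_le_zpow_right₀ ht1.le (by omega)
          _ = t⁻¹ := by simp
      have h2 : ‖a i‖ * t ^ (- cexp i) ≤ K * t⁻¹ :=
        mul_le_mul (hKM i).le h1 (zpow_pos ht0 _).le hK0.le
      have h3 : K * t⁻¹ = K⁻¹ := by rw [ht]; field_simp
      have h4 : K⁻¹ < 1 := inv_lt_one_of_one_lt₀ hK1
      linarith

/-- base change matrix for a vector and a covector with zero pairing -/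
theorem exists_basechange {n : ℕ} (b φ : Fin n → ℂ) (hb : b ≠ 0) (hφ : φ ≠ 0)
    (hφb : φ ⬝ᵥ b = 0) :
    ∃ (P : Matrix (Fin n) (Fin n) ℂ) (i0 i1 : Fin n), P.det ≠ 0 ∧ i0 ≠ i1 ∧
      P *ᵥ (Pi.single i0 1) = b ∧ φ ᵥ* P = Pi.single i1 1 := by
  classical
  obtain ⟨f, hfa⟩ : ∃ f : (Fin n → ℂ) →ₗ[ℂ] ℂ, ∀ w, f w = φ ⬝ᵥ w :=
    ⟨{ toFun := fun w => φ ⬝ᵥ w
       map_add' := fun x y => dotProduct_add φ x y
       map_smul' := fun c x => by simp }, fun w => rfl⟩
  have hf0 : f ≠ 0 := by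
    intro h
    apply hφ
    funext i
    have := congrArg (fun g : (Fin n → ℂ) →ₗ[ℂ] ℂ => g (Pi.single i 1)) h
    simpa [hfa] using this
  obtain ⟨ι, B, i, j, hij, hvi, hfj⟩ := exists_basis_of_pairing_eq_zero
    (f := f) (v := b) (by rw [hfa]; exact hφb) hf0 hb
  have : Finite ι := Module.Finite.finite_basis B
  have : Fintype ι := Fintype.ofFinite _
  have hcard : Fintype.card ι = n := by
    rw [← Module.finrank_eq_card_basis B]; simp
  set e : ι ≃ Fin n := Fintype.equivFinOfCardEq hcard with he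
  set P : Matrix (Fin n) (Fin n) ℂ := Matrix.of fun k l => B (e.symm l) k with hP
  refine ⟨P, e i, e j, ?_, fun h => hij (e.injective h), ?_, ?_⟩
  · intro h0
    obtain ⟨v, hv, hv2⟩ := Matrix.exists_mulVec_eq_zero_iff.mpr h0
    apply hv
    have hli := (B.reindex e).linearIndependent
    rw [Fintype.linearIndependent_iff] at hli
    funext l
    apply hli v
    funext k
    have := congrFun hv2 k
    simp only [mulVec, dotProduct, hP, Matrix.of_apply, Pi.zero_apply] at this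
    simp only [Finset.sum_apply, Pi.smul_apply, smul_eq_mul, Pi.zero_apply,
      Module.Basis.reindex_apply]
    rw [← this]
    apply Finset.sum_congr rfl
    intro j _
    ring
  · rw [Matrix.mulVec_single_one]
    funext k
    simp [hP, hvi]
  · funext l
    have h1 : (φ ᵥ* P) l = f (B (e.symm l)) := by rw [hfa]; rfl
    rw [h1, hfj, Module.Basis.coord_apply, Module.Basis.repr_self, Finsupp.single_apply,
      Pi.single_apply]
    by_cases h : e.symm l = j
    · rw [if_pos h, if_pos]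
      rw [← h]; simp
    · rw [if_neg h, if_neg]
      intro h2
      apply h
      rw [h2]; simp

theorem linalg_main {n : ℕ} (hn : 2 ≤ n) (A : Matrix (Fin n) (Fin n) ℂ) (hA : A.det ^ 2 = 1) :
    ∃ (Q : Matrix (Fin n) (Fin n) ℂ) (T : Fin 4 → Matrix (Fin n) (Fin n) ℂ)
      (U1 U2 : Matrix (Fin n) (Fin n) ℂ) (i0 i1 : Fin n), Q.det ≠ 0 ∧ (∀ i, T i * T i = 1) ∧
      U1 * U1 = 1 ∧ U2 * U2 = 1 ∧ A * Q = Q * (T 0 * T 1 * T 2 * T 3 * (U1 * U2)) ∧
      i0 ≠ i1 ∧ T 2 * T 3 = 1 + Matrix.single i0 i1 1 ∧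
      Gen T (Pi.single i0 1) ∧ CoGen T (Pi.single i1 1) := by
  classical
  obtain ⟨Q1, A', hQ1, hA', hAQ⟩ := exists_triangular n A
  have hQ1u : IsUnit Q1.det := isUnit_iff_ne_zero.mpr hQ1
  have hdetA : A.det = A'.det := by
    have h := congrArg Matrix.det hAQ
    rw [det_mul, det_mul, mul_comm] at h
    exact mul_left_cancel₀ hQ1 h
  have hdetA' : A'.det = ∏ i, A' i i := Matrix.det_of_isUpperTriangular (fun i j h => hA' i j h)
  have hdiag : (∏ i, A' i i) ^ 2 = 1 := by rw [← hdetA', ← hdetA, hA]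
  have ha0 : ∀ i, A' i i ≠ 0 := by
    intro i h
    have h2 : ∏ j, A' j j = 0 := Finset.prod_eq_zero (Finset.mem_univ i) h
    rw [h2] at hdiag
    norm_num at hdiag
  obtain ⟨t, s, ht, hs, hαinj, hαs, hαs', hα1⟩ := exists_alpha (fun i => A' i i) ha0
  have ht0 : (0 : ℝ) < t := by linarith
  have htC : (t : ℂ) ≠ 0 := by exact_mod_cast ht0.ne'
  set α : Fin n → ℂ := fun i => A' i i * (t : ℂ) ^ (- cexp i) with hα
  obtain ⟨ν, σ, hν, hσ, hνσ, hνprod, hνn⟩ := exists_nu hn (∏ i, A' i i) hdiag s hs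
  have hα0 : ∀ i, α i ≠ 0 := fun i => mul_ne_zero (ha0 i) (zpow_ne_zero _ htC)
  have hαprod : ∏ i, ν i = ∏ i, α i := by
    rw [hνprod, hα, Finset.prod_mul_distrib]
    have : ∏ i : Fin n, (t : ℂ) ^ (- cexp i) = 1 := by
      simp only [_root_.zpow_neg, Finset.prod_inv_distrib, prod_cexp _ htC, inv_one]
    rw [this, mul_one]
  have hkey : ∀ i j, α i = ν j → cexp i = 0 ∧ cexp j = 0 := by
    intro i j hij
    have h1 := hαs i
    have h2 := hαs' i
    have h3 : ‖A' i i * (t : ℂ) ^ (- cexp i)‖ = ‖ν j‖ := congrArg norm hij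
    rw [h3] at h1 h2
    rcases hνn j with h | h | ⟨h, h'⟩
    · linarith
    · linarith
    · have h4 : cexp i = 0 := hα1 i (by rw [h3, h])
      refine ⟨h4, ?_⟩
      rcases h' with h' | h'
      · exact h'
      · exfalso
        obtain ⟨m, hm⟩ := h'
        unfold cexp at h4
        omega
  have hαν : ∀ i j, α i = ν j → i = j := by
    intro i j hij
    obtain ⟨h1, h2⟩ := hkey i j hij
    exact cexp_inj (h1.trans h2.symm)
  have hS : ∃ j, α j ≠ ν j := by
    refine ⟨⟨0, by omega⟩, fun h => ?_⟩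
    have := (hkey _ _ h).1
    unfold cexp at this
    simp only at this
    omega
  obtain ⟨T, b, φ, hT, hTα, hb, hφ, hφb, hT23, hgen, hcogen⟩ :=
    exists_four (by omega) α ν σ hαinj hα0 hν hσ hνσ hαν hαprod hS
  obtain ⟨P, i0, i1, hP, hi01, hPb, hφP⟩ := exists_basechange b φ hb hφ hφb
  have hPu : IsUnit P.det := isUnit_iff_ne_zero.mpr hP
  have hPP : P * P⁻¹ = 1 := Matrix.mul_nonsing_inv P hPu
  have hPP' : P⁻¹ * P = 1 := Matrix.nonsing_inv_mul P hPu
  -- the diagonalisable matrix N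
  set N : Matrix (Fin n) (Fin n) ℂ := A' * diagonal (fun i => (t : ℂ) ^ (- cexp i)) with hN
  have hNdiag : ∀ i, N i i = α i := by
    intro i
    rw [hN, Matrix.mul_diagonal]
  obtain ⟨Q2, hQ2, hNQ⟩ := exists_diag N (by
    intro i j hij
    rw [hN, Matrix.mul_diagonal, hA' i j hij, zero_mul]) (by
    intro i j hij
    simp only [hNdiag] at hij
    exact hαinj hij)
  simp only [hNdiag] at hNQ
  have hQ2u : IsUnit Q2.det := isUnit_iff_ne_zero.mpr hQ2
  set R := Q2 * P with hR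
  have hRu : IsUnit R.det := by rw [hR, det_mul]; exact hQ2u.mul hPu
  have hRR : R * R⁻¹ = 1 := Matrix.mul_nonsing_inv R hRu
  have hRR' : R⁻¹ * R = 1 := Matrix.nonsing_inv_mul R hRu
  set u1 : Matrix (Fin n) (Fin n) ℂ := Mon Fin.rev (fun i => (t : ℂ) ^ (cexp i)) with hu1
  set u2 : Matrix (Fin n) (Fin n) ℂ := Mon Fin.rev (fun _ => 1) with hu2
  have hu11 : u1 * u1 = 1 := by
    rw [hu1, Mon_mul _ Fin.rev_rev]
    rw [show (fun i : Fin n => (t : ℂ) ^ cexp i * (t : ℂ) ^ cexp (Fin.rev i)) = fun _ => 1 from ?_]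
    · simp
    · funext i
      rw [cexp_rev, ← zpow_add₀ htC]; simp
  have hu22 : u2 * u2 = 1 := by
    rw [hu2, Mon_mul _ Fin.rev_rev]; simp
  have hu12 : u1 * u2 = diagonal (fun i => (t : ℂ) ^ (cexp i)) := by
    rw [hu1, hu2, Mon_mul _ Fin.rev_rev]; simp
  have hNu : N * (u1 * u2) = A' := by
    rw [hN, hu12, mul_assoc, Matrix.diagonal_mul_diagonal]
    have : (fun i : Fin n => (t : ℂ) ^ (- cexp i) * (t : ℂ) ^ cexp i) = fun _ => 1 := by
      funext i
      rw [← zpow_add₀ htC]; simp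
    rw [this]; simp
  have hconjP : ∀ X Y : Matrix (Fin n) (Fin n) ℂ,
      (P⁻¹ * X * P) * (P⁻¹ * Y * P) = P⁻¹ * (X * Y) * P := by
    intro X Y
    calc (P⁻¹ * X * P) * (P⁻¹ * Y * P) = P⁻¹ * X * (P * P⁻¹) * Y * P := by
          simp only [mul_assoc]
      _ = _ := by rw [hPP, mul_one]; simp only [mul_assoc]
  have hconjR : ∀ X Y : Matrix (Fin n) (Fin n) ℂ,
      (R⁻¹ * X * R) * (R⁻¹ * Y * R) = R⁻¹ * (X * Y) * R := by
    intro X Y
    calc (R⁻¹ * X * R) * (R⁻¹ * Y * R) = R⁻¹ * X * (R * R⁻¹) * Y * R := by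
          simp only [mul_assoc]
      _ = _ := by rw [hRR, mul_one]; simp only [mul_assoc]
  have hprodT : (P⁻¹ * T 0 * P) * (P⁻¹ * T 1 * P) * (P⁻¹ * T 2 * P) * (P⁻¹ * T 3 * P)
      = P⁻¹ * diagonal α * P := by
    rw [hconjP, hconjP, hconjP, hTα]
  refine ⟨Q1 * R, fun i => P⁻¹ * T i * P, R⁻¹ * u1 * R, R⁻¹ * u2 * R, i0, i1, ?_, ?_, ?_, ?_, ?_,
    hi01, ?_, ?_, ?_⟩
  · rw [det_mul]; exact mul_ne_zero hQ1 hRu.ne_zero
  · intro i
    rw [hconjP, hT i, mul_one, hPP']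
  · rw [hconjR, hu11, mul_one, hRR']
  · rw [hconjR, hu22, mul_one, hRR']
  · rw [hprodT, hconjR]
    have h1 : R * (P⁻¹ * diagonal α * P) = N * R := by
      rw [hR, ← mul_assoc N, hNQ]
      calc Q2 * P * (P⁻¹ * diagonal α * P) = Q2 * (P * P⁻¹) * diagonal α * P := by
            simp only [mul_assoc]
        _ = _ := by rw [hPP, mul_one]
    calc A * (Q1 * R) = (A * Q1) * R := by rw [mul_assoc]
      _ = Q1 * A' * R := by rw [hAQ]
      _ = Q1 * (N * (u1 * u2)) * R := by rw [hNu]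
      _ = Q1 * (N * R) * (R⁻¹ * (u1 * u2) * R) := by
          have : N * R * (R⁻¹ * (u1 * u2) * R) = N * (R * R⁻¹) * (u1 * u2) * R := by
            simp only [mul_assoc]
          rw [mul_assoc Q1 (N * R), this, hRR, mul_one]
          simp only [mul_assoc]
      _ = Q1 * R * (P⁻¹ * diagonal α * P * (R⁻¹ * (u1 * u2) * R)) := by
          rw [← h1]
          simp only [mul_assoc]
  · rw [hconjP, hT23, mul_add, mul_one, add_mul, hPP', Matrix.mul_vecMulVec,
      Matrix.vecMulVec_mul, hφP]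
    have h1 : P⁻¹ *ᵥ b = Pi.single i0 1 := by
      rw [← hPb, Matrix.mulVec_mulVec, hPP', Matrix.one_mulVec]
    rw [h1]
    congr 1
    ext i j
    simp only [vecMulVec_apply, Matrix.single_apply, Pi.single_apply]
    by_cases h1 : i = i0
    · subst h1
      by_cases h2 : j = i1
      · subst h2; simp
      · simp [h2, Ne.symm h2]
    · simp [h1, Ne.symm h1]
  · intro W hW hWT
    have h1 : P⁻¹ *ᵥ b = Pi.single i0 1 := by
      rw [← hPb, Matrix.mulVec_mulVec, hPP', Matrix.one_mulVec]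
    have h2 := hgen (W.comap (Matrix.mulVecLin P⁻¹)) (by
      rw [Submodule.mem_comap, Matrix.mulVecLin_apply, h1]; exact hW) (by
      intro i w hw
      rw [Submodule.mem_comap, Matrix.mulVecLin_apply] at hw ⊢
      have h3 := hWT i _ hw
      rw [Matrix.mulVec_mulVec] at h3 ⊢
      rwa [mul_assoc (P⁻¹ * T i), hPP, mul_one] at h3)
    rw [eq_top_iff]
    intro w _
    have h3 : P *ᵥ w ∈ W.comap (Matrix.mulVecLin P⁻¹) := by rw [h2]; trivial
    rw [Submodule.mem_comap, Matrix.mulVecLin_apply, Matrix.mulVec_mulVec, hPP',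
      Matrix.one_mulVec] at h3
    exact h3
  · intro W hW hWT
    have h2 := hcogen (W.comap (Matrix.vecMulLinear P)) (by
      rw [Submodule.mem_comap, Matrix.vecMulLinear_apply, hφP]; exact hW) (by
      intro i w hw
      rw [Submodule.mem_comap, Matrix.vecMulLinear_apply] at hw ⊢
      have h3 := hWT i _ hw
      rw [Matrix.vecMul_vecMul] at h3 ⊢
      rwa [← mul_assoc, ← mul_assoc, hPP, one_mul] at h3)
    rw [eq_top_iff]
    intro w _
    have h3 : w ᵥ* P⁻¹ ∈ W.comap (Matrix.vecMulLinear P) := by rw [h2]; trivial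
    rw [Submodule.mem_comap, Matrix.vecMulLinear_apply, Matrix.vecMul_vecMul, hPP',
      Matrix.vecMul_one] at h3
    exact h3

end Pool.Agent.RevMaps
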