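import Mathlib
import Pool.Agent.RevMaps.Hom
import Pool.Agent.RevMaps.LinMain

/-!
Upper bound: every formal map whose linear part has determinant `± 1` is a product of six
involutions.
-/

namespace Pool.Agent.RevMaps

open MvPowerSeries

variable {n : ℕ}

theorem act_zero (M M' : Matrix (Fin n) (Fin n) ℂ) : act M M' (0 : V n) = 0 := by
  have := act_sub M M' (0 : V n) 0
  simpa using this

/-- the linearised product map -/
noncomputable def Phi (T : Fin 4 → Matrix (Fin n) (Fin n) ℂ) : (Fin 4 → V n) →ₗ[ℂ] V n where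
  toFun a := (a 0 - act (T 0) (T 0) (a 0)) +
      (act (T 0) (T 0) (a 1 - act (T 1) (T 1) (a 1)) +
      (act (T 0 * T 1) (T 1 * T 0) (a 2 - act (T 2) (T 2) (a 2)) +
       act (T 0 * T 1 * T 2) (T 2 * T 1 * T 0) (a 3 - act (T 3) (T 3) (a 3))))
  map_add' a b := by
    simp only [Pi.add_apply, act_add, act_sub]
    abel
  map_smul' c a := by
    simp only [Pi.smul_apply, act_smul, act_sub, RingHom.id_apply, smul_add, smul_sub]

/-- the solvable right hand sides -/
def ZZ (T : Fin 4 → Matrix (Fin n) (Fin n) ℂ) (d : ℕ) : Submodule ℂ (V n) where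
  carrier := {r | ∃ a : Fin 4 → V n, (∀ k, OV d (a k)) ∧ OV (d + 1) (r - Phi T a)}
  add_mem' := by
    rintro r s ⟨a, ha, hr⟩ ⟨b, hb, hs⟩
    refine ⟨a + b, fun k => (ha k).add (hb k), ?_⟩
    rw [map_add, add_sub_add_comm]
    exact hr.add hs
  zero_mem' := ⟨0, fun k i => O_of_zero _, fun i => by simpa using O_of_zero _⟩
  smul_mem' := by
    rintro c r ⟨a, ha, hr⟩
    refine ⟨c • a, fun k => (ha k).smul c, ?_⟩
    rw [map_smul, ← smul_sub]
    exact hr.smul c

theorem Phi_mem {T : Fin 4 → Matrix (Fin n) (Fin n) ℂ} {d : ℕ} (a : Fin 4 → V n)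
    (ha : ∀ k, OV d (a k)) : Phi T a ∈ ZZ T d :=
  ⟨a, ha, fun i => by rw [sub_self]; exact O_of_zero _⟩

theorem good_T (T : Fin 4 → Matrix (Fin n) (Fin n) ℂ) (hT : ∀ k, T k * T k = 1) (d : ℕ) :
    ∀ k, Good (ZZ T d) d (T k) (T k) := by
  have hsingle : ∀ (k : Fin 4) (a : V n), OV d a → ∀ j, OV d ((Pi.single k a : Fin 4 → V n) j) := by
    intro k a ha j
    by_cases h : j = k
    · subst h; simpa using ha
    · rw [Pi.single_eq_of_ne h]; exact fun i => O_of_zero _
  have g0 : Good (ZZ T d) d (T 0) (T 0) := by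
    refine ⟨hT 0, hT 0, fun a ha => ?_⟩
    have h := Phi_mem (T := T) (Pi.single 0 a) (hsingle 0 a ha)
    have e : Phi T (Pi.single 0 a) = a - act (T 0) (T 0) a := by
      show ((Pi.single 0 a : Fin 4 → V n) 0 - _) + _ = _
      simp [act_zero]
    rwa [e] at h
  have g1 : Good (ZZ T d) d (T 1) (T 1) := by
    refine ⟨hT 1, hT 1, fun a ha => ?_⟩
    have h := Phi_mem (T := T) (Pi.single 1 a) (hsingle 1 a ha)
    have e : Phi T (Pi.single 1 a) = act (T 0) (T 0) (a - act (T 1) (T 1) a) := by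
      show ((Pi.single 1 a : Fin 4 → V n) 0 - _) + _ = _
      simp [act_zero]
    rw [e] at h
    have h2 := g0.2.2 (a - act (T 1) (T 1) a) (ha.sub (ha.act _ _))
    have := (ZZ T d).add_mem h2 h
    rwa [sub_add_cancel] at this
  have g2 : Good (ZZ T d) d (T 2) (T 2) := by
    refine ⟨hT 2, hT 2, fun a ha => ?_⟩
    have h := Phi_mem (T := T) (Pi.single 2 a) (hsingle 2 a ha)
    have e : Phi T (Pi.single 2 a) = act (T 0 * T 1) (T 1 * T 0) (a - act (T 2) (T 2) a) := by
      show ((Pi.single 2 a : Fin 4 → V n) 0 - _) + _ = _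
      simp [act_zero]
    rw [e] at h
    have h2 := (g0.mul g1).2.2 (a - act (T 2) (T 2) a) (ha.sub (ha.act _ _))
    have := (ZZ T d).add_mem h2 h
    rwa [sub_add_cancel] at this
  have g3 : Good (ZZ T d) d (T 3) (T 3) := by
    refine ⟨hT 3, hT 3, fun a ha => ?_⟩
    have h := Phi_mem (T := T) (Pi.single 3 a) (hsingle 3 a ha)
    have e : Phi T (Pi.single 3 a) =
        act (T 0 * T 1 * T 2) (T 2 * T 1 * T 0) (a - act (T 3) (T 3) a) := by
      show ((Pi.single 3 a : Fin 4 → V n) 0 - _) + _ = _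
      simp [act_zero]
    rw [e] at h
    have h2 := ((g0.mul g1).mul g2).2.2 (a - act (T 3) (T 3) a) (ha.sub (ha.act _ _))
    rw [← mul_assoc] at h2
    have := (ZZ T d).add_mem h2 h
    rwa [sub_add_cancel] at this
  intro k
  fin_cases k
  · exact g0
  · exact g1
  · exact g2
  · exact g3

theorem solv_of_gen (T : Fin 4 → Matrix (Fin n) (Fin n) ℂ) (hT : ∀ k, T k * T k = 1)
    (i0 i1 : Fin n) (h01 : i0 ≠ i1) (hE : T 2 * T 3 = 1 + Matrix.single i0 i1 1)
    (hgen : Gen T (Pi.single i0 1)) (hco : CoGen T (Pi.single i1 1)) (d : ℕ) (hd : 2 ≤ d) :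
    Solv T d := by
  intro r hr
  have hg := good_T T hT d
  have hE' : T 3 * T 2 = EE' i0 i1 := by
    have h1 : EE' i0 i1 * (T 2 * T 3) = 1 := by
      rw [hE, EE', sub_mul, one_mul, mul_add, mul_one, Matrix.single_mul_single_of_ne _ _ _ _ h01.symm]
      abel
    calc T 3 * T 2 = (EE' i0 i1 * (T 2 * T 3)) * (T 3 * T 2) := by rw [h1, one_mul]
      _ = EE' i0 i1 * (T 2 * (T 3 * T 3) * T 2) := by simp only [mul_assoc]
      _ = EE' i0 i1 := by rw [hT 3, mul_one, hT 2, mul_one]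
  have hEG : Good (ZZ T d) d (EE i0 i1) (EE' i0 i1) := by
    have := (hg 2).mul (hg 3)
    rw [hE, hE'] at this
    exact this
  have hZ : ∀ a : V n, OV (d + 1) a → a ∈ ZZ T d := by
    intro a ha
    refine ⟨0, fun k i => O_of_zero _, ?_⟩
    rw [map_zero, sub_zero]; exact ha
  obtain ⟨a, ha, h⟩ := hlemma hEG h01 hZ hd hg hgen hco r hr
  exact ⟨a, ha, h⟩

/-- **Upper bound.** -/
theorem six_involutions (hn : 2 ≤ n) (f : FMap n) (hf : (lin f).det ^ 2 = 1) :
    ∃ τ : Fin 6 → FMap n, (∀ k, τ k * τ k = 1) ∧ τ 0 * τ 1 * τ 2 * τ 3 * τ 4 * τ 5 = f := by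
  obtain ⟨Q, T, U1, U2, i0, i1, hQ, hT, hU1, hU2, hAQ, h01, hE, hgen, hco⟩ :=
    linalg_main hn (lin f) hf
  have hQu : IsUnit Q.det := isUnit_iff_ne_zero.mpr hQ
  have hQQ : Q * Q⁻¹ = 1 := Matrix.mul_nonsing_inv Q hQu
  have hQQ' : Q⁻¹ * Q = 1 := Matrix.nonsing_inv_mul Q hQu
  set q := linMap Q with hq
  set q' := linMap Q⁻¹ with hq'
  have qq : q * q' = 1 := by rw [hq, hq', ← linMap_mul, hQQ, linMap_one]
  have qq' : q' * q = 1 := by rw [hq, hq', ← linMap_mul, hQQ', linMap_one]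
  set u1 := linMap U1 with hu1
  set u2 := linMap U2 with hu2
  have u11 : u1 * u1 = 1 := by rw [hu1, ← linMap_mul, hU1, linMap_one]
  have u22 : u2 * u2 = 1 := by rw [hu2, ← linMap_mul, hU2, linMap_one]
  have hlin : lin (q' * f * q * u2 * u1) = T 0 * T 1 * T 2 * T 3 := by
    rw [lin_mul, lin_mul, lin_mul, lin_mul, hq, hq', hu1, hu2, lin_linMap, lin_linMap, lin_linMap,
      lin_linMap]
    calc Q⁻¹ * lin f * Q * U2 * U1 = Q⁻¹ * (lin f * Q) * (U2 * U1) := by simp only [mul_assoc]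
      _ = (Q⁻¹ * Q) * (T 0 * T 1 * T 2 * T 3) * (U1 * (U2 * U2) * U1) := by
          rw [hAQ]; simp only [mul_assoc]
      _ = _ := by rw [hU2, mul_one, hU1, mul_one, hQQ', one_mul]
  obtain ⟨τ, hτ, hprod⟩ := lift_four T hT
    (fun d hd => solv_of_gen T hT i0 i1 h01 hE hgen hco d hd) _ hlin
  have hconj : ∀ x : FMap n, x * x = 1 → (q * x * q') * (q * x * q') = 1 := by
    intro x hx
    calc (q * x * q') * (q * x * q') = q * (x * (q' * q) * x) * q' := by simp only [mul_assoc]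
      _ = 1 := by rw [qq', mul_one, hx, mul_one, qq]
  refine ⟨![q * τ 0 * q', q * τ 1 * q', q * τ 2 * q', q * τ 3 * q', q * u1 * q', q * u2 * q'],
    ?_, ?_⟩
  · intro k
    fin_cases k
    · exact hconj _ (hτ 0)
    · exact hconj _ (hτ 1)
    · exact hconj _ (hτ 2)
    · exact hconj _ (hτ 3)
    · exact hconj _ u11
    · exact hconj _ u22
  · show (q * τ 0 * q') * (q * τ 1 * q') * (q * τ 2 * q') * (q * τ 3 * q') * (q * u1 * q') *
      (q * u2 * q') = f
    have hm : ∀ x y : FMap n, (q * x * q') * (q * y * q') = q * (x * y) * q' := by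
      intro x y
      calc (q * x * q') * (q * y * q') = q * (x * (q' * q) * y) * q' := by simp only [mul_assoc]
        _ = _ := by rw [qq', mul_one]
    rw [hm, hm, hm, hm, hm, hprod]
    calc q * (q' * f * q * u2 * u1 * u1 * u2) * q'
        = (q * q') * f * q * (u2 * (u1 * u1) * u2) * q' := by simp only [mul_assoc]
      _ = f := by rw [u11, mul_one, u22, mul_one, qq, one_mul, mul_assoc, qq, mul_one]

end Pool.Agent.RevMaps
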