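import Mathlib
import Pool.Agent.RevMaps.Upper
import Pool.Agent.RevMaps.Bracket

/-!
Degree by degree lifting of a factorisation of the linear part into involutions, when only
part of the obstruction space vanishes; global conjugations take care of the rest.
-/

namespace Pool.Agent.RevMaps

open MvPowerSeries

variable {n : ℕ}

theorem lift_step_at {d : ℕ} (hd : 2 ≤ d) (T : Fin 4 → Matrix (Fin n) (Fin n) ℂ)
    (hT : ∀ k, T k * T k = 1) (f : FMap n) (τ : Fin 4 → FMap n) (hτ : ∀ k, τ k * τ k = 1)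
    (hl : ∀ k, lin (τ k) = T k) (hp : EqM d (τ 0 * τ 1 * τ 2 * τ 3) f)
    (hs : sb (linMap (T 3 * T 2 * T 1 * T 0))
      (fun i => f.toFun i - (τ 0 * τ 1 * τ 2 * τ 3).toFun i) ∈ ZZ T d) :
    ∃ τ' : Fin 4 → FMap n, (∀ k, τ' k * τ' k = 1) ∧ (∀ k, lin (τ' k) = T k) ∧
      EqM (d + 1) (τ' 0 * τ' 1 * τ' 2 * τ' 3) f ∧ ∀ k, EqM d (τ' k) (τ k) := by
  set N' : Matrix (Fin n) (Fin n) ℂ := T 3 * T 2 * T 1 * T 0 with hN'
  have hN'N : N' * (T 0 * T 1 * T 2 * T 3) = 1 := by
    rw [hN']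
    calc T 3 * T 2 * T 1 * T 0 * (T 0 * T 1 * T 2 * T 3)
        = T 3 * (T 2 * (T 1 * (T 0 * T 0) * T 1) * T 2) * T 3 := by simp only [mul_assoc]
      _ = 1 := by simp [hT]
  set e : V n := fun i => f.toFun i - (τ 0 * τ 1 * τ 2 * τ 3).toFun i with he
  have heO : OV d e := fun i => (hp i).symm_sub
  obtain ⟨a, ha, hr⟩ := hs
  have hr : OV (d + 1) (sb (linMap N') e - ((a 0 - act (T 0) (T 0) (a 0)) +
      (act (T 0) (T 0) (a 1 - act (T 1) (T 1) (a 1)) +
      (act (T 0 * T 1) (T 1 * T 0) (a 2 - act (T 2) (T 2) (a 2)) +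
       act (T 0 * T 1 * T 2) (T 2 * T 1 * T 0) (a 3 - act (T 3) (T 3) (a 3)))))) := hr
  have hc : ∀ k, OV d (a k - act (T k) (T k) (a k)) := fun k => (ha k).sub ((ha k).act _ _)
  have hc1 : ∀ k, OV 1 (a k - act (T k) (T k) (a k)) := fun k => (hc k).mono (by omega)
  have hmod := fun k => modify hd (τ k) (T k) (hτ k) (hT k) (hl k) (a k) (ha k) (hc1 k)
  choose τ' hτ' hE using hmod
  have hEd : ∀ k, EqM d (τ' k) (τ k) := by
    intro k
    refine (hE k).add_left_comm.trans ?_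
    intro i
    rw [oneAdd_mul, add_sub_cancel_left]
    exact (hc k).sb _ i
  refine ⟨τ', hτ', fun k => ?_, ?_, hEd⟩
  · rw [(hEd k).lin_eq hd, hl k]
  · -- the product
    set c : Fin 4 → V n := fun k => a k - act (T k) (T k) (a k) with hcdef
    have hact1 : ∀ (M M' : Matrix (Fin n) (Fin n) ℂ) (k : Fin 4), OV 1 (act M M' (c k)) :=
      fun M M' k => ((hc k).act M M').mono (by omega)
    have hact : ∀ (M M' : Matrix (Fin n) (Fin n) ℂ) (k : Fin 4), OV d (act M M' (c k)) :=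
      fun M M' k => (hc k).act M M'
    -- move everything to the left
    have hP : EqM (d + 1) (τ' 0 * τ' 1 * τ' 2 * τ' 3)
        (oneAdd (c 0) (hc1 0) * τ 0 * (oneAdd (c 1) (hc1 1) * τ 1) *
          (oneAdd (c 2) (hc1 2) * τ 2) * (oneAdd (c 3) (hc1 3) * τ 3)) :=
      (((hE 0).mul (hE 1)).mul (hE 2)).mul (hE 3)
    have i0 : T 0 * T 0 = 1 := hT 0
    have i1 : (T 1 * T 0) * (T 0 * T 1) = 1 := by
      calc (T 1 * T 0) * (T 0 * T 1) = T 1 * (T 0 * T 0) * T 1 := by simp only [mul_assoc]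
        _ = 1 := by simp [hT]
    have i2 : (T 2 * T 1 * T 0) * (T 0 * T 1 * T 2) = 1 := by
      calc (T 2 * T 1 * T 0) * (T 0 * T 1 * T 2) = T 2 * (T 1 * (T 0 * T 0) * T 1) * T 2 := by
            simp only [mul_assoc]
        _ = 1 := by simp [hT]
    have s3 := mul_oneAdd (τ 0 * τ 1 * τ 2) (T 0 * T 1 * T 2) (T 2 * T 1 * T 0)
      (by rw [lin_mul, lin_mul, hl, hl, hl]) i2 (c 3) (hc1 3) (hc 3) (hact1 _ _ 3)
    have s2 := mul_oneAdd (τ 0 * τ 1) (T 0 * T 1) (T 1 * T 0)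
      (by rw [lin_mul, hl, hl]) i1 (c 2) (hc1 2) (hc 2) (hact1 _ _ 2)
    have s1 := mul_oneAdd (τ 0) (T 0) (T 0) (hl 0) i0 (c 1) (hc1 1) (hc 1) (hact1 _ _ 1)
    set A1 := oneAdd (act (T 0) (T 0) (c 1)) (hact1 _ _ 1) with hA1
    set A2 := oneAdd (act (T 0 * T 1) (T 1 * T 0) (c 2)) (hact1 _ _ 2) with hA2
    set A3 := oneAdd (act (T 0 * T 1 * T 2) (T 2 * T 1 * T 0) (c 3)) (hact1 _ _ 3) with hA3
    have hQ : EqM (d + 1) (oneAdd (c 0) (hc1 0) * τ 0 * (oneAdd (c 1) (hc1 1) * τ 1) *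
          (oneAdd (c 2) (hc1 2) * τ 2) * (oneAdd (c 3) (hc1 3) * τ 3))
          (oneAdd (c 0) (hc1 0) * (A1 * (A2 * (A3 * (τ 0 * τ 1 * τ 2 * τ 3))))) := by
      have q1 : EqM (d + 1) (oneAdd (c 0) (hc1 0) * τ 0 * (oneAdd (c 1) (hc1 1) * τ 1))
          (oneAdd (c 0) (hc1 0) * A1 * (τ 0 * τ 1)) := by
        have := ((EqM.refl (d + 1) (oneAdd (c 0) (hc1 0))).mul s1).mul (EqM.refl (d + 1) (τ 1))
        simpa only [mul_assoc] using this
      have q2 : EqM (d + 1) (oneAdd (c 0) (hc1 0) * τ 0 * (oneAdd (c 1) (hc1 1) * τ 1) *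
          (oneAdd (c 2) (hc1 2) * τ 2))
          (oneAdd (c 0) (hc1 0) * A1 * A2 * (τ 0 * τ 1 * τ 2)) := by
        have h1 := q1.mul (EqM.refl (d + 1) (oneAdd (c 2) (hc1 2) * τ 2))
        have h2 := ((EqM.refl (d + 1) (oneAdd (c 0) (hc1 0) * A1)).mul s2).mul
          (EqM.refl (d + 1) (τ 2))
        refine h1.trans ?_
        simpa only [mul_assoc] using h2
      have h1 := q2.mul (EqM.refl (d + 1) (oneAdd (c 3) (hc1 3) * τ 3))
      have h2 := ((EqM.refl (d + 1) (oneAdd (c 0) (hc1 0) * A1 * A2)).mul s3).mul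
          (EqM.refl (d + 1) (τ 3))
      refine h1.trans ?_
      simpa only [mul_assoc] using h2
    -- merge the corrections
    have m23 := oneAdd_mul_oneAdd hd _ _ (hact1 _ _ 2) (hact (T 0 * T 1) (T 1 * T 0) 2)
      (hact1 _ _ 3) (hact (T 0 * T 1 * T 2) (T 2 * T 1 * T 0) 3)
      (((hact1 _ _ 2)).add (hact1 _ _ 3))
    have m123 := oneAdd_mul_oneAdd hd _ _ (hact1 _ _ 1) (hact (T 0) (T 0) 1)
      (((hact1 (T 0 * T 1) (T 1 * T 0) 2)).add (hact1 (T 0 * T 1 * T 2) (T 2 * T 1 * T 0) 3))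
      (((hact _ _ 2)).add (hact _ _ 3))
      ((hact1 _ _ 1).add ((hact1 _ _ 2).add (hact1 _ _ 3)))
    have m0123 := oneAdd_mul_oneAdd hd _ _ (hc1 0) (hc 0)
      ((hact1 (T 0) (T 0) 1).add ((hact1 (T 0 * T 1) (T 1 * T 0) 2).add
        (hact1 (T 0 * T 1 * T 2) (T 2 * T 1 * T 0) 3)))
      ((hact _ _ 1).add ((hact _ _ 2).add (hact _ _ 3)))
      ((hc1 0).add ((hact1 _ _ 1).add ((hact1 _ _ 2).add (hact1 _ _ 3))))
    set r' : V n := c 0 + (act (T 0) (T 0) (c 1) + (act (T 0 * T 1) (T 1 * T 0) (c 2) +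
      act (T 0 * T 1 * T 2) (T 2 * T 1 * T 0) (c 3))) with hr'
    have hr'O : OV d r' := (hc 0).add ((hact _ _ 1).add ((hact _ _ 2).add (hact _ _ 3)))
    have hr'1 : OV 1 r' := hr'O.mono (by omega)
    have hM : EqM (d + 1) (oneAdd (c 0) (hc1 0) * (A1 * (A2 * (A3 * (τ 0 * τ 1 * τ 2 * τ 3)))))
        (oneAdd r' hr'1 * (τ 0 * τ 1 * τ 2 * τ 3)) := by
      have h1 : EqM (d + 1) (oneAdd (c 0) (hc1 0) * (A1 * (A2 * A3))) (oneAdd r' hr'1) :=
        ((EqM.refl (d + 1) (oneAdd (c 0) (hc1 0))).mul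
          (((EqM.refl (d + 1) A1).mul m23).trans m123)).trans m0123
      have h2 := h1.mul (EqM.refl (d + 1) (τ 0 * τ 1 * τ 2 * τ 3))
      simpa only [mul_assoc] using h2
    refine (hP.trans (hQ.trans hM)).trans ?_
    intro i
    rw [oneAdd_mul]
    have g1 := sb_lin (τ 0 * τ 1 * τ 2 * τ 3) r' hr'O i
    have hlin : lin (τ 0 * τ 1 * τ 2 * τ 3) = T 0 * T 1 * T 2 * T 3 := by
      rw [lin_mul, lin_mul, lin_mul, hl, hl, hl, hl]
    rw [hlin] at g1
    have g2 : OV (d + 1) (sb (linMap (T 0 * T 1 * T 2 * T 3)) (sb (linMap N') e - r')) := hr.sb _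
    rw [sb_sub, sb_sb, ← linMap_mul, hN'N, linMap_one, sb_one] at g2
    have g3 := g1.sub (g2 i)
    convert g3 using 1
    show (τ 0 * τ 1 * τ 2 * τ 3).toFun i + sb (τ 0 * τ 1 * τ 2 * τ 3) r' i - f.toFun i =
      sb (τ 0 * τ 1 * τ 2 * τ 3) r' i - sb (linMap (T 0 * T 1 * T 2 * T 3)) r' i -
        ((f.toFun i - (τ 0 * τ 1 * τ 2 * τ 3).toFun i) - sb (linMap (T 0 * T 1 * T 2 * T 3)) r' i)
    ring


theorem ZZ_of_OV (T : Fin 4 → Matrix (Fin n) (Fin n) ℂ) (d : ℕ) {a : V n} (ha : OV (d + 1) a) :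
    a ∈ ZZ T d := by
  refine ⟨0, fun k i => O_of_zero _, ?_⟩
  rw [map_zero, sub_zero]; exact ha

/-- the nonlinear part of a formal map with trivial linear part -/
noncomputable def nl (f : FMap n) : V n := fun i => f.toFun i - X i

theorem OV_nl {f : FMap n} (hf : lin f = 1) : OV 2 (nl f) := by
  intro i
  have h := sub_lin_O f i
  rw [hf, linMap_one] at h
  exact h

theorem OV_nl_one (f : FMap n) : OV 1 (nl f) := fun i => (f.O1 i).sub (O_X i)

theorem eq_oneAdd_nl (f : FMap n) : f = oneAdd (nl f) (OV_nl_one f) := by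
  apply FMap.ext
  intro i
  show f.toFun i = X i + (f.toFun i - X i)
  ring

/-- an involution tangent to the identity is trivial -/
theorem invol_eq_one (τ : FMap n) (h : τ * τ = 1) (hl : lin τ = 1) : τ = 1 := by
  have key : ∀ d, 2 ≤ d → OV d (nl τ) := by
    intro d hd
    induction d, hd using Nat.le_induction with
    | base => exact OV_nl hl
    | succ d hd ih =>
      have h1 := oneAdd_mul_oneAdd hd (nl τ) (nl τ) (OV_nl_one τ) ih (OV_nl_one τ) ih
        ((OV_nl_one τ).add (OV_nl_one τ))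
      rw [← eq_oneAdd_nl, h] at h1
      intro i
      have h2 := h1 i
      have h3 : (1 : FMap n).toFun i - (oneAdd (nl τ + nl τ) ((OV_nl_one τ).add
          (OV_nl_one τ))).toFun i = (-2 : ℂ) • nl τ i := by
        show (X i : PS n) - (X i + (nl τ i + nl τ i)) = _
        rw [neg_smul, two_smul]; ring
      rw [h3] at h2
      have h4 := h2.smul (-(1 / 2) : ℂ)
      rwa [smul_smul, show (-(1 / 2) : ℂ) * -2 = 1 by norm_num, one_smul] at h4
  apply eq_of_EqM
  intro d i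
  exact ((key (max d 2) (le_max_right _ _)) i).mono (le_max_left _ _)

theorem comm_R (R : Matrix (Fin n) (Fin n) ℂ) (hRR : R * R = 1) (k : V n) (hk1 : OV 1 k)
    (hk : act R R k = k) : oneAdd k hk1 * linMap R = linMap R * oneAdd k hk1 := by
  apply FMap.ext
  intro i
  rw [oneAdd_mul, linMap_mul_toFun]
  have h1 : (oneAdd k hk1).toFun = (fun i => X i) + k := rfl
  rw [h1, mv_add, ← linMap_toFun]
  have h2 : sb (linMap R) k = mv R k := by
    conv_lhs => rw [← hk]
    rw [act, sb_mv, sb_sb, ← linMap_mul, hRR, linMap_one, sb_one]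
  rw [h2]
  rfl

theorem lin_inv_one (u : (FMap n)ˣ) (hu : lin (u : FMap n) = 1) :
    lin ((u⁻¹ : (FMap n)ˣ) : FMap n) = 1 := by
  have h := congrArg lin u.mul_inv
  rw [lin_mul, hu, one_mul, lin_one] at h
  exact h

/-- **Lifting with global conjugations.** -/
theorem lift_conj (T : Fin 4 → Matrix (Fin n) (Fin n) ℂ) (hT : ∀ k, T k * T k = 1)
    (R : Matrix (Fin n) (Fin n) ℂ) (hR : T 0 * T 1 * T 2 * T 3 = R) (hRR : R * R = 1)
    (m : ℕ) (hm : 2 ≤ m) (Q : V n) (hQ : OV m Q)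
    (hbase : act R R Q ∈ ZZ T m)
    (hstep : ∀ d, m + 1 ≤ d → ∀ r : V n, OV d r → ∃ k : V n, OV (d + 1 - m) k ∧ act R R k = k ∧
      r + act R R (br k Q) ∈ ZZ T d)
    (q : V n) (hq1 : OV 1 q) (hqQ : OV (m + 1) (q - Q)) :
    ∃ τ : Fin 4 → FMap n, (∀ k, τ k * τ k = 1) ∧ (∀ k, lin (τ k) = T k) ∧
      τ 0 * τ 1 * τ 2 * τ 3 = linMap R * oneAdd q hq1 := by
  classical
  set g : FMap n := linMap R * oneAdd q hq1 with hg
  have hqm : OV m q := by
    have h := (hqQ.mono (by omega : m ≤ m + 1)).add hQ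
    rwa [sub_add_cancel] at h
  have hN' : T 3 * T 2 * T 1 * T 0 = R := by
    have h1 : T 3 * T 2 * T 1 * T 0 * R = 1 := by
      rw [← hR]
      calc T 3 * T 2 * T 1 * T 0 * (T 0 * T 1 * T 2 * T 3)
          = T 3 * (T 2 * (T 1 * (T 0 * T 0) * T 1) * T 2) * T 3 := by simp only [mul_assoc]
        _ = 1 := by simp [hT]
    calc T 3 * T 2 * T 1 * T 0 = T 3 * T 2 * T 1 * T 0 * (R * R) := by rw [hRR, mul_one]
      _ = (T 3 * T 2 * T 1 * T 0 * R) * R := by simp only [mul_assoc]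
      _ = R := by rw [h1, one_mul]
  let P : ℕ → ((FMap n)ˣ × (Fin 4 → FMap n)) → Prop := fun d s =>
    lin (s.1 : FMap n) = 1 ∧ (s.1 : FMap n) * linMap R = linMap R * s.1 ∧
    (∀ k, s.2 k * s.2 k = 1) ∧ (∀ k, lin (s.2 k) = T k) ∧
    EqM d (s.2 0 * s.2 1 * s.2 2 * s.2 3) (s.1 * g * ((s.1⁻¹ : (FMap n)ˣ) : FMap n))
  -- the base
  have hbase' : ∃ s, P (m + 1) s := by
    have hlinR : linMap (T 0) * linMap (T 1) * linMap (T 2) * linMap (T 3) = linMap R := by
      rw [← linMap_mul, ← linMap_mul, ← linMap_mul, hR]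
    have hdiff : (fun i => g.toFun i - (linMap (T 0) * linMap (T 1) * linMap (T 2) *
        linMap (T 3)).toFun i) = mv R q := by
      funext i
      rw [hlinR, hg, linMap_mul_toFun]
      have h1 : (oneAdd q hq1).toFun = (fun i => X i) + q := rfl
      rw [h1, mv_add, ← linMap_toFun, Pi.add_apply, add_sub_cancel_left]
    have hp : EqM m (linMap (T 0) * linMap (T 1) * linMap (T 2) * linMap (T 3)) g := by
      intro i
      have h1 : O m ((fun i => g.toFun i - (linMap (T 0) * linMap (T 1) * linMap (T 2) *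
        linMap (T 3)).toFun i) i) := by
        rw [hdiff]; exact (hqm.mv R) i
      exact h1.symm_sub
    have hs : sb (linMap (T 3 * T 2 * T 1 * T 0)) (fun i => g.toFun i - (linMap (T 0) *
        linMap (T 1) * linMap (T 2) * linMap (T 3)).toFun i) ∈ ZZ T m := by
      rw [hdiff, hN', sb_mv]
      have e1 : mv R (sb (linMap R) q) = act R R Q + act R R (q - Q) := by
        rw [← act_add, add_sub_cancel]; rfl
      rw [e1]
      exact (ZZ T m).add_mem hbase (ZZ_of_OV T m (hqQ.act R R))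
    obtain ⟨τ', h1, h2, h3, _⟩ := lift_step_at hm T hT g (fun k => linMap (T k))
      (fun k => by rw [← linMap_mul, hT, linMap_one]) (fun k => lin_linMap _) hp hs
    refine ⟨(1, τ'), ?_, ?_, h1, h2, ?_⟩
    · simp [lin_one]
    · simp
    · simpa using h3
  -- the step
  have hstep' : ∀ d, m + 1 ≤ d → ∀ s, P d s → ∃ s', P (d + 1) s' ∧
      EqM (d + 1 - m) (s'.1 : FMap n) s.1 ∧ ∀ k, EqM d (s'.2 k) (s.2 k) := by
    rintro d hd ⟨U, τ⟩ ⟨hU1, hUR, hτ, hl, hp⟩
    simp only at hU1 hUR hτ hl hp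
    set h : FMap n := (U : FMap n) * g * ((U⁻¹ : (FMap n)ˣ) : FMap n) with hh
    set ψ : FMap n := (U : FMap n) * oneAdd q hq1 * ((U⁻¹ : (FMap n)ˣ) : FMap n) with hψ
    have hhψ : h = linMap R * ψ := by
      rw [hh, hψ, hg]
      calc (U : FMap n) * (linMap R * oneAdd q hq1) * ((U⁻¹ : (FMap n)ˣ) : FMap n)
          = (U * linMap R) * oneAdd q hq1 * ((U⁻¹ : (FMap n)ˣ) : FMap n) := by
            simp only [mul_assoc]
        _ = _ := by rw [hUR]; simp only [mul_assoc]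
    set q' : V n := nl ψ with hq'
    have hψ' : ψ = oneAdd q' (OV_nl_one ψ) := eq_oneAdd_nl ψ
    have hq'q : OV (m + 1) (q' - q) := by
      have hbr : OV (m + 1) (br (nl (U : FMap n)) q) := OV_br (OV_nl hU1) hqm (by omega)
      have h1 := conj_oneAdd (le_refl 2) hm U (nl (U : FMap n)) q (OV_nl_one _) hq1 (OV_nl hU1) hqm
        (eq_oneAdd_nl _) (hq1.add (hbr.mono (by omega)))
      intro i
      have h2 := (h1 i).mono (show m + 1 ≤ 2 + m by omega)
      rw [← hψ] at h2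
      have h3 := h2.add (hbr i)
      have h4 : ψ.toFun i - (oneAdd (q + br (nl (U : FMap n)) q)
          (hq1.add (hbr.mono (by omega)))).toFun i + br (nl (U : FMap n)) q i = (q' - q) i := by
        show ψ.toFun i - (X i + (q i + br (nl (U : FMap n)) q i)) + br (nl (U : FMap n)) q i =
          (ψ.toFun i - X i) - q i
        ring
      rwa [h4] at h3
    have hq'Q : OV (m + 1) (q' - Q) := by
      have h := hq'q.add hqQ
      rwa [sub_add_sub_cancel] at h
    have hq'm : OV m q' := by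
      have h := (hq'Q.mono (by omega : m ≤ m + 1)).add hQ
      rwa [sub_add_cancel] at h
    set r : V n := sb (linMap (T 3 * T 2 * T 1 * T 0))
      (fun i => h.toFun i - (τ 0 * τ 1 * τ 2 * τ 3).toFun i) with hr
    have hrO : OV d r := OV.sb _ (fun i => (hp i).symm_sub)
    obtain ⟨k, hk, hkR, hkZ⟩ := hstep d hd r hrO
    have he2 : 2 ≤ d + 1 - m := by omega
    have hk1 : OV 1 k := hk.mono (by omega)
    obtain ⟨φ, hφ⟩ := isUnit_oneAdd he2 k hk1 hk
    have hbr' : OV d (br k q') := OV_br hk hq'm (by omega)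
    have hsum1 : OV 1 (q' + br k q') := (hq'm.mono (by omega)).add (hbr'.mono (by omega))
    have hc := conj_oneAdd he2 hm φ k q' hk1 (OV_nl_one ψ) hk hq'm hφ hsum1
    rw [show d + 1 - m + m = d + 1 by omega, ← hψ'] at hc
    have hφR : (φ : FMap n) * linMap R = linMap R * φ := by
      rw [hφ]; exact comm_R R hRR k hk1 hkR
    set h' : FMap n := (φ : FMap n) * h * ((φ⁻¹ : (FMap n)ˣ) : FMap n) with hh'
    have hh'ψ : h' = linMap R * ((φ : FMap n) * ψ * ((φ⁻¹ : (FMap n)ˣ) : FMap n)) := by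
      rw [hh', hhψ]
      calc (φ : FMap n) * (linMap R * ψ) * ((φ⁻¹ : (FMap n)ˣ) : FMap n)
          = (φ * linMap R) * ψ * ((φ⁻¹ : (FMap n)ˣ) : FMap n) := by
            simp only [mul_assoc]
        _ = _ := by rw [hφR]; simp only [mul_assoc]
    have hE : EqM (d + 1) h' (linMap R * oneAdd (q' + br k q') hsum1) := by
      rw [hh'ψ]
      exact (EqM.refl _ _).mul hc
    have hval : ∀ i, (linMap R * oneAdd (q' + br k q') hsum1).toFun i =
        h.toFun i + mv R (br k q') i := by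
      intro i
      rw [hhψ, hψ', linMap_mul_toFun, linMap_mul_toFun]
      have h1 : (oneAdd (q' + br k q') hsum1).toFun = (oneAdd q' (OV_nl_one ψ)).toFun + br k q' := by
        funext j
        show X j + (q' j + br k q' j) = X j + q' j + br k q' j
        ring
      rw [h1, mv_add]
      rfl
    have hp' : EqM d (τ 0 * τ 1 * τ 2 * τ 3) h' := by
      have h1 : EqM d h' h := by
        intro i
        have h2 := (hE.mono (by omega : d ≤ d + 1)) i
        rw [hval] at h2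
        have h3 := h2.add ((hbr'.mv R) i)
        have h4 : h'.toFun i - (h.toFun i + mv R (br k q') i) + mv R (br k q') i =
          h'.toFun i - h.toFun i := by ring
        rwa [h4] at h3
      exact hp.trans h1.symm
    have hs : sb (linMap (T 3 * T 2 * T 1 * T 0))
        (fun i => h'.toFun i - (τ 0 * τ 1 * τ 2 * τ 3).toFun i) ∈ ZZ T d := by
      set w : V n := fun i => h'.toFun i - (h.toFun i + mv R (br k q') i) with hw
      have hwO : OV (d + 1) w := by
        intro i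
        have h1 := hE i
        rwa [hval] at h1
      have e1 : (fun i => h'.toFun i - (τ 0 * τ 1 * τ 2 * τ 3).toFun i) =
          (fun i => h.toFun i - (τ 0 * τ 1 * τ 2 * τ 3).toFun i) + (mv R (br k q') + w) := by
        funext i
        simp only [Pi.add_apply, hw]
        ring
      rw [e1, sb_add, ← hr, sb_add]
      have e2 : sb (linMap (T 3 * T 2 * T 1 * T 0)) (mv R (br k q')) =
          act R R (br k Q) + act R R (br k (q' - Q)) := by
        rw [← act_add, br_sub_right, add_sub_cancel, hN', sb_mv]; rfl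
      rw [e2]
      have hb2 : OV (d + 1) (act R R (br k (q' - Q))) :=
        (OV_br hk hq'Q (by omega)).act R R
      have e3 : r + (act R R (br k Q) + act R R (br k (q' - Q)) +
          sb (linMap (T 3 * T 2 * T 1 * T 0)) w) = (r + act R R (br k Q)) +
          (act R R (br k (q' - Q)) + sb (linMap (T 3 * T 2 * T 1 * T 0)) w) := by abel
      rw [e3]
      exact (ZZ T d).add_mem hkZ (ZZ_of_OV T d (hb2.add (hwO.sb _)))
    obtain ⟨τ', h1, h2, h3, h4⟩ := lift_step_at (by omega) T hT h' τ hτ hl hp' hs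
    refine ⟨(φ * U, τ'), ⟨?_, ?_, h1, h2, ?_⟩, ?_, h4⟩
    · show lin (((φ * U : (FMap n)ˣ)) : FMap n) = 1
      rw [Units.val_mul, lin_mul, hU1, mul_one, hφ, lin_oneAdd he2 k hk1 hk]
    · show (((φ * U : (FMap n)ˣ)) : FMap n) * linMap R = linMap R * ((φ * U : (FMap n)ˣ) : FMap n)
      rw [Units.val_mul, mul_assoc, hUR, ← mul_assoc, hφR, mul_assoc]
    · show EqM (d + 1) (τ' 0 * τ' 1 * τ' 2 * τ' 3) (((φ * U : (FMap n)ˣ) : FMap n) * g *
        (((φ * U)⁻¹ : (FMap n)ˣ) : FMap n))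
      have e1 : ((φ * U : (FMap n)ˣ) : FMap n) * g * (((φ * U)⁻¹ : (FMap n)ˣ) : FMap n) = h' := by
        rw [hh', hh, mul_inv_rev, Units.val_mul, Units.val_mul]
        simp only [mul_assoc]
      rw [e1]; exact h3
    · show EqM (d + 1 - m) ((φ * U : (FMap n)ˣ) : FMap n) (U : FMap n)
      intro i
      rw [Units.val_mul, hφ, oneAdd_mul, add_sub_cancel_left]
      exact (hk.sb _) i
  obtain ⟨s0, hs0⟩ := hbase'
  choose! F hF1 hF2 hF3 using hstep'
  let s : ℕ → ((FMap n)ˣ × (Fin 4 → FMap n)) := fun j => Nat.rec s0 (fun j x => F (m + 1 + j) x) j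
  have hs1 : ∀ j, P (m + 1 + j) (s j) := by
    intro j
    induction j with
    | zero => exact hs0
    | succ j ih => exact hF1 (m + 1 + j) (by omega) (s j) ih
  have hsU : ∀ j, EqM (j + 2) ((s (j + 1)).1 : FMap n) (s j).1 := by
    intro j
    have := hF2 (m + 1 + j) (by omega) (s j) (hs1 j)
    rw [show m + 1 + j + 1 - m = j + 2 by omega] at this
    exact this
  have hsT : ∀ j k, EqM (m + 1 + j) ((s (j + 1)).2 k) ((s j).2 k) := by
    intro j k
    exact hF3 (m + 1 + j) (by omega) (s j) (hs1 j) k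
  obtain ⟨U, hU⟩ := exists_limit (fun d => ((s (d - 2)).1 : FMap n)) 2 (by
    intro d hd
    obtain ⟨j, rfl⟩ : ∃ j, d = j + 2 := ⟨d - 2, by omega⟩
    have e1 : j + 2 + 1 - 2 = j + 1 := by omega
    have e2 : j + 2 - 2 = j := by omega
    simp only [e1, e2]
    exact hsU j)
  have hlim := fun k => exists_limit (fun d => (s (d - (m + 1))).2 k) (m + 1) (by
    intro d hd
    obtain ⟨j, rfl⟩ : ∃ j, d = m + 1 + j := ⟨d - (m + 1), by omega⟩
    have e1 : m + 1 + j + 1 - (m + 1) = j + 1 := by omega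
    have e2 : m + 1 + j - (m + 1) = j := by omega
    simp only [e1, e2]
    exact hsT j k)
  choose τ hτ using hlim
  have hτj : ∀ j k, EqM (m + 1 + j) (τ k) ((s j).2 k) := by
    intro j k
    have := hτ k (m + 1 + j) (by omega)
    rwa [show m + 1 + j - (m + 1) = j by omega] at this
  have hUj : ∀ j, EqM (j + 2) U ((s j).1 : FMap n) := by
    intro j
    have := hU (j + 2) (by omega)
    rwa [show j + 2 - 2 = j by omega] at this
  have hU1 : lin U = 1 := by
    rw [(hUj 0).lin_eq (by omega)]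
    exact (hs1 0).1
  obtain ⟨u, hu⟩ : IsUnit U := by
    rw [isUnit_iff_det, hU1, Matrix.det_one]; exact one_ne_zero
  have hττ : ∀ k, τ k * τ k = 1 := by
    intro k
    apply eq_of_EqM
    intro d
    have h1 := (hτj d k).mul (hτj d k)
    rw [(hs1 d).2.2.1 k] at h1
    exact h1.mono (by omega)
  have hτl : ∀ k, lin (τ k) = T k := by
    intro k
    rw [(hτj 0 k).lin_eq (by omega)]
    exact (hs1 0).2.2.2.1 k
  have hmain : τ 0 * τ 1 * τ 2 * τ 3 * U = U * g := by
    apply eq_of_EqM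
    intro d
    have h1 := ((((hτj d 0).mul (hτj d 1)).mul (hτj d 2)).mul (hτj d 3)).mono
      (show d ≤ m + 1 + d by omega)
    have h2 := (hUj d).mono (show d ≤ d + 2 by omega)
    have h3 := ((hs1 d).2.2.2.2.mono (show d ≤ m + 1 + d by omega)).mul
      (EqM.refl d ((s d).1 : FMap n))
    rw [mul_assoc ((s d).1 * g : FMap n), ((s d).1).inv_mul, mul_one] at h3
    exact ((h1.mul h2).trans h3).trans (h2.symm.mul (EqM.refl d g))
  have hui := lin_inv_one u (by rw [hu]; exact hU1)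
  refine ⟨fun k => ((u⁻¹ : (FMap n)ˣ) : FMap n) * τ k * u, fun k => ?_, fun k => ?_, ?_⟩
  · calc ((u⁻¹ : (FMap n)ˣ) : FMap n) * τ k * u * (((u⁻¹ : (FMap n)ˣ) : FMap n) * τ k * u)
        = ((u⁻¹ : (FMap n)ˣ) : FMap n) * (τ k * ((u * ((u⁻¹ : (FMap n)ˣ) : FMap n)) * τ k)) * u := by
          simp only [mul_assoc]
      _ = 1 := by rw [u.mul_inv, one_mul, hττ, mul_one, u.inv_mul]
  · rw [lin_mul, lin_mul, hui, hu, hU1, hτl, one_mul, mul_one]
  · have hm2 : ∀ x y : FMap n, (((u⁻¹ : (FMap n)ˣ) : FMap n) * x * u) *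
        (((u⁻¹ : (FMap n)ˣ) : FMap n) * y * u) = ((u⁻¹ : (FMap n)ˣ) : FMap n) * (x * y) * u := by
      intro x y
      calc (((u⁻¹ : (FMap n)ˣ) : FMap n) * x * u) * (((u⁻¹ : (FMap n)ˣ) : FMap n) * y * u)
          = ((u⁻¹ : (FMap n)ˣ) : FMap n) * (x * ((u * ((u⁻¹ : (FMap n)ˣ) : FMap n)) * y)) * u := by
            simp only [mul_assoc]
        _ = _ := by rw [u.mul_inv, one_mul]
    rw [hm2, hm2, hm2]
    have h1 : τ 0 * τ 1 * τ 2 * τ 3 * (u : FMap n) = u * g := by rw [hu]; exact hmain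
    rw [mul_assoc, h1, ← mul_assoc, u.inv_mul, one_mul]

end Pool.Agent.RevMaps
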