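import Mathlib
import Pool.Agent.RevMaps.Hom

/-!
Lower bound: an explicit formal map, tangent to the identity, that is not a product of three
involutions.
-/

namespace Pool.Agent.RevMaps

open MvPowerSeries

variable {n : ℕ}

/-- the tuple `X₀² X_i` -/
noncomputable def v0 (z : Fin n) : V n := fun i => X z ^ 2 * X i

theorem OV_v0 (z : Fin n) : OV 3 (v0 z) := fun i =>
  ((O_pow (k := 2) (O_X z)).mul (O_X i)).mono (by omega)

/-- the map `x ↦ (1 + x₀²) x` -/
noncomputable def f0 (z : Fin n) : FMap n := oneAdd (v0 z) ((OV_v0 z).mono (by omega))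

theorem act_v0 (z : Fin n) (M M' : Matrix (Fin n) (Fin n) ℂ) (h : M * M' = 1) (i : Fin n) :
    act M M' (v0 z) i = ell (M' z) ^ 2 * X i := by
  have h1 : sb (linMap M') (v0 z) = fun j => ell (M' z) ^ 2 * ell (M' j) := by
    funext j
    show (X z ^ 2 * X j : PS n).subst (linMap M').toFun = _
    rw [subst_mulC, subst_powC, subst_X_linMap, subst_X_linMap]
  rw [act, h1]
  have h2 : mv M (fun j => ell (M' z) ^ 2 * ell (M' j)) i =
      ell (M' z) ^ 2 * mv M (fun j => ell (M' j)) i := by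
    simp only [mv, Finset.mul_sum, mul_smul_comm]
  rw [h2]
  congr 1
  have h3 : (fun j => ell (M' j)) = mv M' (fun i => (X i : PS n)) := rfl
  rw [h3, mv_mv, h, mv_one]

theorem ell_subst_rank1 (φ x : Fin n → ℂ) (z : Fin n) :
    (ell φ).subst (linMap (Matrix.vecMulVec x (Pi.single z 1))).toFun =
      (φ ⬝ᵥ x) • (X z : PS n) := by
  rw [ell, subst_sumC]
  simp only [subst_smulC, subst_X_linMap]
  rw [dotProduct, Finset.sum_smul]
  apply Finset.sum_congr rfl
  intro j _
  have : ell (Matrix.vecMulVec x (Pi.single z 1) j) = x j • (X z : PS n) := by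
    have e : Matrix.vecMulVec x (Pi.single z 1) j = x j • (Pi.single z 1 : Fin n → ℂ) := by
      funext k; simp [Matrix.vecMulVec_apply]
    rw [e, ell_smul, ell_single]
  rw [this, smul_smul]

/-- key consequence of being a product of three involutions -/
theorem three_key (z : Fin n) (t : Fin 3 → FMap n) (ht : ∀ k, t k * t k = 1)
    (hp : t 0 * t 1 * t 2 = f0 z) :
    OV 4 ((v0 z + act (lin (t 2)) (lin (t 2)) (v0 z)) +
      act (lin (t 0)) (lin (t 0)) (v0 z + act (lin (t 2)) (lin (t 2)) (v0 z))) := by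
  set T : Fin 3 → Matrix (Fin n) (Fin n) ℂ := fun k => lin (t k) with hT
  have hTT : ∀ k, T k * T k = 1 := fun k => by rw [hT]; simp only; rw [← lin_mul, ht, lin_one]
  have h3 : (2 : ℕ) ≤ 3 := by norm_num
  have hv : OV 3 (v0 z) := OV_v0 z
  have hv1 : OV 1 (v0 z) := hv.mono (by omega)
  have hv2 : OV 3 (act (T 2) (T 2) (v0 z)) := hv.act _ _
  have hv21 : OV 1 (act (T 2) (T 2) (v0 z)) := hv2.mono (by omega)
  have hw : OV 3 (v0 z + act (T 2) (T 2) (v0 z)) := hv.add hv2
  have hw1 : OV 1 (v0 z + act (T 2) (T 2) (v0 z)) := hw.mono (by omega)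
  have hw0 : OV 3 (act (T 0) (T 0) (v0 z + act (T 2) (T 2) (v0 z))) := hw.act _ _
  have hw01 : OV 1 (act (T 0) (T 0) (v0 z + act (T 2) (T 2) (v0 z))) := hw0.mono (by omega)
  set f := f0 z with hf
  -- A = (f t2)^2
  have hA : EqM 4 (f * t 2 * (f * t 2)) (oneAdd _ hw1) := by
    have e1 := mul_oneAdd (d := 3) (t 2) (T 2) (T 2) rfl (hTT 2) (v0 z) hv1 hv hv21
    have e2 : EqM 4 (f * (t 2 * f) * t 2) (f * (oneAdd _ hv21 * t 2) * t 2) :=
      ((EqM.refl 4 f).mul e1).mul (EqM.refl 4 (t 2))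
    have e3 : f * (oneAdd _ hv21 * t 2) * t 2 = f * oneAdd _ hv21 := by
      calc f * (oneAdd _ hv21 * t 2) * t 2 = f * oneAdd _ hv21 * (t 2 * t 2) := by
            simp only [mul_assoc]
        _ = _ := by rw [ht, mul_one]
    have e4 : EqM 4 (f * oneAdd _ hv21) (oneAdd _ hw1) :=
      oneAdd_mul_oneAdd h3 _ _ hv1 hv hv21 hv2 hw1
    rw [e3] at e2
    have e5 : f * t 2 * (f * t 2) = f * (t 2 * f) * t 2 := by simp only [mul_assoc]
    rw [e5]
    exact e2.trans e4
  -- its conjugate by t0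
  have hB : EqM 4 (t 0 * (f * t 2 * (f * t 2)) * t 0) (oneAdd _ hw01) := by
    have e1 : EqM 4 (t 0 * (f * t 2 * (f * t 2)) * t 0) (t 0 * oneAdd _ hw1 * t 0) :=
      ((EqM.refl 4 (t 0)).mul hA).mul (EqM.refl 4 (t 0))
    have e2 := (mul_oneAdd (d := 3) (t 0) (T 0) (T 0) rfl (hTT 0) _ hw1 hw hw01).mul
      (EqM.refl 4 (t 0))
    have e3 : oneAdd _ hw01 * t 0 * t 0 = oneAdd _ hw01 := by rw [mul_assoc, ht, mul_one]
    rw [e3] at e2
    exact e1.trans e2
  have hAB : f * t 2 * (f * t 2) * (t 0 * (f * t 2 * (f * t 2)) * t 0) = 1 := by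
    have e1 : f * t 2 = t 0 * t 1 := by
      rw [← hp, mul_assoc, ht, mul_one]
    have c : ∀ k x, t k * (t k * x) = x := fun k x => by rw [← mul_assoc, ht, one_mul]
    rw [e1]
    simp only [mul_assoc, c, ht]
  have h1 := oneAdd_mul_oneAdd h3 _ _ hw1 hw hw01 hw0 (hw1.add hw01)
  have h2 : EqM 4 1 (oneAdd _ (hw1.add hw01)) := by
    rw [← hAB]
    exact (hA.mul hB).trans h1
  intro i
  have h4 := (h2 i).symm_sub
  have h5 : (oneAdd _ (hw1.add hw01)).toFun i - (1 : FMap n).toFun i =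
    (v0 z + act (T 2) (T 2) (v0 z) + act (T 0) (T 0) (v0 z + act (T 2) (T 2) (v0 z))) i := by
    show (1 : FMap n).toFun i + _ - _ = _
    rw [add_sub_cancel_left]
  rwa [h5] at h4

theorem not_three (z : Fin n) : ¬ ∃ t : Fin 3 → FMap n, (∀ k, t k * t k = 1) ∧
    t 0 * t 1 * t 2 = f0 z := by
  rintro ⟨t, ht, hp⟩
  have hkey := three_key z t ht hp
  set T0 := lin (t 0) with hT0
  set T1 := lin (t 1) with hT1
  set T2 := lin (t 2) with hT2
  have h00 : T0 * T0 = 1 := by rw [hT0, ← lin_mul, ht, lin_one]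
  have h11 : T1 * T1 = 1 := by rw [hT1, ← lin_mul, ht, lin_one]
  have h22 : T2 * T2 = 1 := by rw [hT2, ← lin_mul, ht, lin_one]
  have h012 : T0 * T1 * T2 = 1 := by
    rw [hT0, hT1, hT2, ← lin_mul, ← lin_mul, hp]
    exact lin_oneAdd (d := 3) (by norm_num) _ _ (OV_v0 z)
  have h2 : T2 = T0 * T1 := by
    calc T2 = (T0 * T1 * T2) * T2 * 1 := by rw [h012, one_mul, mul_one]
      _ = T0 * T1 * (T2 * T2) := by simp only [mul_assoc, mul_one]
      _ = T0 * T1 := by rw [h22, mul_one]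
  have hcomm : T0 * T2 = T2 * T0 := by
    -- both equal `T1`
    have e1 : T0 * T2 = T1 := by rw [h2, ← mul_assoc, h00, one_mul]
    have e2 : T2 * T0 = T1 := by
      calc T2 * T0 = T2 * T0 * (T1 * T1) := by rw [h11, mul_one]
        _ = T2 * (T0 * T1) * T1 := by simp only [mul_assoc]
        _ = T1 := by rw [← h2, h22, one_mul]
    rw [e1, e2]
  -- the scalar identity
  have hsc : ∀ x : Fin n → ℂ, x z * ((x z) ^ 2 + ((T2.mulVec x) z) ^ 2 + ((T0.mulVec x) z) ^ 2 +
      (((T2 * T0).mulVec x) z) ^ 2) = 0 := by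
    intro x
    have h1 := hkey z
    have e1 : (v0 z + act T2 T2 (v0 z) + act T0 T0 (v0 z + act T2 T2 (v0 z))) z =
        (X z ^ 2 + ell (T2 z) ^ 2 + ell (T0 z) ^ 2 + ell ((T2 * T0) z) ^ 2) * X z := by
      rw [act_add, act_act]
      have h3 : (T0 * T2) * (T2 * T0) = 1 := by
        calc (T0 * T2) * (T2 * T0) = T0 * (T2 * T2) * T0 := by simp only [mul_assoc]
          _ = 1 := by rw [h22, mul_one, h00]
      show v0 z z + act T2 T2 (v0 z) z + (act T0 T0 (v0 z) z + act (T0 * T2) (T2 * T0) (v0 z) z) = _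
      rw [act_v0 z T2 T2 h22, act_v0 z T0 T0 h00, act_v0 z _ _ h3]
      show X z ^ 2 * X z + _ + _ = _
      ring
    rw [e1] at h1
    have h2 := O_subst h1 (linMap (Matrix.vecMulVec x (Pi.single z 1))).O1
    have hX : (X z : PS n).subst (linMap (Matrix.vecMulVec x (Pi.single z 1))).toFun =
        x z • (X z : PS n) := by
      conv_lhs => rw [← ell_single z]
      rw [ell_subst_rank1, single_one_dotProduct]
    rw [subst_mulC] at h2
    have hadd : ∀ (p q : PS n) (g : FMap n), (p + q).subst g.toFun =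
        p.subst g.toFun + q.subst g.toFun := fun p q g => subst_add g.hasSubst p q
    rw [hadd, hadd, hadd, subst_powC, subst_powC, subst_powC, subst_powC, hX, ell_subst_rank1,
      ell_subst_rank1, ell_subst_rank1] at h2
    have e2 : ((x z • (X z : PS n)) ^ 2 + ((T2 z ⬝ᵥ x) • (X z : PS n)) ^ 2 +
        ((T0 z ⬝ᵥ x) • (X z : PS n)) ^ 2 + (((T2 * T0) z ⬝ᵥ x) • (X z : PS n)) ^ 2) *
        (x z • (X z : PS n)) = (x z * ((x z) ^ 2 + (T2 z ⬝ᵥ x) ^ 2 + (T0 z ⬝ᵥ x) ^ 2 +
          ((T2 * T0) z ⬝ᵥ x) ^ 2)) • (X z : PS n) ^ 3 := by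
      simp only [MvPowerSeries.smul_eq_C_mul, map_mul, map_add, map_pow]
      ring
    rw [e2] at h2
    have h3 := h2 (Finsupp.single z 3) (by simp)
    rw [map_smul, X_pow_eq, coeff_monomial_same] at h3
    have h4 : x z * ((x z) ^ 2 + (T2 z ⬝ᵥ x) ^ 2 + (T0 z ⬝ᵥ x) ^ 2 +
          ((T2 * T0) z ⬝ᵥ x) ^ 2) = 0 := by simpa using h3
    exact h4
  -- common eigenvectors
  have hev : ∀ (s s' : ℂ) (x : Fin n → ℂ), s ^ 2 = 1 → s' ^ 2 = 1 → T0.mulVec x = s • x →
      T2.mulVec x = s' • x → x z = 0 := by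
    intro s s' x hs hs' h0 h2
    have h1 := hsc x
    have e : (T2 * T0).mulVec x = (s' * s) • x := by
      rw [← Matrix.mulVec_mulVec, h0, Matrix.mulVec_smul, h2, smul_smul, mul_comm]
    rw [h0, h2, e] at h1
    simp only [Pi.smul_apply, smul_eq_mul] at h1
    have h4 : 4 * (x z) ^ 3 = 0 := by
      linear_combination h1 - (x z) ^ 3 * hs' - (x z) ^ 3 * hs - (x z) ^ 3 * (s ^ 2 * hs' + hs)
    have h5 : (x z) ^ 3 = 0 := by
      rcases mul_eq_zero.mp h4 with h | h
      · norm_num at h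
      · exact h
    exact pow_eq_zero_iff (by norm_num) |>.mp h5
  -- decomposition of the basis vector
  set x : Fin n → ℂ := Pi.single z 1 with hx
  have hcomp : ∀ s s' : ℂ, s ^ 2 = 1 → s' ^ 2 = 1 →
      (x + s • T0.mulVec x + s' • (T2.mulVec x + s • T2.mulVec (T0.mulVec x))) z = 0 := by
    intro s s' hs hs'
    apply hev s s' _ hs hs'
    · simp only [Matrix.mulVec_add, Matrix.mulVec_smul, Matrix.mulVec_mulVec]
      have e1 : T0 * T0 = 1 := h00
      have e2 : T0 * (T2 * T0) = T2 := by rw [← mul_assoc, hcomm, mul_assoc, h00, mul_one]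
      rw [e1, e2, hcomm, Matrix.one_mulVec]
      funext k
      simp only [Pi.add_apply, Pi.smul_apply, smul_eq_mul]
      linear_combination -((T0.mulVec x) k + s' * ((T2 * T0).mulVec x) k) * hs
    · simp only [Matrix.mulVec_add, Matrix.mulVec_smul, Matrix.mulVec_mulVec]
      have e2 : T2 * (T2 * T0) = T0 := by rw [← mul_assoc, h22, one_mul]
      rw [h22, e2, Matrix.one_mulVec]
      funext k
      simp only [Pi.add_apply, Pi.smul_apply, smul_eq_mul]
      linear_combination -((T2.mulVec x) k + s * ((T2 * T0).mulVec x) k) * hs'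
  have c1 := hcomp 1 1 (by norm_num) (by norm_num)
  have c2 := hcomp 1 (-1) (by norm_num) (by norm_num)
  have c3 := hcomp (-1) 1 (by norm_num) (by norm_num)
  have c4 := hcomp (-1) (-1) (by norm_num) (by norm_num)
  simp only [Pi.add_apply, Pi.smul_apply, smul_eq_mul] at c1 c2 c3 c4
  have hxz : x z = 1 := by simp [hx]
  have : (4 : ℂ) = 0 := by
    rw [hxz] at c1 c2 c3 c4
    linear_combination c1 + c2 + c3 + c4
  norm_num at this

end Pool.Agent.RevMaps
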