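import Mathlib
import Pool.Agent.RevMaps.Bracket

/-!
Monomials in two variables.
-/

namespace Pool.Agent.RevMaps

open MvPowerSeries

/-- the monomial `x^a y^b` -/
noncomputable def mono (a b : ℕ) : PS 2 := X 0 ^ a * X 1 ^ b

/-- the coefficient of `x^a y^b` -/
noncomputable def cf (a b : ℕ) : PS 2 →ₗ[ℂ] ℂ := coeff (Finsupp.single 0 a + Finsupp.single 1 b)

theorem mono_eq (a b : ℕ) : mono a b = monomial (Finsupp.single 0 a + Finsupp.single 1 b) (1 : ℂ) := by
  rw [mono, X_pow_eq, X_pow_eq, monomial_mul_monomial, one_mul]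

theorem expo_inj {a b a' b' : ℕ} : (Finsupp.single (0 : Fin 2) a + Finsupp.single 1 b =
    Finsupp.single 0 a' + Finsupp.single 1 b') ↔ (a = a' ∧ b = b') := by
  constructor
  · intro h
    have h0 := DFunLike.congr_fun h 0
    have h1 := DFunLike.congr_fun h 1
    simp at h0 h1
    exact ⟨h0, h1⟩
  · rintro ⟨rfl, rfl⟩; rfl

theorem cf_mono (a b a' b' : ℕ) : cf a b (mono a' b') = if a = a' ∧ b = b' then 1 else 0 := by
  classical
  rw [cf, mono_eq, coeff_monomial]
  simp only [expo_inj]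

theorem mono_mul (a b a' b' : ℕ) : mono a b * mono a' b' = mono (a + a') (b + b') := by
  simp only [mono, pow_add]; ring

theorem degree_expo (a b : ℕ) :
    (Finsupp.single (0 : Fin 2) a + Finsupp.single 1 b).degree = a + b := by
  rw [map_add, Finsupp.degree_single, Finsupp.degree_single]

theorem O_mono (a b : ℕ) : O (a + b) (mono a b) := by
  rw [mono_eq]
  have := O_monomial (Finsupp.single (0 : Fin 2) a + Finsupp.single 1 b)
  rwa [degree_expo] at this

theorem cf_O {a b k : ℕ} {p : PS 2} (hp : O k p) (h : a + b < k) : cf a b p = 0 :=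
  hp _ (by rw [degree_expo]; exact h)

theorem expo_surj (m : Fin 2 →₀ ℕ) :
    m = Finsupp.single 0 (m 0) + Finsupp.single 1 (m 1) := by
  ext i
  fin_cases i <;> simp

theorem O_iff_cf {k : ℕ} {p : PS 2} : O k p ↔ ∀ a b, a + b < k → cf a b p = 0 := by
  constructor
  · intro h a b hab; exact cf_O h hab
  · intro h m hm
    rw [expo_surj m] at hm ⊢
    rw [degree_expo] at hm
    exact h _ _ hm

theorem pderiv0_mono (a b : ℕ) : pderiv ℂ 0 (mono a b) = (a : ℂ) • mono (a - 1) b := by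
  rw [mono, Derivation.leibniz, pderiv_pow, pderiv_pow, pderiv_X_self,
    pderiv_X_of_ne (by decide), mono, MvPowerSeries.smul_eq_C_mul, map_natCast]
  simp only [smul_eq_mul]
  ring

theorem pderiv1_mono (a b : ℕ) : pderiv ℂ 1 (mono a b) = (b : ℂ) • mono a (b - 1) := by
  rw [mono, Derivation.leibniz, pderiv_pow, pderiv_pow, pderiv_X_self,
    pderiv_X_of_ne (by decide), mono, MvPowerSeries.smul_eq_C_mul, map_natCast]
  simp only [smul_eq_mul]
  ring

theorem le_of_mono (W : Submodule ℂ (PS 2)) (k : ℕ)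
    (h1 : ∀ a b : ℕ, a + b = k → mono a b ∈ W)
    (h2 : ∀ q : PS 2, O (k + 1) q → q ∈ W) : ∀ q : PS 2, O k q → q ∈ W := by
  apply le_of_monomials W k _ h2
  intro m hm
  rw [expo_surj m] at hm ⊢
  rw [degree_expo] at hm
  rw [← mono_eq]
  exact h1 _ _ hm

/-- `x^a y^b ∂_x` -/
noncomputable def mx (a b : ℕ) : V 2 := tens (mono a b) (Pi.single 0 1)

/-- `x^a y^b ∂_y` -/
noncomputable def my (a b : ℕ) : V 2 := tens (mono a b) (Pi.single 1 1)

@[simp] theorem mx_zero (a b : ℕ) : mx a b 0 = mono a b := by simp [mx, tens]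
@[simp] theorem mx_one (a b : ℕ) : mx a b 1 = 0 := by simp [mx, tens]
@[simp] theorem my_zero (a b : ℕ) : my a b 0 = 0 := by simp [my, tens]
@[simp] theorem my_one (a b : ℕ) : my a b 1 = mono a b := by simp [my, tens]

theorem OV_mx (a b : ℕ) : OV (a + b) (mx a b) := OV_tens (O_mono a b) _
theorem OV_my (a b : ℕ) : OV (a + b) (my a b) := OV_tens (O_mono a b) _

theorem tuple_eq (a : V 2) : a = tens (a 0) (Pi.single 0 1) + tens (a 1) (Pi.single 1 1) := by
  funext i
  fin_cases i <;> simp [tens]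

/-- linear map `q ↦ q ⊗ v` -/
noncomputable def Tm (v : Fin 2 → ℂ) : PS 2 →ₗ[ℂ] V 2 where
  toFun q := tens q v
  map_add' p q := tens_add _ _ _
  map_smul' c p := tens_smul _ _ _

theorem le_of_tuples (W : Submodule ℂ (V 2)) (k : ℕ)
    (h1 : ∀ a b : ℕ, a + b = k → mx a b ∈ W) (h2 : ∀ a b : ℕ, a + b = k → my a b ∈ W)
    (h3 : ∀ q : V 2, OV (k + 1) q → q ∈ W) : ∀ q : V 2, OV k q → q ∈ W := by
  intro q hq
  rw [tuple_eq q]
  apply W.add_mem
  · exact le_of_mono (W.comap (Tm (Pi.single 0 1))) k (fun a b hab => h1 a b hab)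
      (fun p hp => h3 _ (OV_tens hp _)) (q 0) (hq 0)
  · exact le_of_mono (W.comap (Tm (Pi.single 1 1))) k (fun a b hab => h2 a b hab)
      (fun p hp => h3 _ (OV_tens hp _)) (q 1) (hq 1)

/-- the swap -/
noncomputable def JJ : Matrix (Fin 2) (Fin 2) ℂ := !![0, 1; 1, 0]

/-- diagonal matrix -/
noncomputable def Dg (s t : ℂ) : Matrix (Fin 2) (Fin 2) ℂ := !![s, 0; 0, t]

theorem subst_X0_two (M : Matrix (Fin 2) (Fin 2) ℂ) :
    (X 0 : PS 2).subst (linMap M).toFun = M 0 0 • X 0 + M 0 1 • X 1 := by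
  rw [subst_X_linMap, ell, Fin.sum_univ_two]

theorem subst_X1_two (M : Matrix (Fin 2) (Fin 2) ℂ) :
    (X 1 : PS 2).subst (linMap M).toFun = M 1 0 • X 0 + M 1 1 • X 1 := by
  rw [subst_X_linMap, ell, Fin.sum_univ_two]

theorem mono_subst_Dg (a b : ℕ) (s t : ℂ) :
    (mono a b).subst (linMap (Dg s t)).toFun = (s ^ a * t ^ b) • mono a b := by
  rw [mono, subst_mulC, subst_powC, subst_powC, subst_X0_two, subst_X1_two]
  simp only [Dg, Matrix.of_apply, Matrix.cons_val', Matrix.cons_val_zero, Matrix.cons_val_one,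
    Matrix.cons_val_fin_one, zero_smul, add_zero, zero_add, smul_pow]
  rw [smul_mul_smul_comm]

theorem mono_subst_JJ (a b : ℕ) : (mono a b).subst (linMap JJ).toFun = mono b a := by
  rw [mono, subst_mulC, subst_powC, subst_powC, subst_X0_two, subst_X1_two]
  simp only [JJ, Matrix.of_apply, Matrix.cons_val', Matrix.cons_val_zero, Matrix.cons_val_one,
    Matrix.cons_val_fin_one, zero_smul, add_zero, zero_add, one_smul, mono]
  ring

theorem mono_subst_smul_JJ (e : ℂ) (a b : ℕ) :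
    (mono a b).subst (linMap (e • JJ)).toFun = e ^ (a + b) • mono b a := by
  rw [mono, subst_mulC, subst_powC, subst_powC, subst_X0_two, subst_X1_two]
  simp only [JJ, Matrix.smul_apply, Matrix.of_apply, Matrix.cons_val', Matrix.cons_val_zero,
    Matrix.cons_val_one, Matrix.cons_val_fin_one, smul_eq_mul, mul_zero, mul_one, zero_smul,
    add_zero, zero_add, smul_pow, mono]
  rw [smul_mul_smul_comm, ← pow_add, mul_comm (X 1 ^ a : PS 2)]

theorem Dg_mulVec (s t : ℂ) (v : Fin 2 → ℂ) : (Dg s t).mulVec v = ![s * v 0, t * v 1] := by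
  funext i
  fin_cases i <;> simp [Dg, Matrix.mulVec, dotProduct, Fin.sum_univ_two]

theorem act_Dg_mx (s t s' t' : ℂ) (a b : ℕ) :
    act (Dg s t) (Dg s' t') (mx a b) = (s * (s' ^ a * t' ^ b)) • mx a b := by
  rw [mx, act_tens, mono_subst_Dg, Dg_mulVec]
  funext i
  fin_cases i
  · simp [tens, smul_smul]
  · simp [tens]

theorem act_Dg_my (s t s' t' : ℂ) (a b : ℕ) :
    act (Dg s t) (Dg s' t') (my a b) = (t * (s' ^ a * t' ^ b)) • my a b := by
  rw [my, act_tens, mono_subst_Dg, Dg_mulVec]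
  funext i
  fin_cases i
  · simp [tens]
  · simp [tens, smul_smul]

theorem act_smul_JJ_mx (e e' : ℂ) (a b : ℕ) :
    act (e • JJ) (e' • JJ) (mx a b) = (e * e' ^ (a + b)) • my b a := by
  rw [mx, act_tens, mono_subst_smul_JJ]
  funext i
  fin_cases i
  · simp [tens, JJ, my]
  · simp [tens, smul_smul, JJ, my]

theorem act_smul_JJ_my (e e' : ℂ) (a b : ℕ) :
    act (e • JJ) (e' • JJ) (my a b) = (e * e' ^ (a + b)) • mx b a := by
  rw [my, act_tens, mono_subst_smul_JJ]
  funext i
  fin_cases i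
  · simp [tens, smul_smul, JJ, mx]
  · simp [tens, JJ, mx]

theorem act_JJ_mx (a b : ℕ) : act JJ JJ (mx a b) = my b a := by
  have := act_smul_JJ_mx 1 1 a b
  simpa using this

theorem act_JJ_my (a b : ℕ) : act JJ JJ (my a b) = mx b a := by
  have := act_smul_JJ_my 1 1 a b
  simpa using this

theorem JJ_mul_JJ : JJ * JJ = 1 := by
  ext i j
  fin_cases i <;> fin_cases j <;> simp [JJ, Matrix.mul_apply, Fin.sum_univ_two]

theorem Dg_mul (s t s' t' : ℂ) : Dg s t * Dg s' t' = Dg (s * s') (t * t') := by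
  ext i j
  fin_cases i <;> fin_cases j <;> simp [Dg, Matrix.mul_apply, Fin.sum_univ_two]

theorem Dg_one : Dg 1 1 = 1 := by
  ext i j
  fin_cases i <;> fin_cases j <;> simp [Dg]

theorem Dg_JJ_sq (s t : ℂ) (h : s * t = 1) : (Dg s t * JJ) * (Dg s t * JJ) = 1 := by
  ext i j
  fin_cases i <;> fin_cases j <;>
    simp [Dg, JJ, Matrix.mul_apply, Fin.sum_univ_two, h, mul_comm t s]

/-- degree `d` scaling -/
theorem O_subst_scal {d : ℕ} {p : PS 2} (hp : O d p) (c : ℂ) :
    O (d + 1) (p.subst (linMap (Dg c c)).toFun - c ^ d • p) := by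
  let L : PS 2 →ₗ[ℂ] PS 2 :=
    { toFun := fun p => p.subst (linMap (Dg c c)).toFun - c ^ d • p
      map_add' := fun p q => by rw [subst_add (linMap (Dg c c)).hasSubst, smul_add]; ring
      map_smul' := fun e p => by rw [subst_smulC, RingHom.id_apply, smul_sub, smul_comm] }
  refine le_of_mono ((Osub (d + 1)).comap L) d ?_ ?_ p hp
  · intro a b hab
    show O (d + 1) ((mono a b).subst (linMap (Dg c c)).toFun - c ^ d • mono a b)
    rw [mono_subst_Dg, ← pow_add, hab, sub_self]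
    exact O_of_zero _
  · intro q hq
    exact (O_subst hq (linMap (Dg c c)).O1).sub (hq.smul _)

end Pool.Agent.RevMaps
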