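import Mathlib
import Pool.Agent.RevMaps.TwoMono
import Pool.Agent.RevMaps.LiftConj

/-!
Torus type triples of involutions in two variables.
-/

namespace Pool.Agent.RevMaps

open MvPowerSeries

theorem br_add_right {n : ℕ} (k q q' : V n) : br k (q + q') = br k q + br k q' := by
  funext i
  simp only [br, Pi.add_apply, Dd_add, Dd_add_left]
  ring

/-- the obstruction functional in degree `2 l + 1` -/
noncomputable def eta (l : ℕ) : V 2 →ₗ[ℂ] ℂ where
  toFun r := cf (l + 1) l (r 0) + cf l (l + 1) (r 1)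
  map_add' r s := by simp only [Pi.add_apply, map_add]; ring
  map_smul' c r := by simp only [Pi.smul_apply, map_smul, smul_eq_mul, RingHom.id_apply]; ring

theorem eta_mx (l a b : ℕ) : eta l (mx a b) = if l + 1 = a ∧ l = b then 1 else 0 := by
  show cf (l + 1) l (mx a b 0) + cf l (l + 1) (mx a b 1) = _
  rw [mx_zero, mx_one, map_zero, add_zero, cf_mono]

theorem eta_my (l a b : ℕ) : eta l (my a b) = if l = a ∧ l + 1 = b then 1 else 0 := by
  show cf (l + 1) l (my a b 0) + cf l (l + 1) (my a b 1) = _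
  rw [my_zero, my_one, map_zero, zero_add, cf_mono]

theorem eta_OV {l : ℕ} {r : V 2} (hr : OV (2 * l + 2) r) : eta l r = 0 := by
  show cf (l + 1) l (r 0) + cf l (l + 1) (r 1) = _
  rw [cf_O (hr 0) (by omega), cf_O (hr 1) (by omega), add_zero]

theorem two_pow_ne {a b : ℕ} (h : a ≠ b) : (2 : ℂ) ^ a ≠ 2 ^ b := by
  intro h2
  apply h
  have h3 : ((2 ^ a : ℕ) : ℂ) = ((2 ^ b : ℕ) : ℂ) := by push_cast; exact h2
  exact Nat.pow_right_injective (le_refl 2) (by exact_mod_cast h3)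

theorem half_pow (a : ℕ) : (1 / 2 : ℂ) ^ a = (2 ^ a)⁻¹ := by
  rw [one_div, inv_pow]

section reduce

variable {Z : Submodule ℂ (V 2)} {d : ℕ} (hZ : ∀ a : V 2, OV (d + 1) a → a ∈ Z)
  (hB : Good Z d (Dg 2 (1 / 2)) (Dg (1 / 2) 2)) (hJ : Good Z d JJ JJ)
include hB

theorem mx_mem {a b : ℕ} (hab : a + b = d) (h : a ≠ b + 1) : mx a b ∈ Z := by
  have h1 := hB.2.2 (mx a b) ((OV_mx a b).mono (by omega))
  rw [act_Dg_mx] at h1
  have h2 : mx a b - (2 * ((1 / 2) ^ a * 2 ^ b) : ℂ) • mx a b =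
      (1 - 2 * ((1 / 2) ^ a * 2 ^ b) : ℂ) • mx a b := by rw [sub_smul, one_smul]
  rw [h2] at h1
  refine (Z.smul_mem_iff ?_).mp h1
  intro h3
  apply two_pow_ne h
  rw [half_pow] at h3
  have h4 : (2 : ℂ) ^ a ≠ 0 := pow_ne_zero _ two_ne_zero
  field_simp at h3
  rw [pow_succ]
  linear_combination h3

theorem my_mem {a b : ℕ} (hab : a + b = d) (h : b ≠ a + 1) : my a b ∈ Z := by
  have h1 := hB.2.2 (my a b) ((OV_my a b).mono (by omega))
  rw [act_Dg_my] at h1
  have h2 : my a b - ((1 / 2) * ((1 / 2) ^ a * 2 ^ b) : ℂ) • my a b =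
      (1 - (1 / 2) * ((1 / 2) ^ a * 2 ^ b) : ℂ) • my a b := by rw [sub_smul, one_smul]
  rw [h2] at h1
  refine (Z.smul_mem_iff ?_).mp h1
  intro h3
  apply two_pow_ne h
  rw [half_pow] at h3
  have h4 : (2 : ℂ) ^ a ≠ 0 := pow_ne_zero _ two_ne_zero
  field_simp at h3
  rw [pow_succ]
  linear_combination -h3

include hZ

theorem torus_even (hd : Even d) : ∀ r : V 2, OV d r → r ∈ Z := by
  obtain ⟨c, hc⟩ := hd
  refine le_of_tuples Z d ?_ ?_ hZ
  · intro a b hab
    exact mx_mem hB hab (by omega)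
  · intro a b hab
    exact my_mem hB hab (by omega)

include hJ

theorem torus_odd (l : ℕ) (hd : d = 2 * l + 1) (r : V 2) (hr : OV d r) (he : eta l r = 0) :
    r ∈ Z := by
  have key : r ∈ Z.comap (LinearMap.id - (eta l).smulRight (mx (l + 1) l)) := by
    refine le_of_tuples _ d ?_ ?_ ?_ r hr
    · intro a b hab
      rw [Submodule.mem_comap]
      show mx a b - eta l (mx a b) • mx (l + 1) l ∈ Z
      by_cases h : a = b + 1
      · have hb : b = l := by omega
        subst hb; subst h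
        rw [eta_mx, if_pos ⟨rfl, rfl⟩, one_smul, sub_self]
        exact Z.zero_mem
      · rw [eta_mx, if_neg (by omega), zero_smul, sub_zero]
        exact mx_mem hB hab h
    · intro a b hab
      rw [Submodule.mem_comap]
      show my a b - eta l (my a b) • mx (l + 1) l ∈ Z
      by_cases h : b = a + 1
      · have hb : a = l := by omega
        subst hb; subst h
        rw [eta_my, if_pos ⟨rfl, rfl⟩, one_smul]
        have h1 := hJ.2.2 (mx (a + 1) a) ((OV_mx _ _).mono (by omega))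
        rw [act_JJ_mx] at h1
        have h2 := Z.neg_mem h1
        rwa [neg_sub] at h2
      · rw [eta_my, if_neg (by omega), zero_smul, sub_zero]
        exact my_mem hB hab h
    · intro q hq
      rw [Submodule.mem_comap]
      show q - eta l q • mx (l + 1) l ∈ Z
      rw [eta_OV (by rw [show 2 * l + 2 = d + 1 by omega]; exact hq), zero_smul, sub_zero]
      exact hZ q hq
  rw [Submodule.mem_comap] at key
  have h2 : r - eta l r • mx (l + 1) l ∈ Z := key
  rwa [he, zero_smul, sub_zero] at h2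

end reduce

/-- brackets of monomial tuples -/
theorem Dd_two (q : V 2) (p : PS 2) : Dd q p = pderiv ℂ 0 p * q 0 + pderiv ℂ 1 p * q 1 := by
  rw [Dd, Fin.sum_univ_two]

theorem br_mx_mx (a b c d : ℕ) : br (mx a b) (mx c d) =
    (a : ℂ) • mx (a - 1 + c) (b + d) - (c : ℂ) • mx (c - 1 + a) (d + b) := by
  funext i
  fin_cases i
  · simp only [br, Dd_two, Fin.zero_eta, mx_zero, mx_one, mul_zero, add_zero, pderiv0_mono,
      smul_mul_assoc, mono_mul, Pi.sub_apply, Pi.smul_apply]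
  · simp [br, Dd_two]

theorem br_mx_my (a b c d : ℕ) : br (mx a b) (my c d) =
    (b : ℂ) • mx (a + c) (b - 1 + d) - (c : ℂ) • my (c - 1 + a) (d + b) := by
  funext i
  fin_cases i
  · simp only [br, Dd_two, Fin.zero_eta, mx_zero, my_zero, my_one, mul_zero, zero_add,
      pderiv1_mono, smul_mul_assoc, mono_mul, Pi.sub_apply, Pi.smul_apply, smul_zero, sub_zero,
      map_zero, zero_mul]
  · simp only [br, Dd_two, Fin.mk_one, mx_zero, mx_one, my_one, mul_zero, add_zero, zero_mul,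
      pderiv0_mono, smul_mul_assoc, mono_mul, Pi.sub_apply, Pi.smul_apply, smul_zero,
      map_zero]

theorem br_my_mx (a b c d : ℕ) : br (my a b) (mx c d) =
    (a : ℂ) • my (a - 1 + c) (b + d) - (d : ℂ) • mx (c + a) (d - 1 + b) := by
  funext i
  fin_cases i
  · simp only [br, Dd_two, Fin.zero_eta, mx_zero, my_zero, my_one, mul_zero, zero_add,
      pderiv1_mono, smul_mul_assoc, mono_mul, Pi.sub_apply, Pi.smul_apply, smul_zero,
      map_zero, zero_mul]
  · simp only [br, Dd_two, Fin.mk_one, mx_zero, mx_one, my_one, mul_zero, add_zero, zero_mul,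
      pderiv0_mono, smul_mul_assoc, mono_mul, Pi.sub_apply, Pi.smul_apply, smul_zero, sub_zero,
      map_zero]

theorem br_my_my (a b c d : ℕ) : br (my a b) (my c d) =
    (b : ℂ) • my (a + c) (b - 1 + d) - (d : ℂ) • my (c + a) (d - 1 + b) := by
  funext i
  fin_cases i
  · simp [br, Dd_two]
  · simp only [br, Dd_two, Fin.mk_one, my_zero, my_one, mul_zero, zero_add, pderiv1_mono,
      smul_mul_assoc, mono_mul, Pi.sub_apply, Pi.smul_apply]

theorem eta_act {e : ℂ} (he : e * e = 1) (l : ℕ) (w : V 2) (hw : OV (2 * l + 1) w) :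
    eta l (act (e • JJ) (e • JJ) w) = eta l w := by
  let L : V 2 →ₗ[ℂ] ℂ :=
    { toFun := fun w => eta l (act (e • JJ) (e • JJ) w) - eta l w
      map_add' := fun v w => by rw [act_add, map_add, map_add]; ring
      map_smul' := fun c w => by
        rw [act_smul, map_smul, map_smul, RingHom.id_apply, smul_eq_mul, smul_eq_mul, smul_eq_mul]
        ring }
  have hp : ∀ j : ℕ, e * e ^ (2 * j + 1) = 1 := by
    intro j
    rw [pow_succ, pow_mul, sq, he, one_pow, one_mul, he]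
  have key : w ∈ (LinearMap.ker L) := by
    refine le_of_tuples _ (2 * l + 1) ?_ ?_ ?_ w hw
    · intro a b hab
      rw [LinearMap.mem_ker]
      show eta l (act (e • JJ) (e • JJ) (mx a b)) - eta l (mx a b) = 0
      rw [act_smul_JJ_mx, map_smul, eta_mx, eta_my, hab, hp, one_smul, sub_eq_zero]
      by_cases h : l + 1 = a ∧ l = b
      · rw [if_pos h, if_pos ⟨h.2, h.1⟩]
      · rw [if_neg h, if_neg (fun h2 => h ⟨h2.2, h2.1⟩)]
    · intro a b hab
      rw [LinearMap.mem_ker]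
      show eta l (act (e • JJ) (e • JJ) (my a b)) - eta l (my a b) = 0
      rw [act_smul_JJ_my, map_smul, eta_mx, eta_my, hab, hp, one_smul, sub_eq_zero]
      by_cases h : l + 1 = b ∧ l = a
      · rw [if_pos h, if_pos ⟨h.2, h.1⟩]
      · rw [if_neg h, if_neg (fun h2 => h ⟨h2.2, h2.1⟩)]
    · intro q hq
      rw [LinearMap.mem_ker]
      show eta l (act (e • JJ) (e • JJ) q) - eta l q = 0
      rw [eta_OV (hq.act _ _), eta_OV hq, sub_zero]
  have h2 : eta l (act (e • JJ) (e • JJ) w) - eta l w = 0 := key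
  exact sub_eq_zero.mp h2

/-- general quadratic tuple -/
noncomputable def Q2 (a20 a11 a02 b20 b11 b02 : ℂ) : V 2 :=
  a20 • mx 2 0 + a11 • mx 1 1 + a02 • mx 0 2 + b20 • my 2 0 + b11 • my 1 1 + b02 • my 0 2

theorem eta_br_1 (j : ℕ) (a20 a11 a02 b20 b11 b02 : ℂ) :
    eta (j + 1) (br (mx (j + 1) (j + 1)) (Q2 a20 a11 a02 b20 b11 b02)) =
      ((j : ℂ) - 1) * a20 + j * b11 := by
  unfold Q2
  rcases j with _ | j
  all_goals
    simp only [br_add_right, br_smul_right, br_mx_mx, br_mx_my, br_my_mx, br_my_my, map_add,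
      map_smul, map_sub, eta_mx, eta_my]
    simp
    try (split_ifs <;> first | omega | ring1 | (push_cast; ring1))
    try ring1

theorem eta_br_2 (j : ℕ) (a20 a11 a02 b20 b11 b02 : ℂ) :
    eta (j + 1) (br (my (j + 1) (j + 1)) (Q2 a20 a11 a02 b20 b11 b02)) =
      ((j : ℂ) - 1) * b02 + j * a11 := by
  unfold Q2
  rcases j with _ | j
  all_goals
    simp only [br_add_right, br_smul_right, br_mx_mx, br_mx_my, br_my_mx, br_my_my, map_add,
      map_smul, map_sub, eta_mx, eta_my]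
    simp
    try (split_ifs <;> first | omega | ring1 | (push_cast; ring1))
    try ring1

theorem eta_br_3 (j : ℕ) (a20 a11 a02 b20 b11 b02 : ℂ) :
    eta (j + 1) (br (mx (j + 2) j) (Q2 a20 a11 a02 b20 b11 b02)) =
      ((j : ℂ) + 1) * a11 + j * b02 := by
  unfold Q2
  rcases j with _ | j
  all_goals
    simp only [br_add_right, br_smul_right, br_mx_mx, br_mx_my, br_my_mx, br_my_my, map_add,
      map_smul, map_sub, eta_mx, eta_my]
    simp
    try (split_ifs <;> first | omega | ring1 | (push_cast; ring1))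
    try ring1

theorem eta_br_4 (j : ℕ) (a20 a11 a02 b20 b11 b02 : ℂ) :
    eta (j + 1) (br (my j (j + 2)) (Q2 a20 a11 a02 b20 b11 b02)) =
      ((j : ℂ) + 1) * b11 + j * a20 := by
  unfold Q2
  rcases j with _ | j
  all_goals
    simp only [br_add_right, br_smul_right, br_mx_mx, br_mx_my, br_my_mx, br_my_my, map_add,
      map_smul, map_sub, eta_mx, eta_my]
    simp
    try (split_ifs <;> first | omega | ring1 | (push_cast; ring1))
    try ring1

/-- general cubic tuple -/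
noncomputable def Q3 (a30 a21 a12 a03 b30 b21 b12 b03 : ℂ) : V 2 :=
  a30 • mx 3 0 + a21 • mx 2 1 + a12 • mx 1 2 + a03 • mx 0 3 +
  b30 • my 3 0 + b21 • my 2 1 + b12 • my 1 2 + b03 • my 0 3

theorem eta_br_5 (j : ℕ) (a30 a21 a12 a03 b30 b21 b12 b03 : ℂ) :
    eta (j + 2) (br (mx (j + 1) (j + 2)) (Q3 a30 a21 a12 a03 b30 b21 b12 b03)) =
      ((j : ℂ) - 2) * a30 + j * b21 := by
  unfold Q3
  rcases j with _ | j
  all_goals
    simp only [br_add_right, br_smul_right, br_mx_mx, br_mx_my, br_my_mx, br_my_my, map_add,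
      map_smul, map_sub, eta_mx, eta_my]
    simp
    try (split_ifs <;> first | omega | ring1 | (push_cast; ring1))
    try ring1

theorem eta_br_6 (j : ℕ) (a30 a21 a12 a03 b30 b21 b12 b03 : ℂ) :
    eta (j + 2) (br (my (j + 2) (j + 1)) (Q3 a30 a21 a12 a03 b30 b21 b12 b03)) =
      ((j : ℂ) - 2) * b03 + j * a12 := by
  unfold Q3
  rcases j with _ | j
  all_goals
    simp only [br_add_right, br_smul_right, br_mx_mx, br_mx_my, br_my_mx, br_my_my, map_add,
      map_smul, map_sub, eta_mx, eta_my]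
    simp
    try (split_ifs <;> first | omega | ring1 | (push_cast; ring1))
    try ring1

theorem eta_br_7 (j : ℕ) (a30 a21 a12 a03 b30 b21 b12 b03 : ℂ) :
    eta (j + 2) (br (mx (j + 3) j) (Q3 a30 a21 a12 a03 b30 b21 b12 b03)) =
      ((j : ℂ) + 2) * a12 + j * b03 := by
  unfold Q3
  rcases j with _ | j
  all_goals
    simp only [br_add_right, br_smul_right, br_mx_mx, br_mx_my, br_my_mx, br_my_my, map_add,
      map_smul, map_sub, eta_mx, eta_my]
    simp
    try (split_ifs <;> first | omega | ring1 | (push_cast; ring1))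
    try ring1

theorem eta_br_8 (j : ℕ) (a30 a21 a12 a03 b30 b21 b12 b03 : ℂ) :
    eta (j + 2) (br (my j (j + 3)) (Q3 a30 a21 a12 a03 b30 b21 b12 b03)) =
      ((j : ℂ) + 2) * b21 + j * a30 := by
  unfold Q3
  rcases j with _ | j
  all_goals
    simp only [br_add_right, br_smul_right, br_mx_mx, br_mx_my, br_my_mx, br_my_my, map_add,
      map_smul, map_sub, eta_mx, eta_my]
    simp
    try (split_ifs <;> first | omega | ring1 | (push_cast; ring1))
    try ring1

/-- the linear involutions of torus type, with product `e J` -/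
noncomputable def TT (e : ℂ) : Fin 4 → Matrix (Fin 2) (Fin 2) ℂ :=
  ![Dg 2 (1 / 2) * JJ, JJ, e • (Dg (1 / 2) 2 * JJ), 1]

theorem TT_sq {e : ℂ} (he : e * e = 1) : ∀ k, TT e k * TT e k = 1 := by
  intro k
  fin_cases k
  · exact Dg_JJ_sq _ _ (by norm_num)
  · exact JJ_mul_JJ
  · show (e • (Dg (1 / 2) 2 * JJ)) * (e • (Dg (1 / 2) 2 * JJ)) = 1
    rw [smul_mul_smul_comm, he, one_smul]
    exact Dg_JJ_sq _ _ (by norm_num)
  · show (1 : Matrix (Fin 2) (Fin 2) ℂ) * 1 = 1
    rw [mul_one]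

theorem JJ_Dg (s t : ℂ) : JJ * Dg s t = Dg t s * JJ := by
  ext i j
  fin_cases i <;> fin_cases j <;> simp [Dg, JJ, Matrix.mul_apply, Fin.sum_univ_two]

theorem TT_prod (e : ℂ) : TT e 0 * TT e 1 * TT e 2 * TT e 3 = e • JJ := by
  show Dg 2 (1 / 2) * JJ * JJ * (e • (Dg (1 / 2) 2 * JJ)) * 1 = e • JJ
  rw [mul_one, mul_assoc (Dg 2 (1 / 2)), JJ_mul_JJ, mul_one, mul_smul_comm, ← mul_assoc, Dg_mul,
    show (2 : ℂ) * (1 / 2) = 1 by norm_num, show (1 / 2 : ℂ) * 2 = 1 by norm_num, Dg_one, one_mul]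

theorem smul_JJ_sq {e : ℂ} (he : e * e = 1) : (e • JJ) * (e • JJ) = 1 := by
  rw [smul_mul_smul_comm, he, one_smul, JJ_mul_JJ]

theorem TT_goodB {e : ℂ} (he : e * e = 1) (d : ℕ) :
    Good (ZZ (TT e) d) d (Dg 2 (1 / 2)) (Dg (1 / 2) 2) := by
  have h := (good_T (TT e) (TT_sq he) d 0).mul (good_T (TT e) (TT_sq he) d 1)
  have e1 : TT e 0 * TT e 1 = Dg 2 (1 / 2) := by
    show Dg 2 (1 / 2) * JJ * JJ = _
    rw [mul_assoc, JJ_mul_JJ, mul_one]
  have e2 : TT e 1 * TT e 0 = Dg (1 / 2) 2 := by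
    show JJ * (Dg 2 (1 / 2) * JJ) = _
    rw [← mul_assoc, JJ_Dg, mul_assoc, JJ_mul_JJ, mul_one]
  rwa [e1, e2] at h

theorem TT_goodJ {e : ℂ} (he : e * e = 1) (d : ℕ) : Good (ZZ (TT e) d) d JJ JJ :=
  good_T (TT e) (TT_sq he) d 1

theorem OV_Q2 (a20 a11 a02 b20 b11 b02 : ℂ) : OV 2 (Q2 a20 a11 a02 b20 b11 b02) :=
  ((((((OV_mx 2 0).smul _).add ((OV_mx 1 1).smul _)).add ((OV_mx 0 2).smul _)).add
    ((OV_my 2 0).smul _)).add ((OV_my 1 1).smul _)).add ((OV_my 0 2).smul _)

theorem OV_Q3 (a30 a21 a12 a03 b30 b21 b12 b03 : ℂ) :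
    OV 3 (Q3 a30 a21 a12 a03 b30 b21 b12 b03) :=
  ((((((((OV_mx 3 0).smul _).add ((OV_mx 2 1).smul _)).add ((OV_mx 1 2).smul _)).add
    ((OV_mx 0 3).smul _)).add ((OV_my 3 0).smul _)).add ((OV_my 2 1).smul _)).add
    ((OV_my 1 2).smul _)).add ((OV_my 0 3).smul _)

/-- an element of order `≥ k` is congruent to its homogeneous part -/
theorem quad_part {p : PS 2} (hp : O 2 p) :
    O 3 (p - (cf 2 0 p • mono 2 0 + cf 1 1 p • mono 1 1 + cf 0 2 p • mono 0 2)) := by
  rw [O_iff_cf]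
  intro a b hab
  rcases Nat.lt_or_ge (a + b) 2 with h | h
  · rw [map_sub, cf_O hp h, map_add, map_add, map_smul, map_smul, map_smul, cf_mono, cf_mono,
      cf_mono, if_neg (by omega), if_neg (by omega), if_neg (by omega)]
    simp
  · have h2 : (a = 2 ∧ b = 0) ∨ (a = 1 ∧ b = 1) ∨ (a = 0 ∧ b = 2) := by omega
    rcases h2 with ⟨rfl, rfl⟩ | ⟨rfl, rfl⟩ | ⟨rfl, rfl⟩ <;>
      simp [cf_mono]

theorem cubic_part {p : PS 2} (hp : O 3 p) :
    O 4 (p - (cf 3 0 p • mono 3 0 + cf 2 1 p • mono 2 1 + cf 1 2 p • mono 1 2 +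
      cf 0 3 p • mono 0 3)) := by
  rw [O_iff_cf]
  intro a b hab
  rcases Nat.lt_or_ge (a + b) 3 with h | h
  · rw [map_sub, cf_O hp h, map_add, map_add, map_add, map_smul, map_smul, map_smul, map_smul,
      cf_mono, cf_mono, cf_mono, cf_mono, if_neg (by omega), if_neg (by omega),
      if_neg (by omega), if_neg (by omega)]
    simp
  · have h2 : (a = 3 ∧ b = 0) ∨ (a = 2 ∧ b = 1) ∨ (a = 1 ∧ b = 2) ∨ (a = 0 ∧ b = 3) := by omega
    rcases h2 with ⟨rfl, rfl⟩ | ⟨rfl, rfl⟩ | ⟨rfl, rfl⟩ | ⟨rfl, rfl⟩ <;>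
      simp [cf_mono]

theorem OV_sub_Q2 {q : V 2} (hq : OV 2 q) : OV 3 (q - Q2 (cf 2 0 (q 0)) (cf 1 1 (q 0))
    (cf 0 2 (q 0)) (cf 2 0 (q 1)) (cf 1 1 (q 1)) (cf 0 2 (q 1))) := by
  intro i
  fin_cases i
  · have h := quad_part (hq 0)
    simpa [Q2] using h
  · have h := quad_part (hq 1)
    simpa [Q2] using h

theorem OV_sub_Q3 {q : V 2} (hq : OV 3 q) : OV 4 (q - Q3 (cf 3 0 (q 0)) (cf 2 1 (q 0))
    (cf 1 2 (q 0)) (cf 0 3 (q 0)) (cf 3 0 (q 1)) (cf 2 1 (q 1)) (cf 1 2 (q 1))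
    (cf 0 3 (q 1))) := by
  intro i
  fin_cases i
  · have h := cubic_part (hq 0)
    simpa [Q3] using h
  · have h := cubic_part (hq 1)
    simpa [Q3] using h

theorem pow_e {e : ℂ} (he : e * e = 1) (j : ℕ) : e ^ (2 * j) = 1 := by
  rw [pow_mul, sq, he, one_pow]

/-- symmetrised tuple -/
theorem act_sym {e : ℂ} (a b : ℕ) (f : ℂ) (hf : e * e ^ (a + b) = f) (hff : f * f = 1) :
    act (e • JJ) (e • JJ) (mx a b + f • my b a) = mx a b + f • my b a := by
  rw [act_add, act_smul, act_smul_JJ_mx, act_smul_JJ_my, add_comm b a, hf, smul_smul, hff,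
    one_smul, add_comm]

/-- key lemma: the torus step -/
theorem step_of_ne {e : ℂ} (he : e * e = 1) {l d m : ℕ} (hd : d = 2 * l + 1) (hm : m ≤ d)
    {Q k0 : V 2} (hQ : OV m Q) (hk0 : OV (d + 1 - m) k0)
    (hkR : act (e • JJ) (e • JJ) k0 = k0) (hne : eta l (br k0 Q) ≠ 0) (r : V 2) (hr : OV d r) :
    ∃ k : V 2, OV (d + 1 - m) k ∧ act (e • JJ) (e • JJ) k = k ∧
      r + act (e • JJ) (e • JJ) (br k Q) ∈ ZZ (TT e) d := by
  refine ⟨(-(eta l r) / eta l (br k0 Q)) • k0, hk0.smul _, by rw [act_smul, hkR], ?_⟩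
  have hbr : OV d (br k0 Q) := OV_br hk0 hQ (by omega)
  apply torus_odd (fun a ha => ZZ_of_OV _ _ ha) (TT_goodB he d) (TT_goodJ he d) l hd
  · rw [br_smul_left]
    exact hr.add ((hbr.smul _).act _ _)
  · rw [map_add, br_smul_left, act_smul, map_smul, eta_act he l _ (by rw [← hd]; exact hbr),
      smul_eq_mul, div_mul_cancel₀ _ hne, add_neg_cancel]

theorem step_even {e : ℂ} (he : e * e = 1) {d m : ℕ} (hd : Even d)
    {Q : V 2} (r : V 2) (hr : OV d r) :
    ∃ k : V 2, OV (d + 1 - m) k ∧ act (e • JJ) (e • JJ) k = k ∧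
      r + act (e • JJ) (e • JJ) (br k Q) ∈ ZZ (TT e) d := by
  refine ⟨0, fun i => O_of_zero _, act_zero _ _, ?_⟩
  rw [br_zero_left, act_zero, add_zero]
  exact torus_even (fun a ha => ZZ_of_OV _ _ ha) (TT_goodB he d) hd r hr

theorem three_of_TT {e : ℂ} {g : FMap 2} (h : ∃ τ : Fin 4 → FMap 2, (∀ k, τ k * τ k = 1) ∧
    (∀ k, lin (τ k) = TT e k) ∧ τ 0 * τ 1 * τ 2 * τ 3 = g) :
    ∃ τ : Fin 3 → FMap 2, (∀ k, τ k * τ k = 1) ∧ τ 0 * τ 1 * τ 2 = g := by
  obtain ⟨τ, h1, h2, h3⟩ := h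
  have h4 : τ 3 = 1 := invol_eq_one _ (h1 3) (h2 3)
  refine ⟨![τ 0, τ 1, τ 2], ?_, ?_⟩
  · intro k
    fin_cases k
    · exact h1 0
    · exact h1 1
    · exact h1 2
  · rw [h4, mul_one] at h3
    exact h3

/-- **Quadratic case.** -/
theorem F2 {e : ℂ} (he : e * e = 1) (q : V 2) (hq1 : OV 1 q) (hq : OV 2 q)
    (h : cf 2 0 (q 0) + e * cf 0 2 (q 1) ≠ 0 ∨ cf 1 1 (q 0) + e * cf 1 1 (q 1) ≠ 0) :
    ∃ τ : Fin 3 → FMap 2, (∀ k, τ k * τ k = 1) ∧
      τ 0 * τ 1 * τ 2 = linMap (e • JJ) * oneAdd q hq1 := by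
  apply three_of_TT
  refine lift_conj (TT e) (TT_sq he) (e • JJ) (TT_prod e) (smul_JJ_sq he) 2 le_rfl
    (Q2 (cf 2 0 (q 0)) (cf 1 1 (q 0)) (cf 0 2 (q 0)) (cf 2 0 (q 1)) (cf 1 1 (q 1))
      (cf 0 2 (q 1))) (OV_Q2 _ _ _ _ _ _) ?_ ?_ q hq1 (OV_sub_Q2 hq)
  · exact torus_even (fun a ha => ZZ_of_OV _ _ ha) (TT_goodB he 2) (by decide) _
      ((OV_Q2 _ _ _ _ _ _).act _ _)
  · intro d hd r hr
    rcases Nat.even_or_odd d with hev | ⟨l, hl⟩
    · exact step_even he hev r hr
    · obtain ⟨j, rfl⟩ : ∃ j, l = j + 1 := ⟨l - 1, by omega⟩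
      set a20 := cf 2 0 (q 0)
      set a11 := cf 1 1 (q 0)
      set b11 := cf 1 1 (q 1)
      set b02 := cf 0 2 (q 1)
      have hodd : e * e ^ (j + 1 + (j + 1)) = e := by
        rw [← two_mul, pow_e he, mul_one]
      have hodd2 : e * e ^ (j + 2 + j) = e := by
        rw [show j + 2 + j = 2 * (j + 1) by ring, pow_e he, mul_one]
      by_cases h1 : ((j : ℂ) - 1) * (a20 + e * b02) + e * j * (a11 + e * b11) = 0
      · by_cases h2 : ((j : ℂ) + 1) * (a11 + e * b11) + e * j * (a20 + e * b02) = 0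
        · exfalso
          have hA : a20 + e * b02 = 0 := by
            have h3 : ((j : ℂ) + 1) * ((j - 1) * (a20 + e * b02) + e * j * (a11 + e * b11)) -
              e * j * ((j + 1) * (a11 + e * b11) + e * j * (a20 + e * b02)) = 0 := by
              rw [h1, h2]; ring
            linear_combination -h3 - (j : ℂ) ^ 2 * (a20 + e * b02) * he
          have hB : a11 + e * b11 = 0 := by
            rw [hA] at h2
            have h5 : ((j : ℂ) + 1) ≠ 0 := by exact_mod_cast Nat.succ_ne_zero j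
            have h6 : ((j : ℂ) + 1) * (a11 + e * b11) = 0 := by linear_combination h2
            exact (mul_eq_zero.mp h6).resolve_left h5
          rcases h with h | h
          · exact h hA
          · exact h hB
        · refine step_of_ne he hl (by omega) (OV_Q2 _ _ _ _ _ _)
            (k0 := mx (j + 2) j + e • my j (j + 2)) ?_
            (act_sym _ _ _ hodd2 he) ?_ r hr
          · exact ((OV_mx _ _).mono (by omega)).add (((OV_my _ _).smul _).mono (by omega))
          · rw [br_add_left, br_smul_left, map_add, map_smul, eta_br_3, eta_br_4]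
            intro h3
            apply h2
            rw [smul_eq_mul] at h3
            linear_combination h3 + (j : ℂ) * b02 * he
      · refine step_of_ne he hl (by omega) (OV_Q2 _ _ _ _ _ _)
            (k0 := mx (j + 1) (j + 1) + e • my (j + 1) (j + 1)) ?_
            (act_sym _ _ _ hodd he) ?_ r hr
        · exact ((OV_mx _ _).mono (by omega)).add (((OV_my _ _).smul _).mono (by omega))
        · rw [br_add_left, br_smul_left, map_add, map_smul, eta_br_1, eta_br_2]
          intro h3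
          apply h1
          rw [smul_eq_mul] at h3
          linear_combination h3 + (j : ℂ) * b11 * he

/-- **Cubic case.** -/
theorem F3 {e : ℂ} (he : e * e = 1) (q : V 2) (hq1 : OV 1 q) (hq : OV 3 q)
    (h0 : cf 2 1 (q 0) + cf 1 2 (q 1) = 0)
    (h : cf 3 0 (q 0) + cf 0 3 (q 1) ≠ 0 ∨ cf 1 2 (q 0) + cf 2 1 (q 1) ≠ 0) :
    ∃ τ : Fin 3 → FMap 2, (∀ k, τ k * τ k = 1) ∧
      τ 0 * τ 1 * τ 2 = linMap (e • JJ) * oneAdd q hq1 := by
  apply three_of_TT
  refine lift_conj (TT e) (TT_sq he) (e • JJ) (TT_prod e) (smul_JJ_sq he) 3 (by norm_num)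
    (Q3 (cf 3 0 (q 0)) (cf 2 1 (q 0)) (cf 1 2 (q 0)) (cf 0 3 (q 0)) (cf 3 0 (q 1))
      (cf 2 1 (q 1)) (cf 1 2 (q 1)) (cf 0 3 (q 1))) (OV_Q3 _ _ _ _ _ _ _ _) ?_ ?_ q hq1
      (OV_sub_Q3 hq)
  · apply torus_odd (fun a ha => ZZ_of_OV _ _ ha) (TT_goodB he 3) (TT_goodJ he 3) 1 rfl
    · exact (OV_Q3 _ _ _ _ _ _ _ _).act _ _
    · rw [eta_act he 1 _ (OV_Q3 _ _ _ _ _ _ _ _)]
      have : eta 1 (Q3 (cf 3 0 (q 0)) (cf 2 1 (q 0)) (cf 1 2 (q 0)) (cf 0 3 (q 0))
        (cf 3 0 (q 1)) (cf 2 1 (q 1)) (cf 1 2 (q 1)) (cf 0 3 (q 1))) =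
          cf 2 1 (q 0) + cf 1 2 (q 1) := by
        simp only [Q3, map_add, map_smul, eta_mx, eta_my]
        simp
      rw [this, h0]
  · intro d hd r hr
    rcases Nat.even_or_odd d with hev | ⟨l, hl⟩
    · exact step_even he hev r hr
    · obtain ⟨j, rfl⟩ : ∃ j, l = j + 2 := ⟨l - 2, by omega⟩
      set a30 := cf 3 0 (q 0)
      set a12 := cf 1 2 (q 0)
      set b21 := cf 2 1 (q 1)
      set b03 := cf 0 3 (q 1)
      have hodd : e * e ^ (j + 1 + (j + 2)) = 1 := by
        rw [show j + 1 + (j + 2) = 2 * (j + 1) + 1 by ring, pow_succ, pow_e he, one_mul, he]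
      have hodd2 : e * e ^ (j + 3 + j) = 1 := by
        rw [show j + 3 + j = 2 * (j + 1) + 1 by ring, pow_succ, pow_e he, one_mul, he]
      by_cases h1 : ((j : ℂ) - 2) * (a30 + b03) + j * (a12 + b21) = 0
      · by_cases h2 : ((j : ℂ) + 2) * (a12 + b21) + j * (a30 + b03) = 0
        · exfalso
          have hA : a30 + b03 = 0 := by
            have h3 : ((j : ℂ) + 2) * ((j - 2) * (a30 + b03) + j * (a12 + b21)) -
              j * ((j + 2) * (a12 + b21) + j * (a30 + b03)) = 0 := by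
              rw [h1, h2]; ring
            linear_combination (-1 / 4) * h3
          have hB : a12 + b21 = 0 := by
            rw [hA] at h2
            have h5 : ((j : ℂ) + 2) ≠ 0 := by exact_mod_cast Nat.succ_ne_zero (j + 1)
            have h6 : ((j : ℂ) + 2) * (a12 + b21) = 0 := by linear_combination h2
            exact (mul_eq_zero.mp h6).resolve_left h5
          rcases h with h | h
          · exact h hA
          · exact h hB
        · refine step_of_ne he hl (by omega) (OV_Q3 _ _ _ _ _ _ _ _)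
            (k0 := mx (j + 3) j + (1 : ℂ) • my j (j + 3)) ?_
            (act_sym _ _ _ hodd2 (by norm_num)) ?_ r hr
          · exact ((OV_mx _ _).mono (by omega)).add (((OV_my _ _).smul _).mono (by omega))
          · rw [br_add_left, br_smul_left, map_add, map_smul, eta_br_7, eta_br_8]
            intro h3
            apply h2
            rw [smul_eq_mul] at h3
            linear_combination h3
      · refine step_of_ne he hl (by omega) (OV_Q3 _ _ _ _ _ _ _ _)
            (k0 := mx (j + 1) (j + 2) + (1 : ℂ) • my (j + 2) (j + 1)) ?_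
            (act_sym _ _ _ hodd (by norm_num)) ?_ r hr
        · exact ((OV_mx _ _).mono (by omega)).add (((OV_my _ _).smul _).mono (by omega))
        · rw [br_add_left, br_smul_left, map_add, map_smul, eta_br_5, eta_br_6]
          intro h3
          apply h1
          rw [smul_eq_mul] at h3
          linear_combination h3

end Pool.Agent.RevMaps
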