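import Mathlib
import Pool.Agent.RevMaps.TwoTorus

/-!
Two variables: products of four involutions, the cases treated with torus type triples.
-/

namespace Pool.Agent.RevMaps

open MvPowerSeries

/-- product of four involutions -/
def I4 {n : ℕ} (f : FMap n) : Prop :=
  ∃ τ : Fin 4 → FMap n, (∀ k, τ k * τ k = 1) ∧ τ 0 * τ 1 * τ 2 * τ 3 = f

theorem I4_conj {n : ℕ} {f p p' : FMap n} (h1 : p * p' = 1) (h2 : p' * p = 1)
    (h : I4 (p' * f * p)) : I4 f := by
  obtain ⟨τ, hτ, hp⟩ := h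
  refine ⟨fun k => p * τ k * p', fun k => ?_, ?_⟩
  · calc p * τ k * p' * (p * τ k * p') = p * (τ k * ((p' * p) * τ k)) * p' := by
          simp only [mul_assoc]
      _ = 1 := by rw [h2, one_mul, hτ, mul_one, h1]
  · have hm : ∀ x y : FMap n, (p * x * p') * (p * y * p') = p * (x * y) * p' := by
      intro x y
      calc (p * x * p') * (p * y * p') = p * (x * ((p' * p) * y)) * p' := by simp only [mul_assoc]
        _ = _ := by rw [h2, one_mul]
    rw [hm, hm, hm, hp]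
    calc p * (p' * f * p) * p' = (p * p') * f * (p * p') := by simp only [mul_assoc]
      _ = f := by rw [h1, one_mul, mul_one]

theorem I4_of_three {n : ℕ} {f g s : FMap n} (hs : s * s = 1) (hf : s * g = f)
    (h : ∃ τ : Fin 3 → FMap n, (∀ k, τ k * τ k = 1) ∧ τ 0 * τ 1 * τ 2 = g) : I4 f := by
  obtain ⟨τ, hτ, hp⟩ := h
  refine ⟨![s, τ 0, τ 1, τ 2], ?_, ?_⟩
  · intro k
    fin_cases k
    · exact hs
    · exact hτ 0
    · exact hτ 1
    · exact hτ 2
  · show s * τ 0 * τ 1 * τ 2 = f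
    rw [← hf, ← hp]
    simp only [mul_assoc]

theorem linMap_conj_oneAdd {n : ℕ} (P P' : Matrix (Fin n) (Fin n) ℂ) (h : P' * P = 1) (q : V n)
    (hq1 : OV 1 q) : linMap P' * oneAdd q hq1 * linMap P = oneAdd (act P' P q) (hq1.act P' P) := by
  apply FMap.ext
  intro i
  rw [mul_assoc, linMap_mul_toFun]
  have h1 : (oneAdd q hq1 * linMap P).toFun = mv P (fun i => X i) + sb (linMap P) q := by
    funext j
    rw [oneAdd_mul]; rfl
  rw [h1, mv_add, mv_mv, h, mv_one]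
  rfl

theorem I4_linConj {n : ℕ} (P P' : Matrix (Fin n) (Fin n) ℂ) (h1 : P * P' = 1) (h2 : P' * P = 1)
    {f : FMap n} (h : I4 (linMap P' * f * linMap P)) : I4 f :=
  I4_conj (p := linMap P) (p' := linMap P') (by rw [← linMap_mul, h1, linMap_one])
    (by rw [← linMap_mul, h2, linMap_one]) h

theorem I4_oneAdd_linConj {n : ℕ} (P P' : Matrix (Fin n) (Fin n) ℂ) (h1 : P * P' = 1)
    (h2 : P' * P = 1) {q : V n} {hq1 : OV 1 q} (h : I4 (oneAdd (act P' P q) (hq1.act P' P))) :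
    I4 (oneAdd q hq1) := by
  apply I4_linConj P P' h1 h2
  rw [linMap_conj_oneAdd P P' h2]
  exact h

/-- the main reduction -/
theorem caseA {e : ℂ} (he : e * e = 1) (T : Matrix (Fin 2) (Fin 2) ℂ) (hT : T * T = 1)
    (f : FMap 2) (hf : lin f = T * (e • JJ))
    (h : cf 2 0 (act (e • JJ) (e • JJ) (mx 2 0 - act T T (mx 2 0)) 0) +
      e * cf 0 2 (act (e • JJ) (e • JJ) (mx 2 0 - act T T (mx 2 0)) 1) ≠ 0) : I4 f := by
  set R : Matrix (Fin 2) (Fin 2) ℂ := e • JJ with hR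
  have hRR : R * R = 1 := smul_JJ_sq he
  have hRR' : linMap R * linMap R = 1 := by rw [← linMap_mul, hRR, linMap_one]
  have hTT' : linMap T * linMap T = 1 := by rw [← linMap_mul, hT, linMap_one]
  set f0 : FMap 2 := linMap R * (linMap T * f) with hf0
  have hlin0 : lin f0 = 1 := by
    rw [hf0, lin_mul, lin_mul, lin_linMap, lin_linMap, hf, ← mul_assoc T, hT, one_mul, hRR]
  set q0 : V 2 := nl f0 with hq0
  have hq0' : f0 = oneAdd q0 (OV_nl_one f0) := eq_oneAdd_nl f0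
  by_cases hc : cf 2 0 (q0 0) + e * cf 0 2 (q0 1) = 0
  · -- modify the first involution
    set b : V 2 := mx 2 0 with hb
    have hbO : OV 2 b := OV_mx 2 0
    set c : V 2 := b - act T T b with hcdef
    have hcO : OV 2 c := hbO.sub (hbO.act T T)
    have hc1 : OV 1 c := hcO.mono (by omega)
    obtain ⟨s, hs, hsE⟩ := modify le_rfl (linMap T) T hTT' hT (lin_linMap T) b hbO hc1
    set f1 : FMap 2 := linMap R * (s * f) with hf1
    have hlins : lin s = T := by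
      rw [hsE.lin_eq (by norm_num), lin_mul, lin_oneAdd le_rfl c hc1 hcO, one_mul, lin_linMap]
    have hlin1 : lin f1 = 1 := by
      rw [hf1, lin_mul, lin_mul, lin_linMap, hlins, hf, ← mul_assoc T, hT, one_mul, hRR]
    set c' : V 2 := act R R c with hc'
    have hc'O : OV 2 c' := hcO.act R R
    have hc'1 : OV 1 c' := hc'O.mono (by omega)
    have hE : EqM 3 f1 (oneAdd (c' + q0) (hc'1.add (OV_nl_one f0))) := by
      have h1 : EqM 3 f1 (linMap R * (oneAdd c hc1 * linMap T * f)) :=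
        (EqM.refl 3 (linMap R)).mul (hsE.mul (EqM.refl 3 f))
      have h2 := (mul_oneAdd (d := 2) (linMap R) R R (lin_linMap R) hRR c hc1 hcO hc'1).mul
        (EqM.refl 3 (linMap T * f))
      have e1 : linMap R * (oneAdd c hc1 * linMap T * f) =
          linMap R * oneAdd c hc1 * (linMap T * f) := by simp only [mul_assoc]
      have e2 : oneAdd c' hc'1 * linMap R * (linMap T * f) = oneAdd c' hc'1 * f0 := by
        rw [hf0]; simp only [mul_assoc]
      rw [e2] at h2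
      rw [e1] at h1
      have h3 := oneAdd_mul_oneAdd le_rfl c' q0 hc'1 hc'O (OV_nl_one f0) (OV_nl hlin0)
        (hc'1.add (OV_nl_one f0))
      rw [← hq0'] at h3
      exact (h1.trans h2).trans h3
    set q1 : V 2 := nl f1 with hq1
    have hval : ∀ i, O 3 (q1 i - (c' i + q0 i)) := by
      intro i
      have h1 := hE i
      have e1 : f1.toFun i - (oneAdd (c' + q0) (hc'1.add (OV_nl_one f0))).toFun i =
          q1 i - (c' i + q0 i) := by
        show f1.toFun i - (X i + (c' i + q0 i)) = (f1.toFun i - X i) - (c' i + q0 i)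
        ring
      rwa [e1] at h1
    have v0 : cf 2 0 (q1 0) = cf 2 0 (c' 0) + cf 2 0 (q0 0) := by
      have h1 := cf_O (a := 2) (b := 0) (hval 0) (by norm_num)
      rw [map_sub, map_add] at h1
      exact sub_eq_zero.mp h1
    have v1 : cf 0 2 (q1 1) = cf 0 2 (c' 1) + cf 0 2 (q0 1) := by
      have h1 := cf_O (a := 0) (b := 2) (hval 1) (by norm_num)
      rw [map_sub, map_add] at h1
      exact sub_eq_zero.mp h1
    have h3 := F2 he q1 (OV_nl_one f1) (OV_nl hlin1) (Or.inl (by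
      rw [v0, v1]
      intro h4
      apply h
      linear_combination h4 - hc))
    rw [← eq_oneAdd_nl, hf1, ← mul_assoc, hRR', one_mul] at h3
    exact I4_of_three hs (by rw [← mul_assoc, hs, one_mul]) h3
  · have h3 := F2 he q0 (OV_nl_one f0) (OV_nl hlin0) (Or.inl hc)
    rw [← eq_oneAdd_nl, hf0, ← mul_assoc, hRR', one_mul] at h3
    exact I4_of_three hTT' (by rw [← mul_assoc, hTT', one_mul]) h3

/-- nonscalar, determinant one, in companion form -/
theorem case_det_one (t : ℂ) (f : FMap 2) (hf : lin f = !![0, -1; 1, t]) : I4 f := by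
  have e1 : (1 : ℂ) * 1 = 1 := by norm_num
  set T : Matrix (Fin 2) (Fin 2) ℂ := !![-1, 0; t, 1] with hT
  have hTT : T * T = 1 := by
    ext i j
    fin_cases i <;> fin_cases j <;> simp [hT, Matrix.mul_apply, Fin.sum_univ_two]
  have hact : act T T (mx 2 0) = tens (mono 2 0) ![-1, t] := by
    rw [mx, act_tens]
    congr 1
    · rw [mono, subst_mulC, subst_powC, subst_powC, subst_X0_two, subst_X1_two]
      simp [hT]
    · funext i
      fin_cases i <;> simp [hT]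
  have hc : act ((1 : ℂ) • JJ) ((1 : ℂ) • JJ) (mx 2 0 - act T T (mx 2 0)) =
      (2 : ℂ) • my 0 2 - t • mx 0 2 := by
    have h1 : mx 2 0 - act T T (mx 2 0) = (2 : ℂ) • mx 2 0 - t • my 2 0 := by
      rw [hact]
      funext i
      fin_cases i
      · simp [tens]
        rw [two_smul]
      · simp [tens]
    rw [h1, act_sub, act_smul, act_smul, act_smul_JJ_mx, act_smul_JJ_my]
    simp
  refine caseA e1 T hTT f ?_ ?_
  · rw [hf]
    ext i j
    fin_cases i <;> fin_cases j <;> simp [hT, JJ, Matrix.mul_apply, Fin.sum_univ_two]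
  · rw [hc]
    simp [cf_mono]

theorem case_neg_one (f : FMap 2) (hf : lin f = -1) : I4 f := by
  have e1 : (1 : ℂ) * 1 = 1 := by norm_num
  have e2 : (-1 : ℂ) * -1 = 1 := by norm_num
  refine caseA e1 ((-1 : ℂ) • JJ) (smul_JJ_sq e2) f ?_ ?_
  · rw [hf, smul_mul_smul_comm, JJ_mul_JJ]; simp
  · rw [act_smul_JJ_mx, act_sub, act_smul, act_smul_JJ_mx, act_smul_JJ_my]
    simp [cf_mono]

theorem case_reflection (f : FMap 2) (hf : lin f = JJ) : I4 f := by
  have e2 : (-1 : ℂ) * -1 = 1 := by norm_num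
  refine caseA e2 (Dg (-1) (-1)) (by rw [Dg_mul, e2, Dg_one]) f ?_ ?_
  · rw [hf]
    ext i j
    fin_cases i <;> fin_cases j <;> simp [Dg, JJ, Matrix.mul_apply, Fin.sum_univ_two]
  · rw [act_Dg_mx, act_sub, act_smul, act_smul_JJ_mx]
    simp [cf_mono]

/-- the involution used for determinant `-1`, nonzero trace -/
noncomputable def T3m (p : ℂ) : Matrix (Fin 2) (Fin 2) ℂ := !![p, 1; 1 - p ^ 2, -p]

theorem T3m_sq (p : ℂ) : T3m p * T3m p = 1 := by
  ext i j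
  fin_cases i <;> fin_cases j <;> simp [T3m, Matrix.mul_apply, Fin.sum_univ_two] <;> ring

/-- the linear quadruple for determinant `-1`, nonzero trace -/
noncomputable def TP (p : ℂ) : Fin 4 → Matrix (Fin 2) (Fin 2) ℂ :=
  ![Dg 2 (1 / 2) * JJ, JJ, T3m p, 1]

theorem TP_sq (p : ℂ) : ∀ k, TP p k * TP p k = 1 := by
  intro k
  fin_cases k
  · exact Dg_JJ_sq _ _ (by norm_num)
  · exact JJ_mul_JJ
  · exact T3m_sq p
  · show (1 : Matrix (Fin 2) (Fin 2) ℂ) * 1 = 1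
    rw [mul_one]

theorem TP_goodB (p : ℂ) (d : ℕ) :
    Good (ZZ (TP p) d) d (Dg 2 (1 / 2)) (Dg (1 / 2) 2) := by
  have h := (good_T (TP p) (TP_sq p) d 0).mul (good_T (TP p) (TP_sq p) d 1)
  have e1 : TP p 0 * TP p 1 = Dg 2 (1 / 2) := by
    show Dg 2 (1 / 2) * JJ * JJ = _
    rw [mul_assoc, JJ_mul_JJ, mul_one]
  have e2 : TP p 1 * TP p 0 = Dg (1 / 2) 2 := by
    show JJ * (Dg 2 (1 / 2) * JJ) = _
    rw [← mul_assoc, JJ_Dg, mul_assoc, JJ_mul_JJ, mul_one]
  rwa [e1, e2] at h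

theorem mono_pow_sum (p : ℂ) (d : ℕ) : (p • (X 0 : PS 2) + X 1) ^ d =
    ∑ m ∈ Finset.range (d + 1), (p ^ m * (d.choose m : ℂ)) • mono m (d - m) := by
  rw [add_pow]
  apply Finset.sum_congr rfl
  intro m _
  rw [smul_pow, mul_smul, mono, smul_mul_assoc, smul_mul_assoc]
  congr 1
  rw [MvPowerSeries.smul_eq_C_mul, map_natCast, mul_comm]

theorem cf_pow_sum (p : ℂ) (a b : ℕ) : cf a b ((p • (X 0 : PS 2) + X 1) ^ (a + b)) =
    p ^ a * ((a + b).choose a : ℂ) := by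
  rw [mono_pow_sum, map_sum, Finset.sum_eq_single a]
  · rw [map_smul, cf_mono, if_pos ⟨rfl, by omega⟩, smul_eq_mul, mul_one]
  · intro m _ hm
    rw [map_smul, cf_mono, if_neg (by tauto), smul_zero]
  · intro h
    exact absurd (Finset.mem_range.mpr (by omega)) h

theorem eta_T3m (p : ℂ) (l : ℕ) : eta l (act (T3m p) (T3m p) (mx (2 * l + 1) 0)) =
    p ^ l * ((2 * l + 1).choose l : ℂ) := by
  rw [mx, act_tens]
  have h1 : (mono (2 * l + 1) 0).subst (linMap (T3m p)).toFun =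
      (p • (X 0 : PS 2) + X 1) ^ (2 * l + 1) := by
    rw [mono, subst_mulC, subst_powC, subst_powC, subst_X0_two]
    simp [T3m]
  rw [h1]
  show cf (l + 1) l (tens _ _ 0) + cf l (l + 1) (tens _ _ 1) = _
  have h2 : ((T3m p).mulVec (Pi.single 0 1)) 0 = p := by simp [T3m]
  have h3 : ((T3m p).mulVec (Pi.single 0 1)) 1 = 1 - p ^ 2 := by simp [T3m]
  simp only [tens, h2, h3, map_smul, smul_eq_mul]
  have c1 := cf_pow_sum p (l + 1) l
  have c2 := cf_pow_sum p l (l + 1)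
  rw [show l + 1 + l = 2 * l + 1 by ring] at c1
  rw [show l + (l + 1) = 2 * l + 1 by ring] at c2
  rw [c1, c2]
  have h4 : (2 * l + 1).choose (l + 1) = (2 * l + 1).choose l := by
    rw [← Nat.choose_symm_half]
  rw [h4]
  ring

theorem TP_solv {p : ℂ} (hp : p ≠ 0) (d : ℕ) (hd : 2 ≤ d) : Solv (TP p) d := by
  have hZ : ∀ a : V 2, OV (d + 1) a → a ∈ ZZ (TP p) d := fun a ha => ZZ_of_OV _ _ ha
  have hJ : Good (ZZ (TP p) d) d JJ JJ := good_T (TP p) (TP_sq p) d 1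
  have hT : Good (ZZ (TP p) d) d (T3m p) (T3m p) := good_T (TP p) (TP_sq p) d 2
  have key : ∀ r : V 2, OV d r → r ∈ ZZ (TP p) d := by
    intro r hr
    rcases Nat.even_or_odd d with hev | ⟨l, hl⟩
    · exact torus_even hZ (TP_goodB p d) hev r hr
    · have h1 : mx (2 * l + 1) 0 ∈ ZZ (TP p) d :=
        mx_mem (TP_goodB p d) (by omega) (by omega)
      have hO : OV d (mx (2 * l + 1) 0) := (OV_mx _ _).mono (by omega)
      set w := act (T3m p) (T3m p) (mx (2 * l + 1) 0) with hw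
      have h2 : w ∈ ZZ (TP p) d := hT.stable hO h1
      have hne : eta l w ≠ 0 := by
        rw [hw, eta_T3m]
        refine mul_ne_zero (pow_ne_zero _ hp) ?_
        exact_mod_cast (Nat.choose_pos (by omega)).ne'
      have h3 : r - (eta l r / eta l w) • w ∈ ZZ (TP p) d := by
        apply torus_odd hZ (TP_goodB p d) hJ l hl
        · exact hr.sub ((hO.act _ _).smul _)
        · rw [map_sub, map_smul, smul_eq_mul, div_mul_cancel₀ _ hne, sub_self]
      have h4 := (ZZ (TP p) d).add_mem h3 ((ZZ (TP p) d).smul_mem (eta l r / eta l w) h2)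
      rwa [sub_add_cancel] at h4
  intro r hr
  exact key r hr

theorem case_TP {p : ℂ} (hp : p ≠ 0) (f : FMap 2)
    (hf : lin f = Dg 2 (1 / 2) * T3m p) : I4 f := by
  apply lift_four (TP p) (TP_sq p) (fun d hd => TP_solv hp d hd) f
  rw [hf]
  show _ = Dg 2 (1 / 2) * JJ * JJ * T3m p * 1
  rw [mul_one, mul_assoc (Dg 2 (1 / 2)), JJ_mul_JJ, mul_one]

/-- companion form -/
theorem companion (A : Matrix (Fin 2) (Fin 2) ℂ) (hA : ¬ ∃ c : ℂ, A = Dg c c) :
    ∃ P P' : Matrix (Fin 2) (Fin 2) ℂ, P * P' = 1 ∧ P' * P = 1 ∧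
      P' * A * P = !![0, -A.det; 1, A.trace] := by
  have hv : ∃ v0 v1 : ℂ, v0 * (A 1 0 * v0 + A 1 1 * v1) - v1 * (A 0 0 * v0 + A 0 1 * v1) ≠ 0 := by
    by_contra hcon
    push Not at hcon
    have h1 := hcon 1 0
    have h2 := hcon 0 1
    have h3 := hcon 1 1
    apply hA
    refine ⟨A 0 0, ?_⟩
    have e1 : A 1 0 = 0 := by linear_combination h1
    have e2 : A 0 1 = 0 := by linear_combination -h2
    have e3 : A 1 1 = A 0 0 := by rw [e1, e2] at h3; linear_combination h3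
    ext i j
    fin_cases i <;> fin_cases j <;> simp [Dg, e1, e2, e3]
  obtain ⟨v0, v1, hv⟩ := hv
  set P : Matrix (Fin 2) (Fin 2) ℂ :=
    !![v0, A 0 0 * v0 + A 0 1 * v1; v1, A 1 0 * v0 + A 1 1 * v1] with hP
  have hdet : P.det ≠ 0 := by
    rw [hP, Matrix.det_fin_two_of]
    intro h; apply hv; linear_combination h
  have hu : IsUnit P.det := isUnit_iff_ne_zero.mpr hdet
  refine ⟨P, P⁻¹, Matrix.mul_nonsing_inv P hu, Matrix.nonsing_inv_mul P hu, ?_⟩
  have h1 : A * P = P * !![0, -A.det; 1, A.trace] := by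
    rw [Matrix.det_fin_two, Matrix.trace_fin_two, hP]
    ext i j
    fin_cases i <;> fin_cases j <;> simp [Matrix.mul_apply, Fin.sum_univ_two] <;> ring
  rw [mul_assoc, h1, ← mul_assoc, Matrix.nonsing_inv_mul P hu, one_mul]

theorem case_nonscalar (f : FMap 2) (hdet : (lin f).det ^ 2 = 1)
    (hns : ¬ ∃ c : ℂ, lin f = Dg c c) : I4 f := by
  obtain ⟨P, P', h1, h2, h3⟩ := companion (lin f) hns
  apply I4_linConj P P' h1 h2
  have hlin : lin (linMap P' * f * linMap P) = !![0, -(lin f).det; 1, (lin f).trace] := by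
    rw [lin_mul, lin_mul, lin_linMap, lin_linMap, h3]
  have hd : (lin f).det = 1 ∨ (lin f).det = -1 := by
    rw [← mul_self_eq_one_iff, ← sq]; exact hdet
  rcases hd with hd | hd
  · exact case_det_one (lin f).trace _ (by rw [hlin, hd])
  · rw [hd, neg_neg] at hlin
    by_cases ht : (lin f).trace = 0
    · apply case_reflection
      rw [hlin, ht]; rfl
    · set t := (lin f).trace with htdef
      set p : ℂ := 2 * t / 3 with hp
      have hp0 : p ≠ 0 := by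
        rw [hp]; exact div_ne_zero (mul_ne_zero two_ne_zero ht) (by norm_num)
      set M : Matrix (Fin 2) (Fin 2) ℂ := Dg 2 (1 / 2) * T3m p with hM
      have hMns : ¬ ∃ c : ℂ, M = Dg c c := by
        rintro ⟨c, hc⟩
        have := congrFun (congrFun hc 0) 1
        simp [hM, Dg, T3m] at this
      obtain ⟨P2, P2', k1, k2, k3⟩ := companion M hMns
      have hMdet : M.det = -1 := by
        rw [hM, Matrix.det_fin_two]
        simp [Dg, T3m, Matrix.mul_apply, Fin.sum_univ_two]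
        ring
      have hMtr : M.trace = t := by
        rw [hM, Matrix.trace_fin_two]
        simp [Dg, T3m, Matrix.mul_apply, Fin.sum_univ_two]
        rw [hp]; ring
      rw [hMdet, hMtr, neg_neg] at k3
      apply I4_linConj P2' P2 k2 k1
      apply case_TP hp0
      rw [lin_mul, lin_mul, lin_linMap, lin_linMap, hlin, ← k3, ← hM]
      calc P2 * (P2' * M * P2) * P2' = (P2 * P2') * M * (P2 * P2') := by simp only [mul_assoc]
        _ = M := by rw [k1, one_mul, mul_one]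

/-- quadratic terms -/
def G2 (a20 a11 a02 b20 b11 b02 : ℂ) : Prop :=
  ∀ (q : V 2) (hq1 : OV 1 q), OV 3 (q - Q2 a20 a11 a02 b20 b11 b02) → I4 (oneAdd q hq1)

/-- cubic terms -/
def G3 (a30 a21 a12 a03 b30 b21 b12 b03 : ℂ) : Prop :=
  ∀ (q : V 2) (hq1 : OV 1 q), OV 4 (q - Q3 a30 a21 a12 a03 b30 b21 b12 b03) →
    I4 (oneAdd q hq1)

theorem I4_of_J_three {q : V 2} {hq1 : OV 1 q}
    (h : ∃ τ : Fin 3 → FMap 2, (∀ k, τ k * τ k = 1) ∧
      τ 0 * τ 1 * τ 2 = linMap ((1 : ℂ) • JJ) * oneAdd q hq1) : I4 (oneAdd q hq1) := by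
  have hJ : linMap ((1 : ℂ) • JJ) * linMap ((1 : ℂ) • JJ) = 1 := by
    rw [← linMap_mul, smul_JJ_sq (by norm_num), linMap_one]
  exact I4_of_three hJ (by rw [← mul_assoc, hJ, one_mul]) h

theorem cf_of_sub {a b k : ℕ} {p p' : PS 2} (h : O k (p - p')) (hab : a + b < k) :
    cf a b p = cf a b p' := by
  have := cf_O h hab
  rwa [map_sub, sub_eq_zero] at this

theorem cf_Q2 (a20 a11 a02 b20 b11 b02 : ℂ) :
    cf 2 0 (Q2 a20 a11 a02 b20 b11 b02 0) = a20 ∧ cf 1 1 (Q2 a20 a11 a02 b20 b11 b02 0) = a11 ∧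
    cf 1 1 (Q2 a20 a11 a02 b20 b11 b02 1) = b11 ∧ cf 0 2 (Q2 a20 a11 a02 b20 b11 b02 1) = b02 := by
  refine ⟨?_, ?_, ?_, ?_⟩ <;> simp [Q2, cf_mono]

theorem cf_Q3 (a30 a21 a12 a03 b30 b21 b12 b03 : ℂ) :
    (cf 3 0 (Q3 a30 a21 a12 a03 b30 b21 b12 b03 0) = a30 ∧
    cf 2 1 (Q3 a30 a21 a12 a03 b30 b21 b12 b03 0) = a21 ∧
    cf 1 2 (Q3 a30 a21 a12 a03 b30 b21 b12 b03 0) = a12) ∧
    (cf 2 1 (Q3 a30 a21 a12 a03 b30 b21 b12 b03 1) = b21 ∧
    cf 1 2 (Q3 a30 a21 a12 a03 b30 b21 b12 b03 1) = b12 ∧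
    cf 0 3 (Q3 a30 a21 a12 a03 b30 b21 b12 b03 1) = b03) := by
  refine ⟨⟨?_, ?_, ?_⟩, ⟨?_, ?_, ?_⟩⟩ <;> simp [Q3, cf_mono]

theorem G2_base {a20 a11 a02 b20 b11 b02 : ℂ} (h : a20 + b02 ≠ 0 ∨ a11 + b11 ≠ 0) :
    G2 a20 a11 a02 b20 b11 b02 := by
  intro q hq1 hq
  have hq2 : OV 2 q := by
    have h1 := (hq.mono (by norm_num : 2 ≤ 3)).add (OV_Q2 a20 a11 a02 b20 b11 b02)
    rwa [sub_add_cancel] at h1
  apply I4_of_J_three
  apply F2 (by norm_num) q hq1 hq2
  obtain ⟨c1, c2, c3, c4⟩ := cf_Q2 a20 a11 a02 b20 b11 b02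
  rw [cf_of_sub (hq 0) (by norm_num : 2 + 0 < 3), cf_of_sub (hq 1) (by norm_num : 0 + 2 < 3),
    cf_of_sub (hq 0) (by norm_num : 1 + 1 < 3), cf_of_sub (hq 1) (by norm_num : 1 + 1 < 3),
    c1, c2, c3, c4, one_mul, one_mul]
  exact h

theorem G3_base {a30 a21 a12 a03 b30 b21 b12 b03 : ℂ} (h0 : a21 + b12 = 0)
    (h : a30 + b03 ≠ 0 ∨ a12 + b21 ≠ 0) : G3 a30 a21 a12 a03 b30 b21 b12 b03 := by
  intro q hq1 hq
  have hq2 : OV 3 q := by
    have h1 := (hq.mono (by norm_num : 3 ≤ 4)).add (OV_Q3 a30 a21 a12 a03 b30 b21 b12 b03)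
    rwa [sub_add_cancel] at h1
  apply I4_of_J_three
  obtain ⟨⟨c1, c2, c3⟩, c4, c5, c6⟩ := cf_Q3 a30 a21 a12 a03 b30 b21 b12 b03
  apply F3 (by norm_num) q hq1 hq2
  · rw [cf_of_sub (hq 0) (by norm_num : 2 + 1 < 4), cf_of_sub (hq 1) (by norm_num : 1 + 2 < 4),
      c2, c5]
    exact h0
  · rw [cf_of_sub (hq 0) (by norm_num : 3 + 0 < 4), cf_of_sub (hq 1) (by norm_num : 0 + 3 < 4),
      cf_of_sub (hq 0) (by norm_num : 1 + 2 < 4), cf_of_sub (hq 1) (by norm_num : 2 + 1 < 4),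
      c1, c3, c4, c6]
    exact h

/-- conjugation principle for the leading terms -/
theorem G2_conj (P P' : Matrix (Fin 2) (Fin 2) ℂ) (h1 : P * P' = 1) (h2 : P' * P = 1)
    {a20 a11 a02 b20 b11 b02 a20' a11' a02' b20' b11' b02' : ℂ}
    (he : act P' P (Q2 a20 a11 a02 b20 b11 b02) = Q2 a20' a11' a02' b20' b11' b02')
    (h : G2 a20' a11' a02' b20' b11' b02') : G2 a20 a11 a02 b20 b11 b02 := by
  intro q hq1 hq
  apply I4_oneAdd_linConj P P' h1 h2
  apply h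
  rw [← he, ← act_sub]
  exact hq.act P' P

theorem G3_conj (P P' : Matrix (Fin 2) (Fin 2) ℂ) (h1 : P * P' = 1) (h2 : P' * P = 1)
    {a30 a21 a12 a03 b30 b21 b12 b03 a30' a21' a12' a03' b30' b21' b12' b03' : ℂ}
    (he : act P' P (Q3 a30 a21 a12 a03 b30 b21 b12 b03) =
      Q3 a30' a21' a12' a03' b30' b21' b12' b03')
    (h : G3 a30' a21' a12' a03' b30' b21' b12' b03') : G3 a30 a21 a12 a03 b30 b21 b12 b03 := by
  intro q hq1 hq
  apply I4_oneAdd_linConj P P' h1 h2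
  apply h
  rw [← he, ← act_sub]
  exact hq.act P' P

theorem G2_J {a20 a11 a02 b20 b11 b02 : ℂ} (h : G2 b02 b11 b20 a02 a11 a20) :
    G2 a20 a11 a02 b20 b11 b02 := by
  apply G2_conj JJ JJ JJ_mul_JJ JJ_mul_JJ ?_ h
  simp only [Q2, act_add, act_smul, act_JJ_mx, act_JJ_my]
  abel

theorem G3_J {a30 a21 a12 a03 b30 b21 b12 b03 : ℂ} (h : G3 b03 b12 b21 b30 a03 a12 a21 a30) :
    G3 a30 a21 a12 a03 b30 b21 b12 b03 := by
  apply G3_conj JJ JJ JJ_mul_JJ JJ_mul_JJ ?_ h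
  simp only [Q3, act_add, act_smul, act_JJ_mx, act_JJ_my]
  abel

theorem G2_D {a20 a11 a02 b20 b11 b02 : ℂ}
    (h : G2 a20 (-a11) a02 (-b20) b11 (-b02)) : G2 a20 a11 a02 b20 b11 b02 := by
  have e1 : Dg 1 (-1) * Dg 1 (-1) = 1 := by rw [Dg_mul]; norm_num [Dg_one]
  apply G2_conj (Dg 1 (-1)) (Dg 1 (-1)) e1 e1 ?_ h
  simp only [Q2, act_add, act_smul, act_Dg_mx, act_Dg_my]
  norm_num

theorem G3_D {a30 a21 a12 a03 b30 b21 b12 b03 : ℂ}
    (h : G3 a30 (Complex.I * a21) (-a12) (-Complex.I * a03) (-Complex.I * b30) b21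
      (Complex.I * b12) (-b03)) :
    G3 a30 a21 a12 a03 b30 b21 b12 b03 := by
  have e1 : Dg 1 Complex.I * Dg 1 (-Complex.I) = 1 := by rw [Dg_mul]; norm_num [Dg_one]
  have e2 : Dg 1 (-Complex.I) * Dg 1 Complex.I = 1 := by rw [Dg_mul]; norm_num [Dg_one]
  apply G3_conj (Dg 1 Complex.I) (Dg 1 (-Complex.I)) e1 e2 ?_ h
  simp only [Q3, act_add, act_smul, act_Dg_mx, act_Dg_my, smul_smul]
  have hI2 : Complex.I ^ 2 = -1 := Complex.I_sq
  have hI3 : Complex.I ^ 3 = -Complex.I := by rw [pow_succ, hI2]; ring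
  norm_num [hI2, hI3, mul_comm]

/-- the shear -/
noncomputable def Sh (σ : ℂ) : Matrix (Fin 2) (Fin 2) ℂ := !![1, σ; 0, 1]

theorem Sh_mul (σ : ℂ) : Sh σ * Sh (-σ) = 1 := by
  ext i j
  fin_cases i <;> fin_cases j <;> simp [Sh, Matrix.mul_apply, Fin.sum_univ_two]

theorem Sh_mul' (σ : ℂ) : Sh (-σ) * Sh σ = 1 := by
  ext i j
  fin_cases i <;> fin_cases j <;> simp [Sh, Matrix.mul_apply, Fin.sum_univ_two]

theorem mono_subst_Sh (a b : ℕ) (σ : ℂ) :
    (mono a b).subst (linMap (Sh σ)).toFun = (X 0 + C σ * X 1) ^ a * X 1 ^ b := by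
  rw [mono, subst_mulC, subst_powC, subst_powC, subst_X0_two, subst_X1_two]
  simp [Sh, MvPowerSeries.smul_eq_C_mul]

theorem act_Sh_mx (a b : ℕ) (σ : ℂ) :
    act (Sh (-σ)) (Sh σ) (mx a b) = ![(X 0 + C σ * X 1) ^ a * X 1 ^ b, 0] := by
  rw [mx, act_tens, mono_subst_Sh]
  funext i
  fin_cases i <;> simp [tens, Sh]

theorem act_Sh_my (a b : ℕ) (σ : ℂ) :
    act (Sh (-σ)) (Sh σ) (my a b) =
      ![- (C σ * ((X 0 + C σ * X 1) ^ a * X 1 ^ b)), (X 0 + C σ * X 1) ^ a * X 1 ^ b] := by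
  rw [my, act_tens, mono_subst_Sh]
  funext i
  fin_cases i <;> simp [tens, Sh, MvPowerSeries.smul_eq_C_mul]

theorem C_two : (C (2 : ℂ) : PS 2) = 2 := map_ofNat C 2
theorem C_three : (C (3 : ℂ) : PS 2) = 3 := map_ofNat C 3

theorem G2_S (σ : ℂ) {a20 a11 a02 b20 b11 b02 : ℂ}
    (h : G2 (a20 - σ * b20) (2 * σ * a20 + a11 - σ * (2 * σ * b20 + b11))
      (σ ^ 2 * a20 + σ * a11 + a02 - σ * (σ ^ 2 * b20 + σ * b11 + b02))
      b20 (2 * σ * b20 + b11) (σ ^ 2 * b20 + σ * b11 + b02)) :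
    G2 a20 a11 a02 b20 b11 b02 := by
  apply G2_conj (Sh σ) (Sh (-σ)) (Sh_mul σ) (Sh_mul' σ) ?_ h
  simp only [Q2, act_add, act_smul, act_Sh_mx, act_Sh_my]
  funext i
  fin_cases i
  · simp [MvPowerSeries.smul_eq_C_mul, mono, C_two, C_three]
    ring
  · simp [MvPowerSeries.smul_eq_C_mul, mono, C_two, C_three]
    ring

theorem G3_S (σ : ℂ) {a30 a21 a12 a03 b30 b21 b12 b03 : ℂ}
    (h : G3 (a30 - σ * b30) (3 * σ * a30 + a21 - σ * (3 * σ * b30 + b21))
      (3 * σ ^ 2 * a30 + 2 * σ * a21 + a12 - σ * (3 * σ ^ 2 * b30 + 2 * σ * b21 + b12))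
      (σ ^ 3 * a30 + σ ^ 2 * a21 + σ * a12 + a03 -
        σ * (σ ^ 3 * b30 + σ ^ 2 * b21 + σ * b12 + b03))
      b30 (3 * σ * b30 + b21) (3 * σ ^ 2 * b30 + 2 * σ * b21 + b12)
      (σ ^ 3 * b30 + σ ^ 2 * b21 + σ * b12 + b03)) :
    G3 a30 a21 a12 a03 b30 b21 b12 b03 := by
  apply G3_conj (Sh σ) (Sh (-σ)) (Sh_mul σ) (Sh_mul' σ) ?_ h
  simp only [Q3, act_add, act_smul, act_Sh_mx, act_Sh_my]
  funext i
  fin_cases i
  · simp [MvPowerSeries.smul_eq_C_mul, mono, C_two, C_three]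
    ring
  · simp [MvPowerSeries.smul_eq_C_mul, mono, C_two, C_three]
    ring

theorem G2_good {a20 a11 a02 b20 b11 b02 : ℂ} (h : a20 ≠ 0 ∨ a11 ≠ 0 ∨ b11 ≠ 0 ∨ b02 ≠ 0) :
    G2 a20 a11 a02 b20 b11 b02 := by
  by_cases h1 : a20 + b02 ≠ 0 ∨ a11 + b11 ≠ 0
  · exact G2_base h1
  · apply G2_D
    apply G2_base
    push Not at h1
    obtain ⟨h2, h3⟩ := h1
    by_contra hcon
    push Not at hcon
    obtain ⟨h4, h5⟩ := hcon
    have e1 : a20 = 0 := by linear_combination (1 / 2) * h2 + (1 / 2) * h4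
    have e2 : b02 = 0 := by linear_combination (1 / 2) * h2 - (1 / 2) * h4
    have e3 : a11 = 0 := by linear_combination (1 / 2) * h3 - (1 / 2) * h5
    have e4 : b11 = 0 := by linear_combination (1 / 2) * h3 + (1 / 2) * h5
    rcases h with h | h | h | h <;> contradiction

theorem G2_all {a20 a11 a02 b20 b11 b02 : ℂ} (h : ¬ (a20 = 0 ∧ a11 = 0 ∧ a02 = 0 ∧ b20 = 0 ∧
    b11 = 0 ∧ b02 = 0)) : G2 a20 a11 a02 b20 b11 b02 := by
  have key : ∀ {a20 a11 a02 b20 b11 b02 : ℂ}, b20 ≠ 0 → G2 a20 a11 a02 b20 b11 b02 := by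
    intro a20 a11 a02 b20 b11 b02 hb
    by_cases h1 : a20 ≠ 0 ∨ a11 ≠ 0 ∨ b11 ≠ 0 ∨ b02 ≠ 0
    · exact G2_good h1
    · push Not at h1
      obtain ⟨rfl, rfl, rfl, rfl⟩ := h1
      apply G2_S 1
      apply G2_good
      left
      simpa using hb
  by_cases h1 : a20 ≠ 0 ∨ a11 ≠ 0 ∨ b11 ≠ 0 ∨ b02 ≠ 0
  · exact G2_good h1
  · by_cases h2 : b20 = 0
    · apply G2_J
      apply key
      intro h3
      push Not at h1
      exact h ⟨h1.1, h1.2.1, h3, h2, h1.2.2.1, h1.2.2.2⟩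
    · exact key h2

theorem G3_good {a30 a21 a12 a03 b30 b21 b12 b03 : ℂ} (h0 : a21 + b12 = 0)
    (h : a30 ≠ 0 ∨ b03 ≠ 0 ∨ a12 ≠ 0 ∨ b21 ≠ 0) : G3 a30 a21 a12 a03 b30 b21 b12 b03 := by
  by_cases h1 : a30 + b03 ≠ 0 ∨ a12 + b21 ≠ 0
  · exact G3_base h0 h1
  · apply G3_D
    apply G3_base
    · rw [← mul_add, h0, mul_zero]
    push Not at h1
    obtain ⟨h2, h3⟩ := h1
    by_contra hcon
    push Not at hcon
    obtain ⟨h4, h5⟩ := hcon
    have e1 : a30 = 0 := by linear_combination (1 / 2) * h2 + (1 / 2) * h4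
    have e2 : b03 = 0 := by linear_combination (1 / 2) * h2 - (1 / 2) * h4
    have e3 : a12 = 0 := by linear_combination (1 / 2) * h3 - (1 / 2) * h5
    have e4 : b21 = 0 := by linear_combination (1 / 2) * h3 + (1 / 2) * h5
    rcases h with h | h | h | h <;> contradiction

/-- balanced case -/
theorem G3_bal {a30 a21 a12 a03 b30 b21 b12 b03 : ℂ} (h0 : a21 + b12 = 0)
    (h : ¬ (a30 = 0 ∧ a21 = 0 ∧ a12 = 0 ∧ a03 = 0 ∧ b30 = 0 ∧ b21 = 0 ∧ b12 = 0 ∧ b03 = 0)) :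
    G3 a30 a21 a12 a03 b30 b21 b12 b03 := by
  have key : ∀ {a30 a21 a12 a03 b30 b21 b12 b03 : ℂ}, a21 + b12 = 0 → b30 ≠ 0 →
      G3 a30 a21 a12 a03 b30 b21 b12 b03 := by
    intro a30 a21 a12 a03 b30 b21 b12 b03 h0 hb
    by_cases h1 : a30 ≠ 0 ∨ b03 ≠ 0 ∨ a12 ≠ 0 ∨ b21 ≠ 0
    · exact G3_good h0 h1
    · push Not at h1
      obtain ⟨rfl, rfl, rfl, rfl⟩ := h1
      apply G3_S 1
      apply G3_good
      · linear_combination h0
      · left
        simpa using hb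
  by_cases h1 : a30 ≠ 0 ∨ b03 ≠ 0 ∨ a12 ≠ 0 ∨ b21 ≠ 0
  · exact G3_good h0 h1
  · by_cases h2 : b30 = 0
    · by_cases h3 : a03 = 0
      · push Not at h1
        obtain ⟨rfl, rfl, rfl, rfl⟩ := h1
        subst h2; subst h3
        have h4 : a21 ≠ 0 := by
          intro h5
          subst h5
          rw [zero_add] at h0
          subst h0
          exact h ⟨rfl, rfl, rfl, rfl, rfl, rfl, rfl, rfl⟩
        apply G3_S 1
        apply G3_good
        · linear_combination h0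
        · right; right; left
          intro h5
          apply h4
          linear_combination (1 / 3) * h5 + (1 / 3) * h0
      · apply G3_J
        exact key (by rw [add_comm]; exact h0) h3
    · exact key h0 h2

theorem G3_all {a30 a21 a12 a03 b30 b21 b12 b03 : ℂ}
    (h : ¬ (a30 = 0 ∧ a21 = 0 ∧ a12 = 0 ∧ a03 = 0 ∧ b30 = 0 ∧ b21 = 0 ∧ b12 = 0 ∧ b03 = 0)) :
    G3 a30 a21 a12 a03 b30 b21 b12 b03 := by
  have key : ∀ {a30 a21 a12 a03 b30 b21 b12 b03 : ℂ}, 3 * a30 + b21 ≠ 0 →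
      G3 a30 a21 a12 a03 b30 b21 b12 b03 := by
    intro a30 a21 a12 a03 b30 b21 b12 b03 hA
    apply G3_S (-(a21 + b12) / (3 * a30 + b21))
    set σ : ℂ := -(a21 + b12) / (3 * a30 + b21) with hσ
    have h1 : σ * (3 * a30 + b21) = -(a21 + b12) := by rw [hσ]; field_simp
    apply G3_bal
    · linear_combination h1
    · rintro ⟨h2, -, -, -, h3, h4, -, -⟩
      apply hA
      linear_combination 3 * h2 + h4
  have key2 : ∀ {a30 a21 a12 a03 b30 b21 b12 b03 : ℂ}, a12 + 3 * b03 ≠ 0 →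
      G3 a30 a21 a12 a03 b30 b21 b12 b03 := by
    intro a30 a21 a12 a03 b30 b21 b12 b03 hC
    apply G3_J
    apply key
    intro h1; apply hC; linear_combination h1
  by_cases h0 : a21 + b12 = 0
  · exact G3_bal h0 h
  · by_cases hA : 3 * a30 + b21 = 0
    · by_cases hC : a12 + 3 * b03 = 0
      · apply G3_S 1
        apply key2
        intro h1
        apply h0
        linear_combination (1 / 2) * h1 - (1 / 2) * hC - (1 / 2) * hA
      · exact key2 hC
    · exact key hA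

/-- tangent to the identity, of low order -/
theorem case_low (f : FMap 2) (hf : lin f = 1) (h : ¬ OV 4 (nl f)) : I4 f := by
  rw [eq_oneAdd_nl f]
  set q := nl f with hq
  have hq2 : OV 2 q := OV_nl hf
  by_cases h3 : OV 3 q
  · have h4 := OV_sub_Q3 h3
    refine G3_all ?_ q (OV_nl_one f) h4
    rintro ⟨c1, c2, c3, c4, c5, c6, c7, c8⟩
    apply h
    rw [c1, c2, c3, c4, c5, c6, c7, c8] at h4
    have e : Q3 0 0 0 0 0 0 0 0 = 0 := by simp [Q3]
    rwa [e, sub_zero] at h4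
  · have h4 := OV_sub_Q2 hq2
    refine G2_all ?_ q (OV_nl_one f) h4
    rintro ⟨c1, c2, c3, c4, c5, c6⟩
    apply h3
    rw [c1, c2, c3, c4, c5, c6] at h4
    have e : Q2 0 0 0 0 0 0 = 0 := by simp [Q2]
    rwa [e, sub_zero] at h4

end Pool.Agent.RevMaps
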