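import Mathlib
import Pool.Agent.RevMaps.TwoCases

/-!
Two variables: maps tangent to the identity to order four, and scalar linear parts of order four.
-/

namespace Pool.Agent.RevMaps

open MvPowerSeries

/-- `1 / (1 + X i)` -/
noncomputable def wI (i : Fin 2) : PS 2 := (1 + X i)⁻¹

theorem wI_mul (i : Fin 2) : wI i * (1 + X i) = 1 :=
  MvPowerSeries.inv_mul_cancel _ (by simp)

/-- `- X i / (1 + X i)` -/
noncomputable def sg (i : Fin 2) : PS 2 := -(X i * wI i)

theorem O_sg (i : Fin 2) : O 1 (sg i) := ((O_X i).mul (O_zero _)).neg.mono (by norm_num)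

theorem one_add_sg (i : Fin 2) : 1 + sg i = wI i := by
  have h := wI_mul i
  rw [sg]
  linear_combination -h

theorem wI_subst (g : FMap 2) (i : Fin 2) :
    (wI i).subst g.toFun * (1 + g.toFun i) = 1 := by
  have h := congrArg (fun p : PS 2 => p.subst g.toFun) (wI_mul i)
  simp only [subst_mulC, subst_oneC] at h
  rwa [subst_add g.hasSubst, subst_oneC, subst_X g.hasSubst] at h

theorem subst_negC (g : FMap 2) (p : PS 2) : (-p).subst g.toFun = -(p.subst g.toFun) := by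
  have h := subst_smulC g (-1) p
  simpa using h

theorem sg_subst (g : FMap 2) (i : Fin 2) (hg : g.toFun i = sg i) :
    (sg i).subst g.toFun = X i := by
  have h1 := wI_subst g i
  rw [hg, one_add_sg] at h1
  have h2 := wI_mul i
  have h3 : (wI i).subst g.toFun = 1 + X i := by
    linear_combination (1 + X i) * h1 - (wI i).subst g.toFun * h2
  have h4 : (sg i).subst g.toFun = -(sg i * (wI i).subst g.toFun) := by
    conv_lhs => rw [sg]
    rw [subst_negC, subst_mulC, subst_X g.hasSubst, hg]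
  rw [h4, h3, sg]
  linear_combination X i * h2

/-- a formal map from two components -/
noncomputable def mk2 (p q : PS 2) (hp : O 1 p) (hq : O 1 q) : FMap 2 :=
  ⟨![p, q], fun i => by
    fin_cases i
    · exact (O_one_iff _).mp hp
    · exact (O_one_iff _).mp hq⟩

theorem mk2_zero (p q : PS 2) (hp : O 1 p) (hq : O 1 q) : (mk2 p q hp hq).toFun 0 = p := rfl
theorem mk2_one (p q : PS 2) (hp : O 1 p) (hq : O 1 q) : (mk2 p q hp hq).toFun 1 = q := rfl

theorem ext2 {f g : FMap 2} (h0 : f.toFun 0 = g.toFun 0) (h1 : f.toFun 1 = g.toFun 1) : f = g := by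
  apply FMap.ext
  intro i
  fin_cases i
  · exact h0
  · exact h1

theorem mul_apply2 (f g : FMap 2) (i : Fin 2) : (f * g).toFun i = (f.toFun i).subst g.toFun := rfl

/-- the three base involutions -/
noncomputable def s0 : FMap 2 := mk2 (sg 0) (-X 1) (O_sg 0) (O_X 1).neg
/-- second base involution -/
noncomputable def s1 : FMap 2 := mk2 (sg 0) (sg 1) (O_sg 0) (O_sg 1)
/-- third base involution -/
noncomputable def s2 : FMap 2 := mk2 (-X 0) (sg 1) (O_X 0).neg (O_sg 1)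

theorem s0_sq : s0 * s0 = 1 := by
  apply ext2
  · rw [mul_apply2]; exact sg_subst s0 0 rfl
  · rw [mul_apply2]
    show (-X 1 : PS 2).subst s0.toFun = X 1
    rw [subst_negC, subst_X s0.hasSubst]
    show -(-X 1 : PS 2) = X 1
    rw [neg_neg]

theorem s1_sq : s1 * s1 = 1 := by
  apply ext2
  · rw [mul_apply2]; exact sg_subst s1 0 rfl
  · rw [mul_apply2]; exact sg_subst s1 1 rfl

theorem s2_sq : s2 * s2 = 1 := by
  apply ext2
  · rw [mul_apply2]
    show (-X 0 : PS 2).subst s2.toFun = X 0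
    rw [subst_negC, subst_X s2.hasSubst]
    show -(-X 0 : PS 2) = X 0
    rw [neg_neg]
  · rw [mul_apply2]; exact sg_subst s2 1 rfl

theorem s01_zero : (s0 * s1).toFun 0 = X 0 := by
  rw [mul_apply2]; exact sg_subst s1 0 rfl

theorem s01_one : (s0 * s1).toFun 1 = -sg 1 := by
  rw [mul_apply2]
  show (-X 1 : PS 2).subst s1.toFun = -sg 1
  rw [subst_negC, subst_X s1.hasSubst]; rfl

theorem s12_one : (s1 * s2).toFun 1 = X 1 := by
  rw [mul_apply2]; exact sg_subst s2 1 rfl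

theorem neg_lin : linMap (Dg (-1) (-1)) = mk2 (-X 0) (-X 1) (O_X 0).neg (O_X 1).neg := by
  apply ext2
  · rw [linMap_toFun, mk2_zero]
    simp [mv, Dg, Fin.sum_univ_two]
  · rw [linMap_toFun, mk2_one]
    simp [mv, Dg, Fin.sum_univ_two]

theorem s012 : s0 * s1 * s2 = linMap (Dg (-1) (-1)) := by
  rw [neg_lin]
  apply ext2
  · rw [mul_apply2, s01_zero, subst_X s2.hasSubst]; rfl
  · rw [mul_apply2, s01_one, subst_negC, sg_subst s2 1 rfl]; rfl

/-- quadratic parts -/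
theorem sg_quad (i : Fin 2) : O 3 (sg i - (-X i + X i ^ 2)) := by
  have h : sg i - (-X i + X i ^ 2) = -(X i * (X i * X i) * wI i) := by
    have h2 := wI_mul i
    rw [sg]
    linear_combination -(X i - X i ^ 2) * h2
  rw [h]
  exact (((O_X i).mul ((O_X i).mul (O_X i))).mul (O_zero _)).neg.mono (by norm_num)

theorem sg_lin (i : Fin 2) : O 2 (sg i - (-X i)) := by
  have h1 := (sg_quad i).mono (by norm_num : 2 ≤ 3)
  have h2 : O 2 (X i ^ 2 : PS 2) := O_pow (O_X i)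
  have h3 := h1.add h2
  have e : sg i - (-X i + X i ^ 2) + X i ^ 2 = sg i - -X i := by ring
  rwa [e] at h3

theorem lin_of_EqM2 {f : FMap 2} (h : EqM 2 f (linMap (Dg (-1) (-1)))) : lin f = Dg (-1) (-1) := by
  rw [h.lin_eq le_rfl, lin_linMap]

theorem lin_s0 : lin s0 = Dg (-1) (-1) := by
  apply lin_of_EqM2
  rw [neg_lin]
  intro i
  fin_cases i
  · exact sg_lin 0
  · show O 2 ((-X 1 : PS 2) - -X 1)
    rw [sub_self]; exact O_of_zero _

theorem lin_s1 : lin s1 = Dg (-1) (-1) := by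
  apply lin_of_EqM2
  rw [neg_lin]
  intro i
  fin_cases i
  · exact sg_lin 0
  · exact sg_lin 1

theorem lin_s2 : lin s2 = Dg (-1) (-1) := by
  apply lin_of_EqM2
  rw [neg_lin]
  intro i
  fin_cases i
  · show O 2 ((-X 0 : PS 2) - -X 0)
    rw [sub_self]; exact O_of_zero _
  · exact sg_lin 1

/-- the quadratic part of `s0 s1` -/
theorem nl_s01 : OV 3 (nl (s0 * s1) - (-1 : ℂ) • my 0 2) := by
  intro i
  fin_cases i
  · show O 3 ((s0 * s1).toFun 0 - X 0 - ((-1 : ℂ) • my 0 2) 0)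
    rw [s01_zero]
    simpa using O_of_zero (n := 2) 3
  · show O 3 ((s0 * s1).toFun 1 - X 1 - ((-1 : ℂ) • my 0 2) 1)
    rw [s01_one]
    have h := (sg_quad 1).neg
    have e : -(sg 1 - (-X 1 + X 1 ^ 2)) = -sg 1 - X 1 - ((-1 : ℂ) • my 0 2) 1 := by
      simp [mono]
      ring
    rwa [e] at h

/-- the quadratic part of `s1 s2` -/
theorem nl_s12 : OV 3 (nl (s1 * s2) - mx 2 0) := by
  intro i
  fin_cases i
  · show O 3 ((s1 * s2).toFun 0 - X 0 - (mx 2 0) 0)
    have h1 : (s1 * s2).toFun 0 = (sg 0).subst s2.toFun := rfl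
    have h2 : O 3 ((sg 0).subst s2.toFun - (-X 0 + X 0 ^ 2 : PS 2).subst s2.toFun) := by
      rw [← subst_subC]
      exact O_subst (sg_quad 0) s2.O1
    have h3 : (-X 0 + X 0 ^ 2 : PS 2).subst s2.toFun = X 0 + X 0 ^ 2 := by
      rw [subst_add s2.hasSubst, subst_negC, subst_powC, subst_X s2.hasSubst]
      show -(-X 0 : PS 2) + (-X 0) ^ 2 = X 0 + X 0 ^ 2
      ring
    rw [h3] at h2
    rw [h1]
    have e : (sg 0).subst s2.toFun - (X 0 + X 0 ^ 2) = (sg 0).subst s2.toFun - X 0 - mx 2 0 0 := by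
      simp [mono]
      ring
    rwa [e] at h2
  · show O 3 ((s1 * s2).toFun 1 - X 1 - (mx 2 0) 1)
    rw [s12_one]
    simpa using O_of_zero (n := 2) 3

theorem neg_mul_toFun (g : FMap 2) (i : Fin 2) :
    (linMap (Dg (-1) (-1)) * g).toFun i = -g.toFun i := by
  rw [linMap_mul_toFun]
  fin_cases i <;> simp [mv, Dg, Fin.sum_univ_two]

/-- the quadratic part of `N s0` -/
theorem nl_Ns0 : OV 3 (nl (linMap (Dg (-1) (-1)) * s0) - (-1 : ℂ) • mx 2 0) := by
  intro i
  fin_cases i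
  · show O 3 ((linMap (Dg (-1) (-1)) * s0).toFun 0 - X 0 - ((-1 : ℂ) • mx 2 0) 0)
    have h := (sg_quad 0).neg
    have e : -(sg 0 - (-X 0 + X 0 ^ 2)) =
        (linMap (Dg (-1) (-1)) * s0).toFun 0 - X 0 - ((-1 : ℂ) • mx 2 0) 0 := by
      rw [neg_mul_toFun]
      show _ = -sg 0 - X 0 - ((-1 : ℂ) • mx 2 0) 0
      simp [mono]
      ring
    rwa [e] at h
  · show O 3 ((linMap (Dg (-1) (-1)) * s0).toFun 1 - X 1 - ((-1 : ℂ) • mx 2 0) 1)
    rw [neg_mul_toFun]
    have e : -s0.toFun 1 - X 1 - ((-1 : ℂ) • mx 2 0) 1 = 0 := by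
      show -(-X 1 : PS 2) - X 1 - ((-1 : ℂ) • mx 2 0) 1 = 0
      simp
    rw [e]; exact O_of_zero _

/-- conjugation of a map tangent to the identity -/
theorem conj_nl {n e : ℕ} (he : 2 ≤ e) (u : (FMap n)ˣ) (k : V n) (hk1 : OV 1 k) (hk : OV e k)
    (hu : (u : FMap n) = oneAdd k hk1) (Q : FMap n) (hQ : lin Q = 1)
    (hb1 : OV 1 (br k (nl Q))) :
    EqM (e + 2) ((u : FMap n) * Q * ((u⁻¹ : (FMap n)ˣ) : FMap n)) (addT Q (br k (nl Q)) hb1) := by
  have h1 := conj_oneAdd he le_rfl u k (nl Q) hk1 (OV_nl_one Q) hk (OV_nl hQ) hu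
    ((OV_nl_one Q).add hb1)
  rw [← eq_oneAdd_nl] at h1
  have e1 : oneAdd (nl Q + br k (nl Q)) ((OV_nl_one Q).add hb1) = addT Q (br k (nl Q)) hb1 := by
    apply FMap.ext
    intro i
    show X i + (nl Q i + br k (nl Q) i) = Q.toFun i + br k (nl Q) i
    simp only [nl]
    ring
  rwa [e1] at h1

theorem sb_neg_odd {d : ℕ} (hd : Odd d) (τ : FMap 2) (hτ : lin τ = Dg (-1) (-1)) {b : V 2}
    (hb : OV d b) (i : Fin 2) : O (d + 1) (sb τ b i + b i) := by
  have h1 := sb_lin τ b hb i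
  rw [hτ] at h1
  have h2 := O_subst_scal (hb i) (-1)
  rw [hd.neg_one_pow, neg_smul, one_smul] at h2
  have h3 := h1.add h2
  have e : sb τ b i - sb (linMap (Dg (-1) (-1))) b i +
      ((b i).subst (linMap (Dg (-1) (-1))).toFun - -b i) = sb τ b i + b i := by
    show sb τ b i - (b i).subst (linMap (Dg (-1) (-1))).toFun +
      ((b i).subst (linMap (Dg (-1) (-1))).toFun - -b i) = sb τ b i + b i
    ring
  rwa [e] at h3

theorem sb_neg_even {d : ℕ} (hd : Even d) (τ : FMap 2) (hτ : lin τ = Dg (-1) (-1)) {b : V 2}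
    (hb : OV d b) (i : Fin 2) : O (d + 1) (sb τ b i - b i) := by
  have h1 := sb_lin τ b hb i
  rw [hτ] at h1
  have h2 := O_subst_scal (hb i) (-1)
  rw [hd.neg_one_pow, one_smul] at h2
  have h3 := h1.add h2
  have e : sb τ b i - sb (linMap (Dg (-1) (-1))) b i +
      ((b i).subst (linMap (Dg (-1) (-1))).toFun - b i) = sb τ b i - b i := by
    show sb τ b i - (b i).subst (linMap (Dg (-1) (-1))).toFun +
      ((b i).subst (linMap (Dg (-1) (-1))).toFun - b i) = sb τ b i - b i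
    ring
  rwa [e] at h3

theorem mv_neg (b : V 2) (i : Fin 2) : mv (Dg (-1) (-1)) b i = -b i := by
  fin_cases i <;> simp [mv, Dg, Fin.sum_univ_two]

section pairs

variable {d : ℕ} (hd3 : 3 ≤ d) (hd : Odd d) (Q τ : FMap 2) (hQ : lin Q = 1)
  (hτ : lin τ = Dg (-1) (-1)) (a : V 2) (ha1 : OV 1 a) (ha : OV (d - 1) a) (c : V 2)
  (hc : OV 3 (nl Q - c)) (u : (FMap 2)ˣ) (hu : (u : FMap 2) = oneAdd a ha1)
include hd3 hQ hτ ha hc hu

include hd in
theorem left_pair (i : Fin 2) : O (d + 1) (((u : FMap 2) * Q * ((u⁻¹ : (FMap 2)ˣ) : FMap 2) *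
    τ).toFun i - ((Q * τ).toFun i - br a c i)) := by
  have hbO : OV d (br a (nl Q)) := OV_br ha (OV_nl hQ) (by omega)
  have hb1 : OV 1 (br a (nl Q)) := hbO.mono (by omega)
  have h1 := conj_nl (e := d - 1) (by omega) u a ha1 ha hu Q hQ hb1
  rw [show d - 1 + 2 = d + 1 by omega] at h1
  have h2 := (h1.mul (EqM.refl (d + 1) τ)) i
  have e1 : (addT Q (br a (nl Q)) hb1 * τ).toFun i = (Q * τ).toFun i + sb τ (br a (nl Q)) i :=
    addT_mul Q τ _ hb1 i
  rw [e1] at h2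
  have h3 := sb_neg_odd hd τ hτ hbO i
  have h4 : O (d + 1) (br a (nl Q - c) i) := OV_br ha hc (by omega) i
  rw [br_sub_right, Pi.sub_apply] at h4
  have h5 := (h2.add h3).sub h4
  convert h5 using 1
  ring

theorem right_pair (i : Fin 2) : O (d + 1) ((τ * ((u : FMap 2) * Q *
    ((u⁻¹ : (FMap 2)ˣ) : FMap 2))).toFun i - ((τ * Q).toFun i - br a c i)) := by
  have hbO : OV d (br a (nl Q)) := OV_br ha (OV_nl hQ) (by omega)
  have hb1 : OV 1 (br a (nl Q)) := hbO.mono (by omega)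
  have h1 := conj_nl (e := d - 1) (by omega) u a ha1 ha hu Q hQ hb1
  rw [show d - 1 + 2 = d + 1 by omega] at h1
  have h2 := ((EqM.refl (d + 1) τ).mul h1) i
  have h3 := mul_addT τ Q (br a (nl Q)) hb1 hbO i
  rw [hτ, mv_neg] at h3
  have h4 : O (d + 1) (br a (nl Q - c) i) := OV_br ha hc (by omega) i
  rw [br_sub_right, Pi.sub_apply] at h4
  have h5 := (h2.add h3).sub h4
  convert h5 using 1
  ring

end pairs

/-- surjectivity of the bracket with the two commuting quadratic fields -/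
theorem D_surj {d : ℕ} (hd : 5 ≤ d) (e : V 2) (he : OV d e) :
    ∃ a a' : V 2, OV (d - 1) a ∧ OV (d - 1) a' ∧
      OV (d + 1) (e - br a (my 0 2) + br a' (mx 2 0)) := by
  let W : Submodule ℂ (V 2) :=
    { carrier := {e | ∃ a a' : V 2, OV (d - 1) a ∧ OV (d - 1) a' ∧
        OV (d + 1) (e - br a (my 0 2) + br a' (mx 2 0))}
      add_mem' := by
        rintro x y ⟨a, a', h1, h2, h3⟩ ⟨b, b', k1, k2, k3⟩
        refine ⟨a + b, a' + b', h1.add k1, h2.add k2, ?_⟩
        have h4 := h3.add k3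
        rw [br_add_left, br_add_left]
        convert h4 using 1
        abel
      zero_mem' := ⟨0, 0, fun i => O_of_zero _, fun i => O_of_zero _, by
        rw [br_zero_left, br_zero_left, sub_zero, add_zero]; exact fun i => O_of_zero _⟩
      smul_mem' := by
        rintro c x ⟨a, a', h1, h2, h3⟩
        refine ⟨c • a, c • a', h1.smul c, h2.smul c, ?_⟩
        have h4 := h3.smul c
        rw [br_smul_left, br_smul_left]
        convert h4 using 1
        rw [smul_add, smul_sub] }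
  have hA : ∀ (a w : V 2) (c : ℂ), OV (d - 1) a → c ≠ 0 → br a (my 0 2) = c • w → w ∈ W := by
    intro a w c ha hc h
    refine ⟨c⁻¹ • a, 0, ha.smul _, fun i => O_of_zero _, ?_⟩
    rw [br_smul_left, h, smul_smul, inv_mul_cancel₀ hc, one_smul, sub_self, br_zero_left, add_zero]
    exact fun i => O_of_zero _
  have hB : ∀ (a w : V 2) (c : ℂ), OV (d - 1) a → c ≠ 0 → br a (mx 2 0) = c • w → w ∈ W := by
    intro a w c ha hc h
    refine ⟨0, -c⁻¹ • a, fun i => O_of_zero _, ha.smul _, ?_⟩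
    rw [br_smul_left, h, smul_smul, neg_mul, inv_mul_cancel₀ hc, neg_smul, one_smul, br_zero_left,
      sub_zero, add_neg_cancel]
    exact fun i => O_of_zero _
  have hne : ∀ j : ℕ, ((j : ℂ) + 1) ≠ 0 := fun j => by exact_mod_cast Nat.succ_ne_zero j
  refine le_of_tuples W d ?_ ?_ ?_ e he
  · intro p r hpr
    rcases Nat.lt_or_ge r 2 with h | h
    · obtain ⟨j, rfl⟩ : ∃ j, p = j + 4 := ⟨p - 4, by omega⟩
      refine hB (mx (j + 3) r) _ ((j : ℂ) + 1) ((OV_mx _ _).mono (by omega)) (hne j) ?_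
      rw [br_mx_mx, show j + 3 - 1 + 2 = j + 4 by omega, show 2 - 1 + (j + 3) = j + 4 by omega,
        add_zero, zero_add, ← sub_smul]
      congr 1
      push_cast; ring
    · obtain ⟨j, rfl⟩ : ∃ j, r = j + 2 := ⟨r - 2, by omega⟩
      refine hA (mx p (j + 1)) _ ((j : ℂ) + 1) ((OV_mx _ _).mono (by omega)) (hne j) ?_
      rw [br_mx_my, show j + 1 - 1 + 2 = j + 2 by omega]
      simp
  · intro p r hpr
    rcases Nat.lt_or_ge p 2 with h | h
    · obtain ⟨j, rfl⟩ : ∃ j, r = j + 4 := ⟨r - 4, by omega⟩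
      refine hA (my p (j + 3)) _ ((j : ℂ) + 1) ((OV_my _ _).mono (by omega)) (hne j) ?_
      rw [br_my_my, show j + 3 - 1 + 2 = j + 4 by omega, show 2 - 1 + (j + 3) = j + 4 by omega,
        add_zero, zero_add, ← sub_smul]
      congr 1
      push_cast; ring
    · obtain ⟨j, rfl⟩ : ∃ j, p = j + 2 := ⟨p - 2, by omega⟩
      refine hB (my (j + 1) r) _ ((j : ℂ) + 1) ((OV_my _ _).mono (by omega)) (hne j) ?_
      rw [br_my_mx, show j + 1 - 1 + 2 = j + 2 by omega]
      simp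
  · intro q hq
    refine ⟨0, 0, fun i => O_of_zero _, fun i => O_of_zero _, ?_⟩
    rw [br_zero_left, br_zero_left, sub_zero, add_zero]; exact hq

theorem conj_sq {n : ℕ} (u : (FMap n)ˣ) {τ : FMap n} (h : τ * τ = 1) :
    ((u : FMap n) * τ * ((u⁻¹ : (FMap n)ˣ) : FMap n)) *
      ((u : FMap n) * τ * ((u⁻¹ : (FMap n)ˣ) : FMap n)) = 1 := by
  calc ((u : FMap n) * τ * ((u⁻¹ : (FMap n)ˣ) : FMap n)) *
      ((u : FMap n) * τ * ((u⁻¹ : (FMap n)ˣ) : FMap n))
      = (u : FMap n) * (τ * (((u⁻¹ : (FMap n)ˣ) : FMap n) * u * τ)) *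
        ((u⁻¹ : (FMap n)ˣ) : FMap n) := by simp only [mul_assoc]
    _ = 1 := by rw [u.inv_mul, one_mul, h, mul_one, u.mul_inv]

theorem conj_mul {n : ℕ} (u : (FMap n)ˣ) (x y : FMap n) :
    ((u : FMap n) * x * ((u⁻¹ : (FMap n)ˣ) : FMap n)) *
      ((u : FMap n) * y * ((u⁻¹ : (FMap n)ˣ) : FMap n)) =
      (u : FMap n) * (x * y) * ((u⁻¹ : (FMap n)ˣ) : FMap n) := by
  calc ((u : FMap n) * x * ((u⁻¹ : (FMap n)ˣ) : FMap n)) *
      ((u : FMap n) * y * ((u⁻¹ : (FMap n)ˣ) : FMap n))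
      = (u : FMap n) * (x * (((u⁻¹ : (FMap n)ˣ) : FMap n) * u) * y) *
        ((u⁻¹ : (FMap n)ˣ) : FMap n) := by simp only [mul_assoc]
    _ = _ := by rw [u.inv_mul, mul_one]

/-- conjugation by `1 + O(e)` changes nothing below degree `e` -/
theorem conj_EqM {n e : ℕ} (u : (FMap n)ˣ) (k : V n) (hk1 : OV 1 k) (hk : OV e k)
    (hu : (u : FMap n) = oneAdd k hk1) (τ : FMap n) :
    EqM e ((u : FMap n) * τ * ((u⁻¹ : (FMap n)ˣ) : FMap n)) τ := by
  have h1 : EqM e (u : FMap n) 1 := by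
    intro i
    rw [hu]
    show O e (X i + k i - X i)
    rw [add_sub_cancel_left]; exact hk i
  have h2 : EqM e ((u : FMap n) * τ) (τ * u) := by
    have a1 := h1.mul (EqM.refl e τ)
    have a2 := (EqM.refl e τ).mul h1
    rw [one_mul] at a1
    rw [mul_one] at a2
    exact a1.trans a2.symm
  have h3 := h2.mul (EqM.refl e ((u⁻¹ : (FMap n)ˣ) : FMap n))
  rwa [mul_assoc τ, u.mul_inv, mul_one] at h3

/-- base triple -/
noncomputable def ss : Fin 3 → FMap 2 := ![s0, s1, s2]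

theorem ss_sq : ∀ k, ss k * ss k = 1 := by
  intro k
  fin_cases k
  · exact s0_sq
  · exact s1_sq
  · exact s2_sq

theorem lin_ss : ∀ k, lin (ss k) = Dg (-1) (-1) := by
  intro k
  fin_cases k
  · exact lin_s0
  · exact lin_s1
  · exact lin_s2

theorem Dneg_mul : Dg (-1) (-1) * Dg (-1) (-1) = 1 := by
  rw [Dg_mul]; norm_num [Dg_one]

theorem nl_EqM {n d : ℕ} {f g : FMap n} (h : EqM d f g) : OV d (nl f - nl g) := by
  intro i
  have h1 := h i
  have e : (nl f - nl g) i = f.toFun i - g.toFun i := by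
    show f.toFun i - X i - (g.toFun i - X i) = _
    ring
  rwa [e]

theorem D_step_odd {d : ℕ} (hd5 : 5 ≤ d) (hd : Odd d) (h : FMap 2) (τ : Fin 3 → FMap 2)
    (hτ : ∀ k, τ k * τ k = 1) (hb : ∀ k, EqM 3 (τ k) (ss k))
    (hp : EqM d (τ 0 * τ 1 * τ 2) h) :
    ∃ τ' : Fin 3 → FMap 2, (∀ k, τ' k * τ' k = 1) ∧ (∀ k, EqM 3 (τ' k) (ss k)) ∧
      EqM (d + 1) (τ' 0 * τ' 1 * τ' 2) h ∧ ∀ k, EqM (d - 1) (τ' k) (τ k) := by
  set e : V 2 := fun i => h.toFun i - (τ 0 * τ 1 * τ 2).toFun i with he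
  have heO : OV d e := fun i => (hp i).symm_sub
  obtain ⟨a, a', ha, ha', hfin⟩ := D_surj hd5 e heO
  have ha1 : OV 1 a := ha.mono (by omega)
  have ha1' : OV 1 a' := ha'.mono (by omega)
  obtain ⟨u, hu⟩ := isUnit_oneAdd (d := d - 1) (by omega) a ha1 ha
  obtain ⟨v, hv⟩ := isUnit_oneAdd (d := d - 1) (by omega) a' ha1' ha'
  have hlin : ∀ k, lin (τ k) = Dg (-1) (-1) := fun k => by
    rw [(hb k).lin_eq (by norm_num), lin_ss]
  set t0 := (u : FMap 2) * τ 0 * ((u⁻¹ : (FMap 2)ˣ) : FMap 2) with ht0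
  set t1 := (u : FMap 2) * τ 1 * ((u⁻¹ : (FMap 2)ˣ) : FMap 2) with ht1
  have e0 : EqM (d - 1) t0 (τ 0) := conj_EqM u a ha1 ha hu _
  have e1 : EqM (d - 1) t1 (τ 1) := conj_EqM u a ha1 ha hu _
  have hb0 : EqM 3 t0 s0 := (e0.mono (by omega)).trans (hb 0)
  have hb1 : EqM 3 t1 s1 := (e1.mono (by omega)).trans (hb 1)
  have hl0 : lin t0 = Dg (-1) (-1) := by rw [hb0.lin_eq (by norm_num), lin_s0]
  have hl1 : lin t1 = Dg (-1) (-1) := by rw [hb1.lin_eq (by norm_num), lin_s1]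
  -- first pair
  have hQ : lin (τ 0 * τ 1) = 1 := by rw [lin_mul, hlin, hlin, Dneg_mul]
  have hc : OV 3 (nl (τ 0 * τ 1) - (-1 : ℂ) • my 0 2) := by
    have h1 := nl_EqM ((hb 0).mul (hb 1))
    have h2 := h1.add nl_s01
    rwa [show ss 0 * ss 1 = s0 * s1 from rfl, sub_add_sub_cancel] at h2
  have L := left_pair (by omega) hd (τ 0 * τ 1) (τ 2) hQ (hlin 2) a ha1 ha _ hc u hu
  rw [← conj_mul] at L
  -- second pair
  have hQ' : lin (t1 * τ 2) = 1 := by rw [lin_mul, hl1, hlin, Dneg_mul]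
  have hc' : OV 3 (nl (t1 * τ 2) - mx 2 0) := by
    have h1 := nl_EqM (hb1.mul (hb 2))
    have h2 := h1.add nl_s12
    rwa [show s1 * ss 2 = s1 * s2 from rfl, sub_add_sub_cancel] at h2
  have Rr := right_pair (by omega) (t1 * τ 2) t0 hQ' hl0 a' ha1' ha' _ hc' v hv
  rw [← conj_mul] at Rr
  set t1' := (v : FMap 2) * t1 * ((v⁻¹ : (FMap 2)ˣ) : FMap 2) with ht1'
  set t2' := (v : FMap 2) * τ 2 * ((v⁻¹ : (FMap 2)ˣ) : FMap 2) with ht2'
  have e1' : EqM (d - 1) t1' t1 := conj_EqM v a' ha1' ha' hv _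
  have e2' : EqM (d - 1) t2' (τ 2) := conj_EqM v a' ha1' ha' hv _
  refine ⟨![t0, t1', t2'], ?_, ?_, ?_, ?_⟩
  · intro k
    fin_cases k
    · exact conj_sq u (hτ 0)
    · exact conj_sq v (conj_sq u (hτ 1))
    · exact conj_sq v (hτ 2)
  · intro k
    fin_cases k
    · exact hb0
    · exact (e1'.mono (by omega)).trans hb1
    · exact (e2'.mono (by omega)).trans (hb 2)
  · intro i
    show O (d + 1) ((t0 * t1' * t2').toFun i - h.toFun i)
    have h1 := Rr i
    have h2 := L i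
    rw [← ht0, ← ht1] at h2
    rw [← mul_assoc t0 t1' t2', ← mul_assoc t0 t1 (τ 2)] at h1
    have h3 := (h1.add h2).sub (hfin i)
    rw [br_smul_right] at h3
    convert h3 using 1
    simp only [he, Pi.add_apply, Pi.sub_apply, Pi.smul_apply, neg_smul, one_smul]
    ring
  · intro k
    fin_cases k
    · exact e0
    · exact e1'.trans e1
    · exact e2'

theorem D_step_even {d : ℕ} (hd4 : 4 ≤ d) (hd : Even d) (h : FMap 2) (τ : Fin 3 → FMap 2)
    (hτ : ∀ k, τ k * τ k = 1) (hb : ∀ k, EqM 3 (τ k) (ss k))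
    (hp : EqM d (τ 0 * τ 1 * τ 2) h) :
    ∃ τ' : Fin 3 → FMap 2, (∀ k, τ' k * τ' k = 1) ∧ (∀ k, EqM 3 (τ' k) (ss k)) ∧
      EqM (d + 1) (τ' 0 * τ' 1 * τ' 2) h ∧ ∀ k, EqM (d - 1) (τ' k) (τ k) := by
  set e : V 2 := fun i => h.toFun i - (τ 0 * τ 1 * τ 2).toFun i with he
  have heO : OV d e := fun i => (hp i).symm_sub
  have hlin : ∀ k, lin (τ k) = Dg (-1) (-1) := fun k => by
    rw [(hb k).lin_eq (by norm_num), lin_ss]
  set a : V 2 := (1 / 2 : ℂ) • e with ha
  have haO : OV d a := heO.smul _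
  set c : V 2 := a - act (Dg (-1) (-1)) (Dg (-1) (-1)) a with hc
  have hcO : OV d c := haO.sub (haO.act _ _)
  have hc1 : OV 1 c := hcO.mono (by omega)
  have hce : ∀ i, O (d + 1) (c i - e i) := by
    intro i
    have h1 := sb_neg_even hd (linMap (Dg (-1) (-1))) (lin_linMap _) haO i
    have e1 : c i - e i = sb (linMap (Dg (-1) (-1))) a i - a i := by
      show a i - mv (Dg (-1) (-1)) (sb (linMap (Dg (-1) (-1))) a) i - e i = _
      rw [mv_neg]
      have h2 : e i = a i + a i := by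
        rw [ha, Pi.smul_apply, ← add_smul]; norm_num
      rw [h2]; ring
    rwa [e1]
  obtain ⟨t, ht, htE⟩ := modify (by omega : 2 ≤ d) (τ 0) (Dg (-1) (-1)) (hτ 0) Dneg_mul (hlin 0)
    a haO hc1
  have htd : EqM d t (τ 0) := by
    refine htE.add_left_comm.trans ?_
    intro i
    rw [oneAdd_mul, add_sub_cancel_left]
    exact hcO.sb _ i
  refine ⟨![t, τ 1, τ 2], ?_, ?_, ?_, ?_⟩
  · intro k
    fin_cases k
    · exact ht
    · exact hτ 1
    · exact hτ 2
  · intro k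
    fin_cases k
    · exact (htd.mono (by omega)).trans (hb 0)
    · exact hb 1
    · exact hb 2
  · intro i
    show O (d + 1) ((t * τ 1 * τ 2).toFun i - h.toFun i)
    have h1 := ((htE.mul (EqM.refl (d + 1) (τ 1))).mul (EqM.refl (d + 1) (τ 2))) i
    rw [mul_assoc (oneAdd c hc1) (τ 0) (τ 1), mul_assoc (oneAdd c hc1) (τ 0 * τ 1) (τ 2),
      oneAdd_mul] at h1
    have hlP : lin (τ 0 * τ 1 * τ 2) = Dg (-1) (-1) := by
      rw [lin_mul, lin_mul, hlin, hlin, hlin, Dneg_mul, one_mul]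
    have h2 := sb_neg_even hd (τ 0 * τ 1 * τ 2) hlP hcO i
    have h3 := (h1.add h2).add (hce i)
    convert h3 using 1
    simp only [he]
    ring
  · intro k
    fin_cases k
    · exact htd.mono (by omega)
    · exact EqM.refl _ _
    · exact EqM.refl _ _

/-- maps close to minus the identity -/
theorem D_lift (h : FMap 2) (hh : EqM 4 (linMap (Dg (-1) (-1))) h) :
    ∃ τ : Fin 3 → FMap 2, (∀ k, τ k * τ k = 1) ∧ τ 0 * τ 1 * τ 2 = h := by
  classical
  let P : ℕ → (Fin 3 → FMap 2) → Prop := fun d τ =>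
    (∀ k, τ k * τ k = 1) ∧ (∀ k, EqM 3 (τ k) (ss k)) ∧ EqM d (τ 0 * τ 1 * τ 2) h
  have h0 : P 4 ss := ⟨ss_sq, fun k => EqM.refl _ _, by
    show EqM 4 (s0 * s1 * s2) h
    rw [s012]; exact hh⟩
  have hstep : ∀ d, 4 ≤ d → ∀ τ, P d τ → ∃ τ', P (d + 1) τ' ∧ ∀ k, EqM (d - 1) (τ' k) (τ k) := by
    intro d hd τ hτ
    rcases Nat.even_or_odd d with hev | hodd
    · obtain ⟨τ', h1, h2, h3, h4⟩ := D_step_even hd hev h τ hτ.1 hτ.2.1 hτ.2.2
      exact ⟨τ', ⟨h1, h2, h3⟩, h4⟩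
    · have hd5 : 5 ≤ d := by
        obtain ⟨c, hc⟩ := hodd; omega
      obtain ⟨τ', h1, h2, h3, h4⟩ := D_step_odd hd5 hodd h τ hτ.1 hτ.2.1 hτ.2.2
      exact ⟨τ', ⟨h1, h2, h3⟩, h4⟩
  choose! F hF1 hF2 using hstep
  let s : ℕ → (Fin 3 → FMap 2) := fun j => Nat.rec ss (fun j x => F (4 + j) x) j
  have hs1 : ∀ j, P (4 + j) (s j) := by
    intro j
    induction j with
    | zero => exact h0
    | succ j ih => exact hF1 (4 + j) (by omega) (s j) ih
  have hs2 : ∀ j k, EqM (3 + j) (s (j + 1) k) (s j k) := by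
    intro j k
    have := hF2 (4 + j) (by omega) (s j) (hs1 j) k
    rwa [show 4 + j - 1 = 3 + j by omega] at this
  have hlim := fun k => exists_limit (fun d => s (d - 3) k) 3 (by
    intro d hd
    obtain ⟨j, rfl⟩ : ∃ j, d = 3 + j := ⟨d - 3, by omega⟩
    have e1 : 3 + j + 1 - 3 = j + 1 := by omega
    have e2 : 3 + j - 3 = j := by omega
    simp only [e1, e2]
    exact hs2 j k)
  choose τ hτ using hlim
  have hτj : ∀ j k, EqM (3 + j) (τ k) (s j k) := by
    intro j k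
    have := hτ k (3 + j) (by omega)
    rwa [show 3 + j - 3 = j by omega] at this
  refine ⟨τ, fun k => ?_, ?_⟩
  · apply eq_of_EqM
    intro d
    have h1 := (hτj d k).mul (hτj d k)
    rw [(hs1 d).1 k] at h1
    exact h1.mono (by omega)
  · apply eq_of_EqM
    intro d
    have h1 := (((hτj d 0).mul (hτj d 1)).mul (hτj d 2)).mono (show d ≤ 3 + d by omega)
    exact h1.trans ((hs1 d).2.2.mono (by omega))

theorem D_case (f : FMap 2) (hf : lin f = 1) (h4 : OV 4 (nl f)) : I4 f := by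
  have hN : linMap (Dg (-1) (-1)) * linMap (Dg (-1) (-1)) = (1 : FMap 2) := by
    rw [← linMap_mul, Dneg_mul, linMap_one]
  have hf1 : EqM 4 1 f := by
    intro i
    have := (h4 i).neg
    have e : -nl f i = (1 : FMap 2).toFun i - f.toFun i := by
      show -(f.toFun i - X i) = X i - f.toFun i
      ring
    rwa [e] at this
  have h1 := (EqM.refl 4 (linMap (Dg (-1) (-1)))).mul hf1
  rw [mul_one] at h1
  exact I4_of_three hN (by rw [← mul_assoc, hN, one_mul]) (D_lift _ h1)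

end Pool.Agent.RevMaps
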