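import Mathlib
import Pool.Agent.RevMaps.TwoMoebius

/-!
Two variables: scalar linear part of order four.
-/

namespace Pool.Agent.RevMaps

open MvPowerSeries

theorem OV.zero' {n : ℕ} (k : ℕ) : OV k (0 : V n) := fun _ => O_of_zero k

theorem sb_zero {n : ℕ} (g : FMap n) : sb g (0 : V n) = 0 := by
  have := sb_smul g 0 0
  simpa using this

theorem sharp_mul {n e : ℕ} (c c' : V n) (hc1 : OV 1 c) (hc : OV e c)
    (hc1' : OV 1 c') (hc' : OV e c') (h : OV 1 (c + c')) {j : ℕ} (hj : j + 1 ≤ e + e) :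
    EqM j (oneAdd c hc1 * oneAdd c' hc1') (oneAdd (c + c') h) := by
  intro i
  rw [oneAdd_mul]
  have e1 : O j ((c i).subst (oneAdd c' hc1').toFun - (c i).subst (1 : FMap n).toFun) := by
    apply O_subst_sub (hc i) (oneAdd c' hc1').O1 (1 : FMap n).O1 (d := e) _ hj
    intro i
    show O e (X i + c' i - X i)
    rw [add_sub_cancel_left]; exact hc' i
  have e2 : (c i).subst (1 : FMap n).toFun = c i := by
    have := congrFun (sb_one c) i
    exact this
  rw [e2] at e1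
  show O j (X i + c' i + (c i).subst (oneAdd c' hc1').toFun - (X i + (c i + c' i)))
  have : X i + c' i + (c i).subst (oneAdd c' hc1').toFun - (X i + (c i + c' i)) =
    (c i).subst (oneAdd c' hc1').toFun - c i := by ring
  rwa [this]

/-- the crucial second order computation -/
theorem vi_pair {d : ℕ} (hd : 5 ≤ d) (P τ : FMap 2) (ρ μ : ℂ)
    (hμ : μ * ρ ^ (d - 1) = ρ * (μ - 2))
    (hP : EqM 4 P (linMap (Dg ρ ρ)))
    (hq : OV 3 (nl (linMap (Dg (-1) (-1)) * τ) - (-1 : ℂ) • mx 2 0))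
    (a : V 2) (ha1 : OV 1 a) (ha : OV (d - 1) a)
    (haN : sb (linMap (Dg (-1) (-1))) a = a)
    (haR : sb (linMap (Dg ρ ρ)) a = ρ ^ (d - 1) • a)
    (hm1 : OV 1 (μ • a))
    (u u1 : (FMap 2)ˣ) (hu : (u : FMap 2) = oneAdd a ha1) (hu1 : (u1 : FMap 2) = oneAdd (μ • a) hm1)
    (i : Fin 2) :
    O (d + 1) ((((u1 : FMap 2) * P * ((u1⁻¹ : (FMap 2)ˣ) : FMap 2)) *
      ((u : FMap 2) * τ * ((u⁻¹ : (FMap 2)ˣ) : FMap 2))).toFun i -
      ((P * τ).toFun i + ρ • br a (mx 2 0) i)) := by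
  set N : FMap 2 := linMap (Dg (-1) (-1)) with hN
  have hNN : N * N = 1 := by rw [hN, ← linMap_mul, Dneg_mul, linMap_one]
  set q : V 2 := nl (N * τ) with hqdef
  have hτq : τ = N * oneAdd q (OV_nl_one _) := by
    rw [← eq_oneAdd_nl, ← mul_assoc, hNN, one_mul]
  -- sharp facts
  have h2a : OV (d - 1) ((-2 : ℂ) • a) := ha.smul _
  have h2a1 : OV 1 ((-2 : ℂ) • a) := ha1.smul _
  have hna : OV (d - 1) ((-1 : ℂ) • a) := ha.smul _
  have hna1 : OV 1 ((-1 : ℂ) • a) := ha1.smul _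
  have hma : OV (d - 1) (μ • a) := ha.smul _
  have hs : (-2 : ℂ) • a + μ • a = (μ - 2) • a := by rw [← add_smul]; congr 1; ring
  have hs2 : (-2 : ℂ) • a + a = (-1 : ℂ) • a := by
    have : (-2 : ℂ) • a + (1 : ℂ) • a = (-1 : ℂ) • a := by rw [← add_smul]; congr 1; norm_num
    rwa [one_smul] at this
  -- (i)
  have A1 : EqM (d + 1) ((u1 : FMap 2) * P) (P * oneAdd ((-2 : ℂ) • a) h2a1 * u1) := by
    have s1 := sharp_mul ((-2 : ℂ) • a) (μ • a) h2a1 h2a hm1 hma (h2a1.add hm1)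
      (j := d + 1) (by omega)
    rw [← hu1] at s1
    have s2 := (EqM.refl (d + 1) P).mul s1
    rw [← mul_assoc] at s2
    refine EqM.trans ?_ s2.symm
    intro i
    rw [hu1, oneAdd_mul]
    -- left
    have l1 : O (d + 1) (((μ • a) i).subst P.toFun - ((μ • a) i).subst (linMap (Dg ρ ρ)).toFun) :=
      O_subst_sub (hma i) P.O1 (linMap (Dg ρ ρ)).O1 hP (by omega)
    have l2 : ((μ • a) i).subst (linMap (Dg ρ ρ)).toFun = (μ * ρ ^ (d - 1)) • a i := by
      have h := congrFun haR i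
      have h2 : (a i).subst (linMap (Dg ρ ρ)).toFun = ρ ^ (d - 1) • a i := h
      rw [Pi.smul_apply, subst_smulC, h2, smul_smul]
    rw [l2] at l1
    -- right
    set c : V 2 := (-2 : ℂ) • a + μ • a with hc
    have hcO : OV (d - 1) c := h2a.add hma
    set p : PS 2 := P.toFun i - (linMap (Dg ρ ρ)).toFun i with hp
    have r1 : O (d + 1) (p.subst (oneAdd c (h2a1.add hm1)).toFun - p.subst (1 : FMap 2).toFun) := by
      apply O_subst_sub (hP i) (oneAdd c (h2a1.add hm1)).O1 (1 : FMap 2).O1 (d := d - 1) _ (by omega)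
      intro i
      show O (d - 1) (X i + c i - X i)
      rw [add_sub_cancel_left]; exact hcO i
    have r2 : p.subst (1 : FMap 2).toFun = p := by
      have := congrFun (sb_one (fun _ : Fin 2 => p)) i
      exact this
    have r3 : p.subst (oneAdd c (h2a1.add hm1)).toFun =
        (P * oneAdd c (h2a1.add hm1)).toFun i -
          ((linMap (Dg ρ ρ)).toFun i + mv (Dg ρ ρ) c i) := by
      rw [hp, subst_subC]
      have h1 : ((linMap (Dg ρ ρ)).toFun i).subst (oneAdd c (h2a1.add hm1)).toFun =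
        (linMap (Dg ρ ρ) * oneAdd c (h2a1.add hm1)).toFun i := rfl
      rw [h1, linMap_mul_toFun]
      have h2 : (oneAdd c (h2a1.add hm1)).toFun = (fun i => X i) + c := rfl
      have h3 : mv (Dg ρ ρ) (oneAdd c (h2a1.add hm1)).toFun i =
          (linMap (Dg ρ ρ)).toFun i + mv (Dg ρ ρ) c i := by
        rw [h2, mv_add]; rfl
      rw [h3]; rfl
    rw [r2, r3] at r1
    have r4 : mv (Dg ρ ρ) c i = (ρ * (μ - 2)) • a i := by
      rw [hs, mul_smul]
      fin_cases i <;> simp [mv, Dg, Fin.sum_univ_two]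
    rw [r4] at r1
    rw [hμ] at l1
    have h3 := l1.sub r1
    convert h3 using 1
    show P.toFun i + ((μ • a) i).subst P.toFun - (P * oneAdd c (h2a1.add hm1)).toFun i = _
    rw [hp]
    ring
  have A2 : EqM (d + 1) ((u1 : FMap 2) * P * ((u1⁻¹ : (FMap 2)ˣ) : FMap 2))
      (P * oneAdd ((-2 : ℂ) • a) h2a1) := by
    have h := A1.mul (EqM.refl (d + 1) ((u1⁻¹ : (FMap 2)ˣ) : FMap 2))
    rwa [mul_assoc (P * oneAdd ((-2 : ℂ) • a) h2a1), u1.mul_inv, mul_one] at h
  -- (ii)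
  have A3 : EqM (d + 1) (oneAdd ((-2 : ℂ) • a) h2a1 * (u : FMap 2))
      (oneAdd ((-1 : ℂ) • a) hna1) := by
    have s1 := sharp_mul ((-2 : ℂ) • a) a h2a1 h2a ha1 ha (h2a1.add ha1)
      (j := d + 1) (by omega)
    rw [← hu] at s1
    refine s1.trans ?_
    intro i
    show O (d + 1) (X i + ((-2 : ℂ) • a + a) i - (X i + ((-1 : ℂ) • a) i))
    rw [hs2, sub_self]; exact O_of_zero _
  -- (iii)
  have A4 : oneAdd ((-1 : ℂ) • a) hna1 * N = N * u := by
    apply FMap.ext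
    intro i
    rw [oneAdd_mul, neg_mul_toFun, sb_smul, haN, hu, hN, neg_lin]
    have h1 : (mk2 (-X 0) (-X 1) (O_X 0).neg (O_X 1).neg).toFun i = -X i := by
      fin_cases i <;> rfl
    rw [h1]
    show -X i + ((-1 : ℂ) • a) i = -(X i + a i)
    rw [Pi.smul_apply, neg_smul, one_smul]; ring
  -- assemble
  have B1 : EqM (d + 1) (((u1 : FMap 2) * P * ((u1⁻¹ : (FMap 2)ˣ) : FMap 2)) *
      ((u : FMap 2) * τ * ((u⁻¹ : (FMap 2)ˣ) : FMap 2)))
      (P * (N * ((u : FMap 2) * oneAdd q (OV_nl_one _) * ((u⁻¹ : (FMap 2)ˣ) : FMap 2)))) := by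
    have h1 := A2.mul (EqM.refl (d + 1) ((u : FMap 2) * τ * ((u⁻¹ : (FMap 2)ˣ) : FMap 2)))
    have h2 := ((EqM.refl (d + 1) P).mul A3).mul
      (EqM.refl (d + 1) (τ * ((u⁻¹ : (FMap 2)ˣ) : FMap 2)))
    have e1 : P * oneAdd ((-2 : ℂ) • a) h2a1 * ((u : FMap 2) * τ * ((u⁻¹ : (FMap 2)ˣ) : FMap 2)) =
        P * (oneAdd ((-2 : ℂ) • a) h2a1 * u) * (τ * ((u⁻¹ : (FMap 2)ˣ) : FMap 2)) := by
      simp only [mul_assoc]
    have e2 : P * oneAdd ((-1 : ℂ) • a) hna1 * (τ * ((u⁻¹ : (FMap 2)ˣ) : FMap 2)) =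
        P * (N * ((u : FMap 2) * oneAdd q (OV_nl_one _) * ((u⁻¹ : (FMap 2)ˣ) : FMap 2))) := by
      conv_lhs => rw [hτq]
      calc P * oneAdd ((-1 : ℂ) • a) hna1 * (N * oneAdd q (OV_nl_one _) *
            ((u⁻¹ : (FMap 2)ˣ) : FMap 2))
          = P * (oneAdd ((-1 : ℂ) • a) hna1 * N) * oneAdd q (OV_nl_one _) *
            ((u⁻¹ : (FMap 2)ˣ) : FMap 2) := by simp only [mul_assoc]
        _ = _ := by rw [A4]; simp only [mul_assoc]
    rw [e1] at h1
    rw [e2] at h2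
    exact h1.trans h2
  have hQ2 : OV 2 q := by
    have h := (hq.mono (by norm_num : 2 ≤ 3)).add (((OV_mx 2 0).smul (-1 : ℂ)).mono
      (by norm_num : 2 ≤ 2 + 0))
    rwa [sub_add_cancel] at h
  have hbr : OV d (br a q) := OV_br ha hQ2 (by omega)
  have hbr1 : OV 1 (br a q) := hbr.mono (by omega)
  have B2 := conj_oneAdd (e := d - 1) (m := 2) (by omega) le_rfl u a q ha1 (OV_nl_one _) ha hQ2 hu
    ((OV_nl_one _).add hbr1)
  rw [show d - 1 + 2 = d + 1 by omega] at B2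
  have B3 := B1.trans ((EqM.refl (d + 1) P).mul ((EqM.refl (d + 1) N).mul B2))
  have hnbr1 : OV 1 ((-1 : ℂ) • br a q) := hbr1.smul _
  have B4 : N * oneAdd (q + br a q) ((OV_nl_one _).add hbr1) = addT τ ((-1 : ℂ) • br a q) hnbr1 := by
    apply FMap.ext
    intro i
    rw [neg_mul_toFun]
    show -(X i + (q i + br a q i)) = τ.toFun i + ((-1 : ℂ) • br a q) i
    have h1 : q i = -τ.toFun i - X i := by
      show (N * τ).toFun i - X i = _
      rw [neg_mul_toFun]
    rw [h1, Pi.smul_apply, neg_smul, one_smul]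
    ring
  rw [B4] at B3
  have B5 := mul_addT P τ ((-1 : ℂ) • br a q) hnbr1 (hbr.smul _) i
  have hlP : lin P = Dg ρ ρ := by rw [hP.lin_eq (by norm_num), lin_linMap]
  have B6 : O (d + 1) (br a (q - (-1 : ℂ) • mx 2 0) i) := OV_br ha hq (by omega) i
  rw [br_sub_right, br_smul_right] at B6
  have B7 : mv (lin P) ((-1 : ℂ) • br a q) i = -(ρ • br a q i) := by
    rw [hlP]
    fin_cases i <;> simp [mv, Dg, Fin.sum_univ_two]
  rw [B7] at B5
  have B8 := ((B3 i).add B5).sub (B6.smul ρ)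
  convert B8 using 1
  simp only [Pi.sub_apply, Pi.neg_apply, smul_sub, neg_smul, one_smul, smul_neg]
  ring

/-- the linear quadruple with product `lam` -/
noncomputable def TS (lam : ℂ) : Fin 4 → Matrix (Fin 2) (Fin 2) ℂ :=
  ![Dg 1 (-1), JJ, lam • (Dg 1 (-1) * JJ), Dg (-1) (-1)]

theorem DJ_sq : (Dg 1 (-1) * JJ) * (Dg 1 (-1) * JJ) = Dg (-1) (-1) := by
  ext i j
  fin_cases i <;> fin_cases j <;>
    simp [Dg, JJ, Matrix.mul_apply, Fin.sum_univ_two]

theorem smul_Dg (c s t : ℂ) : c • Dg s t = Dg (c * s) (c * t) := by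
  ext i j
  fin_cases i <;> fin_cases j <;> simp [Dg]

theorem TS_sq {lam : ℂ} (hl : lam * lam = -1) : ∀ k, TS lam k * TS lam k = 1 := by
  intro k
  fin_cases k
  · show Dg 1 (-1) * Dg 1 (-1) = 1
    rw [Dg_mul]; norm_num [Dg_one]
  · exact JJ_mul_JJ
  · show (lam • (Dg 1 (-1) * JJ)) * (lam • (Dg 1 (-1) * JJ)) = 1
    rw [smul_mul_smul_comm, hl, DJ_sq, smul_Dg]
    norm_num [Dg_one]
  · exact Dneg_mul

theorem TS_012 (lam : ℂ) : TS lam 0 * TS lam 1 * TS lam 2 = Dg (-lam) (-lam) := by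
  show Dg 1 (-1) * JJ * (lam • (Dg 1 (-1) * JJ)) = _
  rw [mul_smul_comm, DJ_sq, smul_Dg]
  simp

theorem TS_prod (lam : ℂ) : TS lam 0 * TS lam 1 * TS lam 2 * TS lam 3 = Dg lam lam := by
  rw [TS_012]
  show Dg (-lam) (-lam) * Dg (-1) (-1) = _
  rw [Dg_mul]; simp

theorem TS_inv {lam : ℂ} (hl : lam * lam = -1) :
    TS lam 3 * TS lam 2 * TS lam 1 * TS lam 0 = Dg (-lam) (-lam) := by
  have h1 : TS lam 3 * TS lam 2 * TS lam 1 * TS lam 0 * Dg lam lam = 1 := by
    rw [← TS_prod]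
    calc TS lam 3 * TS lam 2 * TS lam 1 * TS lam 0 * (TS lam 0 * TS lam 1 * TS lam 2 * TS lam 3)
        = TS lam 3 * (TS lam 2 * (TS lam 1 * (TS lam 0 * TS lam 0) * TS lam 1) * TS lam 2) *
          TS lam 3 := by simp only [mul_assoc]
      _ = 1 := by simp [TS_sq hl]
  have h2 : Dg lam lam * Dg (-lam) (-lam) = 1 := by
    rw [Dg_mul, mul_neg, hl, neg_neg, Dg_one]
  calc TS lam 3 * TS lam 2 * TS lam 1 * TS lam 0
      = TS lam 3 * TS lam 2 * TS lam 1 * TS lam 0 * (Dg lam lam * Dg (-lam) (-lam)) := by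
        rw [h2, mul_one]
    _ = Dg (-lam) (-lam) := by rw [← mul_assoc, h1, one_mul]

/-- surjectivity in odd degree -/
theorem vi_surj {d : ℕ} (hd5 : 5 ≤ d) (hd : Odd d) {lam : ℂ} (hl : lam * lam = -1) (r : V 2)
    (hr : OV d r) : ∃ a : V 2, OV (d - 1) a ∧ sb (linMap (Dg (-1) (-1))) a = a ∧
      sb (linMap (Dg (-lam) (-lam))) a = (-lam) ^ (d - 1) • a ∧
      r - br a (mx 2 0) ∈ ZZ (TS lam) d := by
  set Z := ZZ (TS lam) d with hZ
  have hZO : ∀ a : V 2, OV (d + 1) a → a ∈ Z := fun a ha => ZZ_of_OV _ _ ha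
  have g0 : Good Z d (Dg 1 (-1)) (Dg 1 (-1)) := good_T (TS lam) (TS_sq hl) d 0
  have g1 : Good Z d JJ JJ := good_T (TS lam) (TS_sq hl) d 1
  have hev : Even (d - 1) := by
    obtain ⟨c, hc⟩ := hd
    exact ⟨c, by omega⟩
  let W : Submodule ℂ (V 2) :=
    { carrier := {r | ∃ a : V 2, OV (d - 1) a ∧ sb (linMap (Dg (-1) (-1))) a = a ∧
        sb (linMap (Dg (-lam) (-lam))) a = (-lam) ^ (d - 1) • a ∧
        r - br a (mx 2 0) ∈ Z}
      add_mem' := by
        rintro x y ⟨a, h1, h2, h3, h4⟩ ⟨b, k1, k2, k3, k4⟩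
        refine ⟨a + b, h1.add k1, by rw [sb_add, h2, k2], by rw [sb_add, h3, k3, smul_add], ?_⟩
        have h5 := Z.add_mem h4 k4
        rw [br_add_left]
        convert h5 using 1
        abel
      zero_mem' := ⟨0, OV.zero' _, sb_zero _, by rw [sb_zero, smul_zero], by
        rw [br_zero_left, sub_zero]; exact Z.zero_mem⟩
      smul_mem' := by
        rintro c x ⟨a, h1, h2, h3, h4⟩
        refine ⟨c • a, h1.smul c, by rw [sb_smul, h2], by rw [sb_smul, h3, smul_comm], ?_⟩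
        rw [br_smul_left, ← smul_sub]
        exact Z.smul_mem c h4 }
  have hZW : ∀ w, w ∈ Z → w ∈ W := by
    intro w hw
    refine ⟨0, OV.zero' _, sb_zero _, by rw [sb_zero, smul_zero], ?_⟩
    rw [br_zero_left, sub_zero]; exact hw
  -- monomials of degree `d - 1`
  have hsb : ∀ (c : ℂ) (x y : ℕ) (v : Fin 2 → ℂ), x + y = d - 1 →
      sb (linMap (Dg c c)) (tens (mono x y) v) = c ^ (d - 1) • tens (mono x y) v := by
    intro c x y v hxy
    funext i
    show (v i • mono x y).subst (linMap (Dg c c)).toFun = c ^ (d - 1) • (v i • mono x y)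
    rw [subst_smulC, mono_subst_Dg, ← pow_add, hxy, smul_comm]
  have hB : ∀ (x y : ℕ) (v : Fin 2 → ℂ) (w : V 2) (c : ℂ), x + y = d - 1 → c ≠ 0 →
      br (tens (mono x y) v) (mx 2 0) = c • w → w ∈ W := by
    intro x y v w c hxy hc h
    refine ⟨c⁻¹ • tens (mono x y) v, ((OV_tens (O_mono x y) v).mono (by omega)).smul _, ?_, ?_, ?_⟩
    · rw [sb_smul, hsb _ _ _ _ hxy, hev.neg_one_pow, one_smul]
    · rw [sb_smul, hsb _ _ _ _ hxy, smul_comm]
    · rw [br_smul_left, h, smul_smul, inv_mul_cancel₀ hc, one_smul, sub_self]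
      exact Z.zero_mem
  -- killed monomials
  have kx : ∀ p r : ℕ, p + r = d → Odd r → mx p r ∈ Z := by
    intro p r hpr hr
    have h := g0.2.2 (mx p r) ((OV_mx p r).mono (by omega))
    rw [act_Dg_mx, hr.neg_one_pow] at h
    have e : mx p r - ((1 : ℂ) * (1 ^ p * -1)) • mx p r = (2 : ℂ) • mx p r := by
      rw [two_smul]; simp
    rw [e] at h
    exact (Z.smul_mem_iff two_ne_zero).mp h
  have ky : ∀ p r : ℕ, p + r = d → Even r → my p r ∈ Z := by
    intro p r hpr hr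
    have h := g0.2.2 (my p r) ((OV_my p r).mono (by omega))
    rw [act_Dg_my, hr.neg_one_pow] at h
    have e : my p r - ((-1 : ℂ) * (1 ^ p * 1)) • my p r = (2 : ℂ) • my p r := by
      rw [two_smul]; simp
    rw [e] at h
    exact (Z.smul_mem_iff two_ne_zero).mp h
  -- swap
  have sw : ∀ p r : ℕ, p + r = d → mx p r - my r p ∈ Z := by
    intro p r hpr
    have h := g1.2.2 (mx p r) ((OV_mx p r).mono (by omega))
    rwa [act_JJ_mx] at h
  -- all mx
  have hmx : ∀ p r : ℕ, p + r = d → mx p r ∈ W := by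
    intro p r hpr
    rcases Nat.even_or_odd r with hr | hr
    · by_cases hp3 : p = 3
      · -- use my
        obtain ⟨j, rfl⟩ : ∃ j, r = j + 2 := ⟨r - 2, by omega⟩
        subst hp3
        have h1 : my (j + 2) 3 ∈ W := by
          refine hB (j + 1) 3 (Pi.single 1 1) _ ((j : ℂ) + 1) (by omega)
            (by exact_mod_cast Nat.succ_ne_zero j) ?_
          have h2 := br_my_mx (j + 1) 3 2 0
          rw [my] at h2
          rw [h2, show j + 1 - 1 + 2 = j + 2 by omega]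
          simp
        have h2 := hZW _ (sw 3 (j + 2) hpr)
        have h3 := W.add_mem h2 h1
        rwa [sub_add_cancel] at h3
      · have hp1 : 1 ≤ p := by
          rcases hd with ⟨c, hc⟩
          rcases hr with ⟨c', hc'⟩
          omega
        obtain ⟨j, rfl⟩ : ∃ j, p = j + 1 := ⟨p - 1, by omega⟩
        have hne : ((j : ℂ) - 2) ≠ 0 := by
          intro h
          apply hp3
          have h2 : (j : ℂ) = 2 := sub_eq_zero.mp h
          have h3 : j = 2 := by exact_mod_cast h2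
          omega
        refine hB j r (Pi.single 0 1) _ ((j : ℂ) - 2) (by omega) hne ?_
        have h2 := br_mx_mx j r 2 0
        rw [mx] at h2
        rw [h2]
        rcases j with _ | j
        · simp
        · rw [show j + 1 - 1 + 2 = j + 1 + 1 by omega, show 2 - 1 + (j + 1) = j + 1 + 1 by omega,
            add_zero, zero_add, ← sub_smul]
          congr 1
    · exact hZW _ (kx p r hpr hr)
  have hmy : ∀ p r : ℕ, p + r = d → my p r ∈ W := by
    intro p r hpr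
    have h1 := hmx r p (by omega)
    have h2 := hZW _ (sw r p (by omega))
    have h3 := W.sub_mem h1 h2
    rwa [sub_sub_cancel] at h3
  exact le_of_tuples W d hmx hmy (fun q hq => hZW _ (hZO q hq)) r hr

/-- state of the recursion -/
def VS (lam : ℂ) (f : FMap 2) (d : ℕ) (τ : Fin 4 → FMap 2) : Prop :=
  (∀ k, τ k * τ k = 1) ∧ (∀ k, lin (τ k) = TS lam k) ∧
  EqM 4 (τ 0 * τ 1 * τ 2) (linMap (Dg (-lam) (-lam))) ∧ EqM 3 (τ 3) s0 ∧
  EqM d (τ 0 * τ 1 * τ 2 * τ 3) f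

/-- correction of the remaining error by the linear lifting step -/
theorem VS_finish {d : ℕ} (hd5 : 5 ≤ d) {lam : ℂ} (hl : lam * lam = -1) (f : FMap 2)
    (τ : Fin 4 → FMap 2) (h : VS lam f d τ)
    (he : (fun i => f.toFun i - (τ 0 * τ 1 * τ 2 * τ 3).toFun i) ∈ ZZ (TS lam) d) :
    ∃ τ', VS lam f (d + 1) τ' ∧ ∀ k, EqM d (τ' k) (τ k) := by
  obtain ⟨hτ, hlin, h4, h3, hp⟩ := h
  have hs : sb (linMap (TS lam 3 * TS lam 2 * TS lam 1 * TS lam 0))
      (fun i => f.toFun i - (τ 0 * τ 1 * τ 2 * τ 3).toFun i) ∈ ZZ (TS lam) d := by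
    set e : V 2 := fun i => f.toFun i - (τ 0 * τ 1 * τ 2 * τ 3).toFun i with hedef
    have heO : OV d e := fun i => (hp i).symm_sub
    rw [TS_inv hl]
    have h1 : OV (d + 1) (sb (linMap (Dg (-lam) (-lam))) e - (-lam) ^ d • e) :=
      fun i => O_subst_scal (heO i) (-lam)
    have h2 := (ZZ (TS lam) d).add_mem (ZZ_of_OV _ _ h1)
      ((ZZ (TS lam) d).smul_mem ((-lam) ^ d) he)
    rwa [sub_add_cancel] at h2
  obtain ⟨τ', h1, h2, h5, h6⟩ := lift_step_at (by omega : 2 ≤ d) (TS lam) (TS_sq hl) f τ hτ hlin hp hs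
  refine ⟨τ', ⟨h1, h2, ?_, ?_, h5⟩, h6⟩
  · exact ((((h6 0).mul (h6 1)).mul (h6 2)).mono (by omega)).trans h4
  · exact ((h6 3).mono (by omega)).trans h3

theorem VS_even {d : ℕ} (hd5 : 5 ≤ d) (hd : Even d) {lam : ℂ} (hl : lam * lam = -1) (f : FMap 2)
    (τ : Fin 4 → FMap 2) (h : VS lam f d τ) :
    ∃ τ', VS lam f (d + 1) τ' ∧ ∀ k, EqM (d - 1) (τ' k) (τ k) := by
  have he : (fun i => f.toFun i - (τ 0 * τ 1 * τ 2 * τ 3).toFun i) ∈ ZZ (TS lam) d := by
    set e : V 2 := fun i => f.toFun i - (τ 0 * τ 1 * τ 2 * τ 3).toFun i with hedef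
    have heO : OV d e := fun i => (h.2.2.2.2 i).symm_sub
    have g3 : Good (ZZ (TS lam) d) d (Dg (-1) (-1)) (Dg (-1) (-1)) :=
      good_T (TS lam) (TS_sq hl) d 3
    have h1 := g3.2.2 e heO
    have h2 : OV (d + 1) (act (Dg (-1) (-1)) (Dg (-1) (-1)) e + e) := by
      intro i
      have h3 := (sb_neg_even hd (linMap (Dg (-1) (-1))) (lin_linMap _) heO i).neg
      have e1 : -(sb (linMap (Dg (-1) (-1))) e i - e i) =
          (act (Dg (-1) (-1)) (Dg (-1) (-1)) e + e) i := by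
        show _ = mv (Dg (-1) (-1)) (sb (linMap (Dg (-1) (-1))) e) i + e i
        rw [mv_neg]; ring
      rwa [e1] at h3
    have h3 := (ZZ (TS lam) d).add_mem h1 (ZZ_of_OV _ _ h2)
    have e2 : e - act (Dg (-1) (-1)) (Dg (-1) (-1)) e +
        (act (Dg (-1) (-1)) (Dg (-1) (-1)) e + e) = (2 : ℂ) • e := by
      rw [two_smul]; abel
    rw [e2] at h3
    exact ((ZZ (TS lam) d).smul_mem_iff two_ne_zero).mp h3
  obtain ⟨τ', h1, h2⟩ := VS_finish hd5 hl f τ h he
  exact ⟨τ', h1, fun k => (h2 k).mono (by omega)⟩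

theorem VS_odd {d : ℕ} (hd5 : 5 ≤ d) (hd : Odd d) {lam : ℂ} (hl : lam * lam = -1) (f : FMap 2)
    (τ : Fin 4 → FMap 2) (h : VS lam f d τ) :
    ∃ τ', VS lam f (d + 1) τ' ∧ ∀ k, EqM (d - 1) (τ' k) (τ k) := by
  obtain ⟨hτ, hlin, h4, h3, hp⟩ := h
  set ρ : ℂ := -lam with hρ
  have hρ2 : ρ * ρ = -1 := by rw [hρ, neg_mul_neg, hl]
  have hρ0 : ρ ≠ 0 := by
    intro h; rw [h] at hρ2; norm_num at hρ2
  obtain ⟨c, hc⟩ := hd
  have hpow : ρ ^ (d - 1) = (-1) ^ c := by
    rw [show d - 1 = 2 * c by omega, pow_mul, sq, hρ2]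
  have hne : ρ ^ (d - 1) - ρ ≠ 0 := by
    rw [hpow]
    intro h
    have h1 : ρ = (-1) ^ c := by linear_combination -h
    rw [h1, ← pow_add, ← two_mul, pow_mul] at hρ2
    norm_num at hρ2
  set μ : ℂ := -2 * ρ / (ρ ^ (d - 1) - ρ) with hμdef
  have hμ : μ * ρ ^ (d - 1) = ρ * (μ - 2) := by
    have : μ * (ρ ^ (d - 1) - ρ) = -2 * ρ := div_mul_cancel₀ _ hne
    linear_combination this
  set e : V 2 := fun i => f.toFun i - (τ 0 * τ 1 * τ 2 * τ 3).toFun i with he
  have heO : OV d e := fun i => (hp i).symm_sub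
  obtain ⟨a, ha, haN, haR, hfin⟩ := vi_surj hd5 ⟨c, hc⟩ hl (ρ⁻¹ • e) (heO.smul _)
  have ha1 : OV 1 a := ha.mono (by omega)
  have hm1 : OV 1 (μ • a) := ha1.smul _
  have hma : OV (d - 1) (μ • a) := ha.smul _
  obtain ⟨u, hu⟩ := isUnit_oneAdd (d := d - 1) (by omega) a ha1 ha
  obtain ⟨u1, hu1⟩ := isUnit_oneAdd (d := d - 1) (by omega) (μ • a) hm1 hma
  set τ' : Fin 4 → FMap 2 := ![(u1 : FMap 2) * τ 0 * ((u1⁻¹ : (FMap 2)ˣ) : FMap 2),
    (u1 : FMap 2) * τ 1 * ((u1⁻¹ : (FMap 2)ˣ) : FMap 2),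
    (u1 : FMap 2) * τ 2 * ((u1⁻¹ : (FMap 2)ˣ) : FMap 2),
    (u : FMap 2) * τ 3 * ((u⁻¹ : (FMap 2)ˣ) : FMap 2)] with hτ'
  have hclose : ∀ k, EqM (d - 1) (τ' k) (τ k) := by
    intro k
    fin_cases k
    · exact conj_EqM u1 (μ • a) hm1 hma hu1 _
    · exact conj_EqM u1 (μ • a) hm1 hma hu1 _
    · exact conj_EqM u1 (μ • a) hm1 hma hu1 _
    · exact conj_EqM u a ha1 ha hu _
  have hsq : ∀ k, τ' k * τ' k = 1 := by
    intro k
    fin_cases k
    · exact conj_sq u1 (hτ 0)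
    · exact conj_sq u1 (hτ 1)
    · exact conj_sq u1 (hτ 2)
    · exact conj_sq u (hτ 3)
  have h012 : τ' 0 * τ' 1 * τ' 2 =
      (u1 : FMap 2) * (τ 0 * τ 1 * τ 2) * ((u1⁻¹ : (FMap 2)ˣ) : FMap 2) := by
    show ((u1 : FMap 2) * τ 0 * ((u1⁻¹ : (FMap 2)ˣ) : FMap 2)) *
      ((u1 : FMap 2) * τ 1 * ((u1⁻¹ : (FMap 2)ˣ) : FMap 2)) *
      ((u1 : FMap 2) * τ 2 * ((u1⁻¹ : (FMap 2)ˣ) : FMap 2)) = _
    rw [conj_mul, conj_mul]
  have hq : OV 3 (nl (linMap (Dg (-1) (-1)) * τ 3) - (-1 : ℂ) • mx 2 0) := by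
    have h1 := nl_EqM ((EqM.refl 3 (linMap (Dg (-1) (-1)))).mul h3)
    have h2 := h1.add nl_Ns0
    rwa [sub_add_sub_cancel] at h2
  have key := vi_pair hd5 (τ 0 * τ 1 * τ 2) (τ 3) ρ μ hμ h4 hq a ha1 ha haN haR hm1 u u1 hu hu1
  have hprod : τ' 0 * τ' 1 * τ' 2 * τ' 3 =
      ((u1 : FMap 2) * (τ 0 * τ 1 * τ 2) * ((u1⁻¹ : (FMap 2)ˣ) : FMap 2)) *
      ((u : FMap 2) * τ 3 * ((u⁻¹ : (FMap 2)ˣ) : FMap 2)) := by
    rw [h012]; rfl
  rw [← hprod] at key
  have hbr : OV d (br a (mx 2 0)) := OV_br ha (OV_mx 2 0) (by omega)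
  have hVS : VS lam f d τ' := by
    refine ⟨hsq, ?_, ?_, ?_, ?_⟩
    · intro k
      rw [(hclose k).lin_eq (by omega), hlin k]
    · exact ((((hclose 0).mul (hclose 1)).mul (hclose 2)).mono (by omega)).trans h4
    · exact ((hclose 3).mono (by omega)).trans h3
    · intro i
      have h1 := ((key i).mono (by omega : d ≤ d + 1)).add (((hbr i).smul ρ).sub (heO i))
      convert h1 using 1
      simp only [he]
      ring
  have hmem : (fun i => f.toFun i - (τ' 0 * τ' 1 * τ' 2 * τ' 3).toFun i) ∈ ZZ (TS lam) d := by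
    set k : V 2 := fun i => (τ' 0 * τ' 1 * τ' 2 * τ' 3).toFun i -
      ((τ 0 * τ 1 * τ 2 * τ 3).toFun i + ρ • br a (mx 2 0) i) with hk
    have hkO : OV (d + 1) k := key
    have e1 : (fun i => f.toFun i - (τ' 0 * τ' 1 * τ' 2 * τ' 3).toFun i) =
        ρ • (ρ⁻¹ • e - br a (mx 2 0)) - k := by
      funext i
      rw [smul_sub, smul_smul, mul_inv_cancel₀ hρ0, one_smul]
      simp only [Pi.sub_apply, Pi.smul_apply, he, hk]
      ring
    rw [e1]
    exact (ZZ (TS lam) d).sub_mem ((ZZ (TS lam) d).smul_mem ρ hfin) (ZZ_of_OV _ _ hkO)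
  obtain ⟨τ'', k1, k2⟩ := VS_finish hd5 hl f τ' hVS hmem
  exact ⟨τ'', k1, fun k => ((k2 k).mono (by omega)).trans (hclose k)⟩

/-- the limit -/
theorem VS_lift {lam : ℂ} (hl : lam * lam = -1) (f : FMap 2)
    (h : EqM 5 (linMap (Dg (-lam) (-lam)) * s0) f) : I4 f := by
  classical
  set τ0 : Fin 4 → FMap 2 := ![linMap (TS lam 0), linMap (TS lam 1), linMap (TS lam 2), s0] with hτ0
  have h0 : VS lam f 5 τ0 := by
    have h012 : τ0 0 * τ0 1 * τ0 2 = linMap (Dg (-lam) (-lam)) := by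
      show linMap (TS lam 0) * linMap (TS lam 1) * linMap (TS lam 2) = _
      rw [← linMap_mul, ← linMap_mul, TS_012]
    refine ⟨?_, ?_, ?_, ?_, ?_⟩
    · intro k
      fin_cases k
      · show linMap (TS lam 0) * linMap (TS lam 0) = 1
        rw [← linMap_mul, TS_sq hl, linMap_one]
      · show linMap (TS lam 1) * linMap (TS lam 1) = 1
        rw [← linMap_mul, TS_sq hl, linMap_one]
      · show linMap (TS lam 2) * linMap (TS lam 2) = 1
        rw [← linMap_mul, TS_sq hl, linMap_one]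
      · exact s0_sq
    · intro k
      fin_cases k
      · exact lin_linMap _
      · exact lin_linMap _
      · exact lin_linMap _
      · exact lin_s0
    · rw [h012]; exact EqM.refl _ _
    · exact EqM.refl _ _
    · rw [h012]; exact h
  have hstep : ∀ d, 5 ≤ d → ∀ τ, VS lam f d τ → ∃ τ', VS lam f (d + 1) τ' ∧
      ∀ k, EqM (d - 1) (τ' k) (τ k) := by
    intro d hd τ hτ
    rcases Nat.even_or_odd d with hev | hodd
    · exact VS_even hd hev hl f τ hτ
    · exact VS_odd hd hodd hl f τ hτ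
  choose! F hF1 hF2 using hstep
  let s : ℕ → (Fin 4 → FMap 2) := fun j => Nat.rec τ0 (fun j x => F (5 + j) x) j
  have hs1 : ∀ j, VS lam f (5 + j) (s j) := by
    intro j
    induction j with
    | zero => exact h0
    | succ j ih => exact hF1 (5 + j) (by omega) (s j) ih
  have hs2 : ∀ j k, EqM (4 + j) (s (j + 1) k) (s j k) := by
    intro j k
    have := hF2 (5 + j) (by omega) (s j) (hs1 j) k
    rwa [show 5 + j - 1 = 4 + j by omega] at this
  have hlim := fun k => exists_limit (fun d => s (d - 4) k) 4 (by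
    intro d hd
    obtain ⟨j, rfl⟩ : ∃ j, d = 4 + j := ⟨d - 4, by omega⟩
    have e1 : 4 + j + 1 - 4 = j + 1 := by omega
    have e2 : 4 + j - 4 = j := by omega
    simp only [e1, e2]
    exact hs2 j k)
  choose τ hτ using hlim
  have hτj : ∀ j k, EqM (4 + j) (τ k) (s j k) := by
    intro j k
    have := hτ k (4 + j) (by omega)
    rwa [show 4 + j - 4 = j by omega] at this
  refine ⟨τ, fun k => ?_, ?_⟩
  · apply eq_of_EqM
    intro d
    have h1 := (hτj d k).mul (hτj d k)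
    rw [(hs1 d).1 k] at h1
    exact h1.mono (by omega)
  · apply eq_of_EqM
    intro d
    have h1 := ((((hτj d 0).mul (hτj d 1)).mul (hτj d 2)).mul (hτj d 3)).mono
      (show d ≤ 4 + d by omega)
    exact h1.trans ((hs1 d).2.2.2.2.mono (by omega))

/-- one normalisation step -/
theorem normal_step {d : ℕ} (hd : 2 ≤ d) {lam : ℂ} (hne : lam ^ d - lam ≠ 0) (f g : FMap 2)
    (hg : lin g = Dg lam lam) (hfg : EqM d f g) :
    ∃ u : (FMap 2)ˣ, EqM (d + 1) ((u : FMap 2) * f * ((u⁻¹ : (FMap 2)ˣ) : FMap 2)) g := by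
  set e : V 2 := fun i => g.toFun i - f.toFun i with he
  have heO : OV d e := fun i => (hfg i).symm_sub
  set k : V 2 := (lam ^ d - lam)⁻¹ • e with hk
  have hkO : OV d k := heO.smul _
  have hk1 : OV 1 k := hkO.mono (by omega)
  obtain ⟨u, hu⟩ := isUnit_oneAdd hd k hk1 hkO
  refine ⟨u, ?_⟩
  have hf : lin f = Dg lam lam := by rw [hfg.lin_eq hd, hg]
  have h1 : EqM (d + 1) ((u : FMap 2) * f) (g * u) := by
    intro i
    rw [hu, oneAdd_mul]
    have a1 := sb_lin f k hkO i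
    rw [hf] at a1
    have a2 := O_subst_scal (hkO i) lam
    have a3 := mul_addT g 1 k hk1 hkO i
    rw [mul_one, hg] at a3
    have a4 : mv (Dg lam lam) k i = lam • k i := by
      fin_cases i <;> simp [mv, Dg, Fin.sum_univ_two]
    rw [a4] at a3
    have a5 : e i = (lam ^ d - lam) • k i := by
      rw [hk, Pi.smul_apply, smul_smul, mul_inv_cancel₀ hne, one_smul]
    rw [sub_smul] at a5
    have a6 := (a1.add a2).sub a3
    have e1 : sb (linMap (Dg lam lam)) k i = (k i).subst (linMap (Dg lam lam)).toFun := rfl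
    have e2 : g * oneAdd k hk1 = g * addT 1 k hk1 := rfl
    rw [e2]
    rw [e1] at a6
    convert a6 using 1
    have a7 : g.toFun i - f.toFun i = lam ^ d • k i - lam • k i := a5
    linear_combination -a7
  have h2 := h1.mul (EqM.refl (d + 1) ((u⁻¹ : (FMap 2)ˣ) : FMap 2))
  rwa [mul_assoc g, u.mul_inv, mul_one] at h2

theorem I4_unit_conj {n : ℕ} (u : (FMap n)ˣ) {f : FMap n}
    (h : I4 ((u : FMap n) * f * ((u⁻¹ : (FMap n)ˣ) : FMap n))) : I4 f :=
  I4_conj (p := ((u⁻¹ : (FMap n)ˣ) : FMap n)) (p' := (u : FMap n)) u.inv_mul u.mul_inv h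

/-- scalar linear part of order four -/
theorem case_order_four {lam : ℂ} (hl : lam * lam = -1) (f : FMap 2)
    (hf : lin f = Dg lam lam) : I4 f := by
  set g : FMap 2 := linMap (Dg (-lam) (-lam)) * s0 with hgdef
  have hg : lin g = Dg lam lam := by
    rw [hgdef, lin_mul, lin_linMap, lin_s0, Dg_mul]; simp
  have h0 : lam ≠ 0 := by
    intro h; rw [h] at hl; norm_num at hl
  have h2 : lam ^ 2 = -1 := by rw [sq]; exact hl
  have hn1 : lam ≠ 1 := by
    intro h; rw [h] at hl; norm_num at hl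
  have hn2 : lam ≠ -1 := by
    intro h; rw [h] at hl; norm_num at hl
  have n2 : lam ^ 2 - lam ≠ 0 := by
    rw [h2]; intro h; apply hn2; linear_combination -h
  have n3 : lam ^ 3 - lam ≠ 0 := by
    have : lam ^ 3 - lam = -2 * lam := by rw [pow_succ, h2]; ring
    rw [this]; exact mul_ne_zero (by norm_num) h0
  have n4 : lam ^ 4 - lam ≠ 0 := by
    have : lam ^ 4 - lam = 1 - lam := by
      rw [show lam ^ 4 = (lam ^ 2) ^ 2 by ring, h2]; ring
    rw [this]; intro h; apply hn1; linear_combination -h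
  have b2 : EqM 2 f g := by
    have h1 : ∀ i, O 2 (f.toFun i - (linMap (Dg lam lam)).toFun i) := fun i => by
      rw [← hf]; exact sub_lin_O f i
    have h3 : ∀ i, O 2 (g.toFun i - (linMap (Dg lam lam)).toFun i) := fun i => by
      rw [← hg]; exact sub_lin_O g i
    exact fun i => (h1 i).trans_sub (h3 i).symm_sub
  obtain ⟨u2, k2⟩ := normal_step le_rfl n2 f g hg b2
  obtain ⟨u3, k3⟩ := normal_step (by norm_num) n3 _ g hg k2
  obtain ⟨u4, k4⟩ := normal_step (by norm_num) n4 _ g hg k3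
  apply I4_unit_conj u2
  apply I4_unit_conj u3
  apply I4_unit_conj u4
  exact VS_lift hl _ k4.symm

/-- **Two variables: four involutions suffice.** -/
theorem four_involutions_two (f : FMap 2) (hdet : (lin f).det ^ 2 = 1) : I4 f := by
  by_cases hns : ∃ c : ℂ, lin f = Dg c c
  · obtain ⟨c, hc⟩ := hns
    have hdet' : (Dg c c).det = c * c := by
      rw [Dg, Matrix.det_fin_two_of]; ring
    rw [hc, hdet'] at hdet
    have h1 : c * c = 1 ∨ c * c = -1 := by
      rw [← mul_self_eq_one_iff, ← sq]; exact hdet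
    rcases h1 with h1 | h1
    · rcases mul_self_eq_one_iff.mp h1 with h2 | h2
      · have hl : lin f = 1 := by rw [hc, h2, Dg_one]
        by_cases h4 : OV 4 (nl f)
        · exact D_case f hl h4
        · exact case_low f hl h4
      · apply case_neg_one
        rw [hc, h2]
        ext i j
        fin_cases i <;> fin_cases j <;> simp [Dg]
    · exact case_order_four h1 f hc
  · exact case_nonscalar f hdet hns

end Pool.Agent.RevMaps
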